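import Mathlib
import Pool.Agent.Lib.MP_ae5b4e_an_rat.Rational
import Pool.Agent.Lib.MP_ae5b4e_an_LAT.NDKappa
import Pool.Agent.Lib.MP_ae5b4e_an_LAT.NDMain
import Pool.Agent.Lib.MP_ae5b4e_an_LAT.NDSmooth
import Pool.Agent.Lib.MP_ae5b4e_an_SM.Export
import Pool.Agent.Lib.MP_ae5b4e_an_REG.Reg

/-!
# MP_ae5b4e_an: foliations near the unit circle with an algebraic field of projective involutions

See the hand-in `AlgebraicConic` for the idea of the proof.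
-/

noncomputable section

namespace Pool.Agent.MP_ae5b4e_an_GEN

open Real Set Filter Topology Polynomial
open scoped ContDiff
open Pool.Agent.MP_ae5b4e_an Pool.Agent.MP_ae5b4e_an_rat Pool.Agent.MP_ae5b4e_an_ND

/-- Foliations of class `C¹` near the unit circle with projective involutions on the tangent lines
that depend algebraically on the point of the circle are pencils of conics. -/
theorem circle_table (S : ℝ → ℝ → ℝ) (κ : ℝ → ℝ)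
    (halg : ∃ G : ℝ[X][X], G ≠ 0 ∧
      ∀ θ, cos (θ / 2) ≠ 0 → evalEval (tan (θ / 2)) (κ θ) G = 0)
    (hsmooth : ContDiffOn ℝ 1 (fun q : ℝ × ℝ => S q.1 q.2) (Ioo 0 1 ×ˢ univ))
    (hpos : ∀ c ∈ Ioo (0:ℝ) 1, ∀ θ, 0 < S c θ)
    (hper : ∀ c ∈ Ioo (0:ℝ) 1, ∀ θ, S c (θ + 2 * π) = S c θ)
    (hmono : ∀ c ∈ Ioo (0:ℝ) 1, ∀ θ, 0 < deriv (fun t => S t θ) c)
    (hlim : ∀ θ, Tendsto (fun c => S c θ) (𝓝[>] 0) (𝓝 0))
    (hproj : ∀ c ∈ Ioo (0:ℝ) 1, ∀ θ s s', s < 0 → 0 < s' → tangentPoint θ s ∈ leaf S c →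
      tangentPoint θ s' ∈ leaf S c → s⁻¹ + s'⁻¹ = κ θ) :
    ∃ a₁ b₁ d₁ a₂ b₂ d₂ : ℝ, 0 < d₁ ∧ a₁ ^ 2 + b₁ ^ 2 < d₁ ^ 2 ∧ 0 < d₂ ∧
      a₂ ^ 2 + b₂ ^ 2 < d₂ ^ 2 ∧ ∀ c ∈ Ioo (0:ℝ) 1, ∃ l : ℝ, 0 < l ∧
      (∀ x y : ℝ, (x, y) ≠ (0, 0) →
        (a₁ * x + b₁ * y) * (a₂ * x + b₂ * y) < l * (x ^ 2 + y ^ 2)) ∧
      leaf S c = {z : ℝ × ℝ | (a₁ * z.1 + b₁ * z.2 + d₁) * (a₂ * z.1 + b₂ * z.2 + d₂) =
        l * (z.1 ^ 2 + z.2 ^ 2 - 1)} := by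
  have h : LFam (fun c θ => (S c θ)⁻¹) κ := lfam_of hsmooth hpos hper hmono hlim hproj
  obtain ⟨G, hG, hrel⟩ := halg
  -- the field of involutions is real-analytic
  obtain ⟨E, hE, hsing⟩ := Pool.Agent.MP_ae5b4e_an_REG.finite_exc h.continuous_κ h.κ_per hG hrel
  have han : ∀ x, AnalyticAt ℝ κ x :=
    Pool.Agent.MP_ae5b4e_an_REG.analytic_of_finite h hE hsing
  have hκ : ContDiff ℝ ∞ κ := contDiff_iff_contDiffAt.2 fun x => (han x).contDiffAt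
  -- the first integral near the diagonal
  obtain ⟨x₀, kc, hkc, hkcr⟩ := Pool.Agent.MP_ae5b4e_an_SM.good_of_lfam h han
  have hkcr' : ∀ᶠ x : ℝ in 𝓝 x₀, kc (x : ℂ) = (kr κ x : ℂ) := hkcr
  obtain ⟨G', hG', hrel'⟩ := alg_local hG (x₀ := x₀) (by
    refine Eventually.of_forall fun x => ?_
    have h1 : cos (2 * arctan x / 2) ≠ 0 := by
      rw [mul_div_cancel_left₀ _ (two_ne_zero)]
      exact (cos_arctan_pos x).ne'
    have h2 := hrel (2 * arctan x) h1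
    rw [mul_div_cancel_left₀ _ (two_ne_zero), tan_arctan] at h2
    exact h2) hkc.1 hkcr'
  obtain ⟨A₁, B₁, hB₁, hAB⟩ := nd_main hkc hG' hrel'
  obtain ⟨A', B', hB', hrat⟩ := rational_of_local_smooth hκ h.κ_per hG hrel hB₁ hkcr' hAB
  exact rationalConic S κ A' B' hB' hrat hsmooth hpos hper hmono hlim hproj

end Pool.Agent.MP_ae5b4e_an_GEN
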