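import Mathlib
import Pool.Agent.Lib.MP_ae5b4e_an_LAT.NDGood
import Pool.Agent.Lib.MP_ae5b4e_an_FLEX.Defs
import Pool.Agent.Lib.MP_ae5b4e_an_ALG.DefsB

/-!
# MP_ae5b4e_an, project GEN: definitions

Nonsingular algebraic curves with an algebraic field of projective involutions.
-/

noncomputable section

namespace Pool.Agent.MP_ae5b4e_an_GEN

open Filter Topology
open scoped Polynomial
open Pool.Agent.MP_ae5b4e_an_ND (cf Dx Dy Reg)
open Pool.Agent.MP_ae5b4e_an_FLEX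

/-! ### places where the field of involutions has a pole of order `l + 1 ≥ 2` -/

/-- The kick near a place `x = 0` where the field of involutions has a pole of order `l + 1`:
`Yf (x, y) = x ^ (l + 1) A (x, y / x ^ (l + 1))`. -/
structure PlaceK (l : ℕ) (Yf A : ℂ × ℂ → ℂ) (δ : ℝ) : Prop where
  δ_pos : 0 < δ
  A_ana : ∀ x η : ℂ, ‖x‖ < δ → ‖η‖ < δ → AnalyticAt ℂ A (x, η)
  A_zero : ∀ x : ℂ, ‖x‖ < δ → A (x, 0) = 0
  A_der : ∀ x : ℂ, ‖x‖ < δ → deriv (fun η => A (x, η)) 0 = 1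
  good : ∀ x : ℂ, x ≠ 0 → ‖x‖ < δ → GoodY Yf x
  eq : ∀ x : ℂ, x ≠ 0 → ‖x‖ < δ →
    ∀ᶠ p in 𝓝 ((x, 0) : ℂ × ℂ), Yf p = p.1 ^ (l + 1) * A (p.1, p.2 / p.1 ^ (l + 1))

/-- The total derivative of `Yf` along the foliation, in the coordinates `x = w`,
`η = y / x ^ (l + 1)`. -/
def VK (l : ℕ) (A : ℂ × ℂ → ℂ) (b : ℕ → ℂ → ℂ) (w η : ℂ) : ℂ :=
  w ^ l * ((l + 1) * A (w, η) + w * Dx A (w, η) - (l + 1) * η * Dy A (w, η)) +
    bs b w η * Dy A (w, η)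

/-- The invariance of the slope, in the coordinates `x = w`, `η = y / x ^ (l + 1)`. -/
def FIK (l : ℕ) (A : ℂ × ℂ → ℂ) (b : ℕ → ℂ → ℂ) (w η : ℂ) : Prop :=
  bs b (w * (1 - w ^ l * A (w, η))) (A (w, η) / (1 - w ^ l * A (w, η)) ^ (l + 1)) *
    (1 - VK l A b w η) = VK l A b w η

/-- The slope coefficients at a place, with bounds. -/
structure SerK (l : ℕ) (Yf A : ℂ × ℂ → ℂ) (δ C : ℝ) (b : ℕ → ℂ → ℂ) : Prop where
  place : PlaceK l Yf A δ
  C_pos : 0 < C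
  b_diff : ∀ n, DifferentiableOn ℂ (b n) (Metric.ball 0 δ)
  b_zero : ∀ w, b 0 w = 0
  b_one : ∀ w, ‖w‖ < δ → b 1 w = -cf (fun η => A (w, η)) 2
  b_eq : ∀ n w, w ≠ 0 → ‖w‖ < δ → slopeY (Pc Yf) n w = b n w / w ^ ((l + 1) * n)
  b_bound : ∀ n w, ‖w‖ < δ → ‖b n w‖ ≤ C ^ n

/-! ### the homogeneous equations -/

/-- The kernel of a place: `m (w, η)` is `1 / (w u)`, where `u` is the coordinate, on the tangent
line at the parameter `w`, of its intersection with the tangent line at `w (1 + η)`. -/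
structure Kern (a b : ℕ) (X Y : ℂ → ℂ) (m : ℂ × ℂ → ℂ) : Prop where
  ana : AnalyticAt ℂ m (0, 0)
  zero : ∀ᶠ w in 𝓝 (0:ℂ), m (w, 0) = 0
  der : deriv (fun η => m (0, η)) 0 = 1 / 2
  eq : ∀ᶠ p in 𝓝 ((0, 0) : ℂ × ℂ),
    brN X Y p.1 (p.1 + p.1 * p.2) = p.1 * m p * brD X Y p.1 (p.1 + p.1 * p.2) ∧
      (p.1 ≠ 0 → p.2 ≠ 0 → brD X Y p.1 (p.1 + p.1 * p.2) ≠ 0)
  hom : ∀ᶠ η in 𝓝 (0:ℂ), (a * b * ((1 + η) ^ (b - a) - 1)) * m (0, η) =
    Pool.Agent.MP_ae5b4e_an_ALG.Dh a b η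

/-- The data at the special parameter `w = 0`, where the field of involutions has the residue `c`:
`A0 η = A (0, η)` is the kick of the homogeneous curve and `Q` is the slope. -/
structure Germ (a b : ℕ) (c : ℂ) (m0 A0 Q : ℂ → ℂ) : Prop where
  m_ana : AnalyticAt ℂ m0 0
  m_zero : m0 0 = 0
  m_der : deriv m0 0 = 1 / 2
  m_hom : ∀ᶠ η in 𝓝 (0:ℂ), (a * b * ((1 + η) ^ (b - a) - 1)) * m0 η =
    Pool.Agent.MP_ae5b4e_an_ALG.Dh a b η
  A_ana : AnalyticAt ℂ A0 0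
  A_zero : A0 0 = 0
  A_der : deriv A0 0 = 1
  kick : ∀ᶠ η in 𝓝 (0:ℂ), m0 (-A0 η) * (c * m0 η - 1) = m0 η
  Q_ana : AnalyticAt ℂ Q 0
  Q_zero : Q 0 = 0
  Q_der : deriv Q 0 = -deriv (deriv A0) 0 / 2
  fi : ∀ᶠ η in 𝓝 (0:ℂ), Q (A0 η / (1 - A0 η)) * (1 - (A0 η + (Q η - η) * deriv A0 η)) =
    A0 η + (Q η - η) * deriv A0 η

/-- The local bound `β` for the places of type `(a, b)`. -/
def LBd (a b : ℕ) (β : ℝ) : Prop :=
  ∀ m : ℕ, 0 < m → ∀ (c : ℂ) (m0 A0 Q : ℂ → ℂ), Germ (a * m) (b * m) c m0 A0 Q →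
    (((a : ℂ) + b) / 3 + c / (2 * m)).re ≤ β

/-- The logarithmic derivative of the first integral on a tangent line of the homogeneous curve,
`U` is an affine coordinate centred at the centre of the involution, `M U` is the coordinate of the
image under the map of consecutive tangent lines, `r U` the quotient of the two parameters. -/
structure Psi (D : ℂ) (r M : ℂ → ℂ) (R : ℝ) (psi : ℂ → ℂ) : Prop where
  R_pos : 0 < R
  diff : ∀ U : ℂ, R < ‖U‖ → DifferentiableAt ℂ psi U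
  odd : ∀ U : ℂ, R < ‖U‖ → psi (-U) = -psi U
  eq : ∀ U : ℂ, R < ‖U‖ → R < ‖M U‖ →
    psi U = D * (deriv r U / r U) + deriv M U * psi (M U)
  inf : Tendsto (fun U => U * psi U) (Bornology.cobounded ℂ) (𝓝 (-1))

/-! ### nonsingular curves in the complex projective plane -/

/-- the Hessian determinant of a polynomial in three variables -/
def hess (P : MvPolynomial (Fin 3) ℂ) : MvPolynomial (Fin 3) ℂ :=
  (Matrix.of fun i j : Fin 3 => MvPolynomial.pderiv i (MvPolynomial.pderiv j P)).det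

/-- `P = 0` is a nonsingular curve of degree `n` in the complex projective plane. -/
structure SmoothCurve (P : MvPolynomial (Fin 3) ℂ) (n : ℕ) : Prop where
  hom : P.IsHomogeneous n
  ns : ∀ v : Fin 3 → ℂ, v ≠ 0 → MvPolynomial.eval v P = 0 →
    ∃ i, MvPolynomial.eval v (MvPolynomial.pderiv i P) ≠ 0

/-- All flexes of the curve `P = 0` in the complex projective plane are ordinary: the Hessian
curve meets it transversally. -/
def OrdFlex (P : MvPolynomial (Fin 3) ℂ) : Prop :=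
  ∀ v : Fin 3 → ℂ, v ≠ 0 → MvPolynomial.eval v P = 0 → MvPolynomial.eval v (hess P) = 0 →
    ∀ a : ℂ, ∃ i, MvPolynomial.eval v (MvPolynomial.pderiv i (hess P)) ≠
      a * MvPolynomial.eval v (MvPolynomial.pderiv i P)

/-- The derivative of `log (hess P)` with respect to the first affine coordinate, along the
curve, at the point `(z, η)`. -/
def dlh (P : MvPolynomial (Fin 3) ℂ) (z η : ℂ) : ℂ :=
  (MvPolynomial.eval ![z, η, 1] (MvPolynomial.pderiv 0 (hess P)) *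
      MvPolynomial.eval ![z, η, 1] (MvPolynomial.pderiv 1 P) -
    MvPolynomial.eval ![z, η, 1] (MvPolynomial.pderiv 1 (hess P)) *
      MvPolynomial.eval ![z, η, 1] (MvPolynomial.pderiv 0 P)) /
  (MvPolynomial.eval ![z, η, 1] (MvPolynomial.pderiv 1 P) *
    MvPolynomial.eval ![z, η, 1] (hess P))

/-! ### pairs of branches -/

/-- `(η, κ)` are the values at `z` of a pair of branches of `m₁`, `m₂`, for which the nearby points
are good. -/
def GP (m₁ m₂ : ℂ[X][X]) (z η κ : ℂ) : Prop :=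
  ∃ y k : ℂ → ℂ, AnalyticAt ℂ y z ∧ AnalyticAt ℂ k z ∧ y z = η ∧ k z = κ ∧
    (∀ᶠ x in 𝓝 z, Polynomial.evalEval x (y x) m₁ = 0) ∧
    (∀ᶠ x in 𝓝 z, Polynomial.evalEval x (k x) m₂ = 0) ∧
    ∀ᶠ s in 𝓝[≠] z, GoodG (fun x => x) y k s

/-- Local constancy of `G` along the pairs of branches, outside of the set `S`, which contains all
singular points of `m₁`, `m₂`. -/
def LocG (m₁ m₂ : ℂ[X][X]) (S : Set ℂ) (G : ℂ → ℂ → ℂ → Prop) : Prop :=
  ∀ z ∉ S, Reg m₁ z ∧ Reg m₂ z ∧ ∀ y k : ℂ → ℂ, AnalyticAt ℂ y z → AnalyticAt ℂ k z →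
    (∀ᶠ x in 𝓝 z, Polynomial.evalEval x (y x) m₁ = 0) →
    (∀ᶠ x in 𝓝 z, Polynomial.evalEval x (k x) m₂ = 0) →
    ∀ᶠ x in 𝓝 z, (G x (y x) (k x) ↔ G z (y z) (k z))

/-- The covering of the pairs of branches over `x = X w`, near `w = 0`; `Gs` is the set of the
pairs which belong to `G`. -/
structure Cov (m₁ m₂ : ℂ[X][X]) (G : ℂ → ℂ → ℂ → Prop) (X : ℂ → ℂ)
    (Y : Fin m₁.natDegree → ℂ → ℂ) (k : Fin m₂.natDegree → ℂ → ℂ)
    (Gs : Finset (Fin m₁.natDegree × Fin m₂.natDegree)) : Prop where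
  merY : ∀ i, MeromorphicAt (Y i) 0
  merk : ∀ j, MeromorphicAt (k j) 0
  root₁ : ∀ᶠ w in 𝓝[≠] (0:ℂ), Function.Injective (fun i => Y i w) ∧
    ∀ t, Polynomial.evalEval (X w) t m₁ = 0 ↔ ∃ i, t = Y i w
  root₂ : ∀ᶠ w in 𝓝[≠] (0:ℂ), Function.Injective (fun j => k j w) ∧
    ∀ t, Polynomial.evalEval (X w) t m₂ = 0 ↔ ∃ j, t = k j w
  mem : ∀ᶠ w in 𝓝[≠] (0:ℂ), ∀ i j, G (X w) (Y i w) (k j w) ↔ (i, j) ∈ Gs

/-- A place of the pair of algebraic functions: `(X w, Y w, k w)`, all punctured points near `0`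
belong to `G`. -/
structure PairPlace (m₁ m₂ : ℂ[X][X]) (G : ℂ → ℂ → ℂ → Prop) (X Y k : ℂ → ℂ) : Prop where
  merY : MeromorphicAt Y 0
  merk : MeromorphicAt k 0
  root₁ : ∀ᶠ w in 𝓝[≠] (0:ℂ), Polynomial.evalEval (X w) (Y w) m₁ = 0
  root₂ : ∀ᶠ w in 𝓝[≠] (0:ℂ), Polynomial.evalEval (X w) (k w) m₂ = 0
  mem : ∀ᶠ w in 𝓝[≠] (0:ℂ), G (X w) (Y w) (k w)

end Pool.Agent.MP_ae5b4e_an_GEN
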