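import Mathlib
import Pool.Agent.Lib.MP_ae5b4e_an_GEN.Defs

/-!
# MP_ae5b4e_an, project GEN, module R1: continuous algebraic fields are analytic
-/

noncomputable section

namespace Pool.Agent.MP_ae5b4e_an_GEN

open Filter Topology Set Metric
open scoped Polynomial
open Polynomial (evalEval)
open Pool.Agent.MP_ae5b4e_an_ND (cc cf co Dx Dy Filt Reg rts)
open Pool.Agent.MP_ae5b4e_an_FLEX
open Pool.Agent.MP_ae5b4e_an_ALG (Dh)

namespace KappaAn

open Polynomial
open scoped ContDiff nonZeroDivisors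

private lemma exc_bezout {G : ℝ[X][X]} (hG : G ≠ 0) :
    ∃ (P A B H : ℝ[X][X]) (c d : ℝ[X]) (N : ℕ), c ≠ 0 ∧ d ≠ 0 ∧
      C c * P ^ N = H * G ∧ A * P + B * P.derivative = C d := by
  classical
  let K := FractionRing ℝ[X]
  have hinj : Function.Injective (algebraMap ℝ[X] K) := IsFractionRing.injective _ _
  have hinj' : Function.Injective (Polynomial.map (algebraMap ℝ[X] K)) :=
    Polynomial.map_injective _ hinj
  have hGk : G.map (algebraMap ℝ[X] K) ≠ 0 := by
    intro h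
    apply hG
    apply hinj'
    rw [h, Polynomial.map_zero]
  have : CharZero K := by
    refine ⟨fun m n h => ?_⟩
    have h1 : (algebraMap ℝ[X] K) (m : ℝ[X]) = (algebraMap ℝ[X] K) (n : ℝ[X]) := by
      simpa using h
    exact_mod_cast hinj h1
  obtain ⟨R, N, hsq, -, hdvd⟩ := exists_squarefree_dvd_pow_of_ne_zero hGk
  have hsep : R.Separable := PerfectField.separable_iff_squarefree.2 hsq
  obtain ⟨A0, B0, hAB⟩ := hsep
  obtain ⟨H0, hH⟩ := hdvd
  obtain ⟨b, hb, hP⟩ := IsLocalization.integerNormalization_spec (ℝ[X]⁰) R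
  obtain ⟨a1, ha1, hA⟩ := IsLocalization.integerNormalization_spec (ℝ[X]⁰) A0
  obtain ⟨b1, hb1, hB⟩ := IsLocalization.integerNormalization_spec (ℝ[X]⁰) B0
  obtain ⟨h1, hh1, hHH⟩ := IsLocalization.integerNormalization_spec (ℝ[X]⁰) H0
  set P := IsLocalization.integerNormalization (ℝ[X]⁰) R with hPdef
  set A := IsLocalization.integerNormalization (ℝ[X]⁰) A0 with hAdef
  set B := IsLocalization.integerNormalization (ℝ[X]⁰) B0 with hBdef
  set H := IsLocalization.integerNormalization (ℝ[X]⁰) H0 with hHdef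
  have hs : ∀ (a : ℝ[X]) (Q : K[X]), a • Q = C (algebraMap ℝ[X] K a) * Q := by
    intro a Q
    rw [← Polynomial.smul_eq_C_mul, algebraMap_smul]
  have hP' : P.map (algebraMap ℝ[X] K) = C (algebraMap ℝ[X] K b) * R := by rw [hP, hs]
  have hA' : A.map (algebraMap ℝ[X] K) = C (algebraMap ℝ[X] K a1) * A0 := by rw [hA, hs]
  have hB' : B.map (algebraMap ℝ[X] K) = C (algebraMap ℝ[X] K b1) * B0 := by rw [hB, hs]
  have hH' : H.map (algebraMap ℝ[X] K) = C (algebraMap ℝ[X] K h1) * H0 := by rw [hHH, hs]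
  have hPd : P.derivative.map (algebraMap ℝ[X] K)
      = C (algebraMap ℝ[X] K b) * R.derivative := by
    rw [← Polynomial.derivative_map, hP', Polynomial.derivative_C_mul]
  refine ⟨P, C b1 * A, C a1 * B, C (b ^ N) * H, h1, a1 * b1 * b, N,
    nonZeroDivisors.ne_zero hh1, ?_, ?_, ?_⟩
  · exact mul_ne_zero (mul_ne_zero (nonZeroDivisors.ne_zero ha1) (nonZeroDivisors.ne_zero hb1))
      (nonZeroDivisors.ne_zero hb)
  · apply hinj'
    simp only [Polynomial.map_mul, Polynomial.map_pow, Polynomial.map_C, hP', hH', mul_pow, hH,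
      map_pow]
    ring
  · apply hinj'
    simp only [Polynomial.map_mul, Polynomial.map_add, Polynomial.map_C, hP', hA', hB', hPd,
      map_mul]
    linear_combination (C (algebraMap ℝ[X] K a1) * C (algebraMap ℝ[X] K b1)
      * C (algebraMap ℝ[X] K b)) * hAB

private lemma exc_contDiff_eval {n : WithTop ℕ∞} (p : ℝ[X]) :
    ContDiff ℝ n (fun x : ℝ => p.eval x) := by
  have : (fun x : ℝ => p.eval x)
      = fun x => ∑ i ∈ Finset.range (p.natDegree + 1), p.coeff i * x ^ i := by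
    funext x
    rw [Polynomial.eval_eq_sum_range]
  rw [this]
  exact ContDiff.sum fun i _ => contDiff_const.mul (contDiff_id.pow i)

private lemma exc_evalEval_eq_sum (x y : ℝ) (Q : ℝ[X][X]) :
    evalEval x y Q = ∑ j ∈ Finset.range (Q.natDegree + 1), (Q.coeff j).eval x * y ^ j := by
  rw [← eval₂_evalRingHom, eval₂_eq_sum_range]
  simp

private lemma exc_contDiff {n : WithTop ℕ∞} (Q : ℝ[X][X]) :
    ContDiff ℝ n (fun q : ℝ × ℝ => evalEval q.1 q.2 Q) := by
  have : (fun q : ℝ × ℝ => evalEval q.1 q.2 Q)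
      = fun q => ∑ j ∈ Finset.range (Q.natDegree + 1), (Q.coeff j).eval q.1 * q.2 ^ j := by
    funext q
    rw [exc_evalEval_eq_sum]
  rw [this]
  exact ContDiff.sum fun i _ => ((exc_contDiff_eval _).comp contDiff_fst).mul (contDiff_snd.pow i)

private lemma exc_evalEval_C (x : ℝ) (y : ℝ) (p : ℝ[X]) : evalEval x y (C p) = p.eval x := by
  simp [evalEval]

private lemma exc_implicit {F : ℝ × ℝ → ℝ} {x₀ : ℝ} (hF : ContDiff ℝ ω F) (h0 : F (x₀, 0) = 0)
    {u : ℝ} (hu : u ≠ 0) (hd : HasDerivAt (fun w => F (x₀, w)) u 0)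
    {w : ℝ → ℝ} (hw : ContinuousAt w x₀) (hw0 : w x₀ = 0)
    (hrel : ∀ᶠ x in 𝓝 x₀, F (x, w x) = 0) : ContDiffAt ℝ ω w x₀ := by
  set a : ℝ × ℝ := (x₀, 0) with ha
  have hFd : HasFDerivAt F (fderiv ℝ F a) a :=
    (hF.differentiable (by simp)).differentiableAt.hasFDerivAt
  set F' := fderiv ℝ F a with hF'
  set α : ℝ := F' (1, 0) with hα
  have hβ : F' (0, 1) = u := by
    have h1 : HasDerivAt (fun w : ℝ => ((x₀, w) : ℝ × ℝ)) (0, 1) 0 :=
      (hasDerivAt_const _ _).prodMk (hasDerivAt_id _)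
    have h2 : HasDerivAt (fun w : ℝ => F (x₀, w)) (F' (0, 1)) 0 :=
      HasFDerivAt.comp_hasDerivAt (0:ℝ) (by simpa [ha] using hFd) h1
    exact h2.unique hd
  have hval : ∀ p : ℝ × ℝ, F' p = α * p.1 + u * p.2 := by
    intro p
    have : p = p.1 • ((1:ℝ), (0:ℝ)) + p.2 • ((0:ℝ), (1:ℝ)) := by
      ext <;> simp
    rw [this, map_add, map_smul, map_smul, hβ, ← hα]
    simp
    ring
  set f1 : ℝ × ℝ →L[ℝ] ℝ × ℝ := (ContinuousLinearMap.fst ℝ ℝ ℝ).prod F' with hf1
  set f2 : ℝ × ℝ →L[ℝ] ℝ × ℝ := (ContinuousLinearMap.fst ℝ ℝ ℝ).prod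
    (u⁻¹ • (ContinuousLinearMap.snd ℝ ℝ ℝ - α • ContinuousLinearMap.fst ℝ ℝ ℝ)) with hf2
  set e : (ℝ × ℝ) ≃L[ℝ] (ℝ × ℝ) := ContinuousLinearEquiv.equivOfInverse f1 f2
    (by
      intro p
      ext
      · simp [hf1, hf2]
      · simp [hf1, hf2, hval]
        field_simp)
    (by
      intro p
      ext
      · simp [hf1, hf2]
      · simp [hf1, hf2, hval]
        field_simp
        ring) with he
  set Φ : ℝ × ℝ → ℝ × ℝ := fun p => (p.1, F p) with hΦ
  have hΦc : ContDiffAt ℝ ω Φ a := contDiffAt_fst.prodMk hF.contDiffAt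
  have hΦd : HasFDerivAt Φ (e : ℝ × ℝ →L[ℝ] ℝ × ℝ) a := hasFDerivAt_fst.prodMk hFd
  have hω : (ω : WithTop ℕ∞) ≠ 0 := by simp
  set ψ := hΦc.localInverse hΦd hω with hψ
  have hψs : ContDiffAt ℝ ω ψ (Φ a) := hΦc.to_localInverse hΦd hω
  have hstrict : HasStrictFDerivAt Φ (e : ℝ × ℝ →L[ℝ] ℝ × ℝ) a := hΦc.hasStrictFDerivAt' hΦd hω
  have hleft : ∀ᶠ p in 𝓝 a, ψ (Φ p) = p := hstrict.eventually_left_inverse
  have hΦa : Φ a = (x₀, 0) := by
    ext
    · simp [hΦ, ha]
    · exact h0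
  have ht : Tendsto (fun x => (x, w x)) (𝓝 x₀) (𝓝 a) := by
    have := (continuousAt_id.prodMk hw).tendsto
    simp only [id, hw0] at this
    exact this
  have hform : w =ᶠ[𝓝 x₀] fun x => (ψ (x, 0)).2 := by
    filter_upwards [ht.eventually hleft, hrel] with x h1 h2
    have h3 : Φ (x, w x) = (x, 0) := by simp [hΦ, h2]
    rw [h3] at h1
    rw [h1]
  refine ContDiffAt.congr_of_eventuallyEq ?_ hform
  have hψ' : ContDiffAt ℝ ω ψ (x₀, 0) := by rw [← hΦa]; exact hψs
  exact contDiffAt_snd.comp x₀ (hψ'.comp x₀ (contDiffAt_id.prodMk contDiffAt_const))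


private lemma exc_hasDerivAt (x₀ y₀ : ℝ) (P : ℝ[X][X]) :
    HasDerivAt (fun w : ℝ => evalEval x₀ (y₀ + w) P) (evalEval x₀ y₀ P.derivative) 0 := by
  have h1 : ∀ (Q : ℝ[X][X]) (y : ℝ), evalEval x₀ y Q = (Q.map (evalRingHom x₀)).eval y := by
    intro Q y
    rw [← eval₂_evalRingHom, eval_map]
  have h2 : HasDerivAt (fun w : ℝ => (P.map (evalRingHom x₀)).eval (y₀ + w))
      ((P.map (evalRingHom x₀)).derivative.eval (y₀ + 0) * 1) 0 := by
    have h3 : HasDerivAt (fun w : ℝ => y₀ + w) 1 0 := (hasDerivAt_id (0:ℝ)).const_add y₀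
    exact ((P.map (evalRingHom x₀)).hasDerivAt (y₀ + 0)).comp (0:ℝ) h3
  rw [h1, ← derivative_map]
  simp only [h1]
  simpa using h2


/-- the zeros of `x - e` near `t₀` are isolated -/
theorem ne_of_not_const {x : ℝ → ℝ} {t₀ : ℝ} (hx : AnalyticAt ℝ x t₀)
    (hx' : ¬ ∀ᶠ t in 𝓝 t₀, deriv x t = 0) (e : ℝ) : ∀ᶠ t in 𝓝[≠] t₀, x t ≠ e := by
  have h1 : AnalyticAt ℝ (fun t => x t - e) t₀ := hx.sub analyticAt_const
  rcases h1.eventually_eq_zero_or_eventually_ne_zero with h2 | h2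
  · exfalso
    apply hx'
    have h3 : x =ᶠ[𝓝 t₀] fun _ => e := by
      filter_upwards [h2] with t ht
      linarith
    filter_upwards [h3.eventuallyEq_nhds] with t ht
    rw [ht.deriv_eq]
    simp
  · filter_upwards [h2] with t ht h3
    exact ht (by rw [h3, sub_self])

theorem deriv_ne {x : ℝ → ℝ} {t₀ : ℝ} (hx : AnalyticAt ℝ x t₀)
    (hx' : ¬ ∀ᶠ t in 𝓝 t₀, deriv x t = 0) : ∀ᶠ t in 𝓝[≠] t₀, deriv x t ≠ 0 := by
  rcases hx.deriv.eventually_eq_zero_or_eventually_ne_zero with h2 | h2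
  · exact absurd h2 hx'
  · exact h2

theorem eval_ne {x : ℝ → ℝ} {t₀ : ℝ} (hx : AnalyticAt ℝ x t₀)
    (hx' : ¬ ∀ᶠ t in 𝓝 t₀, deriv x t = 0) {c : ℝ[X]} (hc : c ≠ 0) :
    ∀ᶠ t in 𝓝[≠] t₀, c.eval (x t) ≠ 0 := by
  have h1 : ∀ᶠ t in 𝓝[≠] t₀, ∀ e ∈ c.roots.toFinset, x t ≠ e :=
    (Filter.eventually_all_finset _).2 fun e _ => ne_of_not_const hx hx' e
  filter_upwards [h1] with t ht h0
  exact ht (x t) (by rw [Multiset.mem_toFinset]; exact (mem_roots hc).2 h0) rfl

end KappaAn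

open KappaAn in
open Polynomial in
open scoped ContDiff in
/-- A continuous algebraic field is analytic outside of isolated points. -/
theorem kappa_analytic {x κ : ℝ → ℝ} {t₀ : ℝ} (hx : ∀ t, AnalyticAt ℝ x t)
    (hx' : ¬ ∀ᶠ t in 𝓝 t₀, deriv x t = 0) (hκ : Continuous κ) {G : ℝ[X][X]} (hG : G ≠ 0)
    (hrel : ∀ t, deriv x t ≠ 0 → evalEval (x t) (κ t / deriv x t) G = 0) :
    ∀ᶠ t in 𝓝[≠] t₀, AnalyticAt ℝ κ t ∧ deriv x t ≠ 0 := by
  obtain ⟨P, A, B, H, c, d, N, hc, hd, hcP, hAB⟩ := exc_bezout hG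
  set g : ℝ → ℝ := fun t => κ t / deriv x t with hg
  have hdc : Continuous (deriv x) := continuous_iff_continuousAt.2 fun t => (hx t).deriv.continuousAt
  have hxc : Continuous x := continuous_iff_continuousAt.2 fun t => (hx t).continuousAt
  have hgP : ∀ t, deriv x t ≠ 0 → c.eval (x t) ≠ 0 → evalEval (x t) (g t) P = 0 := by
    intro t ht hct
    have h3 := congrArg (evalEvalRingHom (x t) (g t)) hcP
    simp only [map_mul, map_pow, coe_evalEvalRingHom, exc_evalEval_C] at h3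
    rw [show evalEval (x t) (g t) G = 0 from hrel t ht, mul_zero] at h3
    rcases mul_eq_zero.1 h3 with h4 | h4
    · exact absurd h4 hct
    · exact eq_zero_of_pow_eq_zero h4
  have hgd : ∀ t, deriv x t ≠ 0 → c.eval (x t) ≠ 0 → d.eval (x t) ≠ 0 →
      evalEval (x t) (g t) P.derivative ≠ 0 := by
    intro t ht h1 h2 h0
    have h4 := congrArg (evalEvalRingHom (x t) (g t)) hAB
    simp only [map_mul, map_add, coe_evalEvalRingHom, exc_evalEval_C, hgP t ht h1, h0, mul_zero,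
      zero_add] at h4
    exact h2 h4.symm
  filter_upwards [deriv_ne (hx t₀) hx', eval_ne (hx t₀) hx' hc, eval_ne (hx t₀) hx' hd]
    with s hs hcs hds
  refine ⟨?_, hs⟩
  have hgc : ContinuousAt g s := hκ.continuousAt.div hdc.continuousAt hs
  have hgω : ContDiffAt ℝ ω g s := by
    set w : ℝ → ℝ := fun t => g t - g s with hw
    set F : ℝ × ℝ → ℝ := fun q => evalEval (x q.1) (g s + q.2) P with hF
    have hxω : ContDiff ℝ ω x := contDiff_iff_contDiffAt.2 fun t => (hx t).contDiffAt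
    have hFc : ContDiff ℝ ω F :=
      (exc_contDiff (n := ω) P).comp
        ((hxω.comp contDiff_fst).prodMk (contDiff_const.add contDiff_snd) :
          ContDiff ℝ ω (fun q : ℝ × ℝ => (x q.1, g s + q.2)))
    have hwω : ContDiffAt ℝ ω w s := by
      refine exc_implicit hFc ?_ (hgd s hs hcs hds) (exc_hasDerivAt (x s) (g s) P) ?_ ?_ ?_
      · change evalEval (x s) (g s + 0) P = 0
        rw [add_zero]
        exact hgP s hs hcs
      · exact hgc.sub continuousAt_const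
      · exact sub_self _
      · have h3 : ∀ᶠ t in 𝓝 s, c.eval (x t) ≠ 0 :=
          (c.continuous.comp hxc).continuousAt.eventually_ne hcs
        have h4 : ∀ᶠ t in 𝓝 s, deriv x t ≠ 0 := hdc.continuousAt.eventually_ne hs
        filter_upwards [h3, h4] with t ht ht'
        change evalEval (x t) (g s + (g t - g s)) P = 0
        rw [add_sub_cancel]
        exact hgP t ht' ht
    have h3 : g = fun t => w t + g s := by
      funext t
      simp [hw]
    rw [h3]
    exact hwω.add contDiffAt_const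
  have h5 : AnalyticAt ℝ (fun t => g t * deriv x t) s := hgω.analyticAt.mul (hx s).deriv
  refine h5.congr ?_
  filter_upwards [hdc.continuousAt.eventually_ne hs] with t ht
  simp only [hg]
  field_simp

end Pool.Agent.MP_ae5b4e_an_GEN
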