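import Mathlib
import Pool.Agent.Lib.MP_ae5b4e_an_GEN.Defs

/-!
# MP_ae5b4e_an, project GEN: evaluation of polynomials in three variables
-/

noncomputable section

namespace Pool.Agent.MP_ae5b4e_an_GEN

open Filter Topology Set Metric
open scoped Polynomial
open Polynomial (evalEval)
open Pool.Agent.MP_ae5b4e_an_ND (cc cf co Dx Dy Filt Reg rts)
open Pool.Agent.MP_ae5b4e_an_FLEX
open Pool.Agent.MP_ae5b4e_an_ALG (Dh)

open MvPolynomial in
theorem analyticAt_eval3 {v : ℂ → Fin 3 → ℂ} {w : ℂ} (hv : ∀ i, AnalyticAt ℂ (fun w => v w i) w)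
    (P : MvPolynomial (Fin 3) ℂ) : AnalyticAt ℂ (fun w => eval (v w) P) w := by
  induction P using MvPolynomial.induction_on with
  | C a =>
    simp only [eval_C]
    exact analyticAt_const
  | add p q hp hq =>
    simp only [map_add]
    exact hp.add hq
  | mul_X p i hp =>
    simp only [map_mul, eval_X]
    exact hp.mul (hv i)

open MvPolynomial in
theorem analyticAt_eval3_two {v : ℂ × ℂ → Fin 3 → ℂ} {p : ℂ × ℂ}
    (hv : ∀ i, AnalyticAt ℂ (fun w => v w i) p)
    (P : MvPolynomial (Fin 3) ℂ) : AnalyticAt ℂ (fun w => eval (v w) P) p := by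
  induction P using MvPolynomial.induction_on with
  | C a =>
    simp only [eval_C]
    exact analyticAt_const
  | add p q hp hq =>
    simp only [map_add]
    exact hp.add hq
  | mul_X p i hp =>
    simp only [map_mul, eval_X]
    exact hp.mul (hv i)

open MvPolynomial in
theorem hasDerivAt_eval3 {v : ℂ → Fin 3 → ℂ} {v' : Fin 3 → ℂ} {w : ℂ}
    (hv : ∀ i, HasDerivAt (fun w => v w i) (v' i) w) (P : MvPolynomial (Fin 3) ℂ) :
    HasDerivAt (fun w => eval (v w) P) (∑ i, v' i * eval (v w) (pderiv i P)) w := by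
  induction P using MvPolynomial.induction_on with
  | C a =>
    simp only [eval_C, pderiv_C, map_zero, mul_zero, Finset.sum_const_zero]
    exact hasDerivAt_const _ _
  | add p q hp hq =>
    simp only [map_add, mul_add, Finset.sum_add_distrib]
    exact hp.add hq
  | mul_X p i hp =>
    have h := hp.mul (hv i)
    simp only [map_mul, eval_X]
    refine h.congr_deriv ?_
    simp only [Derivation.leibniz, smul_eq_mul, map_add, map_mul, eval_X, pderiv_X, mul_add,
      Finset.sum_add_distrib]
    have h1 : ∑ x : Fin 3, v' x * (eval (v w) p * eval (v w) ((Pi.single x 1 : Fin 3 → MvPolynomial (Fin 3) ℂ) i)) =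
        eval (v w) p * v' i := by
      rw [Finset.sum_eq_single i]
      · rw [Pi.single_eq_same, map_one, mul_one, mul_comm]
      · intro b _ hb
        rw [Pi.single_eq_of_ne (Ne.symm hb), map_zero, mul_zero, mul_zero]
      · intro hi
        exact absurd (Finset.mem_univ i) hi
    rw [h1, Finset.sum_mul, add_comm]
    congr 1
    apply Finset.sum_congr rfl
    intro x _
    ring

open MvPolynomial in
theorem eval_smul3 {P : MvPolynomial (Fin 3) ℂ} {n : ℕ} (hP : P.IsHomogeneous n) (c : ℂ)
    (v : Fin 3 → ℂ) : eval (c • v) P = c ^ n * eval v P := by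
  rw [eval_eq', eval_eq', Finset.mul_sum]
  apply Finset.sum_congr rfl
  intro d hd
  have h1 : d.degree = n := by
    by_contra hne
    exact (mem_support_iff.1 hd) (hP.coeff_eq_zero hne)
  have h2 : ∑ i, d i = n := by
    rw [← h1, Finsupp.degree_eq_sum]
  have h3 : ∏ i, (c • v) i ^ d i = c ^ n * ∏ i, v i ^ d i := by
    simp only [Pi.smul_apply, smul_eq_mul, mul_pow, Finset.prod_mul_distrib]
    rw [Finset.prod_pow_eq_pow_sum, h2]
  rw [h3]
  ring

open MvPolynomial in
theorem euler3 {P : MvPolynomial (Fin 3) ℂ} {n : ℕ} (hP : P.IsHomogeneous n)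
    (v : Fin 3 → ℂ) : ∑ i, v i * eval v (pderiv i P) = n * eval v P := by
  have h := congrArg (eval v) hP.sum_X_mul_pderiv
  rw [map_sum, map_nsmul, nsmul_eq_mul] at h
  rw [← h]
  apply Finset.sum_congr rfl
  intro i _
  rw [map_mul, eval_X]

theorem hess_hom {P : MvPolynomial (Fin 3) ℂ} {n : ℕ} (hP : P.IsHomogeneous n) :
    (hess P).IsHomogeneous (3 * (n - 2)) := by
  have he : ∀ i j : Fin 3,
      (MvPolynomial.pderiv i (MvPolynomial.pderiv j P)).IsHomogeneous (n - 2) := by
    intro i j
    have h1 := (hP.pderiv (i := j)).pderiv (i := i)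
    rwa [Nat.sub_sub] at h1
  have h3 : 3 * (n - 2) = n - 2 + (n - 2) + (n - 2) := by ring
  unfold hess
  rw [Matrix.det_fin_three, h3]
  simp only [Matrix.of_apply]
  have hm : ∀ i j k l p q : Fin 3,
      ((MvPolynomial.pderiv i (MvPolynomial.pderiv j P)) *
        (MvPolynomial.pderiv k (MvPolynomial.pderiv l P)) *
        (MvPolynomial.pderiv p (MvPolynomial.pderiv q P))).IsHomogeneous
        (n - 2 + (n - 2) + (n - 2)) :=
    fun i j k l p q => ((he i j).mul (he k l)).mul (he p q)
  exact (((((hm _ _ _ _ _ _).sub (hm _ _ _ _ _ _)).sub (hm _ _ _ _ _ _)).add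
    (hm _ _ _ _ _ _)).add (hm _ _ _ _ _ _)).sub (hm _ _ _ _ _ _)

end Pool.Agent.MP_ae5b4e_an_GEN
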