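import Mathlib
import Pool.Agent.Lib.MP_ae5b4e_an_GEN.Defs
import Pool.Agent.Lib.MP_ae5b4e_an_GEN.KappaAn
import Pool.Agent.Lib.MP_ae5b4e_an_GEN.Poly3
import Pool.Agent.Lib.MP_ae5b4e_an_FLEX.RealGood
import Pool.Agent.Lib.MP_ae5b4e_an_ALG.Trans
import Pool.Agent.Lib.MP_ae5b4e_an_LAT.Cplx
import Pool.Agent.Lib.MP_ae5b4e_an_LAT.NDImplicit
import Pool.Agent.Lib.MP_ae5b4e_an_LAT.NDGeoX0

/-!
# MP_ae5b4e_an, project GEN: from the real foliation to a good complex point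
-/

set_option autoImplicit false

noncomputable section

namespace Pool.Agent.MP_ae5b4e_an_GEN

open Filter Topology Set Metric
open scoped Polynomial
open Polynomial (evalEval)
open Pool.Agent.MP_ae5b4e_an_ND (cc cf co Dx Dy Filt Reg rts)
open Pool.Agent.MP_ae5b4e_an_FLEX
open Pool.Agent.MP_ae5b4e_an_ALG (Dh)

namespace Complexify

/-- the complexification of a real analytic function of one variable -/
theorem exists_ext {f : ℝ → ℝ} {a : ℝ} (hf : AnalyticAt ℝ f a) :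
    ∃ F : ℂ → ℂ, AnalyticAt ℂ F a ∧ ∀ᶠ t : ℝ in 𝓝 a, F t = f t := by
  have h1 : AnalyticAt ℝ (fun q : ℝ × ℝ => f q.1) (a, 0) :=
    AnalyticAt.comp (g := f) (f := fun q : ℝ × ℝ => q.1) hf analyticAt_fst
  obtain ⟨F, hF, hFr⟩ := Pool.Agent.MP_ae5b4e_an_Cplx.exists_extension h1
  refine ⟨fun z => F (z, 0), ?_, ?_⟩
  · have h2 : AnalyticAt ℂ (fun z : ℂ => ((z, 0) : ℂ × ℂ)) (a : ℂ) :=
      analyticAt_id.prod analyticAt_const
    exact AnalyticAt.comp (g := F) (f := fun z : ℂ => ((z, 0) : ℂ × ℂ)) (by simpa using hF) h2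
  · have h3 : Tendsto (fun t : ℝ => ((t, 0) : ℝ × ℝ)) (𝓝 a) (𝓝 (a, 0)) :=
      (continuous_id.prodMk continuous_const).tendsto a
    filter_upwards [h3.eventually hFr] with t ht
    simpa using ht

/-- analyticity of a polynomial of two analytic functions -/
theorem analyticAt_ee {f g : ℂ → ℂ} {z : ℂ} (hf : AnalyticAt ℂ f z) (hg : AnalyticAt ℂ g z)
    (G : ℂ[X][X]) : AnalyticAt ℂ (fun t => evalEval (f t) (g t) G) z :=
  AnalyticAt.comp (g := fun q : ℂ × ℂ => evalEval q.1 q.2 G) (f := fun t => ((f t, g t) : ℂ × ℂ))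
    (Pool.Agent.MP_ae5b4e_an_ND.analyticAt_evalEval G _) (hf.prod hg)

/-- the value of a real polynomial at a real point -/
theorem ee_real (x y : ℝ) (G : ℝ[X][X]) :
    evalEval (x : ℂ) (y : ℂ) (G.map (Polynomial.mapRingHom (algebraMap ℝ ℂ))) =
      ((evalEval x y G : ℝ) : ℂ) :=
  Polynomial.map_mapRingHom_evalEval (algebraMap ℝ ℂ) G x y

theorem eval3_real (v : Fin 3 → ℝ) (P : MvPolynomial (Fin 3) ℝ) :
    MvPolynomial.eval (fun i => ((v i : ℝ) : ℂ)) (P.map (algebraMap ℝ ℂ)) =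
      ((MvPolynomial.eval v P : ℝ) : ℂ) := by
  induction P using MvPolynomial.induction_on with
  | C a => simp
  | add p q hp hq =>
    simp only [map_add, hp, hq, Complex.ofReal_add]
  | mul_X p i hp =>
    simp only [map_mul, hp, MvPolynomial.map_X, MvPolynomial.eval_X, Complex.ofReal_mul]

end Complexify

open Complexify

section R2
open Pool.Agent.MP_ae5b4e_an_hopf

/-- the analytic first integral at the nearby parameters -/
theorem Complexify.hana_ev (γ : ConvexCurve) (U : ℝ → ℝ → ℝ) {t₀ : ℝ} {F : ℝ × ℝ → ℝ} {f : ℝ → ℝ}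
    (hF : AnalyticAt ℝ F (γ.x t₀, γ.y t₀)) (hF' : fderiv ℝ F (γ.x t₀, γ.y t₀) ≠ 0)
    (hFl : ∀ᶠ q in 𝓝 ((0, t₀) : ℝ × ℝ), 0 < q.1 →
        F (γ.x q.2 + deriv γ.x q.2 / U q.1 q.2, γ.y q.2 + deriv γ.y q.2 / U q.1 q.2) = f q.1) :
    ∀ᶠ t in 𝓝 t₀, AnalyticAt ℝ F (γ.x t, γ.y t) ∧ fderiv ℝ F (γ.x t, γ.y t) ≠ 0 ∧
      ∀ᶠ q in 𝓝 ((0, t) : ℝ × ℝ), 0 < q.1 →
        F (γ.x q.2 + deriv γ.x q.2 / U q.1 q.2, γ.y q.2 + deriv γ.y q.2 / U q.1 q.2) = f q.1 := by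
  have hc : Tendsto (fun t : ℝ => (γ.x t, γ.y t)) (𝓝 t₀) (𝓝 (γ.x t₀, γ.y t₀)) :=
    ((γ.smooth_x.continuous.continuousAt).prodMk (γ.smooth_y.continuous.continuousAt)).tendsto
  have h1 := hc.eventually hF.eventually_analyticAt
  have h2 := hc.eventually (hF.fderiv.continuousAt.eventually_ne hF')
  have hc' : Tendsto (fun t : ℝ => ((0, t) : ℝ × ℝ)) (𝓝 t₀) (𝓝 (0, t₀)) :=
    (continuous_const.prodMk continuous_id).tendsto t₀
  have h3 := hc'.eventually hFl.eventually_nhds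
  filter_upwards [h1, h2, h3] with t a b c
  exact ⟨a, b, c⟩

/-- from the real foliation to a good complex point -/
theorem complex_point (γ : ConvexCurve) (hx : ∀ t, AnalyticAt ℝ γ.x t)
    (hy : ∀ t, AnalyticAt ℝ γ.y t) {P : MvPolynomial (Fin 3) ℝ}
    (hP : ∀ t, MvPolynomial.eval ![γ.x t, γ.y t, 1] P = 0)
    (U : ℝ → ℝ → ℝ) (κ : ℝ → ℝ) (t₀ : ℝ) (hκ : Continuous κ) {G : ℝ[X][X]} (hG : G ≠ 0)
    (hrel : ∀ t, deriv γ.x t ≠ 0 → evalEval (γ.x t) (κ t / deriv γ.x t) G = 0)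
    (hcont : ContinuousOn (fun q : ℝ × ℝ => U q.1 q.2) (Ioo 0 1 ×ˢ univ))
    (hsimple : ∀ c ∈ Ioo (0:ℝ) 1, ∀ t t', γ.pt t (U c t) = γ.pt t' (U c t') →
      ∃ n : ℤ, t' = t + n * γ.T)
    (hmono : ∀ c ∈ Ioo (0:ℝ) 1, ∀ c' ∈ Ioo (0:ℝ) 1, c < c' → ∀ t, U c' t < U c t)
    (hlim : ∀ t, Tendsto (fun c => U c t) (𝓝[>] 0) atTop)
    (hproj : ∀ c ∈ Ioo (0:ℝ) 1, ∀ t u v, u ≠ v → γ.pt t u ∈ γ.leaf U c →
      γ.pt t v ∈ γ.leaf U c → u + v = κ t)
    (hana : ∃ (F : ℝ × ℝ → ℝ) (f : ℝ → ℝ), AnalyticAt ℝ F (γ.x t₀, γ.y t₀) ∧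
      fderiv ℝ F (γ.x t₀, γ.y t₀) ≠ 0 ∧ ∀ᶠ q in 𝓝 ((0, t₀) : ℝ × ℝ), 0 < q.1 →
        F (γ.x q.2 + deriv γ.x q.2 / U q.1 q.2, γ.y q.2 + deriv γ.y q.2 / U q.1 q.2) = f q.1) :
    ∃ (e : ℂ) (y k : ℂ → ℂ), GoodG (fun x => x) y k e ∧
      (∀ᶠ z in 𝓝 e, MvPolynomial.eval ![z, y z, 1] (P.map (algebraMap ℝ ℂ)) = 0) ∧
      ∀ᶠ z in 𝓝 e, evalEval z (k z)
        (G.map (Polynomial.mapRingHom (algebraMap ℝ ℂ))) = 0 := by
  obtain ⟨F, f, hF, hF', hFl⟩ := hana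
  -- the parameter `t₁`
  have hx' : ¬ ∀ᶠ t in 𝓝 t₀, deriv γ.x t = 0 := by
    intro h
    have h1 : deriv γ.x t₀ = 0 := h.self_of_nhds
    have h2 : deriv (deriv γ.x) t₀ = 0 := by
      have h3 : deriv γ.x =ᶠ[𝓝 t₀] fun _ => (0:ℝ) := h
      rw [h3.deriv_eq]
      exact deriv_const _ _
    have h3 := γ.curved t₀
    rw [h1, h2] at h3
    simp at h3
  obtain ⟨t₁, ⟨hκa, hx1⟩, hF1, hF1', hFl1⟩ :=
    ((kappa_analytic hx hx' hκ hG hrel).and
      ((Complexify.hana_ev γ U hF hF' hFl).filter_mono nhdsWithin_le_nhds)).exists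
  -- complexification
  obtain ⟨X, hX, hXr⟩ := exists_ext (hx t₁)
  obtain ⟨Y, hY, hYr⟩ := exists_ext (hy t₁)
  obtain ⟨K, hK, hKr⟩ := exists_ext hκa
  have hgood : GoodG X Y K t₁ := real_good γ U κ t₁ hcont hsimple hmono hlim hproj hF1 hF1' hFl1
    hX hY hK hXr hYr hKr
  have hX'r := RealGood.deriv_real hX (fun t => (γ.hd_x t).differentiableAt) hXr
  have hX' : deriv X t₁ ≠ 0 := by
    rw [hX'r.self_of_nhds]
    exact_mod_cast hx1
  -- the local inverse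
  obtain ⟨φ, hφ, hφe, hr⟩ : ∃ φ : ℂ → ℂ, AnalyticAt ℂ φ (X t₁) ∧ φ (X t₁) = t₁ ∧
      ∀ᶠ y in 𝓝 (X t₁), X (φ y) = y :=
    ⟨hX.hasStrictDerivAt.localInverse _ _ _ hX', hX.analyticAt_localInverse hX',
      (hX.hasStrictDerivAt.eventually_left_inverse hX').self_of_nhds,
      hX.hasStrictDerivAt.eventually_right_inverse hX'⟩
  have hφt : Tendsto φ (𝓝 (X t₁)) (𝓝 (t₁ : ℂ)) := by
    have := hφ.continuousAt.tendsto
    rwa [hφe] at this
  -- the derivative of the local inverse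
  have hφ' : ∀ᶠ z in 𝓝 (X t₁), deriv X (φ z) * deriv φ z = 1 := by
    filter_upwards [hr.eventually_nhds, hφ.eventually_analyticAt,
      hφt.eventually hX.eventually_analyticAt] with z h1 h2 h3
    have h4 : HasDerivAt (fun y => X (φ y)) (deriv X (φ z) * deriv φ z) z :=
      HasDerivAt.comp z h3.differentiableAt.hasDerivAt h2.differentiableAt.hasDerivAt
    have h5 : HasDerivAt (fun y : ℂ => y) 1 z := hasDerivAt_id z
    exact h4.unique (h5.congr_of_eventuallyEq h1)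
  have hφ0 : deriv φ (X t₁) ≠ 0 := by
    intro h
    have := hφ'.self_of_nhds
    rw [h, mul_zero] at this
    exact zero_ne_one this
  refine ⟨X t₁, Y ∘ φ, fun z => deriv φ z * K (φ z), ?_, ?_, ?_⟩
  · have h1 := Pool.Agent.MP_ae5b4e_an_ALG.goodG_comp hφ hφ0 (by rw [hφe]; exact hgood)
    exact Pool.Agent.MP_ae5b4e_an_ALG.goodG_congr h1 hr (EventuallyEq.refl _ _)
      (EventuallyEq.refl _ _)
  · have h1 : AnalyticAt ℂ (fun t => MvPolynomial.eval ![X t, Y t, 1] (P.map (algebraMap ℝ ℂ)))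
        t₁ := by
      apply analyticAt_eval3
      intro i
      fin_cases i
      · exact hX
      · exact hY
      · exact analyticAt_const
    have h2 : ∀ᶠ t : ℝ in 𝓝 t₁,
        (fun t => MvPolynomial.eval ![X t, Y t, 1] (P.map (algebraMap ℝ ℂ))) (t : ℂ) = 0 := by
      filter_upwards [hXr, hYr] with t a b
      have h3 := eval3_real ![γ.x t, γ.y t, 1] P
      rw [hP t] at h3
      have h4 : (fun i => (((![γ.x t, γ.y t, 1] : Fin 3 → ℝ) i : ℝ) : ℂ)) =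
          ![X t, Y t, 1] := by
        funext i
        fin_cases i
        · simp [a]
        · simp [b]
        · simp
      rw [h4] at h3
      simpa using h3
    have h5 := Pool.Agent.MP_ae5b4e_an_GeoX.real_zero h1 h2
    filter_upwards [hφt.eventually h5, hr] with z h6 h7
    rw [h7] at h6
    exact h6
  · have h1 : AnalyticAt ℂ (fun t => evalEval (X t) (K t / deriv X t)
        (G.map (Polynomial.mapRingHom (algebraMap ℝ ℂ)))) t₁ :=
      analyticAt_ee hX (hK.div hX.deriv hX') _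
    have hx1' : ∀ᶠ t in 𝓝 t₁, deriv γ.x t ≠ 0 := (hx t₁).deriv.continuousAt.eventually_ne hx1
    have h2 : ∀ᶠ t : ℝ in 𝓝 t₁, (fun t => evalEval (X t) (K t / deriv X t)
        (G.map (Polynomial.mapRingHom (algebraMap ℝ ℂ)))) (t : ℂ) = 0 := by
      filter_upwards [hXr, hKr, hX'r, hx1'] with t a b c d
      show evalEval (X t) (K t / deriv X t) _ = 0
      rw [a, b, c, ← Complex.ofReal_div, ee_real, hrel t d, Complex.ofReal_zero]
    have h5 := Pool.Agent.MP_ae5b4e_an_GeoX.real_zero h1 h2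
    filter_upwards [hφt.eventually h5, hr, hφ'] with z h6 h7 h8
    have h9 : K (φ z) / deriv X (φ z) = deriv φ z * K (φ z) := by
      have h10 : deriv X (φ z) ≠ 0 := by
        intro h
        rw [h, zero_mul] at h8
        exact zero_ne_one h8
      rw [div_eq_iff h10]
      linear_combination (-K (φ z)) * h8
    rw [h7, h9] at h6
    exact h6
end R2

end Pool.Agent.MP_ae5b4e_an_GEN
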