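import Pool.Agent.Lib.MP_ae5b4e_an_GEN.Defs
import Pool.Agent.Lib.MP_ae5b4e_an_GEN.Poly3

/-!
# MP_ae5b4e_an, project GEN, module G7: the Hessian along a graph
-/

set_option autoImplicit false

noncomputable section

namespace Pool.Agent.MP_ae5b4e_an_GEN

open Filter Topology Set Metric
open scoped Polynomial
open Polynomial (evalEval)
open Pool.Agent.MP_ae5b4e_an_ND (cc cf co Dx Dy Filt Reg rts)
open Pool.Agent.MP_ae5b4e_an_FLEX
open Pool.Agent.MP_ae5b4e_an_ALG (Dh)

namespace HessG

open MvPolynomial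

/-- Partial derivatives commute. -/
theorem pderiv_comm (i j : Fin 3) (P : MvPolynomial (Fin 3) ℂ) :
    pderiv i (pderiv j P) = pderiv j (pderiv i P) := by
  have h : (⁅(pderiv i : Derivation ℂ (MvPolynomial (Fin 3) ℂ) (MvPolynomial (Fin 3) ℂ)),
      (pderiv j : Derivation ℂ (MvPolynomial (Fin 3) ℂ) (MvPolynomial (Fin 3) ℂ))⁆ :
        Derivation ℂ (MvPolynomial (Fin 3) ℂ) (MvPolynomial (Fin 3) ℂ)) = 0 := by
    apply MvPolynomial.derivation_ext
    intro k
    rw [Derivation.commutator_apply, pderiv_X, pderiv_X]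
    by_cases h1 : j = k
    · by_cases h2 : i = k
      · simp [h1, h2]
      · simp [h1, h2]
    · by_cases h2 : i = k
      · simp [h2, h1]
      · simp [h2, h1]
  have h2 := congrArg (fun D => D P) h
  simp only [Derivation.commutator_apply] at h2
  exact sub_eq_zero.mp h2

/-- The algebraic core: `v · P = 0`, `T · P = 0`, `H v = (n - 1) P`, `T H T + g'' N P = 0`. -/
theorem det_core {H : Matrix (Fin 3) (Fin 3) ℂ} (hs : ∀ i j, H i j = H j i)
    {v T N p : Fin 3 → ℂ} {c g2 : ℂ} (h0 : ∑ i, v i * p i = 0) (h1 : ∑ i, T i * p i = 0)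
    (hH : ∀ i, ∑ j, v j * H j i = c * p i)
    (h2 : ∑ i, (g2 * N i * p i + T i * ∑ j, T j * H j i) = 0) :
    (Matrix.of ![v, T, N]).det ^ 2 * H.det = c ^ 2 * (∑ i, N i * p i) ^ 3 * g2 := by
  set V : Matrix (Fin 3) (Fin 3) ℂ := Matrix.of ![v, T, N] with hV
  have hprod : (V * H * V.transpose).det = V.det ^ 2 * H.det := by
    rw [Matrix.det_mul, Matrix.det_mul, Matrix.det_transpose]
    ring
  set a : ℂ := (V * H * V.transpose) 1 2 with ha
  set b : ℂ := (V * H * V.transpose) 2 2 with hb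
  have hM : V * H * V.transpose =
      Matrix.of ![![0, 0, c * ∑ i, N i * p i], ![0, -(g2 * ∑ i, N i * p i), a],
        ![c * ∑ i, N i * p i, a, b]] := by
    have e10 := hs 1 0
    have e20 := hs 2 0
    have e21 := hs 2 1
    have k0 := hH 0
    have k1 := hH 1
    have k2 := hH 2
    simp only [Fin.sum_univ_three] at k0 k1 k2 h0 h1 h2 ⊢
    rw [e10, e20] at k0 h2
    rw [e21] at k1 h2
    ext i j
    fin_cases i <;> fin_cases j
    · simp [Matrix.mul_apply, Fin.sum_univ_three, hV, Matrix.vecMul, dotProduct, e10, e20, e21]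
      linear_combination v 0 * k0 + v 1 * k1 + v 2 * k2 + c * h0
    · simp [Matrix.mul_apply, Fin.sum_univ_three, hV, Matrix.vecMul, dotProduct, e10, e20, e21]
      linear_combination T 0 * k0 + T 1 * k1 + T 2 * k2 + c * h1
    · simp [Matrix.mul_apply, Fin.sum_univ_three, hV, Matrix.vecMul, dotProduct, e10, e20, e21]
      linear_combination N 0 * k0 + N 1 * k1 + N 2 * k2
    · simp [Matrix.mul_apply, Fin.sum_univ_three, hV, Matrix.vecMul, dotProduct, e10, e20, e21]
      linear_combination T 0 * k0 + T 1 * k1 + T 2 * k2 + c * h1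
    · simp [Matrix.mul_apply, Fin.sum_univ_three, hV, Matrix.vecMul, dotProduct, e10, e20, e21]
      linear_combination h2
    · simp [ha]
    · simp [Matrix.mul_apply, Fin.sum_univ_three, hV, Matrix.vecMul, dotProduct, e10, e20, e21]
      linear_combination N 0 * k0 + N 1 * k1 + N 2 * k2
    · simp [Matrix.mul_apply, Fin.sum_univ_three, hV, ha, Matrix.vecMul, dotProduct, e10, e20, e21]
      ring
    · simp [hb]
  rw [← hprod, hM, Matrix.det_fin_three]
  simp
  ring

end HessG

open HessG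

/-- the Hessian along the graph of a function -/
theorem hess_graph {P : MvPolynomial (Fin 3) ℂ} {n : ℕ} (hP : P.IsHomogeneous n)
    {b0 b1 b2 : Fin 3 → ℂ} {g : ℂ → ℂ} {x : ℂ} (hg : AnalyticAt ℂ g x)
    (hz : ∀ᶠ t in 𝓝 x, MvPolynomial.eval (b0 + t • b1 + g t • b2) P = 0) :
    (Matrix.of ![b0, b1, b2]).det ^ 2 *
        MvPolynomial.eval (b0 + x • b1 + g x • b2) (hess P) =
      ((n:ℂ) - 1) ^ 2 * (∑ i, b2 i *
        MvPolynomial.eval (b0 + x • b1 + g x • b2) (MvPolynomial.pderiv i P)) ^ 3 *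
          deriv (deriv g) x := by
  rcases Nat.eq_zero_or_pos n with hn0 | hn
  · have hc : ∀ i, MvPolynomial.pderiv i P = 0 := by
      intro i
      rw [hn0, ← MvPolynomial.totalDegree_zero_iff_isHomogeneous,
        MvPolynomial.totalDegree_eq_zero_iff_eq_C] at hP
      rw [hP, MvPolynomial.pderiv_C]
    have hh : hess P = 0 := by
      rw [hess, Matrix.det_fin_three]
      simp [hc]
    rw [hh]
    simp [hc]
  set v : ℂ → Fin 3 → ℂ := fun t => b0 + t • b1 + g t • b2 with hv
  have hvd : ∀ t, AnalyticAt ℂ g t → ∀ i,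
      HasDerivAt (fun t => v t i) (b1 i + deriv g t * b2 i) t := by
    intro t ht i
    have h1 : HasDerivAt (fun t : ℂ => b0 i + t * b1 i + g t * b2 i)
        (b1 i + deriv g t * b2 i) t := by
      have h2 := ((hasDerivAt_id t).mul_const (b1 i)).const_add (b0 i)
      have h3 := (ht.differentiableAt.hasDerivAt).mul_const (b2 i)
      have h4 := h2.add h3
      simp only [id, one_mul] at h4
      exact h4
    exact h1
  have hd1 : ∀ᶠ t in 𝓝 x, ∑ i, (b1 i + deriv g t * b2 i) *
      MvPolynomial.eval (v t) (MvPolynomial.pderiv i P) = 0 := by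
    filter_upwards [hz.eventually_nhds, hg.eventually_analyticAt] with t ht hgt
    have h1 := hasDerivAt_eval3 (hvd t hgt) P
    have h2 : (fun w => MvPolynomial.eval (v w) P) =ᶠ[𝓝 t] fun _ => 0 := ht
    have h3 := h1.congr_of_eventuallyEq h2.symm
    exact h3.unique (hasDerivAt_const t (0:ℂ))
  have hd2 : ∑ i, (deriv (deriv g) x * b2 i * MvPolynomial.eval (v x) (MvPolynomial.pderiv i P)
      + (b1 i + deriv g x * b2 i) * ∑ j, (b1 j + deriv g x * b2 j) *
        MvPolynomial.eval (v x) (MvPolynomial.pderiv j (MvPolynomial.pderiv i P))) = 0 := by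
    have h1 : HasDerivAt (fun t => ∑ i, (b1 i + deriv g t * b2 i) *
        MvPolynomial.eval (v t) (MvPolynomial.pderiv i P))
        (∑ i, (deriv (deriv g) x * b2 i * MvPolynomial.eval (v x) (MvPolynomial.pderiv i P)
      + (b1 i + deriv g x * b2 i) * ∑ j, (b1 j + deriv g x * b2 j) *
        MvPolynomial.eval (v x) (MvPolynomial.pderiv j (MvPolynomial.pderiv i P)))) x := by
      refine HasDerivAt.fun_sum fun i _ => ?_
      have h2 : HasDerivAt (fun t => b1 i + deriv g t * b2 i) (deriv (deriv g) x * b2 i) x :=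
        ((hg.deriv.differentiableAt.hasDerivAt).mul_const (b2 i)).const_add (b1 i)
      exact h2.mul (hasDerivAt_eval3 (hvd x hg) (MvPolynomial.pderiv i P))
    have h3 := h1.congr_of_eventuallyEq (Filter.EventuallyEq.symm hd1)
    exact h3.unique (hasDerivAt_const x (0:ℂ))
  have hE0 : ∑ i, v x i * MvPolynomial.eval (v x) (MvPolynomial.pderiv i P) = 0 := by
    rw [euler3 hP, hz.self_of_nhds, mul_zero]
  have hE1 : ∀ i, ∑ j, v x j *
      MvPolynomial.eval (v x) (MvPolynomial.pderiv j (MvPolynomial.pderiv i P)) =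
        ((n:ℂ) - 1) * MvPolynomial.eval (v x) (MvPolynomial.pderiv i P) := by
    intro i
    rw [euler3 (hP.pderiv), Nat.cast_sub hn, Nat.cast_one]
  set H : Matrix (Fin 3) (Fin 3) ℂ := Matrix.of fun i j =>
    MvPolynomial.eval (v x) (MvPolynomial.pderiv i (MvPolynomial.pderiv j P)) with hH
  have hHd : MvPolynomial.eval (v x) (hess P) = H.det := by
    rw [hess, RingHom.map_det]
    rfl
  have hdet : (Matrix.of ![b0, b1, b2]).det =
      (Matrix.of ![v x, fun i => b1 i + deriv g x * b2 i, b2]).det := by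
    rw [Matrix.det_fin_three, Matrix.det_fin_three]
    simp [hv]
    ring
  change (Matrix.of ![b0, b1, b2]).det ^ 2 * MvPolynomial.eval (v x) (hess P) =
      ((n:ℂ) - 1) ^ 2 * (∑ i, b2 i * MvPolynomial.eval (v x) (MvPolynomial.pderiv i P)) ^ 3 *
          deriv (deriv g) x
  rw [hHd, hdet]
  refine det_core (fun i j => ?_) hE0 hd1.self_of_nhds hE1 hd2
  simp only [hH, Matrix.of_apply]
  rw [pderiv_comm]

end Pool.Agent.MP_ae5b4e_an_GEN
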