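import Mathlib
import Pool.Agent.Lib.MP_ae5b4e_an_GEN.Defs
import Pool.Agent.Lib.MP_ae5b4e_an_GEN.Poly3
import Pool.Agent.Lib.MP_ae5b4e_an_GEN.HessG
import Pool.Agent.Lib.MP_ae5b4e_an_LAT.NDImplicit
import Pool.Agent.Lib.MP_ae5b4e_an_LAT.NDPropag

/-!
# MP_ae5b4e_an, project GEN, module G3: the curve near a point
-/

set_option autoImplicit false

noncomputable section

namespace Pool.Agent.MP_ae5b4e_an_GEN

open Filter Topology Set Metric
open scoped Polynomial
open Polynomial (evalEval)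
open Pool.Agent.MP_ae5b4e_an_ND (cc cf co Dx Dy Filt Reg rts)
open Pool.Agent.MP_ae5b4e_an_FLEX
open Pool.Agent.MP_ae5b4e_an_ALG (Dh)

namespace Point

/-- the value of the gradient -/
abbrev gr (P : MvPolynomial (Fin 3) ℂ) (v : Fin 3 → ℂ) (i : Fin 3) : ℂ :=
  MvPolynomial.eval v (MvPolynomial.pderiv i P)

/-- three independent vectors determine a linear form -/
theorem eq_zero_of_basis {v0 b1 b2 H : Fin 3 → ℂ} (hdet : (Matrix.of ![v0, b1, b2]).det ≠ 0)
    (h0 : ∑ i, v0 i * H i = 0) (h1 : ∑ i, b1 i * H i = 0) (h2 : ∑ i, b2 i * H i = 0) :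
    H = 0 := by
  apply Matrix.eq_zero_of_mulVec_eq_zero hdet
  funext j
  fin_cases j
  · simpa [Matrix.mulVec, dotProduct] using h0
  · simpa [Matrix.mulVec, dotProduct] using h1
  · simpa [Matrix.mulVec, dotProduct] using h2

theorem basis_ne_zero {v0 b1 b2 : Fin 3 → ℂ} (hdet : (Matrix.of ![v0, b1, b2]).det ≠ 0)
    (s x : ℂ) (h : s ≠ 0 ∨ x ≠ 0) : s • v0 + x • b1 ≠ 0 := by
  intro h0
  apply hdet
  have e (i : Fin 3) : s * v0 i + x * b1 i = 0 := by
    have := congrFun h0 i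
    simpa using this
  have e0 := e 0
  have e1 := e 1
  have e2 := e 2
  have hd : (Matrix.of ![v0, b1, b2]).det = v0 0 * b1 1 * b2 2 - v0 0 * b1 2 * b2 1 -
      v0 1 * b1 0 * b2 2 + v0 1 * b1 2 * b2 0 + v0 2 * b1 0 * b2 1 - v0 2 * b1 1 * b2 0 := by
    rw [Matrix.det_fin_three]
    simp
  have hs : s * (Matrix.of ![v0, b1, b2]).det = 0 := by
    rw [hd]
    linear_combination (b1 1 * b2 2 - b1 2 * b2 1) * e0 + (b1 2 * b2 0 - b1 0 * b2 2) * e1 +
      (b1 0 * b2 1 - b1 1 * b2 0) * e2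
  have hx : x * (Matrix.of ![v0, b1, b2]).det = 0 := by
    rw [hd]
    linear_combination (v0 2 * b2 1 - v0 1 * b2 2) * e0 + (v0 0 * b2 2 - v0 2 * b2 0) * e1 +
      (v0 1 * b2 0 - v0 0 * b2 1) * e2
  rcases h with h | h
  · exact (mul_eq_zero.1 hs).resolve_left h
  · exact (mul_eq_zero.1 hx).resolve_left h

/-- a good basis at a point of the curve -/
theorem exists_basis {v0 G : Fin 3 → ℂ} (hv : v0 ≠ 0) (hG : G ≠ 0) (h : ∑ i, v0 i * G i = 0) :
    ∃ b1 b2 : Fin 3 → ℂ, (Matrix.of ![v0, b1, b2]).det ≠ 0 ∧ ∑ i, b1 i * G i = 0 ∧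
      ∑ i, b2 i * G i ≠ 0 := by
  obtain ⟨i, hi⟩ := Function.ne_iff.1 hG
  obtain ⟨j, hj⟩ := Function.ne_iff.1 hv
  simp only [Pi.zero_apply] at hi hj
  set w : Fin 3 → ℂ := Pi.single j 1 with hw
  set b2 : Fin 3 → ℂ := Pi.single i 1 with hb2
  have hwv : w 0 * v0 0 + w 1 * v0 1 + w 2 * v0 2 = v0 j := by
    rw [hw]
    fin_cases j <;> simp
  have hbG : b2 0 * G 0 + b2 1 * G 1 + b2 2 * G 2 = G i := by
    rw [hb2]
    fin_cases i <;> simp
  rw [Fin.sum_univ_three] at h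
  refine ⟨![w 1 * G 2 - w 2 * G 1, w 2 * G 0 - w 0 * G 2, w 0 * G 1 - w 1 * G 0], b2, ?_, ?_, ?_⟩
  · have hd : (Matrix.of ![v0, ![w 1 * G 2 - w 2 * G 1, w 2 * G 0 - w 0 * G 2,
        w 0 * G 1 - w 1 * G 0], b2]).det = -(v0 j) * G i := by
      rw [Matrix.det_fin_three, ← hwv, ← hbG]
      simp
      linear_combination (w 0 * b2 0 + w 1 * b2 1 + w 2 * b2 2) * h
    rw [hd]
    exact mul_ne_zero (neg_ne_zero.2 hj) hi
  · rw [Fin.sum_univ_three]
    simp
    ring
  · rw [Fin.sum_univ_three, hbG]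
    exact hi

/-- the polynomial of the restriction to a line -/
def lp (P : MvPolynomial (Fin 3) ℂ) (v b : Fin 3 → ℂ) : ℂ[X] :=
  MvPolynomial.aeval (fun i => Polynomial.C (v i) + Polynomial.C (b i) * Polynomial.X) P

theorem eval_lp (P : MvPolynomial (Fin 3) ℂ) (v b : Fin 3 → ℂ) (x : ℂ) :
    (lp P v b).eval x = MvPolynomial.eval (v + x • b) P := by
  have h : (Polynomial.evalRingHom x).comp
      (MvPolynomial.aeval (R := ℂ) (fun i => Polynomial.C (v i) + Polynomial.C (b i) *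
        Polynomial.X)).toRingHom = MvPolynomial.eval (v + x • b) := by
    apply MvPolynomial.ringHom_ext
    · intro r
      simp
    · intro i
      simp
      ring
  exact congrArg (fun f : MvPolynomial (Fin 3) ℂ →+* ℂ => f P) h

theorem natDegree_lp {P : MvPolynomial (Fin 3) ℂ} {n : ℕ} (hP : P.IsHomogeneous n)
    (v b : Fin 3 → ℂ) : (lp P v b).natDegree ≤ n := by
  have h := MvPolynomial.aeval_natDegree_le (m := n) (n := 1) P hP.totalDegree_le
    (fun i => Polynomial.C (v i) + Polynomial.C (b i) * Polynomial.X) (fun i => by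
      compute_degree)
  rw [mul_one] at h
  exact h

theorem hasDerivAt_line (P : MvPolynomial (Fin 3) ℂ) (v b : Fin 3 → ℂ) (x : ℂ) :
    HasDerivAt (fun x => MvPolynomial.eval (v + x • b) P) (∑ i, b i * gr P (v + x • b) i) x := by
  apply hasDerivAt_eval3
  intro i
  have h : HasDerivAt (fun x : ℂ => v i + x * b i) (1 * b i) x :=
    ((hasDerivAt_id x).mul_const (b i)).const_add (v i)
  rw [one_mul] at h
  exact h

theorem sum_line (v b G : Fin 3 → ℂ) (x : ℂ) :
    ∑ i, (v + x • b) i * G i = ∑ i, v i * G i + x * ∑ i, b i * G i := by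
  simp only [Fin.sum_univ_three, Pi.add_apply, Pi.smul_apply, smul_eq_mul]
  ring

/-- the polynomial of a transversal derivative -/
def rp (P : MvPolynomial (Fin 3) ℂ) (v b b2 : Fin 3 → ℂ) : ℂ[X] :=
  ∑ i, Polynomial.C (b2 i) * lp (MvPolynomial.pderiv i P) v b

theorem eval_rp (P : MvPolynomial (Fin 3) ℂ) (v b b2 : Fin 3 → ℂ) (x : ℂ) :
    (rp P v b b2).eval x = ∑ i, b2 i * gr P (v + x • b) i := by
  rw [rp, Polynomial.eval_finsetSum]
  refine Finset.sum_congr rfl fun i _ => ?_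
  rw [Polynomial.eval_mul, Polynomial.eval_C, eval_lp]

/-- the tangent line is not a component of the curve -/
theorem lp_ne_zero {P : MvPolynomial (Fin 3) ℂ} {n : ℕ} (hP : SmoothCurve P n) (hn : 2 ≤ n)
    {v0 b1 b2 : Fin 3 → ℂ} (hdet : (Matrix.of ![v0, b1, b2]).det ≠ 0) : lp P v0 b1 ≠ 0 := by
  intro h
  have hz (x : ℂ) : MvPolynomial.eval (v0 + x • b1) P = 0 := by
    rw [← eval_lp, h, Polynomial.eval_zero]
  have hd1 (x : ℂ) : ∑ i, b1 i * gr P (v0 + x • b1) i = 0 := by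
    have h1 := hasDerivAt_line P v0 b1 x
    have h2 : HasDerivAt (fun x => MvPolynomial.eval (v0 + x • b1) P) 0 x := by
      simp only [hz]
      exact hasDerivAt_const x 0
    exact h1.unique h2
  have hd0 (x : ℂ) : ∑ i, v0 i * gr P (v0 + x • b1) i = 0 := by
    have h1 := euler3 hP.hom (v0 + x • b1)
    rw [hz, mul_zero] at h1
    have h2 := sum_line v0 b1 (gr P (v0 + x • b1)) x
    rw [hd1, mul_zero, add_zero] at h2
    rw [← h2]
    exact h1
  by_cases hdeg : (rp P v0 b1 b2).degree = 0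
  · obtain ⟨κ, hκ⟩ : ∃ κ, rp P v0 b1 b2 = Polynomial.C κ :=
      ⟨_, Polynomial.eq_C_of_degree_le_zero hdeg.le⟩
    have hsw (s : ℂ) (hs : s ≠ 0) : b1 + s • v0 = s • (v0 + s⁻¹ • b1) := by
      rw [smul_add, smul_smul, mul_inv_cancel₀ hs, one_smul, add_comm]
    have hA (s : ℂ) : MvPolynomial.eval (b1 + s • v0) P = 0 := by
      have h1 : (fun s => (lp P b1 v0).eval s) = fun _ => 0 := by
        refine Continuous.ext_on (dense_compl_singleton (0:ℂ)) (lp P b1 v0).continuous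
          continuous_const fun s hs => ?_
        show (lp P b1 v0).eval s = 0
        rw [eval_lp, hsw s hs, eval_smul3 hP.hom, hz, mul_zero]
      rw [← eval_lp]
      exact congrFun h1 s
    have hB (s : ℂ) : ∑ i, b2 i * gr P (b1 + s • v0) i = κ * s ^ (n - 1) := by
      have h1 : (fun s => (rp P b1 v0 b2).eval s) = fun s => κ * s ^ (n - 1) := by
        refine Continuous.ext_on (dense_compl_singleton (0:ℂ)) (rp P b1 v0 b2).continuous
          (by fun_prop) fun s hs => ?_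
        show (rp P b1 v0 b2).eval s = κ * s ^ (n - 1)
        rw [eval_rp]
        have h2 (i : Fin 3) : gr P (b1 + s • v0) i = s ^ (n - 1) * gr P (v0 + s⁻¹ • b1) i := by
          rw [gr, hsw s hs, eval_smul3 (hP.hom.pderiv)]
        have h3 : (rp P v0 b1 b2).eval s⁻¹ = κ := by rw [hκ, Polynomial.eval_C]
        rw [eval_rp] at h3
        rw [← h3, Finset.sum_mul]
        refine Finset.sum_congr rfl fun i _ => ?_
        rw [h2]
        ring
      rw [← eval_rp]
      exact congrFun h1 s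
    have hz0 : MvPolynomial.eval b1 P = 0 := by
      have := hA 0
      rwa [zero_smul, add_zero] at this
    have e0 : ∑ i, v0 i * gr P b1 i = 0 := by
      have h1 := hasDerivAt_line P b1 v0 0
      have h2 : HasDerivAt (fun x : ℂ => MvPolynomial.eval (b1 + x • v0) P) 0 0 := by
        simp only [hA]
        exact hasDerivAt_const _ _
      have h3 := h1.unique h2
      rwa [zero_smul, add_zero] at h3
    have e1 : ∑ i, b1 i * gr P b1 i = 0 := by
      have h1 := euler3 hP.hom b1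
      rw [hz0, mul_zero] at h1
      exact h1
    have e2 : ∑ i, b2 i * gr P b1 i = 0 := by
      have h1 := hB 0
      rw [zero_smul, add_zero, zero_pow (by omega), mul_zero] at h1
      exact h1
    have h4 := eq_zero_of_basis hdet e0 e1 e2
    have hb1 : b1 ≠ 0 := by
      have := basis_ne_zero hdet 0 1 (Or.inr one_ne_zero)
      rwa [zero_smul, zero_add, one_smul] at this
    obtain ⟨i, hi⟩ := hP.ns b1 hb1 hz0
    exact hi (congrFun h4 i)
  · obtain ⟨x, hx⟩ := IsAlgClosed.exists_root (rp P v0 b1 b2) hdeg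
    have h4 := eq_zero_of_basis hdet (hd0 x) (hd1 x) (by rw [← eval_rp]; exact hx)
    have hb1 : v0 + x • b1 ≠ 0 := by
      have := basis_ne_zero hdet 1 x (Or.inl one_ne_zero)
      rwa [one_smul] at this
    obtain ⟨i, hi⟩ := hP.ns _ hb1 (hz x)
    exact hi (congrFun h4 i)

/-- the order of a function comparable to a polynomial -/
theorem pow_data {g : ℂ → ℂ} {E : ℂ → ℂ} (hE : AnalyticAt ℂ E 0)
    (hE0 : E 0 ≠ 0) {Q : ℂ[X]} {n : ℕ} (hQ : Q ≠ 0) (hn : Q.natDegree ≤ n)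
    (hQ0 : Q.eval 0 = 0) (hQ1 : Q.derivative.eval 0 = 0)
    (h : ∀ᶠ x in 𝓝 (0:ℂ), Q.eval x = g x * E x) :
    ∃ (f : ℕ) (g1 : ℂ → ℂ), AnalyticAt ℂ g1 0 ∧ g1 0 ≠ 0 ∧
      (∀ᶠ x in 𝓝 (0:ℂ), g x = x ^ (f + 2) * g1 x) ∧ f + 2 ≤ n := by
  obtain ⟨q, hq, hq0⟩ := Polynomial.exists_eq_pow_rootMultiplicity_mul_and_not_dvd Q hQ 0
  rw [Polynomial.C_0, sub_zero] at hq hq0
  set m := Q.rootMultiplicity 0 with hm
  have hq00 : q.eval 0 ≠ 0 := by
    intro h0
    apply hq0
    rw [Polynomial.X_dvd_iff, Polynomial.coeff_zero_eq_eval_zero]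
    exact h0
  have hmn : m ≤ n := by
    have h1 : Q.natDegree = m + q.natDegree := by
      have hqn : q ≠ 0 := by
        rintro rfl
        exact hq00 (by simp)
      conv_lhs => rw [hq]
      rw [Polynomial.natDegree_mul (pow_ne_zero _ Polynomial.X_ne_zero) hqn,
        Polynomial.natDegree_X_pow]
    omega
  have hm2 : 2 ≤ m := by
    by_contra hlt
    interval_cases hmm : m
    · rw [pow_zero, one_mul] at hq
      rw [hq] at hQ0
      exact hq00 hQ0
    · rw [pow_one] at hq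
      rw [hq] at hQ1
      simp at hQ1
      exact hq00 hQ1
  refine ⟨m - 2, fun x => q.eval x / E x, ?_, div_ne_zero hq00 hE0, ?_, by omega⟩
  · refine AnalyticAt.div ?_ hE hE0
    have := (analyticAt_id (𝕜 := ℂ) (z := (0:ℂ))).aeval_polynomial q
    simpa using this
  · have hE' : ∀ᶠ x in 𝓝 (0:ℂ), E x ≠ 0 := hE.continuousAt.eventually_ne hE0
    filter_upwards [h, hE'] with x h1 h2
    rw [Nat.sub_add_cancel hm2]
    have h3 : Q.eval x = x ^ m * q.eval x := by
      conv_lhs => rw [hq]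
      rw [Polynomial.eval_mul, Polynomial.eval_pow, Polynomial.eval_X]
    rw [h3] at h1
    field_simp
    rw [h1]

/-- the second derivative of a function vanishing to order four vanishes to order two -/
theorem second_deriv {g g1 : ℂ → ℂ} (h1 : AnalyticAt ℂ g1 0) {f : ℕ} (hf : 2 ≤ f)
    (h : ∀ᶠ x in 𝓝 (0:ℂ), g x = x ^ (f + 2) * g1 x) :
    ∃ w : ℂ → ℂ, AnalyticAt ℂ w 0 ∧ ∀ᶠ x in 𝓝 (0:ℂ), deriv (deriv g) x = x ^ 2 * w x := by
  obtain ⟨f, rfl⟩ := Nat.exists_eq_add_of_le' hf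
  have ha := h1.eventually_analyticAt
  have hd1 : ∀ᶠ x in 𝓝 (0:ℂ), deriv g x =
      x ^ (f + 3) * ((f + 4) * g1 x + x * deriv g1 x) := by
    filter_upwards [h.eventually_nhds, ha] with x hx hax
    have h2 : deriv g x = deriv (fun x => x ^ (f + 2 + 2) * g1 x) x :=
      Filter.EventuallyEq.deriv_eq hx
    rw [h2]
    have h3 := (hasDerivAt_pow (f + 2 + 2) x).mul hax.differentiableAt.hasDerivAt
    have h4 := h3.deriv
    simp only [Pi.mul_def] at h4
    rw [h4]
    push_cast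
    ring
  refine ⟨fun x => x ^ f * ((f + 3) * ((f + 4) * g1 x + x * deriv g1 x) +
    x * deriv (fun x => (f + 4) * g1 x + x * deriv g1 x) x), ?_, ?_⟩
  · have hdd : AnalyticAt ℂ (deriv g1) 0 := h1.deriv
    have hG : AnalyticAt ℂ (fun x => ((f:ℂ) + 4) * g1 x + x * deriv g1 x) 0 :=
      (analyticAt_const.mul h1).add (analyticAt_id.mul hdd)
    have hG' := hG.deriv
    exact (analyticAt_id.pow f).mul ((analyticAt_const.mul hG).add (analyticAt_id.mul hG'))
  · filter_upwards [hd1.eventually_nhds, ha] with x hx hax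
    have h2 : deriv (deriv g) x =
        deriv (fun x => x ^ (f + 3) * (((f:ℂ) + 4) * g1 x + x * deriv g1 x)) x :=
      Filter.EventuallyEq.deriv_eq hx
    rw [h2]
    have hG : AnalyticAt ℂ (fun x => ((f:ℂ) + 4) * g1 x + x * deriv g1 x) x :=
      (analyticAt_const.mul hax).add (analyticAt_id.mul hax.deriv)
    have h3 := (hasDerivAt_pow (f + 3) x).mul hG.differentiableAt.hasDerivAt
    have h4 := h3.deriv
    simp only [Pi.mul_def] at h4
    rw [h4]
    have e : f + 3 - 1 = f + 2 := by omega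
    rw [e]
    push_cast
    ring

end Point

/-- The curve near one of its points; `f` is the order of the flex. -/
theorem smooth_point {P : MvPolynomial (Fin 3) ℂ} {n : ℕ} (hP : SmoothCurve P n) (hn : 2 ≤ n)
    {v0 : Fin 3 → ℂ} (hv : v0 ≠ 0) (h0 : MvPolynomial.eval v0 P = 0) :
    ∃ (b1 b2 : Fin 3 → ℂ) (g g1 u : ℂ → ℂ) (f : ℕ), (Matrix.of ![v0, b1, b2]).det ≠ 0 ∧
      AnalyticAt ℂ g1 0 ∧ g1 0 ≠ 0 ∧ (∀ᶠ x in 𝓝 (0:ℂ), g x = x ^ (f + 2) * g1 x) ∧
      f + 2 ≤ n ∧ (OrdFlex P → f ≤ 1) ∧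
      (∀ᶠ p : ℂ × ℂ in 𝓝 (0, 0),
        MvPolynomial.eval (v0 + p.1 • b1 + p.2 • b2) P = 0 ↔ p.2 = g p.1) ∧
      AnalyticAt ℂ u 0 ∧ u 0 ≠ 0 ∧
      (∀ᶠ x in 𝓝 (0:ℂ), MvPolynomial.eval (v0 + x • b1 + g x • b2) (hess P) =
        u x * deriv (deriv g) x) := by
  have hG : Point.gr P v0 ≠ 0 := by
    obtain ⟨i, hi⟩ := hP.ns v0 hv h0
    exact fun h => hi (congrFun h i)
  have hE0 : ∑ i, v0 i * Point.gr P v0 i = 0 := by
    have h1 := euler3 hP.hom v0
    rw [h0, mul_zero] at h1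
    exact h1
  obtain ⟨b1, b2, hdet, hb1, hb2⟩ := Point.exists_basis hv hG hE0
  set c := ∑ i, b2 i * Point.gr P v0 i with hc
  -- the implicit function
  have hFan (p : ℂ × ℂ) : AnalyticAt ℂ
      (fun p : ℂ × ℂ => MvPolynomial.eval (v0 + p.1 • b1 + p.2 • b2) P) p := by
    apply analyticAt_eval3_two
    intro i
    show AnalyticAt ℂ (fun p : ℂ × ℂ => v0 i + p.1 * b1 i + p.2 * b2 i) p
    exact ((analyticAt_const.add (analyticAt_fst.mul analyticAt_const))).add
      (analyticAt_snd.mul analyticAt_const)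
  obtain ⟨g, hg, hg0, hgF⟩ := Pool.Agent.MP_ae5b4e_an_ND.implicit_analytic
    (F := fun p : ℂ × ℂ => MvPolynomial.eval (v0 + p.1 • b1 + p.2 • b2) P)
    (x₀ := 0) (t₀ := 0) (c := c) (hFan _) (by simpa using h0) hb2 (by
      have h1 := Point.hasDerivAt_line P v0 b2 0
      rw [zero_smul, add_zero] at h1
      simpa using h1)
  have hgz : ∀ᶠ x in 𝓝 (0:ℂ), MvPolynomial.eval (v0 + x • b1 + g x • b2) P = 0 := by
    have h1 : Tendsto (fun x => (x, g x)) (𝓝 (0:ℂ)) (𝓝 ((0, 0) : ℂ × ℂ)) := by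
      rw [nhds_prod_eq]
      have h2 : Tendsto g (𝓝 0) (𝓝 0) := by
        have := hg.continuousAt.tendsto
        rwa [hg0] at this
      exact tendsto_id.prodMk h2
    filter_upwards [h1.eventually hgF] with x hx
    exact hx.2 rfl
  -- comparison of `g` with the polynomial
  have hgf (p : ℂ × ℂ) (hp : p.1 = 0) : AnalyticAt ℂ (fun p : ℂ × ℂ => g p.1) p := by
    have h1 : AnalyticAt ℂ g p.1 := by rw [hp]; exact hg
    exact h1.comp analyticAt_fst
  have hSan : AnalyticAt ℂ (fun p : ℂ × ℂ =>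
      MvPolynomial.eval (v0 + p.1 • b1 + (g p.1 + p.2) • b2) P) ((0, 0) : ℂ × ℂ) := by
    apply analyticAt_eval3_two
    intro i
    show AnalyticAt ℂ (fun p : ℂ × ℂ => v0 i + p.1 * b1 i + (g p.1 + p.2) * b2 i) (0, 0)
    exact ((analyticAt_const.add (analyticAt_fst.mul analyticAt_const))).add
      (((hgf _ rfl).add analyticAt_snd).mul analyticAt_const)
  obtain ⟨Gd, hGd, hGd1, hGd2⟩ := Pool.Agent.MP_ae5b4e_an_ND.exists_div_y hSan (by
    filter_upwards [hgz] with x hx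
    rw [add_zero]
    exact hx)
  have hGd0 : Gd (0, 0) = c := by
    rw [hGd2.self_of_nhds]
    have h1 := Point.hasDerivAt_line P v0 b2 0
    rw [zero_smul, add_zero] at h1
    have h2 := h1.deriv
    rw [← hc] at h2
    rw [← h2]
    congr 1
    funext y
    show MvPolynomial.eval (v0 + (0:ℂ) • b1 + (g 0 + y) • b2) P = _
    rw [hg0, zero_smul, add_zero, zero_add]
  have hneg : AnalyticAt ℂ (fun x => (x, -g x)) (0:ℂ) := analyticAt_id.prod hg.neg
  have hneg0 : (fun x => (x, -g x)) (0:ℂ) = ((0, 0) : ℂ × ℂ) := by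
    show ((0:ℂ), -g 0) = (0, 0)
    rw [hg0, neg_zero]
  have hEan : AnalyticAt ℂ (fun x => -Gd (x, -g x)) 0 := by
    exact (hGd.comp_of_eq hneg hneg0).neg
  have hE00 : -Gd ((0:ℂ), -g 0) ≠ 0 := by
    rw [hg0, neg_zero, hGd0]
    exact neg_ne_zero.2 hb2
  have hQ : ∀ᶠ x in 𝓝 (0:ℂ), (Point.lp P v0 b1).eval x = g x * (-Gd (x, -g x)) := by
    have h1 : Tendsto (fun x => (x, -g x)) (𝓝 (0:ℂ)) (𝓝 ((0, 0) : ℂ × ℂ)) := by
      have := hneg.continuousAt.tendsto
      rwa [hg0, neg_zero] at this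
    filter_upwards [h1.eventually hGd1] with x hx
    rw [Point.eval_lp]
    have h2 : MvPolynomial.eval (v0 + x • b1 + (g x + -g x) • b2) P = -g x * Gd (x, -g x) := hx
    rw [add_neg_cancel, zero_smul, add_zero] at h2
    rw [h2]
    ring
  have hQ0 : (Point.lp P v0 b1).eval 0 = 0 := by
    rw [Point.eval_lp, zero_smul, add_zero, h0]
  have hQ1 : (Point.lp P v0 b1).derivative.eval 0 = 0 := by
    have h1 := Point.hasDerivAt_line P v0 b1 0
    have h2 := (Point.lp P v0 b1).hasDerivAt 0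
    simp only [Point.eval_lp] at h2
    rw [h2.unique h1, zero_smul, add_zero]
    exact hb1
  obtain ⟨f, g1, hg1, hg10, hgeq, hfn⟩ := Point.pow_data hEan hE00
    (Point.lp_ne_zero hP hn hdet) (Point.natDegree_lp hP.hom v0 b1) hQ0 hQ1 hQ
  -- the curve
  have hvan (i : Fin 3) : AnalyticAt ℂ (fun x => (v0 + x • b1 + g x • b2) i) 0 := by
    show AnalyticAt ℂ (fun x => v0 i + x * b1 i + g x * b2 i) 0
    exact (analyticAt_const.add (analyticAt_id.mul analyticAt_const)).add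
      (hg.mul analyticAt_const)
  have hv00 : v0 + (0:ℂ) • b1 + g 0 • b2 = v0 := by
    rw [hg0, zero_smul, zero_smul, add_zero, add_zero]
  set d := (Matrix.of ![v0, b1, b2]).det with hd
  set u : ℂ → ℂ := fun x => ((n:ℂ) - 1) ^ 2 * (∑ i, b2 i *
    MvPolynomial.eval (v0 + x • b1 + g x • b2) (MvPolynomial.pderiv i P)) ^ 3 / d ^ 2 with hu
  have huan : AnalyticAt ℂ u 0 := by
    have h1 : AnalyticAt ℂ (fun x => ∑ i, b2 i *
        MvPolynomial.eval (v0 + x • b1 + g x • b2) (MvPolynomial.pderiv i P)) 0 := by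
      refine Finset.analyticAt_fun_sum _ fun i _ => ?_
      exact analyticAt_const.mul (analyticAt_eval3 hvan _)
    exact (analyticAt_const.mul (h1.pow 3)).div analyticAt_const (pow_ne_zero 2 hdet)
  have hn1 : (n:ℂ) - 1 ≠ 0 := by
    intro h
    have h1 : (n:ℂ) = 1 := sub_eq_zero.1 h
    have h2 : n = 1 := by exact_mod_cast h1
    omega
  have hu0 : u 0 ≠ 0 := by
    rw [hu]
    show ((n:ℂ) - 1) ^ 2 * (∑ i, b2 i *
      MvPolynomial.eval (v0 + (0:ℂ) • b1 + g 0 • b2) (MvPolynomial.pderiv i P)) ^ 3 / d ^ 2 ≠ 0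
    rw [hv00]
    exact div_ne_zero (mul_ne_zero (pow_ne_zero 2 hn1) (pow_ne_zero 3 hb2)) (pow_ne_zero 2 hdet)
  have hhess : ∀ᶠ x in 𝓝 (0:ℂ), MvPolynomial.eval (v0 + x • b1 + g x • b2) (hess P) =
      u x * deriv (deriv g) x := by
    filter_upwards [hg.eventually_analyticAt, hgz.eventually_nhds] with x h1 h2
    have h3 := hess_graph hP.hom h1 h2
    rw [← hd] at h3
    rw [hu]
    show _ = ((n:ℂ) - 1) ^ 2 * (∑ i, b2 i * MvPolynomial.eval (v0 + x • b1 + g x • b2)
      (MvPolynomial.pderiv i P)) ^ 3 / d ^ 2 * deriv (deriv g) x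
    have hd2 : d ^ 2 ≠ 0 := pow_ne_zero 2 hdet
    rw [div_mul_eq_mul_div, eq_div_iff hd2, mul_comm, h3]
  refine ⟨b1, b2, g, g1, u, f, hdet, hg1, hg10, hgeq, hfn, ?_, ?_, huan, hu0, hhess⟩
  · intro hfl
    by_contra hf
    obtain ⟨w, hw, hw1⟩ := Point.second_deriv hg1 (f := f) (by omega) hgeq
    have hh : ∀ᶠ x in 𝓝 (0:ℂ), MvPolynomial.eval (v0 + x • b1 + g x • b2) (hess P) =
        x ^ 2 * (u x * w x) := by
      filter_upwards [hhess, hw1] with x h1 h2
      rw [h1, h2]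
      ring
    have hz : MvPolynomial.eval v0 (hess P) = 0 := by
      have h1 := hh.self_of_nhds
      rw [hv00] at h1
      rw [h1]
      ring
    have hgd : HasDerivAt g 0 0 := by
      have h1 : HasDerivAt (fun x : ℂ => x ^ (f + 2) * g1 x) 0 0 := by
        have h2 := (hasDerivAt_pow (f + 2) (0:ℂ)).mul hg1.differentiableAt.hasDerivAt
        have e : ((f + 2 : ℕ) : ℂ) * 0 ^ (f + 2 - 1) * g1 0 + 0 ^ (f + 2) * deriv g1 0 = 0 := by
          simp
        rw [e] at h2
        exact h2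
      exact h1.congr_of_eventuallyEq hgeq
    have hd1 : HasDerivAt (fun x => MvPolynomial.eval (v0 + x • b1 + g x • b2) (hess P))
        (∑ i, b1 i * MvPolynomial.eval (v0 + (0:ℂ) • b1 + g 0 • b2)
          (MvPolynomial.pderiv i (hess P))) 0 := by
      apply hasDerivAt_eval3
      intro i
      have h1 : HasDerivAt (fun x : ℂ => v0 i + x * b1 i + g x * b2 i)
          (1 * b1 i + 0 * b2 i) 0 :=
        (((hasDerivAt_id (0:ℂ)).mul_const (b1 i)).const_add (v0 i)).add (hgd.mul_const (b2 i))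
      rw [one_mul, zero_mul, add_zero] at h1
      exact h1
    have hd2 : HasDerivAt (fun x => MvPolynomial.eval (v0 + x • b1 + g x • b2) (hess P)) 0 0 := by
      have h1 : HasDerivAt (fun x : ℂ => x ^ 2 * (u x * w x)) 0 0 := by
        have h2 := (hasDerivAt_pow 2 (0:ℂ)).mul
          (huan.differentiableAt.mul hw.differentiableAt).hasDerivAt
        have e : ((2 : ℕ) : ℂ) * 0 ^ (2 - 1) * (u * w) 0 + 0 ^ 2 * deriv (u * w) 0 = 0 := by
          simp
        rw [e] at h2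
        exact h2
      exact h1.congr_of_eventuallyEq hh
    have e1 := hd1.unique hd2
    rw [hv00] at e1
    have e0 : ∑ i, v0 i * MvPolynomial.eval v0 (MvPolynomial.pderiv i (hess P)) = 0 := by
      have h1 := euler3 (hess_hom hP.hom) v0
      rw [hz, mul_zero] at h1
      exact h1
    set a := (∑ i, b2 i * MvPolynomial.eval v0 (MvPolynomial.pderiv i (hess P))) / c with ha
    obtain ⟨i, hi⟩ := hfl v0 hv h0 hz a
    have hsub (b : Fin 3 → ℂ) : ∑ i, b i * (MvPolynomial.eval v0 (MvPolynomial.pderiv i (hess P)) -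
        a * Point.gr P v0 i) = ∑ i, b i * MvPolynomial.eval v0 (MvPolynomial.pderiv i (hess P)) -
        a * ∑ i, b i * Point.gr P v0 i := by
      rw [Finset.mul_sum, ← Finset.sum_sub_distrib]
      refine Finset.sum_congr rfl fun i _ => ?_
      ring
    have h4 := Point.eq_zero_of_basis (H := fun i =>
      MvPolynomial.eval v0 (MvPolynomial.pderiv i (hess P)) - a * Point.gr P v0 i) hdet
      (by rw [hsub, e0, hE0, mul_zero, sub_zero]) (by rw [hsub, e1, hb1, mul_zero, sub_zero])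
      (by rw [hsub, ← hc, ha, div_mul_cancel₀ _ hb2, sub_self])
    exact hi (sub_eq_zero.1 (congrFun h4 i))
  · filter_upwards [hgF] with p hp
    rw [hp]
    exact eq_comm

end Pool.Agent.MP_ae5b4e_an_GEN
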