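import Pool.Agent.Lib.MP_ae5b4e_an_GEN.Poly3
import Pool.Agent.Lib.MP_ae5b4e_an_GEN.Point
import Pool.Agent.Lib.MP_ae5b4e_an_GEN.Defs
import Pool.Agent.Lib.MP_ae5b4e_an_ALG.Branches

/-! # MP_ae5b4e_an, project GEN, module F1: the exceptional points of the projection -/

set_option autoImplicit false

noncomputable section

namespace Pool.Agent.MP_ae5b4e_an_GEN

open Filter Topology Set Metric
open scoped Polynomial
open Polynomial (evalEval)
open Pool.Agent.MP_ae5b4e_an_ND (cc cf co Dx Dy Filt Reg rts)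
open Pool.Agent.MP_ae5b4e_an_FLEX
open Pool.Agent.MP_ae5b4e_an_ALG (Dh)

namespace ExceptF

/-- the affine equation -/
def aff (P : MvPolynomial (Fin 3) ℂ) : ℂ[X][X] :=
  MvPolynomial.aeval ![Polynomial.C Polynomial.X, Polynomial.X, 1] P

theorem evalEval_aff (P : MvPolynomial (Fin 3) ℂ) (z η : ℂ) :
    evalEval z η (aff P) = MvPolynomial.eval ![z, η, 1] P := by
  have h : (Polynomial.evalEvalRingHom z η).comp
      (MvPolynomial.aeval ![Polynomial.C Polynomial.X, Polynomial.X, 1] :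
        MvPolynomial (Fin 3) ℂ →ₐ[ℂ] ℂ[X][X]).toRingHom = MvPolynomial.eval ![z, η, 1] := by
    apply MvPolynomial.ringHom_ext
    · intro r
      simp
    · intro i
      fin_cases i <;> simp
  exact RingHom.congr_fun h P

/-- a relation which does not hold on the branch holds at no root, outside of a finite set -/
theorem off_finite {m₁ : ℂ[X][X]}
    (hirr₁ : Irreducible (m₁.map (algebraMap ℂ[X] (RatFunc ℂ)))) {y : ℂ → ℂ} {e : ℂ}
    (hy : AnalyticAt ℂ y e) (hm : ∀ᶠ z in 𝓝 e, evalEval z (y z) m₁ = 0) {R : ℂ[X][X]}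
    (hR : ¬ ∀ᶠ z in 𝓝 e, evalEval z (y z) R = 0) :
    ∃ S : Set ℂ, S.Finite ∧ ∀ z ∉ S, ∀ η, evalEval z η m₁ = 0 → evalEval z η R ≠ 0 := by
  by_cases hdvd : m₁.map (algebraMap ℂ[X] (RatFunc ℂ)) ∣ R.map (algebraMap ℂ[X] (RatFunc ℂ))
  · exfalso
    obtain ⟨d, hd, H, hH⟩ := Pool.Agent.MP_ae5b4e_an_ND.clear_dvd hdvd
    have h1 : ∀ᶠ z in 𝓝[≠] e, evalEval z (y z) R = 0 := by
      filter_upwards [Pool.Agent.MP_ae5b4e_an_ALG.Branches.root_punct hd e,
        nhdsWithin_le_nhds hm] with z h2 h3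
      have h4 := congrArg (evalEval z (y z)) hH
      rw [Polynomial.evalEval_mul, Polynomial.evalEval_mul, Polynomial.evalEval_C, h3,
        mul_zero] at h4
      exact (mul_eq_zero.1 h4).resolve_left h2
    have han : AnalyticAt ℂ (fun z => evalEval z (y z) R) e := by
      have h5 := Pool.Agent.MP_ae5b4e_an_ND.analyticAt_evalEval R (e, y e)
      have h6 : AnalyticAt ℂ (fun z : ℂ => (z, y z)) e := analyticAt_id.prod hy
      exact AnalyticAt.comp (f := fun z : ℂ => (z, y z))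
        (g := fun q : ℂ × ℂ => evalEval q.1 q.2 R) h5 h6
    rcases han.eventually_eq_zero_or_eventually_ne_zero with h | h
    · exact hR h
    · obtain ⟨z, h2, h3⟩ := (h1.and h).exists
      exact h3 h2
  · have hco := (hirr₁.coprime_iff_not_dvd).2 hdvd
    obtain ⟨d, hd, A, B, hAB⟩ := Pool.Agent.MP_ae5b4e_an_ND.clear_coprime hco
    refine ⟨d.roots.toFinset, d.roots.toFinset.finite_toSet, fun z hz η h1 h2 => hz ?_⟩
    rw [Finset.mem_coe, Multiset.mem_toFinset, Polynomial.mem_roots hd, Polynomial.IsRoot.def]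
    have h4 := congrArg (evalEval z η) hAB
    rw [Polynomial.evalEval_add, Polynomial.evalEval_mul, Polynomial.evalEval_mul, h1, h2,
      Polynomial.evalEval_C] at h4
    simpa using h4.symm

theorem vec_ne (a b : ℂ) : (![a, b, 1] : Fin 3 → ℂ) ≠ 0 := by
  intro h
  have := congrFun h 2
  simp at this

theorem Py_ne {P : MvPolynomial (Fin 3) ℂ} {n : ℕ} (hP : SmoothCurve P n) {y : ℂ → ℂ} {e : ℂ}
    (hy : AnalyticAt ℂ y e) (hPy : ∀ᶠ z in 𝓝 e, MvPolynomial.eval ![z, y z, 1] P = 0) :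
    ¬ ∀ᶠ z in 𝓝 e, MvPolynomial.eval ![z, y z, 1] (MvPolynomial.pderiv 1 P) = 0 := by
  intro h
  have h1 := h.self_of_nhds
  have h0 := hPy.self_of_nhds
  have hd : HasDerivAt (fun z => MvPolynomial.eval ![z, y z, 1] P)
      (∑ i, ![1, deriv y e, 0] i * MvPolynomial.eval ![e, y e, 1] (MvPolynomial.pderiv i P)) e := by
    apply hasDerivAt_eval3 (v := fun z => ![z, y z, 1])
    intro i
    fin_cases i
    · exact hasDerivAt_id e
    · exact hy.differentiableAt.hasDerivAt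
    · exact hasDerivAt_const e (1:ℂ)
  have hd0 : HasDerivAt (fun z => MvPolynomial.eval ![z, y z, 1] P) 0 e :=
    (hasDerivAt_const e (0:ℂ)).congr_of_eventuallyEq (hPy.mono fun z hz => hz)
  have hx := hd.unique hd0
  have he := euler3 hP.hom ![e, y e, 1]
  rw [Fin.sum_univ_three] at hx he
  rw [h0] at he
  simp only [Matrix.cons_val_zero, Matrix.cons_val_one, Matrix.cons_val_two, Matrix.tail_cons,
    Matrix.head_cons, h1, mul_zero, zero_mul, add_zero, one_mul] at hx he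
  rw [hx] at he
  obtain ⟨i, hi⟩ := hP.ns ![e, y e, 1] (vec_ne _ _) h0
  apply hi
  fin_cases i
  · exact hx
  · exact h1
  · simpa using he

theorem const_of_deriv {g : ℂ → ℂ} (hg : AnalyticAt ℂ g 0) (h : ∀ᶠ t in 𝓝 (0:ℂ), deriv g t = 0) :
    ∀ᶠ t in 𝓝 (0:ℂ), g t = g 0 := by
  have h1 := hg.analyticOrderAt_deriv_add_one
  have h2 : analyticOrderAt (deriv g) 0 = ⊤ := analyticOrderAt_eq_top.2 h
  rw [h2, top_add] at h1
  filter_upwards [analyticOrderAt_eq_top.1 h1.symm] with t ht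
  exact sub_eq_zero.1 ht

theorem hess_ne {P : MvPolynomial (Fin 3) ℂ} {n : ℕ} (hP : SmoothCurve P n) (hn : 2 ≤ n)
    {y : ℂ → ℂ} {e : ℂ}
    (hy : AnalyticAt ℂ y e) (hPy : ∀ᶠ z in 𝓝 e, MvPolynomial.eval ![z, y z, 1] P = 0) :
    ¬ ∀ᶠ z in 𝓝 e, MvPolynomial.eval ![z, y z, 1] (hess P) = 0 := by
  intro h
  obtain ⟨b1, b2, g, g1, u, f, hdet, hg1, hg10, hg, -, -, hloc, hu, hu0, hh⟩ :=
    smooth_point hP hn (v0 := ![e, y e, 1]) (vec_ne _ _) hPy.self_of_nhds
  -- the second derivative of `g`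
  have hga : AnalyticAt ℂ g 0 := by
    have : AnalyticAt ℂ (fun x : ℂ => x ^ (f + 2) * g1 x) 0 := (analyticAt_id.pow _).mul hg1
    exact this.congr (hg.mono fun x hx => hx.symm)
  have hg0 : g 0 = 0 := by
    have := hg.self_of_nhds
    simpa using this
  have hg2 : ∀ᶠ t in 𝓝[≠] (0:ℂ), deriv (deriv g) t ≠ 0 := by
    rcases hga.deriv.deriv.eventually_eq_zero_or_eventually_ne_zero with h2 | h2
    · exfalso
      have h3 := const_of_deriv hga.deriv h2
      have hd : deriv g 0 = 0 := by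
        have e1 : deriv g 0 = deriv (fun x : ℂ => x ^ (f + 2) * g1 x) 0 :=
          Filter.EventuallyEq.deriv_eq hg
        have e2 : HasDerivAt (fun x : ℂ => x ^ (f + 2) * g1 x) 0 0 := by
          have e3 := (hasDerivAt_pow (f + 2) (0:ℂ)).fun_mul hg1.differentiableAt.hasDerivAt
          refine HasDerivAt.congr_deriv e3 ?_
          simp
        rw [e1, e2.deriv]
      rw [hd] at h3
      have h4 := const_of_deriv hga h3
      rw [hg0] at h4
      have h5 : ∀ᶠ x in 𝓝 (0:ℂ), g1 x ≠ 0 := hg1.continuousAt.eventually_ne hg10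
      have h6 : ∀ᶠ x in 𝓝[≠] (0:ℂ), (g x = 0 ∧ g x = x ^ (f + 2) * g1 x) ∧ g1 x ≠ 0 :=
        nhdsWithin_le_nhds ((h4.and hg).and h5)
      obtain ⟨x, ⟨⟨h7, h8⟩, h9⟩, h10⟩ := (h6.and self_mem_nhdsWithin).exists
      rw [h7] at h8
      exact (mul_ne_zero (pow_ne_zero _ h10) h9) h8.symm
    · exact h2
  -- coordinates
  set M : Matrix (Fin 3) (Fin 3) ℂ := Matrix.of ![![e, y e, 1], b1, b2] with hM
  have hMu : IsUnit M.det := isUnit_iff_ne_zero.2 hdet
  obtain ⟨c, hcd⟩ : ∃ c : ℂ → Fin 3 → ℂ, c = fun z => Matrix.vecMul ![z, y z, 1] M⁻¹ := ⟨_, rfl⟩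
  have hsum : ∀ w : Fin 3 → ℂ, Matrix.vecMul w M = w 0 • ![e, y e, 1] + w 1 • b1 + w 2 • b2 := by
    intro w
    funext j
    rw [Matrix.vecMul, dotProduct, Fin.sum_univ_three, hM]
    rfl
  have hc : ∀ z, ![z, y z, 1] = c z 0 • ![e, y e, 1] + c z 1 • b1 + c z 2 • b2 := by
    intro z
    rw [← hsum, hcd]
    simp only
    rw [Matrix.vecMul_vecMul, Matrix.nonsing_inv_mul M hMu, Matrix.vecMul_one]
  have hce : c e = ![1, 0, 0] := by
    have h2 : ![e, y e, 1] = Matrix.vecMul ![1, 0, 0] M := by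
      rw [hsum]
      simp
    rw [hcd]
    simp only
    rw [h2, Matrix.vecMul_vecMul, Matrix.mul_nonsing_inv M hMu, Matrix.vecMul_one]
  have hca : ∀ i, AnalyticAt ℂ (fun z => c z i) e := by
    intro i
    have e1 : (fun z => c z i) = fun z => z * M⁻¹ 0 i + y z * M⁻¹ 1 i + M⁻¹ 2 i := by
      funext z
      rw [hcd]
      simp [Matrix.vecMul, dotProduct, Fin.sum_univ_three]
    rw [e1]
    exact ((analyticAt_id.mul analyticAt_const).add (hy.mul analyticAt_const)).add analyticAt_const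
  have hc0 : ∀ᶠ z in 𝓝 e, c z 0 ≠ 0 := by
    apply (hca 0).continuousAt.eventually_ne
    rw [hce]
    simp
  have hxa : ∀ i, ContinuousAt (fun z => c z i / c z 0) e := by
    intro i
    apply (hca i).continuousAt.div (hca 0).continuousAt
    rw [hce]
    simp
  have hx0 : Tendsto (fun z => c z 1 / c z 0) (𝓝 e) (𝓝 0) := by
    have h2 := (hxa 1).tendsto
    rw [hce] at h2
    simpa using h2
  have hs0 : Tendsto (fun z => c z 2 / c z 0) (𝓝 e) (𝓝 0) := by
    have h2 := (hxa 2).tendsto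
    rw [hce] at h2
    simpa using h2
  have hpt : ∀ z, c z 0 ≠ 0 → ![e, y e, 1] + (c z 1 / c z 0) • b1 + (c z 2 / c z 0) • b2 =
      (c z 0)⁻¹ • ![z, y z, 1] := by
    intro z hz
    rw [hc z, smul_add, smul_add, smul_smul, smul_smul, smul_smul, inv_mul_cancel₀ hz, one_smul,
      div_eq_inv_mul, div_eq_inv_mul]
  have hloc' := (hx0.prodMk_nhds hs0).eventually hloc
  have hh' := hx0.eventually hh
  have hu' := hx0.eventually (hu.continuousAt.eventually_ne hu0)
  have hg2' : ∀ᶠ t in 𝓝 (0:ℂ), t = 0 ∨ deriv (deriv g) t ≠ 0 := by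
    rw [eventually_nhdsWithin_iff] at hg2
    filter_upwards [hg2] with t ht
    by_cases h2 : t = 0
    · exact Or.inl h2
    · exact Or.inr (ht h2)
  have hg3 := hx0.eventually hg2'
  have hfin : ∀ᶠ z in 𝓝 e, z = e := by
    filter_upwards [hloc', hh', hu', hg3, hc0, h, hPy] with z k1 k2 k3 k4 k5 k6 k7
    have e1 := hpt z k5
    rw [e1, eval_smul3 hP.hom, k7, mul_zero] at k1
    have k8 : c z 2 / c z 0 = g (c z 1 / c z 0) := k1.1 rfl
    rw [← k8, e1, eval_smul3 (hess_hom hP.hom), k6, mul_zero] at k2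
    have k9 : deriv (deriv g) (c z 1 / c z 0) = 0 := (mul_eq_zero.1 k2.symm).resolve_left k3
    have k10 : c z 1 / c z 0 = 0 := by
      rcases k4 with k4 | k4
      · exact k4
      · exact absurd k9 k4
    rw [k10, hg0] at k8
    have k11 : c z 1 = 0 := by
      rcases div_eq_zero_iff.1 k10 with k | k
      · exact k
      · exact absurd k k5
    have k12 : c z 2 = 0 := by
      rcases div_eq_zero_iff.1 k8 with k | k
      · exact k
      · exact absurd k k5
    have k13 := hc z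
    rw [k11, k12, zero_smul, zero_smul, add_zero, add_zero] at k13
    have k14 := congrFun k13 2
    have k15 := congrFun k13 0
    simp at k14 k15
    rw [k15, ← k14, one_mul]
  have hfin' : ∀ᶠ z in 𝓝[≠] e, z = e := nhdsWithin_le_nhds hfin
  obtain ⟨z, h1, h2⟩ := (hfin'.and self_mem_nhdsWithin).exists
  exact h2 h1

end ExceptF

open ExceptF

/-- the exceptional points of the projection -/
theorem exc_finite {P : MvPolynomial (Fin 3) ℂ} {n : ℕ} (hP : SmoothCurve P n) (hn : 2 ≤ n)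
    {m₁ : ℂ[X][X]} (hirr₁ : Irreducible (m₁.map (algebraMap ℂ[X] (RatFunc ℂ)))) {y : ℂ → ℂ} {e : ℂ}
    (hy : AnalyticAt ℂ y e) (hm : ∀ᶠ z in 𝓝 e, evalEval z (y z) m₁ = 0)
    (hPy : ∀ᶠ z in 𝓝 e, MvPolynomial.eval ![z, y z, 1] P = 0) :
    ∃ S : Set ℂ, S.Finite ∧ ∀ z ∉ S, Reg m₁ z ∧ ∀ η, evalEval z η m₁ = 0 →
      MvPolynomial.eval ![z, η, 1] P = 0 ∧
      MvPolynomial.eval ![z, η, 1] (MvPolynomial.pderiv 1 P) ≠ 0 ∧
      MvPolynomial.eval ![z, η, 1] (hess P) ≠ 0 := by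
  have h1 : ¬ ∀ᶠ z in 𝓝 e, evalEval z (y z) (aff (MvPolynomial.pderiv 1 P)) = 0 := by
    simp only [evalEval_aff]
    exact Py_ne hP hy hPy
  have h2 : ¬ ∀ᶠ z in 𝓝 e, evalEval z (y z) (aff (hess P)) = 0 := by
    simp only [evalEval_aff]
    exact hess_ne hP hn hy hPy
  obtain ⟨S1, hS1, h3⟩ := off_finite hirr₁ hy hm h1
  obtain ⟨S2, hS2, h4⟩ := off_finite hirr₁ hy hm h2
  have h5 : ∀ᶠ z in 𝓝 e, evalEval z (y z) (aff P) = 0 := by
    simp only [evalEval_aff]
    exact hPy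
  refine ⟨{x : ℂ | ¬ Reg m₁ x} ∪ S1 ∪ S2,
    ((Pool.Agent.MP_ae5b4e_an_ND.reg_finite hirr₁).union hS1).union hS2, fun z hz => ?_⟩
  have hzr : Reg m₁ z := by
    by_contra hcon
    exact hz (Or.inl (Or.inl hcon))
  have hz1 : z ∉ S1 := fun hcon => hz (Or.inl (Or.inr hcon))
  have hz2 : z ∉ S2 := fun hcon => hz (Or.inr hcon)
  refine ⟨hzr, fun η hη => ⟨?_, ?_, ?_⟩⟩
  · have := Pool.Agent.MP_ae5b4e_an_ALG.branch_rel hirr₁ hy hm h5 hzr hη
    rwa [evalEval_aff] at this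
  · have := h3 z hz1 η hη
    rwa [evalEval_aff] at this
  · have := h4 z hz2 η hη
    rwa [evalEval_aff] at this

end Pool.Agent.MP_ae5b4e_an_GEN
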