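import Mathlib
import Pool.Agent.Lib.MP_ae5b4e_an_GEN.Defs
import Pool.Agent.Lib.MP_ae5b4e_an_FLEX.GeoProp
import Pool.Agent.Lib.MP_ae5b4e_an_ALG.Trans
import Pool.Agent.Lib.MP_ae5b4e_an_ALG.Branches
import Pool.Agent.Lib.MP_ae5b4e_an_LAT.NDAll

/-! Project GEN (MP_ae5b4e_an), module T1: good pairs of branches. -/

set_option autoImplicit false

noncomputable section

namespace Pool.Agent.MP_ae5b4e_an_GEN

open Filter Topology Set Metric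
open scoped Polynomial
open Polynomial (evalEval)
open Pool.Agent.MP_ae5b4e_an_ND (cc cf co Dx Dy Filt Reg rts)
open Pool.Agent.MP_ae5b4e_an_FLEX
open Pool.Agent.MP_ae5b4e_an_ALG (Dh)

namespace Pairs

theorem good_congr {y y' k k' : ℂ → ℂ} {z : ℂ} (hy : ∀ᶠ x in 𝓝 z, y x = y' x)
    (hk : ∀ᶠ x in 𝓝 z, k x = k' x) (hg : ∀ᶠ s in 𝓝[≠] z, GoodG (fun x => x) y k s) :
    ∀ᶠ s in 𝓝[≠] z, GoodG (fun x => x) y' k' s := by
  filter_upwards [hg, nhdsWithin_le_nhds hy.eventually_nhds,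
    nhdsWithin_le_nhds hk.eventually_nhds] with s h1 h2 h3
  exact Pool.Agent.MP_ae5b4e_an_ALG.goodG_congr h1 (EventuallyEq.refl _ _) h2 h3

theorem good_ball {y k : ℂ → ℂ} {x₀ : ℂ} {ε : ℝ}
    (hy : ∀ x ∈ ball x₀ ε, AnalyticAt ℂ y x) (hk : ∀ x ∈ ball x₀ ε, AnalyticAt ℂ k x) {x : ℂ}
    (hx : x ∈ ball x₀ ε) (h : ∀ᶠ s in 𝓝[≠] x, GoodG (fun x => x) y k s) :
    ∀ u ∈ ball x₀ ε, ∀ᶠ s in 𝓝[≠] u, GoodG (fun x => x) y k s := by
  have h1 : ∀ᶠ s in 𝓝[≠] x, s ∈ ball x₀ ε := nhdsWithin_le_nhds (isOpen_ball.mem_nhds hx)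
  obtain ⟨s, hs1, hs2⟩ := (h.and h1).exists
  exact goodG_all isOpen_ball (convex_ball x₀ ε).isPreconnected
    differentiable_id.differentiableOn
    (fun u hu => (hy u hu).differentiableAt.differentiableWithinAt)
    (fun u hu => (hk u hu).differentiableAt.differentiableWithinAt) hs2 hs1

end Pairs

variable {m₁ m₂ : ℂ[X][X]}

theorem gp_iff {z : ℂ} (h1 : Reg m₁ z) (h2 : Reg m₂ z) {y k : ℂ → ℂ} (hy : AnalyticAt ℂ y z)
    (hk : AnalyticAt ℂ k z) (hy' : ∀ᶠ x in 𝓝 z, evalEval x (y x) m₁ = 0)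
    (hk' : ∀ᶠ x in 𝓝 z, evalEval x (k x) m₂ = 0) :
    GP m₁ m₂ z (y z) (k z) ↔ ∀ᶠ s in 𝓝[≠] z, GoodG (fun x => x) y k s := by
  constructor
  · rintro ⟨y1, k1, hy1, hk1, hy0, hk0, hm1, hm2, hg⟩
    exact Pairs.good_congr
      (Pool.Agent.MP_ae5b4e_an_ND.branch_unique hy1.continuousAt hy.continuousAt hy0
        (h1.2 _ hm1.self_of_nhds) hm1 hy')
      (Pool.Agent.MP_ae5b4e_an_ND.branch_unique hk1.continuousAt hk.continuousAt hk0
        (h2.2 _ hm2.self_of_nhds) hm2 hk') hg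
  · intro h
    exact ⟨y, k, hy, hk, rfl, rfl, hy', hk', h⟩

/-- goodness is locally constant along pairs of branches -/
theorem gp_loc (hirr₁ : Irreducible (m₁.map (algebraMap ℂ[X] (RatFunc ℂ))))
    (hirr₂ : Irreducible (m₂.map (algebraMap ℂ[X] (RatFunc ℂ)))) {z : ℂ}
    (h1 : Reg m₁ z) (h2 : Reg m₂ z) {y k : ℂ → ℂ} (hy : AnalyticAt ℂ y z)
    (hk : AnalyticAt ℂ k z) (hy' : ∀ᶠ x in 𝓝 z, evalEval x (y x) m₁ = 0)
    (hk' : ∀ᶠ x in 𝓝 z, evalEval x (k x) m₂ = 0) :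
    ∀ᶠ x in 𝓝 z, (GP m₁ m₂ x (y x) (k x) ↔ GP m₁ m₂ z (y z) (k z)) := by
  obtain ⟨ε, hε, hball⟩ := Metric.eventually_nhds_iff_ball.1
    ((hy.eventually_analyticAt.and hk.eventually_analyticAt).and
      ((hy'.eventually_nhds.and hk'.eventually_nhds).and
      ((Pool.Agent.MP_ae5b4e_an_ND.Reg.eventually hirr₁ h1).and
        (Pool.Agent.MP_ae5b4e_an_ND.Reg.eventually hirr₂ h2))))
  have hya : ∀ x ∈ ball z ε, AnalyticAt ℂ y x := fun x hx => (hball x hx).1.1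
  have hka : ∀ x ∈ ball z ε, AnalyticAt ℂ k x := fun x hx => (hball x hx).1.2
  filter_upwards [Metric.ball_mem_nhds z hε] with x hx
  rw [gp_iff (hball x hx).2.2.1 (hball x hx).2.2.2 (hya x hx) (hka x hx) (hball x hx).2.1.1
    (hball x hx).2.1.2, gp_iff h1 h2 hy hk hy' hk']
  exact ⟨fun h => Pairs.good_ball hya hka hx h z (mem_ball_self hε),
    fun h => Pairs.good_ball hya hka (mem_ball_self hε) h x hx⟩

namespace Pairs

/-- the root along the curve is the branch -/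
theorem branch_comp {m : ℂ[X][X]} {X Y y : ℂ → ℂ} {w : ℂ} (hX : AnalyticAt ℂ X w)
    (hY : AnalyticAt ℂ Y w) (hreg : Reg m (X w)) (hy : AnalyticAt ℂ y (X w)) (h0 : y (X w) = Y w)
    (hy' : ∀ᶠ x in 𝓝 (X w), evalEval x (y x) m = 0)
    (hr : ∀ᶠ s in 𝓝 w, evalEval (X s) (Y s) m = 0) : ∀ᶠ s in 𝓝 w, y (X s) = Y s := by
  obtain ⟨b, hb1, hb2, hb3⟩ := Pool.Agent.MP_ae5b4e_an_ND.branch hr.self_of_nhds
    (hreg.2 _ hr.self_of_nhds)
  have hb4 := Pool.Agent.MP_ae5b4e_an_ND.branch_eq hb1.continuousAt hb2 hb3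
  have hby : ∀ᶠ x in 𝓝 (X w), b x = y x :=
    Pool.Agent.MP_ae5b4e_an_ND.branch_unique hb1.continuousAt hy.continuousAt (by rw [hb2, h0])
      (hreg.2 _ hb4.self_of_nhds) hb4 hy'
  have hpair : Tendsto (fun z => (X z, Y z)) (𝓝 w) (𝓝 (X w, Y w)) := by
    rw [nhds_prod_eq]
    exact hX.continuousAt.tendsto.prodMk hY.continuousAt.tendsto
  filter_upwards [hpair.eventually hb3, hr, hX.continuousAt.tendsto.eventually hby]
    with s hs1 hs2 hs3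
  rw [← hs3]
  exact hs1.1 hs2

end Pairs

/-- from good pairs to good points of a place -/
theorem gp_place (hirr₁ : Irreducible (m₁.map (algebraMap ℂ[X] (RatFunc ℂ))))
    (hirr₂ : Irreducible (m₂.map (algebraMap ℂ[X] (RatFunc ℂ)))) {X Y k : ℂ → ℂ}
    (hX : MeromorphicAt X 0) (hX' : ∀ᶠ w in 𝓝[≠] (0:ℂ), deriv X w ≠ 0 ∧ Reg m₁ (X w) ∧ Reg m₂ (X w))
    (h : PairPlace m₁ m₂ (GP m₁ m₂) X Y k) :
    ∀ᶠ w in 𝓝[≠] (0:ℂ), GoodG X Y (fun w => deriv X w * k w) w := by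
  have hXY : ∀ᶠ w in 𝓝[≠] (0:ℂ), (AnalyticAt ℂ X w ∧ AnalyticAt ℂ Y w ∧ AnalyticAt ℂ k w) ∧
      (deriv X w ≠ 0 ∧ Reg m₁ (X w) ∧ Reg m₂ (X w)) ∧
      (evalEval (X w) (Y w) m₁ = 0 ∧ evalEval (X w) (k w) m₂ = 0) ∧
      GP m₁ m₂ (X w) (Y w) (k w) := by
    filter_upwards [hX.eventually_analyticAt, h.merY.eventually_analyticAt,
      h.merk.eventually_analyticAt, hX', h.root₁, h.root₂, h.mem] with w a b c d e f g
    exact ⟨⟨a, b, c⟩, d, ⟨e, f⟩, g⟩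
  -- good points near every point outside `0`
  have hstep : ∀ᶠ w in 𝓝[≠] (0:ℂ), ∀ᶠ w' in 𝓝[≠] w,
      GoodG X Y (fun w => deriv X w * k w) w' := by
    filter_upwards [hXY, Pool.Agent.MP_ae5b4e_an_ALG.Branches.punct_nhds hXY] with w hw hw'
    obtain ⟨⟨hXw, hYw, hkw⟩, ⟨hdw, hreg1, hreg2⟩, -, y, kb, hy, hkb, hy0, hk0, hy', hk', hgood⟩ :=
      hw
    have htend : Tendsto X (𝓝[≠] w) (𝓝[≠] (X w)) :=
      hXw.differentiableAt.hasDerivAt.tendsto_nhdsNE hdw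
    have hYe := Pairs.branch_comp hXw hYw hreg1 hy hy0 hy' (hw'.mono fun s hs => hs.2.2.1.1)
    have hke := Pairs.branch_comp hXw hkw hreg2 hkb hk0 hk' (hw'.mono fun s hs => hs.2.2.1.2)
    filter_upwards [htend.eventually hgood, nhdsWithin_le_nhds hYe.eventually_nhds,
      nhdsWithin_le_nhds hke.eventually_nhds, nhdsWithin_le_nhds hw'] with w' h1 h2 h3 h4
    have h5 := Pool.Agent.MP_ae5b4e_an_ALG.goodG_comp h4.1.1 h4.2.1.1 h1
    refine Pool.Agent.MP_ae5b4e_an_ALG.goodG_congr h5 (EventuallyEq.refl _ _) ?_ ?_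
    · exact h2
    · filter_upwards [h3] with s hs
      rw [hs]
  -- the Wronskian
  have hWm : MeromorphicAt (Wr X Y) 0 :=
    (hX.deriv.mul h.merY.deriv.deriv).sub (h.merY.deriv.mul hX.deriv.deriv)
  have hW : ∀ᶠ w in 𝓝[≠] (0:ℂ), Wr X Y w ≠ 0 := by
    refine hWm.eventually_eq_zero_or_eventually_ne_zero.resolve_left fun h0 => ?_
    obtain ⟨w, hw1, hw2⟩ :=
      (hstep.and (Pool.Agent.MP_ae5b4e_an_ALG.Branches.punct_nhds h0)).exists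
    obtain ⟨w', h1, h2⟩ := (hw1.and (nhdsWithin_le_nhds hw2)).exists
    exact h1.1.2.2.2 h2
  have hall : ∀ᶠ w in 𝓝[≠] (0:ℂ), RegG X Y (fun w => deriv X w * k w) w ∧
      ∀ᶠ w' in 𝓝[≠] w, GoodG X Y (fun w => deriv X w * k w) w' := by
    filter_upwards [hXY, hW, hstep] with w h1 h2 h3
    exact ⟨⟨h1.1.1, h1.1.2.1, h1.1.1.deriv.mul h1.1.2.2, h2⟩, h3⟩
  rw [eventually_nhdsWithin_iff] at hall
  obtain ⟨r, hr, hball⟩ := Metric.eventually_nhds_iff_ball.1 hall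
  have hO : IsOpen (ball (0:ℂ) r \ {0}) := isOpen_ball.sdiff isClosed_singleton
  have hOm : ∀ᶠ w in 𝓝[≠] (0:ℂ), w ∈ ball (0:ℂ) r \ {0} := by
    filter_upwards [nhdsWithin_le_nhds (ball_mem_nhds (0:ℂ) hr), self_mem_nhdsWithin] with w h1 h2
    exact ⟨h1, h2⟩
  obtain ⟨w, hw⟩ := hOm.exists
  have h1 : ∀ᶠ w' in 𝓝[≠] w, w' ∈ ball (0:ℂ) r \ {0} := nhdsWithin_le_nhds (hO.mem_nhds hw)
  obtain ⟨w', hw'1, hw'2⟩ := (((hball w hw.1) hw.2).2.and h1).exists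
  have h2 := goodG_conn hO (GeoProp.punct_preconn 0 hr)
    (fun t ht => ((hball t ht.1) ht.2).1) hw'2 hw'1
  filter_upwards [hOm] with s hs
  exact h2 s hs

end Pool.Agent.MP_ae5b4e_an_GEN
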