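import Mathlib
import Pool.Agent.Lib.MP_ae5b4e_an_GEN.Defs
import Pool.Agent.Lib.MP_ae5b4e_an_FLEX.One

/-!
# MP_ae5b4e_an, project GEN, module U1: the logarithmic derivative on the tangent line
-/

set_option autoImplicit false

noncomputable section

namespace Pool.Agent.MP_ae5b4e_an_GEN

open Filter Topology Set Metric
open scoped Polynomial
open Polynomial (evalEval)
open Pool.Agent.MP_ae5b4e_an_ND (cc cf co Dx Dy Filt Reg rts)
open Pool.Agent.MP_ae5b4e_an_FLEX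
open Pool.Agent.MP_ae5b4e_an_ALG (Dh)

open OneV in
/-- the logarithmic derivative on the tangent line -/
theorem psi_of_germ {m1 A0 Q r M : ℂ → ℂ} (hm : AnalyticAt ℂ m1 0) (hm0 : m1 0 = 0)
    (hm1 : deriv m1 0 ≠ 0) (hA : AnalyticAt ℂ A0 0) (hA0 : A0 0 = 0) (hA1 : deriv A0 0 = 1)
    (hA2 : deriv (deriv A0) 0 ≠ -2) (hmA : ∀ᶠ η in 𝓝 (0:ℂ), m1 (-(A0 η)) = -m1 η)
    (hQ : AnalyticAt ℂ Q 0) (hQ0 : Q 0 = 0) (hQ1 : deriv Q 0 = -deriv (deriv A0) 0 / 2)
    (hFI : ∀ᶠ η in 𝓝 (0:ℂ), Q (A0 η / (1 - A0 η)) * (1 - (A0 η + (Q η - η) * deriv A0 η)) =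
      A0 η + (Q η - η) * deriv A0 η)
    (hr : ∃ R > 0, ∀ U : ℂ, R < ‖U‖ → DifferentiableAt ℂ r U ∧ DifferentiableAt ℂ M U ∧
      m1 (r U - 1) = U⁻¹ ∧ r (-(M U)) = (r U)⁻¹)
    (hrinf : Tendsto r (Bornology.cobounded ℂ) (𝓝 1))
    (hMinf : Tendsto M (Bornology.cobounded ℂ) (Bornology.cobounded ℂ)) :
    ∃ R psi, Psi (1 + deriv (deriv A0) 0 / 2) r M R psi := by
  have hdQ : 1 + deriv (deriv A0) 0 / 2 = 1 - deriv Q 0 := by rw [hQ1]; ring
  have hd0 : 1 - deriv Q 0 ≠ 0 := by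
    rw [← hdQ]
    intro h0
    apply hA2
    linear_combination 2 * h0
  rw [hdQ]
  set d : ℂ := 1 - deriv Q 0 with hd
  -- local inverse of m1
  have hs : HasStrictDerivAt m1 (deriv m1 0) 0 := hm.hasStrictDerivAt
  obtain ⟨L, hL⟩ : ∃ L : ℂ → ℂ, ∀ᶠ η in 𝓝 (0:ℂ), L (m1 η) = η :=
    ⟨_, hs.eventually_left_inverse hm1⟩
  have ht1 : Tendsto (fun η => -(A0 η)) (𝓝 0) (𝓝 0) := by
    have := hA.continuousAt.tendsto.neg
    rwa [hA0, neg_zero] at this
  have hinv : ∀ᶠ η in 𝓝 (0:ℂ), A0 (-(A0 η)) = -η := by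
    have ht2 : Tendsto (fun η => -(A0 (-(A0 η)))) (𝓝 0) (𝓝 0) := ht1.comp ht1
    filter_upwards [ht2.eventually hL, hL, hmA, ht1.eventually hmA] with η h1 h2 h3 h4
    rw [h4, h3, neg_neg, h2] at h1
    rw [← neg_neg (A0 (-(A0 η))), ← h1]
  set g : ℂ → ℂ := fun η => d / (η - Q η) with hg
  have hgerm := germ_main hA hA0 hA1 hA2 hinv hQ hQ0 hQ1 hFI hg
  -- eventual properties at infinity
  have hr1 : Tendsto (fun U => r U - 1) (Bornology.cobounded ℂ) (𝓝 0) := by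
    have := hrinf.sub_const 1
    rwa [sub_self] at this
  have hneg : Tendsto (fun U : ℂ => -U) (Bornology.cobounded ℂ) (Bornology.cobounded ℂ) :=
    Filter.tendsto_neg_cobounded
  obtain ⟨R0, hR0, hinf⟩ := hr
  have hE0 : ∀ᶠ U : ℂ in Bornology.cobounded ℂ, R0 < ‖U‖ := by
    have := (Filter.hasBasis_cobounded_norm (E := ℂ)).mem_of_mem (i := R0 + 1) trivial
    filter_upwards [this] with U hU
    have : R0 + 1 ≤ ‖U‖ := hU
    linarith
  have hm0U : ∀ᶠ U : ℂ in Bornology.cobounded ℂ, m1 (r U - 1) = U⁻¹ := by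
    filter_upwards [hE0] with U hU
    exact (hinf U hU).2.2.1
  have hpun : Tendsto (fun U => r U - 1) (Bornology.cobounded ℂ) (𝓝[≠] 0) := by
    refine tendsto_nhdsWithin_iff.2 ⟨hr1, ?_⟩
    filter_upwards [hE0, hm0U] with U hU h1 h2
    have h3 : r U - 1 = 0 := h2
    rw [h3, hm0] at h1
    have h4 : U = 0 := inv_eq_zero.1 h1.symm
    rw [h4, norm_zero] at hU
    linarith
  have hodd0 : ∀ᶠ U : ℂ in Bornology.cobounded ℂ, r (-U) - 1 = -(A0 (r U - 1)) := by
    have ht := ht1.comp hr1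
    filter_upwards [hm0U, hneg.eventually hm0U, (hr1.comp hneg).eventually hL, ht.eventually hL,
      hr1.eventually hmA] with U h1 h2 h3 h4 h5
    have h6 : m1 (r (-U) - 1) = m1 (-(A0 (r U - 1))) := by
      rw [h2, h5, h1, inv_neg]
    have h3' : L (m1 (r (-U) - 1)) = r (-U) - 1 := h3
    have h4' : L (m1 (-(A0 (r U - 1)))) = -(A0 (r U - 1)) := h4
    rw [← h3', h6, h4']
  have hall : ∀ᶠ U : ℂ in Bornology.cobounded ℂ, r U - 1 ≠ 0 ∧
      (r U - 1 - Q (r U - 1) ≠ 0 ∧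
      g (r U - 1) = d / (1 + (r U - 1)) - g (-(r U - 1) / (1 + (r U - 1))) / (1 + (r U - 1)) ^ 2 ∧
      g (r U - 1) = -deriv A0 (r U - 1) * g (-(A0 (r U - 1)))) ∧
      AnalyticAt ℂ Q (r U - 1) ∧ AnalyticAt ℂ A0 (r U - 1) ∧ AnalyticAt ℂ m1 (r U - 1) ∧
      deriv m1 (r U - 1) ≠ 0 ∧ r (-U) - 1 = -(A0 (r U - 1)) ∧ r U ≠ 0 := by
    have hdm : ∀ᶠ η in 𝓝 (0:ℂ), deriv m1 η ≠ 0 :=
      hm.deriv.continuousAt.eventually_ne hm1
    have hrn : ∀ᶠ U : ℂ in Bornology.cobounded ℂ, r U ≠ 0 := by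
      have : ∀ᶠ z in 𝓝 (1:ℂ), z ≠ 0 := eventually_ne_nhds one_ne_zero
      exact hrinf.eventually this
    filter_upwards [hpun.eventually self_mem_nhdsWithin, hpun.eventually hgerm,
      hr1.eventually hQ.eventually_analyticAt, hr1.eventually hA.eventually_analyticAt,
      hr1.eventually hm.eventually_analyticAt, hr1.eventually hdm, hodd0, hrn] with U h1 h2 h3 h4
      h5 h6 h7 h8
    exact ⟨h1, h2, h3, h4, h5, h6, h7, h8⟩
  obtain ⟨R1, -, hR1⟩ := (Filter.hasBasis_cobounded_norm (E := ℂ)).eventually_iff.1 hall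
  set R : ℝ := max R0 R1 with hR
  have hRpos : 0 < R := lt_of_lt_of_le hR0 (le_max_left _ _)
  have hRA : ∀ U : ℂ, R < ‖U‖ → R0 < ‖U‖ := fun U hU => (le_max_left _ _).trans_lt hU
  have hB : ∀ U : ℂ, R < ‖U‖ → R1 ≤ ‖U‖ := fun U hU => (le_max_right _ _).trans hU.le
  have hopen : IsOpen {U : ℂ | R < ‖U‖} := isOpen_lt continuous_const continuous_norm
  have hnh : ∀ U : ℂ, R < ‖U‖ → ∀ᶠ V in 𝓝 U, R < ‖V‖ := fun U hU => hopen.mem_nhds hU
  have hrd : DifferentiableOn ℂ r {U : ℂ | R < ‖U‖} := fun U hU =>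
    ((hinf U (hRA U hU)).1).differentiableWithinAt
  -- derivative of r
  have hder : ∀ U : ℂ, R < ‖U‖ → deriv m1 (r U - 1) * deriv r U = -(U ^ 2)⁻¹ := by
    intro U hU
    have hrU := (hinf U (hRA U hU)).1
    obtain ⟨-, -, -, -, hmA, -⟩ := hR1 (hB U hU)
    have hU0 : U ≠ 0 := by
      rintro rfl
      rw [norm_zero] at hU
      linarith
    have e1 : HasDerivAt (fun V => m1 (r V - 1)) (deriv m1 (r U - 1) * deriv r U) U :=
      hmA.differentiableAt.hasDerivAt.comp U (hrU.hasDerivAt.sub_const 1)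
    have e2 : HasDerivAt (fun V : ℂ => V⁻¹) (-(U ^ 2)⁻¹) U := hasDerivAt_inv hU0
    have e3 : (fun V => m1 (r V - 1)) =ᶠ[𝓝 U] fun V : ℂ => V⁻¹ := by
      filter_upwards [hnh U hU] with V hV
      exact (hinf V (hRA V hV)).2.2.1
    exact (e1.congr_of_eventuallyEq e3.symm).unique e2
  -- derivative of the oddness relation
  have hoddr : ∀ U : ℂ, R < ‖U‖ → deriv r (-U) = deriv A0 (r U - 1) * deriv r U := by
    intro U hU
    have hrU := (hinf U (hRA U hU)).1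
    have hU' : R < ‖-U‖ := by rwa [norm_neg]
    have hrU' := (hinf (-U) (hRA _ hU')).1
    obtain ⟨-, -, -, haA, -⟩ := hR1 (hB U hU)
    have e1 : HasDerivAt (fun V => r (-V) - 1) (deriv r (-U) * (-1)) U := by
      have := (hrU'.hasDerivAt.comp U (hasDerivAt_neg U)).sub_const 1
      exact this
    have e2 : HasDerivAt (fun V => -(A0 (r V - 1))) (-(deriv A0 (r U - 1) * deriv r U)) U :=
      (haA.differentiableAt.hasDerivAt.comp U (hrU.hasDerivAt.sub_const 1)).neg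
    have e3 : (fun V => r (-V) - 1) =ᶠ[𝓝 U] fun V => -(A0 (r V - 1)) := by
      filter_upwards [hnh U hU] with V hV
      exact (hR1 (hB V hV)).2.2.2.2.2.2.1
    have e4 := (e1.congr_of_eventuallyEq e3.symm).unique e2
    linear_combination -e4
  set psi : ℂ → ℂ := fun U => deriv r U * g (r U - 1) with hpsi
  have hpodd : ∀ U : ℂ, R < ‖U‖ → psi (-U) = -psi U := by
    intro U hU
    obtain ⟨-, ⟨-, -, hg3⟩, -, -, -, -, ho, -⟩ := hR1 (hB U hU)
    show deriv r (-U) * g (r (-U) - 1) = -(deriv r U * g (r U - 1))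
    rw [hoddr U hU, ho, hg3]
    ring
  refine ⟨R, psi, hRpos, ?_, hpodd, ?_, ?_⟩
  · -- differentiable
    intro U hU
    have e1 : DifferentiableAt ℂ (deriv r) U :=
      (hrd.deriv hopen U hU).differentiableAt (hopen.mem_nhds hU)
    obtain ⟨-, ⟨hne, -, -⟩, hQA, -⟩ := hR1 (hB U hU)
    have hrU := (hinf U (hRA U hU)).1
    have e2 : DifferentiableAt ℂ (fun V => r V - 1) U := hrU.sub_const 1
    have e3 : DifferentiableAt ℂ (fun V => Q (r V - 1)) U :=
      DifferentiableAt.comp U hQA.differentiableAt e2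
    have e4 : DifferentiableAt ℂ (fun V => g (r V - 1)) U :=
      (differentiableAt_const d).div (e2.sub e3) hne
    exact e1.mul e4
  · -- the equation
    intro U hU hMU
    obtain ⟨-, ⟨-, hg2, -⟩, -, -, -, -, -, hrne⟩ := hR1 (hB U hU)
    obtain ⟨hrU, hMd, -, hrel⟩ := hinf U (hRA U hU)
    have hMU' : R < ‖-(M U)‖ := by rwa [norm_neg]
    have hrV := (hinf _ (hRA _ hMU')).1
    have e1 : HasDerivAt (fun V => r (-(M V))) (deriv r (-(M U)) * (-deriv M U)) U :=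
      hrV.hasDerivAt.comp U hMd.hasDerivAt.neg
    have e2 : HasDerivAt (fun V => (r V)⁻¹) (-deriv r U / r U ^ 2) U := hrU.hasDerivAt.inv hrne
    have e3 : (fun V => r (-(M V))) =ᶠ[𝓝 U] fun V => (r V)⁻¹ := by
      filter_upwards [hnh U hU] with V hV
      exact (hinf V (hRA V hV)).2.2.2
    have e4 := (e1.congr_of_eventuallyEq e3.symm).unique e2
    have e5 := hpodd (M U) hMU
    have e6 : psi (-(M U)) = deriv r (-(M U)) * g (r (-(M U)) - 1) := rfl
    have e7 : r (-(M U)) - 1 = -(r U - 1) / (1 + (r U - 1)) := by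
      rw [hrel]
      have : 1 + (r U - 1) = r U := by ring
      rw [this]
      field_simp
      ring
    have e8 : 1 + (r U - 1) = r U := by ring
    rw [e6, e7] at e5
    show deriv r U * g (r U - 1) = _
    rw [hg2]
    rw [e8] at e5 ⊢
    set G := g (-(r U - 1) / r U) with hG
    have e9 : psi (M U) = -(deriv r (-(M U)) * G) := by rw [e5]; ring
    rw [e9]
    have e10 : deriv M U * deriv r (-(M U)) = deriv r U / r U ^ 2 := by
      linear_combination -e4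
    have e11 : deriv M U * -(deriv r (-(M U)) * G) = -(deriv r U / r U ^ 2) * G := by
      rw [← e10]; ring
    rw [e11]
    ring
  · -- the limit
    have e1 : Tendsto (fun η => m1 η / η) (𝓝[≠] (0:ℂ)) (𝓝 (deriv m1 0)) := quot_tendsto hm hm0
    have e2 : Tendsto (fun η => Q η / η) (𝓝[≠] (0:ℂ)) (𝓝 (deriv Q 0)) := quot_tendsto hQ hQ0
    have e3 : Tendsto (fun η => deriv m1 η) (𝓝[≠] (0:ℂ)) (𝓝 (deriv m1 0)) :=
      hm.deriv.continuousAt.tendsto.mono_left nhdsWithin_le_nhds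
    have e4 : Tendsto (fun η => -((m1 η / η) / deriv m1 η * (d / (1 - Q η / η)))) (𝓝[≠] (0:ℂ))
        (𝓝 (-(deriv m1 0 / deriv m1 0 * (d / (1 - deriv Q 0))))) :=
      ((e1.div e3 hm1).mul ((tendsto_const_nhds (x := d)).div (e2.const_sub 1) hd0)).neg
    have e5 : -(deriv m1 0 / deriv m1 0 * (d / (1 - deriv Q 0))) = -1 := by
      rw [← hd, div_self hm1, div_self hd0, one_mul]
    rw [e5] at e4
    refine (e4.comp hpun).congr' ?_
    have hRc : ∀ᶠ U : ℂ in Bornology.cobounded ℂ, R < ‖U‖ := by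
      have := (Filter.hasBasis_cobounded_norm (E := ℂ)).mem_of_mem (i := R + 1) trivial
      filter_upwards [this] with U hU
      have : R + 1 ≤ ‖U‖ := hU
      linarith
    filter_upwards [hRc] with U hU
    obtain ⟨hη, ⟨hne, -, -⟩, -, -, -, hdm, -, -⟩ := hR1 (hB U hU)
    have hmU := (hinf U (hRA U hU)).2.2.1
    have hdr := hder U hU
    have hU0 : U ≠ 0 := by
      rintro rfl
      rw [norm_zero] at hU
      linarith
    show -((m1 (r U - 1) / (r U - 1)) / deriv m1 (r U - 1) * (d / (1 - Q (r U - 1) / (r U - 1)))) =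
      U * (deriv r U * (d / (r U - 1 - Q (r U - 1))))
    set η := r U - 1 with hηd
    have e6 : deriv r U = -(U ^ 2)⁻¹ / deriv m1 η := by
      rw [← hdr]
      field_simp
    have e7 : 1 - Q η / η = (η - Q η) / η := by field_simp
    rw [e6, e7, hmU]
    field_simp


end Pool.Agent.MP_ae5b4e_an_GEN
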