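import Mathlib
import Pool.Agent.Lib.MP_ae5b4e_an_GEN.Defs

/-!
# MP_ae5b4e_an, project GEN: the second derivative of the kick
-/

noncomputable section

namespace Pool.Agent.MP_ae5b4e_an_GEN

open Filter Topology Set Metric
open scoped Polynomial
open Polynomial (evalEval)
open Pool.Agent.MP_ae5b4e_an_ND (cc cf co Dx Dy Filt Reg rts)
open Pool.Agent.MP_ae5b4e_an_FLEX
open Pool.Agent.MP_ae5b4e_an_ALG (Dh)

namespace Second

theorem iter_pow (p k : ℕ) :
    iteratedDeriv k (fun η : ℂ => (1 + η) ^ p) 0 = (p.descFactorial k : ℂ) := by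
  have h := congrFun (iteratedDeriv_comp_const_add k (fun z : ℂ => z ^ p) 1) 0
  rw [h, iteratedDeriv_pow]
  simp

theorem desc_two (p : ℕ) : (p.descFactorial 2 : ℂ) = p * (p - 1) := by
  rcases p with _ | p
  · simp [Nat.descFactorial]
  · simp only [Nat.descFactorial]
    push_cast
    simp
    ring

theorem desc_three (p : ℕ) : (p.descFactorial 3 : ℂ) = p * (p - 1) * (p - 2) := by
  rcases p with _ | _ | p
  · simp [Nat.descFactorial]
  · simp [Nat.descFactorial]
  · simp only [Nat.descFactorial]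
    push_cast
    simp
    ring

theorem cd (p : ℕ) (n : WithTop ℕ∞) (x : ℂ) : ContDiffAt ℂ n (fun η : ℂ => (1 + η) ^ p) x := by
  fun_prop

theorem iter_pow_sub (C : ℂ) (p k : ℕ) (hk : 0 < k) :
    iteratedDeriv k (fun η : ℂ => C * ((1 + η) ^ p - 1)) 0 = C * (p.descFactorial k : ℂ) := by
  rw [iteratedDeriv_const_mul_field, iteratedDeriv_fun_sub (cd p _ _) contDiffAt_const, iter_pow,
    iteratedDeriv_const, if_neg hk.ne', sub_zero]

/-- the third derivative of the left side -/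
theorem third_left (C : ℂ) (p : ℕ) {m0 : ℂ → ℂ} (hm : AnalyticAt ℂ m0 0) (h0 : m0 0 = 0) :
    iteratedDeriv 3 (fun η : ℂ => (C * ((1 + η) ^ p - 1)) * m0 η) 0 =
      3 * (C * p) * deriv (deriv m0) 0 + 3 * (C * (p * (p - 1))) * deriv m0 0 := by
  have hf : ContDiffAt ℂ 3 (fun η : ℂ => C * ((1 + η) ^ p - 1)) 0 := by fun_prop
  have hg : ContDiffAt ℂ 3 m0 0 := hm.contDiffAt
  rw [iteratedDeriv_fun_mul hf hg]
  simp only [Finset.sum_range_succ, Finset.sum_range_zero]
  rw [iter_pow_sub C p 1 one_pos, iter_pow_sub C p 2 two_pos, iter_pow_sub C p 3 three_pos,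
    desc_two]
  simp only [iteratedDeriv_zero, iteratedDeriv_succ, Nat.descFactorial_one, h0, Nat.sub_self,
    Nat.choose_zero_right, Nat.choose_self]
  norm_num

/-- the third derivative of the right side -/
theorem third_right {a b : ℕ} (hab : a < b) :
    iteratedDeriv 3 (Dh a b) 0 =
      ((b : ℂ) - a) * (b * (b - 1) * (b - 2)) -
        b * (((b : ℂ) - a) * ((b : ℂ) - a - 1) * ((b : ℂ) - a - 2)) := by
  have hD : Dh a b = fun η : ℂ => (((b : ℂ) - a) * (1 + η) ^ b - b * (1 + η) ^ (b - a)) + a := by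
    funext η
    rfl
  rw [hD, iteratedDeriv_fun_add (by fun_prop) contDiffAt_const,
    iteratedDeriv_fun_sub (by fun_prop) (by fun_prop), iteratedDeriv_const_mul_field,
    iteratedDeriv_const_mul_field, iter_pow, iter_pow, iteratedDeriv_const,
    if_neg three_ne_zero, desc_three, desc_three, Nat.cast_sub hab.le]
  ring

/-- the second derivative of the kernel -/
theorem m_second {a b : ℕ} (ha : 0 < a) (hab : a < b) {m0 : ℂ → ℂ} (hm : AnalyticAt ℂ m0 0)
    (h0 : m0 0 = 0) (h1 : deriv m0 0 = 1 / 2)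
    (hh : ∀ᶠ η in 𝓝 (0:ℂ), (a * b * ((1 + η) ^ (b - a) - 1)) * m0 η = Dh a b η) :
    deriv (deriv m0) 0 = ((a : ℂ) + b - 3) / 6 := by
  have he := Filter.EventuallyEq.iteratedDeriv_eq 3 hh
  rw [third_left ((a : ℂ) * b) (b - a) hm h0, third_right hab, h1, Nat.cast_sub hab.le] at he
  have ha0 : (a : ℂ) ≠ 0 := Nat.cast_ne_zero.2 ha.ne'
  have hb0 : (b : ℂ) ≠ 0 := Nat.cast_ne_zero.2 (ha.trans hab).ne'
  have hba : (b : ℂ) - a ≠ 0 := by
    rw [sub_ne_zero]
    exact Nat.cast_injective.ne hab.ne'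
  have hc : (a : ℂ) * b * ((b : ℂ) - a) ≠ 0 := mul_ne_zero (mul_ne_zero ha0 hb0) hba
  have key : (a : ℂ) * b * ((b : ℂ) - a) * (6 * deriv (deriv m0) 0) =
      (a : ℂ) * b * ((b : ℂ) - a) * ((a : ℂ) + b - 3) := by
    linear_combination 2 * he
  have h6 := mul_left_cancel₀ hc key
  rw [eq_div_iff (by norm_num)]
  linear_combination h6

/-- the second derivative of the kick, in terms of the kernel -/
theorem kick_second {c : ℂ} {m0 A0 : ℂ → ℂ} (hm : AnalyticAt ℂ m0 0)
    (h0 : m0 0 = 0) (h1 : deriv m0 0 = 1 / 2) (hA : AnalyticAt ℂ A0 0) (hA0 : A0 0 = 0)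
    (hA1 : deriv A0 0 = 1) (hk : ∀ᶠ η in 𝓝 (0:ℂ), m0 (-A0 η) * (c * m0 η - 1) = m0 η) :
    deriv (deriv A0) 0 = 4 * deriv (deriv m0) 0 + c := by
  have hdm : AnalyticAt ℂ (deriv m0) 0 := hm.deriv
  have hdA : AnalyticAt ℂ (deriv A0) 0 := hA.deriv
  have ht : Tendsto (fun η => -A0 η) (𝓝 0) (𝓝 (0:ℂ)) := by
    have h := hA.continuousAt.neg
    have h2 : Tendsto (fun η => -A0 η) (𝓝 0) (𝓝 (-A0 0)) := h
    rwa [hA0, neg_zero] at h2
  have hev : deriv (fun η => m0 (-A0 η) * (c * m0 η - 1)) =ᶠ[𝓝 0] deriv m0 :=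
    Filter.EventuallyEq.deriv hk
  have hE : ∀ᶠ η in 𝓝 (0:ℂ), (deriv m0 (-A0 η) * (-deriv A0 η)) * (c * m0 η - 1) +
      m0 (-A0 η) * (c * deriv m0 η) = deriv m0 η := by
    filter_upwards [hev, hm.eventually_analyticAt, hA.eventually_analyticAt,
      ht.eventually hm.eventually_analyticAt] with η e1 e2 e3 e4
    have d1 : HasDerivAt (fun η => m0 (-A0 η)) (deriv m0 (-A0 η) * (-deriv A0 η)) η :=
      HasDerivAt.comp η e4.differentiableAt.hasDerivAt e3.differentiableAt.hasDerivAt.neg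
    have d2 : HasDerivAt (fun η => c * m0 η - 1) (c * deriv m0 η) η :=
      (e2.differentiableAt.hasDerivAt.const_mul c).sub_const 1
    exact ((d1.mul d2).deriv).symm.trans e1
  have hmd : HasDerivAt m0 (1 / 2) 0 := by
    rw [← h1]
    exact hm.differentiableAt.hasDerivAt
  have hAd : HasDerivAt A0 1 0 := by
    rw [← hA1]
    exact hA.differentiableAt.hasDerivAt
  have hz : -A0 0 = 0 := by rw [hA0, neg_zero]
  have k1 : HasDerivAt (fun η => deriv m0 (-A0 η)) (deriv (deriv m0) 0 * (-1)) 0 := by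
    have hx : HasDerivAt (deriv m0) (deriv (deriv m0) 0) (-A0 0) := by
      rw [hz]
      exact hdm.differentiableAt.hasDerivAt
    exact HasDerivAt.comp (0:ℂ) hx hAd.neg
  have k2 : HasDerivAt (fun η => -deriv A0 η) (-deriv (deriv A0) 0) 0 :=
    hdA.differentiableAt.hasDerivAt.neg
  have k3 : HasDerivAt (fun η => c * m0 η - 1) (c * (1 / 2)) 0 :=
    (hmd.const_mul c).sub_const 1
  have k4 : HasDerivAt (fun η => m0 (-A0 η)) (1 / 2 * (-1)) 0 := by
    have hx : HasDerivAt m0 (1 / 2) (-A0 0) := by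
      rw [hz]
      exact hmd
    exact HasDerivAt.comp (0:ℂ) hx hAd.neg
  have k5 : HasDerivAt (fun η => c * deriv m0 η) (c * deriv (deriv m0) 0) 0 :=
    hdm.differentiableAt.hasDerivAt.const_mul c
  have kE := ((k1.mul k2).mul k3).add (k4.mul k5)
  have kM : HasDerivAt (deriv m0) (deriv (deriv m0) 0) 0 := hdm.differentiableAt.hasDerivAt
  have hu := kE.unique (kM.congr_of_eventuallyEq hE)
  simp only [Pi.mul_apply, hz, h0, h1, hA1] at hu
  linear_combination (2 : ℂ) * hu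

end Second

/-- the second derivative of the kick -/
theorem germ_second {a b : ℕ} (ha : 0 < a) (hab : a < b) {c : ℂ} {m0 A0 Q : ℂ → ℂ}
    (h : Germ a b c m0 A0 Q) : deriv (deriv A0) 0 = 2 * (((a:ℂ) + b) / 3 + c / 2) - 2 := by
  rw [Second.kick_second h.m_ana h.m_zero h.m_der h.A_ana h.A_zero h.A_der h.kick,
    Second.m_second ha hab h.m_ana h.m_zero h.m_der h.m_hom]
  ring

end Pool.Agent.MP_ae5b4e_an_GEN
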