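import Mathlib
import Pool.Agent.Lib.MP_ae5b4e_an_GEN.Defs
import Pool.Agent.Lib.MP_ae5b4e_an_GEN.Psi
import Pool.Agent.Lib.MP_ae5b4e_an_GEN.Second
import Pool.Agent.Lib.MP_ae5b4e_an_GEN.HomFlex
import Pool.Agent.Lib.MP_ae5b4e_an_GENL.Jouk
import Pool.Agent.Lib.MP_ae5b4e_an_GENL.Cusp

/-!
# MP_ae5b4e_an, project GEN: the functional equation at an ordinary cusp
-/

noncomputable section

namespace Pool.Agent.MP_ae5b4e_an_GEN

open Filter Topology Set Metric
open scoped Polynomial
open Polynomial (evalEval)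
open Pool.Agent.MP_ae5b4e_an_ND (cc cf co Dx Dy Filt Reg rts)
open Pool.Agent.MP_ae5b4e_an_FLEX
open Pool.Agent.MP_ae5b4e_an_ALG (Dh)

namespace HomCusp

open Pool.Agent.MP_ae5b4e_an_GENL
open HomFlex (big_ne To_big To_big_diff To_big_unique To_big_norm ne_of_norm mm mm_ana mm_deriv
  mm_odd)

/-! ### the quotient of the two parameters -/

/-- the quotient of the two parameters in the parameter `w ^ m` -/
def sC (T : ℂ) : ℂ := (T + 2) / (T - 1)

/-- the quotient of the two parameters -/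
def rC (m : ℕ) (T : ℂ) : ℂ := Complex.exp (Complex.log (sC T) / m)

theorem T1_ne {T : ℂ} (hT : 5 < ‖T‖) : T - 1 ≠ 0 :=
  ne_of_norm (by
    rw [norm_one]
    linarith)

theorem T2_ne {T : ℂ} (hT : 5 < ‖T‖) : T + 2 ≠ 0 := by
  have := ne_of_norm (T := T) (a := -2) (by
    have : ‖(-2:ℂ)‖ = 2 := by norm_num
    rw [this]
    linarith)
  rwa [sub_neg_eq_add] at this

theorem norm_add_one_ge (T : ℂ) : ‖T‖ - 1 ≤ ‖T + 1‖ := by
  have := norm_sub_le (T + 1) 1
  rw [add_sub_cancel_right, norm_one] at this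
  linarith

theorem T0_ne {T : ℂ} (hT : 5 < ‖T‖) : T ≠ 0 := by
  rintro rfl
  simp at hT
  linarith

theorem sC_sub {T : ℂ} (hT : 5 < ‖T‖) : sC T - 1 = 3 / (T - 1) := by
  have := T1_ne hT
  unfold sC
  field_simp
  ring

theorem sC_slit {T : ℂ} (hT : 5 < ‖T‖) : sC T ∈ Complex.slitPlane := by
  have h1 : ‖T‖ - 1 ≤ ‖T - 1‖ := by
    have := norm_sub_norm_le T 1
    rwa [norm_one] at this
  have h : ‖sC T - 1‖ < 1 := by
    rw [sC_sub hT, norm_div, div_lt_one (by linarith)]
    have h2 : ‖(3:ℂ)‖ = 3 := by norm_num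
    rw [h2]
    linarith
  have h2 := Complex.mem_slitPlane_of_norm_lt_one h
  have h3 : 1 + (sC T - 1) = sC T := by ring
  rwa [h3] at h2

theorem rC_ne (m : ℕ) (T : ℂ) : rC m T ≠ 0 := Complex.exp_ne_zero _

theorem rC_pow {m : ℕ} (hm : 0 < m) {T : ℂ} (hT : 5 < ‖T‖) : rC m T ^ m = sC T := by
  unfold rC
  have hm' : (m:ℂ) ≠ 0 := Nat.cast_ne_zero.2 hm.ne'
  rw [← Complex.exp_nat_mul, mul_div_cancel₀ _ hm',
    Complex.exp_log (Complex.slitPlane_ne_zero (sC_slit hT))]

theorem rC_inv (m : ℕ) {T : ℂ} (hT : 6 < ‖T‖) : rC m (-1 - T) = (rC m T)⁻¹ := by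
  have hT5 : 5 < ‖T‖ := by linarith
  have h1 : sC (-1 - T) = (sC T)⁻¹ := by
    have h2 := T1_ne hT5
    have h3 := T2_ne hT5
    have h4 : -1 - T - 1 ≠ 0 := by
      intro h
      apply h3
      linear_combination -h
    unfold sC
    rw [inv_div, div_eq_div_iff h4 h3]
    ring
  unfold rC
  rw [h1, Complex.log_inv _ (Complex.slitPlane_arg_ne_pi (sC_slit hT5)), neg_div,
    Complex.exp_neg]

theorem rC_hasDeriv {m : ℕ} {T : ℂ} (hT : 5 < ‖T‖) :
    HasDerivAt (rC m) (rC m T * (((T + 2)⁻¹ - (T - 1)⁻¹) / m)) T := by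
  have h2 := T1_ne hT
  have h3 := T2_ne hT
  have hs : HasDerivAt sC ((1 * (T - 1) - (T + 2) * 1) / (T - 1) ^ 2) T :=
    ((hasDerivAt_id T).add_const 2).div ((hasDerivAt_id T).sub_const 1) h2
  have hl := (hs.clog (sC_slit hT)).div_const (m:ℂ)
  have he := hl.cexp
  refine he.congr_deriv ?_
  unfold rC
  congr 2
  unfold sC
  field_simp

theorem sC_tendsto : Tendsto sC (Bornology.cobounded ℂ) (𝓝 1) := by
  have h1 : Tendsto (fun T : ℂ => T - 1) (Bornology.cobounded ℂ) (Bornology.cobounded ℂ) := by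
    rw [← tendsto_norm_atTop_iff_cobounded]
    have h2 : Tendsto (fun T : ℂ => ‖T‖ - 1) (Bornology.cobounded ℂ) atTop :=
      tendsto_atTop_add_const_right _ _ tendsto_norm_cobounded_atTop
    refine tendsto_atTop_mono (fun T => ?_) h2
    have := norm_sub_norm_le T 1
    rwa [norm_one] at this
  have h3 : Tendsto (fun T : ℂ => 1 + 3 * (T - 1)⁻¹) (Bornology.cobounded ℂ) (𝓝 (1 + 3 * 0)) :=
    ((tendsto_inv₀_cobounded.comp h1).const_mul 3).const_add 1
  rw [mul_zero, add_zero] at h3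
  refine h3.congr' ?_
  filter_upwards [tendsto_norm_cobounded_atTop.eventually_gt_atTop 5] with T hT
  have := sC_sub hT
  rw [div_eq_mul_inv] at this
  linear_combination -this

theorem rC_tendsto (m : ℕ) : Tendsto (rC m) (Bornology.cobounded ℂ) (𝓝 1) := by
  have h1 : ContinuousAt (fun s : ℂ => Complex.exp (Complex.log s / m)) 1 :=
    ((continuousAt_clog (by simp : (1:ℂ) ∈ Complex.slitPlane)).div_const _).cexp
  have h2 : Complex.exp (Complex.log 1 / m) = 1 := by simp
  have h3 := h1.tendsto.comp sC_tendsto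
  rw [h2] at h3
  exact h3

/-! ### the normalised kernel -/

theorem mm_valC {m : ℕ} (hm : 0 < m) {a j0 T μ η : ℂ} (hT : 5 < ‖T‖) (hη : (1 + η) ^ m = sC T)
    (hμ : (((2 * m : ℕ) : ℂ) * (3 * m : ℕ) * ((1 + η) ^ (3 * m - 2 * m) - 1)) * μ =
      Dh (2 * m) (3 * m) η)
    (hk : j0 = 2 + 3 / 2 * a) (hU : Jf T - j0 ≠ 0) :
    (2 / 3) * (m * μ) / (1 - a * (m * μ)) = (Jf T - j0)⁻¹ := by
  have hm' : (m:ℂ) ≠ 0 := Nat.cast_ne_zero.2 hm.ne'
  have h1 := T1_ne hT
  have h0 := T0_ne hT
  have e1 : 3 * m - 2 * m = m := by omega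
  have e2 : 3 * m = m * 3 := by ring
  unfold Dh at hμ
  rw [e1, hη, show (1 + η) ^ (3 * m) = sC T ^ 3 by rw [e2, pow_mul, hη]] at hμ
  push_cast at hμ
  have hs := sC_sub hT
  have hs0 : sC T - 1 ≠ 0 := by
    rw [hs]
    exact div_ne_zero (by norm_num) h1
  -- the value of the kernel
  have hX : 2 * (m * μ) * (T - 1) ^ 2 = 3 * T := by
    have h5 : (m * (sC T - 1)) * (6 * (m * μ)) =
        (m * (sC T - 1)) * ((sC T - 1) * (sC T + 2)) := by
      linear_combination hμ
    have h6 := mul_left_cancel₀ (mul_ne_zero hm' hs0) h5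
    have h7 : sC T * (T - 1) = T + 2 := by
      unfold sC
      field_simp
    have h8 : (6 * (m * μ)) * (T - 1) ^ 2 =
        ((sC T - 1) * (sC T + 2)) * (T - 1) ^ 2 := by rw [h6]
    have h10 : ((sC T - 1) * (sC T + 2)) * (T - 1) ^ 2 = 9 * T := by
      have h11 : ((sC T - 1) * (sC T + 2)) * (T - 1) ^ 2 =
        (sC T * (T - 1) - (T - 1)) * (sC T * (T - 1) + 2 * (T - 1)) := by ring
      rw [h11, h7]
      ring
    rw [h10] at h8
    linear_combination (1 / 3) * h8
  have hP : 2 * (T - 1) ^ 2 ≠ 0 := mul_ne_zero two_ne_zero (pow_ne_zero 2 h1)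
  have hX2 : (m * μ) = 3 * T / (2 * (T - 1) ^ 2) := by
    rw [eq_div_iff hP]
    linear_combination hX
  have hden : 2 * (T - 1) ^ 2 - 3 * a * T = 2 * (T * (Jf T - j0)) := by
    rw [hk]
    unfold Jf
    field_simp
    ring
  rw [hX2]
  have hTU : T * (Jf T - j0) ≠ 0 := mul_ne_zero h0 hU
  have e3 : 1 - a * (3 * T / (2 * (T - 1) ^ 2)) =
      2 * (T * (Jf T - j0)) / (2 * (T - 1) ^ 2) := by
    rw [← hden, eq_div_iff hP]
    have e5 : a * (3 * T / (2 * (T - 1) ^ 2)) * (2 * (T - 1) ^ 2) = a * (3 * T) := by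
      rw [mul_assoc, div_mul_cancel₀ _ hP]
    linear_combination -e5
  rw [e3, div_eq_iff (div_ne_zero (mul_ne_zero two_ne_zero hTU) hP)]
  have e4 : (Jf T - j0)⁻¹ * (2 * (T * (Jf T - j0)) / (2 * (T - 1) ^ 2)) =
      ((Jf T - j0)⁻¹ * (Jf T - j0)) * (2 * T / (2 * (T - 1) ^ 2)) := by ring
  rw [e4, inv_mul_cancel₀ hU]
  ring

end HomCusp

open HomCusp Pool.Agent.MP_ae5b4e_an_GENL in
open HomFlex (big_ne To_big To_big_diff To_big_unique To_big_norm ne_of_norm mm mm_ana mm_deriv
  mm_odd) in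
/-- an ordinary cusp in the parameter `w ^ m` -/
theorem hom_cusp {m : ℕ} (hm : 0 < m) {c d : ℂ} {m0 A0 Q : ℂ → ℂ}
    (h : Germ (2 * m) (3 * m) c m0 A0 Q) (hd : d = 5 / 3 + c / (2 * m)) (hd0 : d ≠ 0) :
    ∃ (Lam : ℂ → ℂ) (R : ℝ), Pool.Agent.MP_ae5b4e_an_GENL.CuspSol d Lam R := by
  have hm' : (m:ℂ) ≠ 0 := Nat.cast_ne_zero.2 hm.ne'
  set a : ℂ := c / (2 * m) with ha
  set k0 : ℂ := (3 * d - 1) / 2 with hk0
  have hk : k0 = 2 + 3 / 2 * a := by rw [hk0, hd]; ring
  have hsec := germ_second (by omega : 0 < 2 * m) (by omega : 2 * m < 3 * m) h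
  have hD : 1 + deriv (deriv A0) 0 / 2 = m * d := by
    rw [hsec, hd, ha]
    push_cast
    field_simp
    ring
  -- basic facts for large `U`
  have hbig : ∀ (ρ : ℝ) (U : ℂ), 2 + ρ + ‖k0‖ < ‖U‖ → 0 ≤ ρ →
      2 < ‖U + k0‖ ∧ ρ + 1 < ‖To (U + k0)‖ := by
    intro ρ U hU hρ
    have h1 : ‖U‖ - ‖k0‖ ≤ ‖U + k0‖ := by
      have := norm_sub_le (U + k0) k0
      rw [add_sub_cancel_right] at this
      linarith
    have h2 : 2 < ‖U + k0‖ := by linarith
    have h3 := To_big_norm h2
    exact ⟨h2, by linarith⟩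
  -- the map `To (U + k0)` tends to infinity
  have hTinf : Tendsto (fun U : ℂ => To (U + k0)) (Bornology.cobounded ℂ)
      (Bornology.cobounded ℂ) := by
    rw [← tendsto_norm_atTop_iff_cobounded]
    refine tendsto_atTop.2 (fun b => ?_)
    filter_upwards [tendsto_norm_cobounded_atTop.eventually_gt_atTop (2 + |b| + ‖k0‖)] with U hU
    have := (hbig |b| U hU (abs_nonneg b)).2
    have := le_abs_self b
    linarith
  -- the range where `m_hom` holds
  obtain ⟨ε, hε, hhom⟩ := Metric.eventually_nhds_iff.1 h.m_hom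
  have hrC := rC_tendsto m
  obtain ⟨ρ₁, hρ₁⟩ : ∃ ρ₁ : ℝ, ∀ T : ℂ, ρ₁ < ‖T‖ → dist (rC m T) 1 < ε := by
    have h1 := hrC.eventually (Metric.ball_mem_nhds (1:ℂ) hε)
    obtain ⟨ρ, _, h2⟩ := (Filter.hasBasis_cobounded_norm (E := ℂ)).eventually_iff.1 h1
    exact ⟨ρ, fun T hT => h2 (show ρ ≤ ‖T‖ from hT.le)⟩
  set ρ : ℝ := max ρ₁ 20 with hρ
  have hρ20 : 20 ≤ ρ := le_max_right _ _
  have hρ1 : ρ₁ ≤ ρ := le_max_left _ _
  have hψ := psi_of_germ (m1 := mm m a m0) (A0 := A0) (Q := Q)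
    (r := fun U => rC m (To (U + k0))) (M := fun U => k0 + Jf (To (U + k0) + 1))
    (mm_ana h.m_ana h.m_zero) (by simp [mm, h.m_zero])
    (by
      rw [mm_deriv h.m_ana h.m_zero h.m_der]
      exact div_ne_zero hm' (by norm_num))
    h.A_ana h.A_zero h.A_der
    (by
      intro h1
      rw [h1] at hD
      have : (m:ℂ) * d = 0 := by rw [← hD]; norm_num
      exact (mul_ne_zero hm' hd0) this)
    (mm_odd hm ha h.m_ana h.m_zero h.A_ana h.A_zero h.kick)
    h.Q_ana h.Q_zero h.Q_der h.fi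
    (by
      refine ⟨2 + ρ + ‖k0‖, by positivity, fun U hU => ?_⟩
      obtain ⟨hJ, hT⟩ := hbig ρ U hU (by linarith)
      have hT5 : 5 < ‖To (U + k0)‖ := by linarith
      have hT6 : 6 < ‖To (U + k0)‖ := by linarith
      obtain ⟨hT0, hJT, hT1⟩ := To_big hJ
      have hcomp : DifferentiableAt ℂ (fun U : ℂ => To (U + k0)) U :=
        DifferentiableAt.comp (g := To) (f := fun U : ℂ => U + k0) U (To_big_diff hJ)
          (by fun_prop)
      set T := To (U + k0) with hTdef
      have hUT : Jf T - k0 = U := by rw [hJT]; ring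
      have hU0 : U ≠ 0 := by
        rintro rfl
        rw [norm_zero] at hU
        have := norm_nonneg k0
        linarith
      have hT1n : 19 < ‖T + 1‖ := by
        have := norm_add_one_ge T
        linarith
      refine ⟨?_, ?_, ?_, ?_⟩
      · exact DifferentiableAt.comp (g := rC m) (f := fun U : ℂ => To (U + k0)) U
          (rC_hasDeriv hT5).differentiableAt hcomp
      · have h1 : T + 1 ≠ 0 := by
          intro h2
          rw [h2, norm_zero] at hT1n
          linarith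
        have h2 : DifferentiableAt ℂ (fun U : ℂ => Jf (To (U + k0) + 1)) U :=
          DifferentiableAt.comp (g := Jf) (f := fun U : ℂ => To (U + k0) + 1) U
            (Jf_diff h1).differentiableAt (hcomp.add_const 1)
        exact h2.const_add k0
      · have h1 : dist (rC m T - 1) 0 < ε := by
          have := hρ₁ T (by linarith)
          rw [dist_eq_norm] at this ⊢
          simpa using this
        have h2 := hhom h1
        have h3 : (1 + (rC m T - 1)) ^ m = sC T := by
          rw [add_sub_cancel]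
          exact rC_pow hm hT5
        have h4 := mm_valC hm hT5 h3 h2 hk (by rw [hUT]; exact hU0)
        rw [hUT] at h4
        exact h4
      · have h1 : -(k0 + Jf (T + 1)) + k0 = Jf (-1 - T) := by
          have h2 := Jf_neg (T + 1)
          rw [show -(T + 1) = -1 - T by ring] at h2
          rw [h2]
          ring
        have h3 : 19 < ‖-1 - T‖ := by
          rw [show -1 - T = -(T + 1) by ring, norm_neg]
          exact hT1n
        have h4 : 2 < ‖Jf (-1 - T)‖ := by
          have := Jf_norm_ge' (S := -1 - T) (by linarith)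
          linarith
        have h5 : To (-(k0 + Jf (T + 1)) + k0) = -1 - T := by
          rw [h1]
          exact To_big_unique (by linarith) h4
        show rC m (To (-(k0 + Jf (T + 1)) + k0)) = (rC m T)⁻¹
        rw [h5]
        exact rC_inv m hT6)
    (hrC.comp hTinf)
    (by
      rw [← tendsto_norm_atTop_iff_cobounded]
      have h1 : Tendsto (fun U : ℂ => ‖To (U + k0)‖ - (2 + ‖k0‖)) (Bornology.cobounded ℂ) atTop :=
        tendsto_atTop_add_const_right _ _ (tendsto_norm_cobounded_atTop.comp hTinf)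
      refine tendsto_atTop_mono' _ ?_ h1
      filter_upwards [tendsto_norm_cobounded_atTop.eventually_gt_atTop (2 + ρ + ‖k0‖)] with U hU
      obtain ⟨hJ, hT⟩ := hbig ρ U hU (by linarith)
      have hT1n : ‖To (U + k0)‖ - 1 ≤ ‖To (U + k0) + 1‖ := by
        exact norm_add_one_ge _
      have h2 := Jf_norm_ge' (S := To (U + k0) + 1) (by linarith)
      have h3 : ‖Jf (To (U + k0) + 1)‖ ≤ ‖k0 + Jf (To (U + k0) + 1)‖ + ‖k0‖ := by
        have := norm_sub_le (k0 + Jf (To (U + k0) + 1)) k0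
        rwa [add_sub_cancel_left] at this
      linarith)
  obtain ⟨R, psi, hp⟩ := hψ
  rw [hD] at hp
  have hR := hp.R_pos
  refine ⟨fun J => psi (J - k0), R + ρ + 10 + 2 * ‖k0‖, ?_, ?_, ?_, ?_⟩
  · -- analytic
    intro J hJ
    have h1 : R < ‖J - k0‖ := by
      have := norm_sub_norm_le J k0
      have := norm_nonneg k0
      linarith
    exact DifferentiableAt.comp (g := psi) (f := fun J : ℂ => J - k0) J (hp.diff _ h1)
      (by fun_prop)
  · -- the limit
    rw [← Metric.cobounded_eq_cocompact]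
    have h1 : Tendsto (fun J : ℂ => J - k0) (Bornology.cobounded ℂ) (Bornology.cobounded ℂ) := by
      rw [← tendsto_norm_atTop_iff_cobounded]
      have h2 : Tendsto (fun T : ℂ => ‖T‖ - ‖k0‖) (Bornology.cobounded ℂ) atTop :=
        tendsto_atTop_add_const_right _ _ tendsto_norm_cobounded_atTop
      exact tendsto_atTop_mono (fun T => norm_sub_norm_le T k0) h2
    have h2 := hp.inf.comp h1
    have h3 : Tendsto (fun J : ℂ => (J - k0)⁻¹) (Bornology.cobounded ℂ) (𝓝 0) :=
      tendsto_inv₀_cobounded.comp h1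
    have h4 : Tendsto (fun J : ℂ => (J - k0) * psi (J - k0) +
        k0 * ((J - k0)⁻¹ * ((J - k0) * psi (J - k0)))) (Bornology.cobounded ℂ)
        (𝓝 (-1 + k0 * (0 * -1))) := h2.add ((h3.mul h2).const_mul k0)
    rw [zero_mul, mul_zero, add_zero] at h4
    refine h4.congr' ?_
    filter_upwards [tendsto_norm_cobounded_atTop.eventually_gt_atTop ‖k0‖] with J hJ
    have h5 : J - k0 ≠ 0 := ne_of_norm hJ
    rw [← mul_assoc ((J - k0)⁻¹), inv_mul_cancel₀ h5, one_mul]
    ring
  · -- odd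
    intro J hJ _
    have h1 : R < ‖J - k0‖ := by
      have := norm_sub_norm_le J k0
      have := norm_nonneg k0
      linarith
    have h2 : 3 * d - 1 - J - k0 = -(J - k0) := by
      rw [hk0]
      ring
    show psi (3 * d - 1 - J - k0) = -psi (J - k0)
    rw [h2]
    exact hp.odd _ h1
  · -- the functional equation
    intro T hT
    have hk0n := norm_nonneg k0
    have hT5 : 5 < ‖T‖ := by linarith
    have hT0 := T0_ne hT5
    have hJn := Jf_norm_ge' (S := T) (by linarith)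
    have hUn : R + ρ + 9 + ‖k0‖ < ‖Jf T - k0‖ := by
      have := norm_sub_norm_le (Jf T) k0
      linarith
    have hT1n : ‖T‖ - 1 ≤ ‖T + 1‖ := by
      exact norm_add_one_ge _
    have hT1 : T + 1 ≠ 0 := by
      intro h2
      rw [h2, norm_zero] at hT1n
      linarith
    have hinv : ∀ᶠ T' in 𝓝 T, To (Jf T' - k0 + k0) = T' := by
      have h1 : ∀ᶠ T' in 𝓝 T, 10 < ‖T'‖ :=
        (continuous_norm.tendsto T).eventually (lt_mem_nhds (by linarith : (10:ℝ) < ‖T‖))
      filter_upwards [h1] with T' hT'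
      rw [sub_add_cancel]
      refine To_big_unique (by linarith) ?_
      have := Jf_norm_ge' (S := T') (by linarith)
      linarith
    have hinv0 : To (Jf T - k0 + k0) = T := hinv.self_of_nhds
    have hUd : HasDerivAt (fun T' => Jf T' - k0) (Jd T) T := (Jf_diff hT0).sub_const k0
    have hJbig : 2 < ‖Jf T - k0 + k0‖ := by
      rw [sub_add_cancel]
      linarith
    have hcomp : DifferentiableAt ℂ (fun U : ℂ => To (U + k0)) (Jf T - k0) :=
      DifferentiableAt.comp (g := To) (f := fun U : ℂ => U + k0) (Jf T - k0) (To_big_diff hJbig)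
        (by fun_prop)
    have hrd : DifferentiableAt ℂ (fun U : ℂ => rC m (To (U + k0))) (Jf T - k0) :=
      DifferentiableAt.comp (g := rC m) (f := fun U : ℂ => To (U + k0)) (Jf T - k0)
        (by rw [hinv0]; exact (rC_hasDeriv hT5).differentiableAt) hcomp
    have hMd : DifferentiableAt ℂ (fun U : ℂ => k0 + Jf (To (U + k0) + 1)) (Jf T - k0) := by
      have h2 : DifferentiableAt ℂ (fun U : ℂ => Jf (To (U + k0) + 1)) (Jf T - k0) :=
        DifferentiableAt.comp (g := Jf) (f := fun U : ℂ => To (U + k0) + 1) (Jf T - k0)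
          (by rw [hinv0]; exact (Jf_diff hT1).differentiableAt) (hcomp.add_const 1)
      exact h2.const_add k0
    -- derivative of `r`
    have er : deriv (fun U : ℂ => rC m (To (U + k0))) (Jf T - k0) * Jd T =
        rC m T * (((T + 2)⁻¹ - (T - 1)⁻¹) / m) := by
      have h1 : HasDerivAt (fun T' => rC m (To (Jf T' - k0 + k0)))
          (deriv (fun U : ℂ => rC m (To (U + k0))) (Jf T - k0) * Jd T) T :=
        HasDerivAt.comp (h₂ := fun U : ℂ => rC m (To (U + k0))) (h := fun T' => Jf T' - k0) T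
          hrd.hasDerivAt hUd
      have h2 : HasDerivAt (fun T' => rC m (To (Jf T' - k0 + k0)))
          (rC m T * (((T + 2)⁻¹ - (T - 1)⁻¹) / m)) T := by
        refine (rC_hasDeriv hT5).congr_of_eventuallyEq ?_
        filter_upwards [hinv] with T' hT'
        rw [hT']
      exact h1.unique h2
    have eM : deriv (fun U : ℂ => k0 + Jf (To (U + k0) + 1)) (Jf T - k0) * Jd T =
        Jd (T + 1) := by
      have h1 : HasDerivAt (fun T' => k0 + Jf (To (Jf T' - k0 + k0) + 1))
          (deriv (fun U : ℂ => k0 + Jf (To (U + k0) + 1)) (Jf T - k0) * Jd T) T :=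
        HasDerivAt.comp (h₂ := fun U : ℂ => k0 + Jf (To (U + k0) + 1))
          (h := fun T' => Jf T' - k0) T hMd.hasDerivAt hUd
      have h2 : HasDerivAt (fun T' => k0 + Jf (T' + 1)) (Jd (T + 1)) T := by
        have h3 : HasDerivAt (fun T' => Jf (T' + 1)) (Jd (T + 1) * 1) T :=
          HasDerivAt.comp (h₂ := Jf) (h := fun T' : ℂ => T' + 1) T (Jf_diff hT1)
            ((hasDerivAt_id T).add_const 1)
        rw [mul_one] at h3
        exact h3.const_add k0
      have h4 : HasDerivAt (fun T' => k0 + Jf (To (Jf T' - k0 + k0) + 1)) (Jd (T + 1)) T := by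
        refine h2.congr_of_eventuallyEq ?_
        filter_upwards [hinv] with T' hT'
        rw [hT']
      exact h1.unique h4
    have hMbig : R < ‖k0 + Jf (T + 1)‖ := by
      have h2 := Jf_norm_ge' (S := T + 1) (by linarith)
      have h3 : ‖Jf (T + 1)‖ ≤ ‖k0 + Jf (T + 1)‖ + ‖k0‖ := by
        have := norm_sub_le (k0 + Jf (T + 1)) k0
        rwa [add_sub_cancel_left] at this
      linarith
    have heq := hp.eq (Jf T - k0) (by linarith) (by
      show R < ‖k0 + Jf (To (Jf T - k0 + k0) + 1)‖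
      rw [hinv0]
      exact hMbig)
    simp only [hinv0] at heq
    have e5 : 3 * d - 1 + Jf (T + 1) - k0 = k0 + Jf (T + 1) := by
      rw [hk0]
      ring
    show psi (Jf T - k0) * Jd T = d * ((T + 2)⁻¹ - (T - 1)⁻¹) +
      psi (3 * d - 1 + Jf (T + 1) - k0) * Jd (T + 1)
    rw [e5, heq]
    have hr0 := rC_ne m T
    have e6 : (m:ℂ) * d * (deriv (fun U : ℂ => rC m (To (U + k0))) (Jf T - k0) / rC m T) * Jd T =
        d * ((T + 2)⁻¹ - (T - 1)⁻¹) := by
      have e7 : (m:ℂ) * d * (deriv (fun U : ℂ => rC m (To (U + k0))) (Jf T - k0) / rC m T) * Jd T =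
        (m:ℂ) * d * ((deriv (fun U : ℂ => rC m (To (U + k0))) (Jf T - k0) * Jd T) / rC m T) := by
        ring
      rw [e7, er]
      field_simp
    rw [add_mul, e6]
    have e8 : deriv (fun U : ℂ => k0 + Jf (To (U + k0) + 1)) (Jf T - k0) *
        psi (k0 + Jf (T + 1)) * Jd T =
        psi (k0 + Jf (T + 1)) * (deriv (fun U : ℂ => k0 + Jf (To (U + k0) + 1)) (Jf T - k0) *
          Jd T) := by ring
    rw [e8, eM]

end Pool.Agent.MP_ae5b4e_an_GEN
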