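import Mathlib
import Pool.Agent.Lib.MP_ae5b4e_an_GEN.Defs
import Pool.Agent.Lib.MP_ae5b4e_an_GEN.Psi
import Pool.Agent.Lib.MP_ae5b4e_an_GEN.Second

/-!
# MP_ae5b4e_an, project GEN, module U3: the equation at a regular point
-/

set_option autoImplicit false

noncomputable section

namespace Pool.Agent.MP_ae5b4e_an_GEN

open Filter Topology Set Metric
open scoped Polynomial
open Polynomial (evalEval)
open Pool.Agent.MP_ae5b4e_an_ND (cc cf co Dx Dy Filt Reg rts)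
open Pool.Agent.MP_ae5b4e_an_FLEX
open Pool.Agent.MP_ae5b4e_an_ALG (Dh)

namespace HomReg

/-- the `m`-th power of the quotient of the parameters -/
def s (d U : ℂ) : ℂ := (U + d + 1) / (U + d - 1)

/-- the quotient of the parameters -/
def r (m : ℕ) (d U : ℂ) : ℂ := Complex.exp (Complex.log (s d U) / m)

theorem norm_sub {d U : ℂ} (h : ‖d‖ + 3 < ‖U‖) : 2 < ‖U + d - 1‖ := by
  have h1 : ‖U‖ ≤ ‖U + d - 1‖ + ‖d - 1‖ := by
    have := norm_sub_le (U + d - 1) (d - 1)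
    have e : U + d - 1 - (d - 1) = U := by ring
    rwa [e] at this
  have h2 : ‖d - 1‖ ≤ ‖d‖ + 1 := by
    have := norm_sub_le d 1
    simpa using this
  linarith

theorem norm_add {d U : ℂ} (h : ‖d‖ + 3 < ‖U‖) : 2 < ‖U + d + 1‖ := by
  have h1 : ‖U‖ ≤ ‖U + d + 1‖ + ‖d + 1‖ := by
    have := norm_sub_le (U + d + 1) (d + 1)
    have e : U + d + 1 - (d + 1) = U := by ring
    rwa [e] at this
  have h2 : ‖d + 1‖ ≤ ‖d‖ + 1 := by
    have := norm_add_le d 1
    simpa using this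
  linarith

theorem ne_sub {d U : ℂ} (h : ‖d‖ + 3 < ‖U‖) : U + d - 1 ≠ 0 := by
  intro h0
  have := norm_sub h
  rw [h0, norm_zero] at this
  linarith

theorem ne_add {d U : ℂ} (h : ‖d‖ + 3 < ‖U‖) : U + d + 1 ≠ 0 := by
  intro h0
  have := norm_add h
  rw [h0, norm_zero] at this
  linarith

theorem s_eq {d U : ℂ} (h : ‖d‖ + 3 < ‖U‖) : s d U = 1 + 2 / (U + d - 1) := by
  have := ne_sub h
  unfold s
  field_simp
  ring

theorem s_slit {d U : ℂ} (h : ‖d‖ + 3 < ‖U‖) : s d U ∈ Complex.slitPlane := by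
  rw [s_eq h]
  apply Complex.mem_slitPlane_of_norm_lt_one
  have h1 := norm_sub h
  rw [norm_div, div_lt_one (by linarith)]
  simpa using h1

theorem s_ne {d U : ℂ} (h : ‖d‖ + 3 < ‖U‖) : s d U ≠ 0 :=
  div_ne_zero (ne_add h) (ne_sub h)

theorem s_neg {d U : ℂ} : s d (-(U + 2 * d)) = (s d U)⁻¹ := by
  unfold s
  have e1 : -(U + 2 * d) + d + 1 = -(U + d - 1) := by ring
  have e2 : -(U + 2 * d) + d - 1 = -(U + d + 1) := by ring
  rw [e1, e2, neg_div_neg_eq, inv_div]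

theorem r_neg {m : ℕ} {d U : ℂ} (h : ‖d‖ + 3 < ‖U‖) : r m d (-(U + 2 * d)) = (r m d U)⁻¹ := by
  unfold r
  rw [s_neg, Complex.log_inv _ (Complex.slitPlane_arg_ne_pi (s_slit h)), neg_div, Complex.exp_neg]

theorem r_pow {m : ℕ} (hm : 0 < m) {d U : ℂ} (h : ‖d‖ + 3 < ‖U‖) : r m d U ^ m = s d U := by
  have hm' : (m : ℂ) ≠ 0 := by exact_mod_cast hm.ne'
  unfold r
  rw [← Complex.exp_nat_mul, mul_div_cancel₀ _ hm', Complex.exp_log (s_ne h)]

theorem r_ne {m : ℕ} {d U : ℂ} : r m d U ≠ 0 := Complex.exp_ne_zero _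

theorem s_deriv {d U : ℂ} (h : ‖d‖ + 3 < ‖U‖) :
    HasDerivAt (s d) (s d U * (1 / (U + d + 1) - 1 / (U + d - 1))) U := by
  have h1 := ne_add h
  have h2 := ne_sub h
  have ha : HasDerivAt (fun U : ℂ => U + d + 1) 1 U := ((hasDerivAt_id U).add_const d).add_const 1
  have hb : HasDerivAt (fun U : ℂ => U + d - 1) 1 U := ((hasDerivAt_id U).add_const d).sub_const 1
  have hc := ha.div hb h2
  refine hc.congr_deriv ?_
  unfold s
  field_simp

theorem r_deriv {m : ℕ} {d U : ℂ} (h : ‖d‖ + 3 < ‖U‖) :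
    HasDerivAt (r m d) (r m d U * ((1 / (U + d + 1) - 1 / (U + d - 1)) / m)) U := by
  have h1 := ((s_deriv h).clog (s_slit h)).div_const (m : ℂ)
  have h2 := h1.cexp
  refine h2.congr_deriv ?_
  have h3 := s_ne h
  unfold r
  rw [mul_div_cancel_left₀ _ h3]

theorem s_tendsto (d : ℂ) : Tendsto (s d) (Bornology.cobounded ℂ) (𝓝 1) := by
  have h1 : Tendsto (fun U : ℂ => U + (d - 1)) (Bornology.cobounded ℂ) (Bornology.cobounded ℂ) :=
    tendsto_add_const_cobounded (d - 1)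
  have h2 := (tendsto_inv₀_cobounded (α := ℂ)).comp h1
  have h3 : Tendsto (fun U : ℂ => 1 + 2 * (U + (d - 1))⁻¹) (Bornology.cobounded ℂ)
      (𝓝 (1 + 2 * 0)) := (h2.const_mul 2).const_add 1
  rw [mul_zero, add_zero] at h3
  refine h3.congr' ?_
  filter_upwards [eventually_cobounded_le_norm (‖d‖ + 4)] with U hU
  rw [s_eq (by linarith), div_eq_mul_inv, add_sub_assoc]

theorem r_tendsto (m : ℕ) (d : ℂ) : Tendsto (r m d) (Bornology.cobounded ℂ) (𝓝 1) := by
  have h1 : Tendsto (r m d) (Bornology.cobounded ℂ)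
      (𝓝 (Complex.exp (Complex.log 1 / m))) := by
    have h0 : ContinuousAt (fun z : ℂ => Complex.exp (Complex.log z / m)) 1 :=
      Complex.continuous_exp.continuousAt.comp
        ((continuousAt_clog Complex.one_mem_slitPlane).div_const _)
    exact h0.tendsto.comp (s_tendsto d)
  simpa using h1

/-- the kernel of the homogeneous curve `(w ^ m, w ^ (2 m))` -/
theorem m0_eq {m : ℕ} (hm : 0 < m) {c : ℂ} {m0 A0 Q : ℂ → ℂ} (h : Germ m (2 * m) c m0 A0 Q) :
    ∀ᶠ η in 𝓝 (0:ℂ), m0 η = ((1 + η) ^ m - 1) / (2 * m) := by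
  have hm' : (m : ℂ) ≠ 0 := by exact_mod_cast hm.ne'
  -- `(1 + η) ^ m ≠ 1` in a punctured neighbourhood
  have h1 : HasDerivAt (fun η : ℂ => (1 + η) ^ m) (m : ℂ) 0 := by
    have h0 : HasDerivAt (fun η : ℂ => 1 + η) 1 0 := (hasDerivAt_id (0:ℂ)).const_add 1
    have := h0.fun_pow m
    simpa using this
  have h2 : ∀ᶠ η in 𝓝[≠] (0:ℂ), (1 + η) ^ m ≠ 1 := by
    have := h1.eventually_ne (c := 1) hm'
    simpa using this
  rw [eventually_nhdsWithin_iff] at h2
  filter_upwards [h2, h.m_hom] with η h3 h4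
  by_cases h5 : η = 0
  · rw [h5, h.m_zero]
    simp
  · have h6 := h3 h5
    have e1 : 2 * m - m = m := by omega
    rw [Dh, e1] at h4
    push_cast at h4
    have h7 : (1 + η) ^ m - 1 ≠ 0 := sub_ne_zero.mpr h6
    have h8 : (1 + η) ^ (2 * m) = ((1 + η) ^ m) ^ 2 := by rw [mul_comm, pow_mul]
    rw [h8] at h4
    rw [eq_div_iff (by simpa using hm')]
    apply mul_left_cancel₀ (mul_ne_zero hm' h7)
    linear_combination h4

end HomReg

open HomReg in
/-- a regular point of the curve in the parameter `w ^ m` -/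
theorem hom_reg {m : ℕ} (hm : 0 < m) {c d : ℂ} {m0 A0 Q : ℂ → ℂ} (h : Germ m (2 * m) c m0 A0 Q)
    (hd : d = 1 + c / (2 * m)) (hd0 : d ≠ 0) :
    ∃ (R : ℝ) (psi : ℂ → ℂ), 0 < R ∧ (∀ U : ℂ, R < ‖U‖ → DifferentiableAt ℂ psi U) ∧
      (∀ U : ℂ, R < ‖U‖ → psi (-U) = -psi U) ∧
      (∀ U : ℂ, R < ‖U‖ → R < ‖U + 2 * d‖ →
        psi U = d * (1 / (U + d + 1) - 1 / (U + d - 1)) + psi (U + 2 * d)) ∧
      Tendsto (fun U => U * psi U) (Bornology.cobounded ℂ) (𝓝 (-1)) := by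
  have hm' : (m : ℂ) ≠ 0 := by exact_mod_cast hm.ne'
  have hc : c = 2 * m * (d - 1) := by
    rw [hd]
    field_simp
    ring
  have hsec := germ_second hm (by omega) h
  push_cast at hsec
  have hA2' : deriv (deriv A0) 0 = 2 * (m * d) - 2 := by
    rw [hsec, hc]
    ring
  have hA2 : deriv (deriv A0) 0 ≠ -2 := by
    rw [hA2']
    intro h0
    have h1 : (m : ℂ) * d = 0 := by linear_combination h0 / 2
    exact mul_ne_zero hm' hd0 h1
  have hD : 1 + deriv (deriv A0) 0 / 2 = m * d := by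
    rw [hA2']
    ring
  -- the kernel in the coordinate centred at the centre of the involution
  set m1 : ℂ → ℂ := fun η => m * m0 η / (1 - (d - 1) * (m * m0 η)) with hm1def
  have hf : AnalyticAt ℂ (fun η => (m:ℂ) * m0 η) 0 := analyticAt_const.mul h.m_ana
  have hg : AnalyticAt ℂ (fun η => 1 - (d - 1) * ((m:ℂ) * m0 η)) 0 :=
    analyticAt_const.sub (analyticAt_const.mul hf)
  have hg0 : (fun η => 1 - (d - 1) * ((m:ℂ) * m0 η)) 0 ≠ 0 := by
    simp [h.m_zero]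
  have hm1 : AnalyticAt ℂ m1 0 := hf.fun_div hg hg0
  have hm10 : m1 0 = 0 := by simp [hm1def, h.m_zero]
  have hd1 : HasDerivAt (fun η => (m:ℂ) * m0 η) ((m:ℂ) * (1 / 2)) 0 := by
    have := h.m_ana.differentiableAt.hasDerivAt
    rw [h.m_der] at this
    exact this.const_mul _
  have hd2 : HasDerivAt (fun η => 1 - (d - 1) * ((m:ℂ) * m0 η)) (-((d - 1) * ((m:ℂ) * (1 / 2)))) 0 :=
    (hd1.const_mul (d - 1)).const_sub 1
  have hd3 : HasDerivAt m1 ((m:ℂ) * (1 / 2)) 0 := by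
    refine (hd1.div hd2 hg0).congr_deriv ?_
    simp [h.m_zero]
  have hm11 : deriv m1 0 ≠ 0 := by
    rw [hd3.deriv]
    exact mul_ne_zero hm' (by norm_num)
  have hmA : ∀ᶠ η in 𝓝 (0:ℂ), m1 (-(A0 η)) = -m1 η := by
    have e1 : ∀ᶠ η in 𝓝 (0:ℂ), 1 - (d - 1) * ((m:ℂ) * m0 η) ≠ 0 :=
      hg.continuousAt.eventually_ne hg0
    have e2 : Tendsto (fun η => -(A0 η)) (𝓝 0) (𝓝 0) := by
      have := h.A_ana.continuousAt.tendsto.neg
      simpa [h.A_zero] using this
    have e3 := e2.eventually e1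
    filter_upwards [e1, e3, h.kick] with η h1 h2 h3
    simp only [hm1def]
    rw [← neg_div, div_eq_div_iff h2 h1]
    rw [hc] at h3
    linear_combination (-(m:ℂ)) * h3
  have hr1 := r_tendsto m d
  have hr : ∃ R > 0, ∀ U : ℂ, R < ‖U‖ → DifferentiableAt ℂ (r m d) U ∧
      DifferentiableAt ℂ (fun U => U + 2 * d) U ∧
      m1 (r m d U - 1) = U⁻¹ ∧ r m d (-((fun U => U + 2 * d) U)) = (r m d U)⁻¹ := by
    have e1 : Tendsto (fun U => r m d U - 1) (Bornology.cobounded ℂ) (𝓝 0) := by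
      have := hr1.sub_const 1
      simpa using this
    have e2 := e1.eventually (m0_eq hm h)
    obtain ⟨R, -, hR⟩ := (hasBasis_cobounded_compl_closedBall (0:ℂ)).eventually_iff.1 e2
    refine ⟨max R (‖d‖ + 3), lt_max_of_lt_right (by positivity), fun U hU => ?_⟩
    have hU1 : R < ‖U‖ := lt_of_le_of_lt (le_max_left _ _) hU
    have hU2 : ‖d‖ + 3 < ‖U‖ := lt_of_le_of_lt (le_max_right _ _) hU
    have hU3 : U ≠ 0 := by
      intro h0
      rw [h0, norm_zero] at hU2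
      have := norm_nonneg d
      linarith
    refine ⟨(r_deriv hU2).differentiableAt, by fun_prop, ?_, r_neg hU2⟩
    have e3 : m0 (r m d U - 1) = ((1 + (r m d U - 1)) ^ m - 1) / (2 * m) := by
      apply hR
      simpa using hU1
    rw [add_sub_cancel, r_pow hm hU2] at e3
    have e4 := ne_sub hU2
    have e5 : (m:ℂ) * m0 (r m d U - 1) = (U + d - 1)⁻¹ := by
      rw [e3, s_eq hU2]
      field_simp
      ring
    simp only [hm1def, e5]
    have e6 : 1 - (d - 1) * (U + d - 1)⁻¹ = U * (U + d - 1)⁻¹ := by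
      field_simp
      ring
    rw [e6]
    field_simp
  obtain ⟨R, psi, hpsi⟩ := psi_of_germ hm1 hm10 hm11 h.A_ana h.A_zero h.A_der hA2 hmA h.Q_ana
    h.Q_zero h.Q_der h.fi hr hr1 (tendsto_add_const_cobounded (2 * d))
  rw [hD] at hpsi
  refine ⟨max R (‖d‖ + 3), psi, lt_max_of_lt_left hpsi.R_pos,
    fun U hU => hpsi.diff U (lt_of_le_of_lt (le_max_left _ _) hU),
    fun U hU => hpsi.odd U (lt_of_le_of_lt (le_max_left _ _) hU), fun U hU hV => ?_, hpsi.inf⟩
  have hU2 : ‖d‖ + 3 < ‖U‖ := lt_of_le_of_lt (le_max_right _ _) hU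
  have e1 := hpsi.eq U (lt_of_le_of_lt (le_max_left _ _) hU) (lt_of_le_of_lt (le_max_left _ _) hV)
  rw [(r_deriv hU2).deriv, mul_div_cancel_left₀ _ r_ne] at e1
  have e2 : deriv (fun U : ℂ => U + 2 * d) U = 1 := by
    simp
  rw [e2, one_mul] at e1
  rw [e1]
  field_simp

end Pool.Agent.MP_ae5b4e_an_GEN
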