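import Pool.Agent.Lib.MP_ae5b4e_an_GEN.Defs
import Pool.Agent.Lib.MP_ae5b4e_an_FLEX.GeoCusp

/-!
# MP_ae5b4e_an, GEN module K1 (helper47): the kernel of a place of type `(a, b)`
-/

set_option autoImplicit false

noncomputable section

namespace Pool.Agent.MP_ae5b4e_an_GEN

open Filter Topology Set Metric
open scoped Polynomial
open Polynomial (evalEval)
open Pool.Agent.MP_ae5b4e_an_ND (cc cf co Dx Dy Filt Reg rts)
open Pool.Agent.MP_ae5b4e_an_FLEX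
open Pool.Agent.MP_ae5b4e_an_ALG (Dh)

namespace Kernel

open Pool.Agent.MP_ae5b4e_an_FLEX.GeoCusp (ana_fst ana_mul hd hd' hasDerivAt_mul_id)

/-- the derivative of `w ^ (α + 1) x1 w` is `w ^ α xt w` -/
def xt (α : ℕ) (x1 : ℂ → ℂ) (w : ℂ) : ℂ := ((α : ℂ) + 1) * x1 w + w * deriv x1 w

theorem xt_ana (α : ℕ) {x1 : ℂ → ℂ} (hx : AnalyticAt ℂ x1 0) : AnalyticAt ℂ (xt α x1) 0 :=
  (analyticAt_const.mul hx).add (analyticAt_id.mul hx.deriv)

theorem xt_zero (α : ℕ) (x1 : ℂ → ℂ) : xt α x1 0 = ((α : ℂ) + 1) * x1 0 := by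
  simp [xt]

theorem deriv_eq (α : ℕ) {X x1 : ℂ → ℂ} (hx : AnalyticAt ℂ x1 0)
    (hX : ∀ᶠ w in 𝓝 (0:ℂ), X w = w ^ (α + 1) * x1 w) :
    ∀ᶠ w in 𝓝 (0:ℂ), deriv X w = w ^ α * xt α x1 w := by
  filter_upwards [hX.eventually_nhds, hx.eventually_analyticAt] with w h1 h2
  have h3 : X =ᶠ[𝓝 w] fun w => w ^ (α + 1) * x1 w := h1
  rw [h3.deriv_eq]
  have h4 := ((hasDerivAt_pow (α + 1) w).mul h2.differentiableAt.hasDerivAt).deriv
  have h5 : deriv (fun w => w ^ (α + 1) * x1 w) w =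
      ((α + 1 : ℕ) : ℂ) * w ^ (α + 1 - 1) * x1 w + w ^ (α + 1) * deriv x1 w := h4
  rw [h5]
  unfold xt
  rw [Nat.add_sub_cancel]
  push_cast
  ring

/-- `brD` without the factor `w ^ (α + β)` -/
def Dn (α β : ℕ) (x1 y1 : ℂ → ℂ) (p : ℂ × ℂ) : ℂ :=
  xt α x1 p.1 * ((1 + p.2) ^ β * xt β y1 (p.1 * (1 + p.2))) -
    (1 + p.2) ^ α * xt α x1 (p.1 * (1 + p.2)) * xt β y1 p.1

/-- `brN` without the factor `w ^ (α + β + 1)` -/
def Nn (α β : ℕ) (x1 y1 : ℂ → ℂ) (p : ℂ × ℂ) : ℂ :=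
  ((1 + p.2) ^ (α + 1) * x1 (p.1 * (1 + p.2)) - x1 p.1) *
      ((1 + p.2) ^ β * xt β y1 (p.1 * (1 + p.2))) -
    ((1 + p.2) ^ (β + 1) * y1 (p.1 * (1 + p.2)) - y1 p.1) *
      ((1 + p.2) ^ α * xt α x1 (p.1 * (1 + p.2)))

variable {α β : ℕ} {x1 y1 : ℂ → ℂ}

theorem ana_one : AnalyticAt ℂ (fun p : ℂ × ℂ => 1 + p.2) (0, 0) :=
  analyticAt_const.add analyticAt_snd

theorem Dn_ana (hx : AnalyticAt ℂ x1 0) (hy : AnalyticAt ℂ y1 0) :
    AnalyticAt ℂ (Dn α β x1 y1) (0, 0) := by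
  have h1 := xt_ana α hx
  have h2 := xt_ana β hy
  exact ((ana_fst h1).mul ((ana_one.pow β).mul (ana_mul h2))).sub
    (((ana_one.pow α).mul (ana_mul h1)).mul (ana_fst h2))

theorem Nn_ana (hx : AnalyticAt ℂ x1 0) (hy : AnalyticAt ℂ y1 0) :
    AnalyticAt ℂ (Nn α β x1 y1) (0, 0) := by
  have h1 := xt_ana α hx
  have h2 := xt_ana β hy
  exact ((((ana_one.pow (α + 1)).mul (ana_mul hx)).sub (ana_fst hx)).mul
    ((ana_one.pow β).mul (ana_mul h2))).sub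
    ((((ana_one.pow (β + 1)).mul (ana_mul hy)).sub (ana_fst hy)).mul
    ((ana_one.pow α).mul (ana_mul h1)))

theorem Dn_zero (w : ℂ) : Dn α β x1 y1 (w, 0) = 0 := by
  simp only [Dn, add_zero, mul_one, one_pow, one_mul]
  ring

theorem Nn_zero (w : ℂ) : Nn α β x1 y1 (w, 0) = 0 := by
  simp only [Nn, add_zero, mul_one, one_pow, one_mul]
  ring

theorem Nn_deriv {w : ℂ} (hx : AnalyticAt ℂ x1 w) (hy : AnalyticAt ℂ y1 w) :
    deriv (fun η => Nn α β x1 y1 (w, η)) 0 = 0 := by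
  have hxt : DifferentiableAt ℂ (xt α x1) w :=
    ((analyticAt_const.mul hx).add (analyticAt_id.mul hx.deriv)).differentiableAt
  have hyt : DifferentiableAt ℂ (xt β y1) w :=
    ((analyticAt_const.mul hy).add (analyticAt_id.mul hy.deriv)).differentiableAt
  have e1 := (hd' hx.differentiableAt (α + 1)).sub_const (x1 w)
  have e2 := hd' hyt β
  have e3 := (hd' hy.differentiableAt (β + 1)).sub_const (y1 w)
  have e4 := hd' hxt α
  have h := (e1.mul e2).sub (e3.mul e4)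
  refine (h.congr_of_eventuallyEq (Eventually.of_forall fun y => ?_)).deriv.trans ?_
  · rfl
  · simp only [add_zero, mul_one, one_pow, one_mul, sub_self, zero_mul]
    simp only [xt]
    push_cast
    ring

theorem Dn_at (η : ℂ) : Dn α β x1 y1 (0, η) =
    ((α : ℂ) + 1) * ((β : ℂ) + 1) * (x1 0 * y1 0) * ((1 + η) ^ β - (1 + η) ^ α) := by
  simp only [Dn, zero_mul, xt_zero]
  ring

theorem Nn_at (η : ℂ) : Nn α β x1 y1 (0, η) =
    x1 0 * y1 0 * (((β : ℂ) - α) * (1 + η) ^ (α + β + 1) - ((β : ℂ) + 1) * (1 + η) ^ β +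
      ((α : ℂ) + 1) * (1 + η) ^ α) := by
  simp only [Nn, zero_mul, xt_zero]
  ring

/-- Taylor expansion of `(1 + η) ^ k` -/
theorem taylor (k : ℕ) : ∃ r : ℂ → ℂ, Continuous r ∧
    ∀ η : ℂ, (1 + η) ^ k = 1 + k * η + k * ((k : ℂ) - 1) / 2 * η ^ 2 + η ^ 3 * r η := by
  induction k with
  | zero =>
    refine ⟨fun _ => 0, continuous_const, fun η => ?_⟩
    simp
  | succ k ih =>
    obtain ⟨r, hr, he⟩ := ih
    refine ⟨fun η => k * ((k : ℂ) - 1) / 2 + (1 + η) * r η, by fun_prop, fun η => ?_⟩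
    rw [pow_succ, he η]
    push_cast
    ring

end Kernel

open Kernel in
/-- the kernel of a place of type `(a, b)` -/
theorem exists_kern {a b : ℕ} (ha : 0 < a) (hab : a < b) {X Y x1 y1 : ℂ → ℂ}
    (hx : AnalyticAt ℂ x1 0) (hx0 : x1 0 ≠ 0) (hX : ∀ᶠ w in 𝓝 (0:ℂ), X w = w ^ a * x1 w)
    (hy : AnalyticAt ℂ y1 0) (hy0 : y1 0 ≠ 0) (hY : ∀ᶠ w in 𝓝 (0:ℂ), Y w = w ^ b * y1 w) :
    ∃ m, Kern a b X Y m := by
  obtain ⟨α, rfl⟩ : ∃ α, a = α + 1 := ⟨a - 1, by omega⟩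
  obtain ⟨β, rfl⟩ : ∃ β, b = β + 1 := ⟨b - 1, by omega⟩
  have hαβ : α < β := by omega
  have hXd := deriv_eq α hx hX
  have hYd := deriv_eq β hy hY
  have hαc : ((α : ℂ) + 1) ≠ 0 := by exact_mod_cast Nat.succ_ne_zero α
  have hβc : ((β : ℂ) + 1) ≠ 0 := by exact_mod_cast Nat.succ_ne_zero β
  have hβα : ((β : ℂ) - α) ≠ 0 := by
    rw [sub_ne_zero]
    exact_mod_cast hαβ.ne'
  set κ : ℂ := x1 0 * y1 0 with hκ
  have hκ0 : κ ≠ 0 := mul_ne_zero hx0 hy0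
  obtain ⟨D1, hD1, hD1e, hD1z⟩ := MP_ae5b4e_an_ND.exists_div_y
    (Dn_ana (α := α) (β := β) hx hy) (Eventually.of_forall Dn_zero)
  obtain ⟨F1, hF1, hF1e, hF1z⟩ := MP_ae5b4e_an_ND.exists_div_y
    (Nn_ana (α := α) (β := β) hx hy) (Eventually.of_forall Nn_zero)
  have hF10 : ∀ᶠ t in 𝓝 (0:ℂ), F1 (t, 0) = 0 := by
    filter_upwards [hF1z, hx.eventually_analyticAt, hy.eventually_analyticAt] with t h1 h2 h3
    rw [h1]
    exact Nn_deriv h2 h3
  obtain ⟨F2, hF2, hF2e, -⟩ := MP_ae5b4e_an_ND.exists_div_y hF1 hF10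
  have hsl : Tendsto (fun η : ℂ => ((0:ℂ), η)) (𝓝 0) (𝓝 (0, 0)) :=
    (Continuous.prodMk_right (0:ℂ)).tendsto 0
  have hcD : Tendsto (fun η : ℂ => D1 (0, η)) (𝓝[≠] 0) (𝓝 (D1 (0, 0))) :=
    (hD1.continuousAt.tendsto.comp hsl).mono_left nhdsWithin_le_nhds
  have hcF : Tendsto (fun η : ℂ => F2 (0, η)) (𝓝[≠] 0) (𝓝 (F2 (0, 0))) :=
    (hF2.continuousAt.tendsto.comp hsl).mono_left nhdsWithin_le_nhds
  obtain ⟨ra, hra, ea⟩ := taylor α
  obtain ⟨rb, hrb, eb⟩ := taylor β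
  obtain ⟨rc, hrc, ec⟩ := taylor (α + β + 1)
  -- the values at `(0, 0)`
  have hD10 : D1 (0, 0) = ((α : ℂ) + 1) * ((β : ℂ) + 1) * κ * ((β : ℂ) - α) := by
    have h1 : Tendsto (fun η : ℂ => ((α : ℂ) + 1) * ((β : ℂ) + 1) * κ * (((β : ℂ) - α) +
        ((β : ℂ) * ((β : ℂ) - 1) / 2 - α * ((α : ℂ) - 1) / 2) * η + η ^ 2 * (rb η - ra η)))
        (𝓝[≠] 0) (𝓝 (((α : ℂ) + 1) * ((β : ℂ) + 1) * κ * (((β : ℂ) - α) +
        ((β : ℂ) * ((β : ℂ) - 1) / 2 - α * ((α : ℂ) - 1) / 2) * 0 + 0 ^ 2 * (rb 0 - ra 0)))) := by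
      refine Tendsto.mono_left ?_ nhdsWithin_le_nhds
      refine Continuous.tendsto ?_ 0
      fun_prop
    have h2 : (fun η : ℂ => D1 (0, η)) =ᶠ[𝓝[≠] 0]
        (fun η : ℂ => ((α : ℂ) + 1) * ((β : ℂ) + 1) * κ * (((β : ℂ) - α) +
        ((β : ℂ) * ((β : ℂ) - 1) / 2 - α * ((α : ℂ) - 1) / 2) * η + η ^ 2 * (rb η - ra η))) := by
      rw [EventuallyEq, eventually_nhdsWithin_iff]
      filter_upwards [hsl.eventually hD1e] with η h3 hη
      have hη0 : η ≠ 0 := hη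
      rw [Dn_at, ea, eb] at h3
      apply mul_left_cancel₀ hη0
      rw [← h3]
      ring
    have h3 := tendsto_nhds_unique (hcD.congr' h2) h1
    rw [h3]
    ring
  have hF20 : F2 (0, 0) = κ * (((α : ℂ) + 1) * ((β : ℂ) + 1) * ((β : ℂ) - α) / 2) := by
    have h1 : Tendsto (fun η : ℂ => κ * (((α : ℂ) + 1) * ((β : ℂ) + 1) * ((β : ℂ) - α) / 2 +
        η * (((β : ℂ) - α) * rc η - ((β : ℂ) + 1) * rb η + ((α : ℂ) + 1) * ra η)))
        (𝓝[≠] 0) (𝓝 (κ * (((α : ℂ) + 1) * ((β : ℂ) + 1) * ((β : ℂ) - α) / 2 +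
        0 * (((β : ℂ) - α) * rc 0 - ((β : ℂ) + 1) * rb 0 + ((α : ℂ) + 1) * ra 0)))) := by
      refine Tendsto.mono_left ?_ nhdsWithin_le_nhds
      refine Continuous.tendsto ?_ 0
      fun_prop
    have h2 : (fun η : ℂ => F2 (0, η)) =ᶠ[𝓝[≠] 0]
        (fun η : ℂ => κ * (((α : ℂ) + 1) * ((β : ℂ) + 1) * ((β : ℂ) - α) / 2 +
        η * (((β : ℂ) - α) * rc η - ((β : ℂ) + 1) * rb η + ((α : ℂ) + 1) * ra η))) := by
      rw [EventuallyEq, eventually_nhdsWithin_iff]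
      filter_upwards [hsl.eventually hF1e, hsl.eventually hF2e] with η h3 h4 hη
      have hη0 : η ≠ 0 := hη
      rw [Nn_at, ea, eb, ec, h4] at h3
      apply mul_left_cancel₀ (pow_ne_zero 2 hη0)
      have h5 : η ^ 2 * F2 (0, η) = η * (η * F2 (0, η)) := by ring
      rw [h5, ← h3]
      push_cast
      ring
    have h3 := tendsto_nhds_unique (hcF.congr' h2) h1
    rw [h3]
    ring
  have hD10' : D1 (0, 0) ≠ 0 := by
    rw [hD10]
    exact mul_ne_zero (mul_ne_zero (mul_ne_zero hαc hβc) hκ0) hβα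
  set m : ℂ × ℂ → ℂ := fun p => p.2 * (F2 p / D1 p) with hm
  have hma : AnalyticAt ℂ m (0, 0) := analyticAt_snd.mul (hF2.div hD1 hD10')
  have t1 : Tendsto (fun p : ℂ × ℂ => p.1) (𝓝 (0, 0)) (𝓝 0) := continuous_fst.tendsto _
  have t2 : Tendsto (fun p : ℂ × ℂ => p.1 * (1 + p.2)) (𝓝 (0, 0)) (𝓝 0) := by
    have : Continuous (fun p : ℂ × ℂ => p.1 * (1 + p.2)) := by fun_prop
    simpa using this.tendsto (0, 0)
  have t3 : Tendsto (fun η : ℂ => 1 + η) (𝓝 0) (𝓝 1) := by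
    have : Continuous (fun η : ℂ => 1 + η) := by fun_prop
    simpa using this.tendsto 0
  refine ⟨m, hma, Eventually.of_forall fun w => by simp [hm], ?_, ?_, ?_⟩
  · have h1 : DifferentiableAt ℂ (fun η : ℂ => F2 (0, η) / D1 (0, η)) 0 := by
      have h2 : AnalyticAt ℂ (fun η : ℂ => ((0:ℂ), η)) 0 :=
        AnalyticAt.prod analyticAt_const analyticAt_id
      have h3 : AnalyticAt ℂ (fun η : ℂ => F2 (0, η) / D1 (0, η)) 0 :=
        (hF2.div hD1 hD10').comp_of_eq h2 rfl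
      exact h3.differentiableAt
    have h2 := (GeoCusp.hasDerivAt_mul_id h1).deriv
    have h3 : deriv (fun η => m (0, η)) 0 = F2 (0, 0) / D1 (0, 0) +
        0 * deriv (fun η : ℂ => F2 (0, η) / D1 (0, η)) 0 := h2
    rw [h3, zero_mul, add_zero, hF20, hD10]
    field_simp
  · filter_upwards [t1.eventually hX, t1.eventually hY, t2.eventually hX, t2.eventually hY,
      t1.eventually hXd, t1.eventually hYd, t2.eventually hXd, t2.eventually hYd,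
      hD1e, hF1e, hF2e, hD1.continuousAt.eventually_ne hD10'] with p g1 g2 g3 g4 h1 h2 h3 h4 h6
      h7 h8 h9
    obtain ⟨w, η⟩ := p
    simp only at g1 g2 g3 g4 h1 h2 h3 h4 h6 h7 h8 h9 ⊢
    rw [mul_pow] at g3 g4 h3 h4
    have e1 : brD X Y w (w * (1 + η)) = w ^ (α + β) * Dn α β x1 y1 (w, η) := by
      unfold brD
      rw [h1, h2, h3, h4]
      simp only [Dn]
      ring
    have e2 : brN X Y w (w * (1 + η)) = w ^ (α + β + 1) * Nn α β x1 y1 (w, η) := by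
      unfold brN
      rw [h3, h4, g1, g2, g3, g4]
      simp only [Nn]
      ring
    have e3 : w + w * η = w * (1 + η) := by ring
    rw [e3, e1, e2, h6, h7, h8]
    refine ⟨?_, fun hw hη => ?_⟩
    · simp only [hm]
      field_simp
      ring
    · exact mul_ne_zero (pow_ne_zero _ hw) (mul_ne_zero hη h9)
  · filter_upwards [hsl.eventually hD1e, hsl.eventually hF1e, hsl.eventually hF2e,
      hsl.eventually (hD1.continuousAt.eventually_ne hD10'), t3.eventually_ne one_ne_zero]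
      with η h1 h2 h3 h4 h5
    rw [Dn_at] at h1
    rw [Nn_at, h3] at h2
    have hsub : β + 1 - (α + 1) = β - α := by omega
    have hpow : (1 + η) ^ β = (1 + η) ^ α * (1 + η) ^ (β - α) := by
      rw [← pow_add]
      congr 1
      omega
    have hpow2 : (1 + η) ^ (α + β + 1) = (1 + η) ^ α * (1 + η) ^ (β + 1) := by
      rw [← pow_add, add_assoc]
    rw [hpow] at h1
    rw [hpow, hpow2] at h2
    rw [hsub]
    unfold Dh
    rw [hsub]
    have hne : κ * (1 + η) ^ α ≠ 0 := mul_ne_zero hκ0 (pow_ne_zero _ h5)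
    apply mul_left_cancel₀ hne
    push_cast
    have h6 : κ * (1 + η) ^ α * ((((α : ℂ) + 1) * ((β : ℂ) + 1) * ((1 + η) ^ (β - α) - 1)) *
        m (0, η)) = η * D1 (0, η) * m (0, η) := by
      rw [← h1]
      ring
    have h7 : η * D1 (0, η) * m (0, η) = η * (η * F2 (0, η)) := by
      simp only [hm]
      field_simp
    rw [h6, h7, ← h2]
    ring

end Pool.Agent.MP_ae5b4e_an_GEN
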