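import Mathlib
import Pool.Agent.Lib.MP_ae5b4e_an_GEN.Defs

/-!
# MP_ae5b4e_an, project GEN, module U6: no regular point with `1 < Re d`
-/

set_option autoImplicit false

noncomputable section

namespace Pool.Agent.MP_ae5b4e_an_GEN

open Filter Topology Set Metric

namespace NoReg

/-- identity theorem on a convex open set for holomorphic functions which agree near a point -/
theorem eqOn_convex {f g : ℂ → ℂ} {s : Set ℂ} (hs : IsOpen s) (hc : Convex ℝ s)
    (hf : ∀ U ∈ s, DifferentiableAt ℂ f U) (hg : ∀ U ∈ s, DifferentiableAt ℂ g U)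
    {U0 : ℂ} (h0 : U0 ∈ s) (h : f =ᶠ[𝓝 U0] g) : EqOn f g s := by
  have hf' : AnalyticOnNhd ℂ f s :=
    DifferentiableOn.analyticOnNhd (fun U hU => (hf U hU).differentiableWithinAt) hs
  have hg' : AnalyticOnNhd ℂ g s :=
    DifferentiableOn.analyticOnNhd (fun U hU => (hg U hU).differentiableWithinAt) hs
  exact hf'.eqOn_of_preconnected_of_eventuallyEq hg' hc.isPreconnected h0 h

/-- the inhomogeneity -/
def hh (d U : ℂ) : ℂ := d * (1 / (U + d + 1) - 1 / (U + d - 1))

theorem hh_diff {d U : ℂ} (hU : -(d.re - 1) < U.re) :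
    DifferentiableAt ℂ (hh d) U := by
  have h1 : U + d + 1 ≠ 0 := by
    intro h
    have := congrArg Complex.re h
    simp only [Complex.add_re, Complex.one_re, Complex.zero_re] at this
    linarith
  have h2 : U + d - 1 ≠ 0 := by
    intro h
    have := congrArg Complex.re h
    simp only [Complex.add_re, Complex.sub_re, Complex.one_re, Complex.zero_re] at this
    linarith
  unfold hh
  have a1 : DifferentiableAt ℂ (fun U : ℂ => U + d + 1) U := by fun_prop
  have a2 : DifferentiableAt ℂ (fun U : ℂ => U + d - 1) U := by fun_prop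
  exact (((differentiableAt_const 1).div a1 h1).sub ((differentiableAt_const 1).div a2 h2)).const_mul
    d

/-- the iteration -/
def psiN (d : ℂ) (psi : ℂ → ℂ) : ℕ → ℂ → ℂ
  | 0 => psi
  | n + 1 => fun U => hh d U + psiN d psi n (U + 2 * d)

end NoReg

open NoReg

/-- no regular point with `1 < Re d` -/
theorem no_reg {d : ℂ} (hd : 1 < d.re) {R : ℝ} {psi : ℂ → ℂ} (hR : 0 < R)
    (hdiff : ∀ U : ℂ, R < ‖U‖ → DifferentiableAt ℂ psi U)
    (hodd : ∀ U : ℂ, R < ‖U‖ → psi (-U) = -psi U)
    (hE : ∀ U : ℂ, R < ‖U‖ → R < ‖U + 2 * d‖ →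
        psi U = d * (1 / (U + d + 1) - 1 / (U + d - 1)) + psi (U + 2 * d))
    (hinf : Tendsto (fun U => U * psi U) (Bornology.cobounded ℂ) (𝓝 (-1))) : False := by
  obtain ⟨μ, hμdef⟩ : ∃ μ : ℝ, μ = d.re - 1 := ⟨_, rfl⟩
  have hμ : 0 < μ := by linarith
  have h2d : ∀ U : ℂ, (U + 2 * d).re = U.re + 2 * d.re := by
    intro U
    simp
  obtain ⟨R1, hR1, hRR1, hμR1⟩ : ∃ R1 : ℝ, 0 < R1 ∧ R ≤ R1 ∧ μ ≤ R1 :=
    ⟨max R μ, lt_max_of_lt_left hR, le_max_left _ _, le_max_right _ _⟩
  have nre : ∀ U : ℂ, R1 < U.re → R < ‖U‖ := fun U hU =>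
    lt_of_le_of_lt hRR1 (lt_of_lt_of_le hU (Complex.re_le_norm U))
  -- step 1
  have hA : ∀ n : ℕ, (∀ U : ℂ, -μ < U.re → R1 - n * (2 * d.re) < U.re →
      DifferentiableAt ℂ (psiN d psi n) U) ∧
      ∀ U : ℂ, R1 < U.re → psiN d psi n U = psi U := by
    intro n
    induction n with
    | zero =>
      refine ⟨fun U _ hU => ?_, fun U _ => rfl⟩
      have hU' : R1 < U.re := by simpa using hU
      exact hdiff U (nre U hU')
    | succ n ih =>
      refine ⟨fun U h1 h2 => ?_, fun U hU => ?_⟩
      · have hf : DifferentiableAt ℂ (psiN d psi n) (U + 2 * d) := by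
          refine ih.1 (U + 2 * d) (by rw [h2d]; linarith) ?_
          push_cast at h2
          rw [h2d]
          linarith
        have hg : DifferentiableAt ℂ (fun U => psiN d psi n (U + 2 * d)) U :=
          hf.comp U (by fun_prop : DifferentiableAt ℂ (fun U : ℂ => U + 2 * d) U)
        exact (hh_diff (by rw [← hμdef]; exact h1)).add hg
      · have hM1 : R1 < (U + 2 * d).re := by rw [h2d]; linarith
        have := hE U (nre U hU) (nre _ hM1)
        rw [this]
        simp only [psiN, hh]
        rw [ih.2 (U + 2 * d) hM1]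
  obtain ⟨N, hN⟩ : ∃ N : ℕ, R1 - N * (2 * d.re) ≤ -μ := by
    obtain ⟨N, hN⟩ := exists_nat_ge ((R1 + μ) / (2 * d.re))
    refine ⟨N, ?_⟩
    rw [div_le_iff₀ (by linarith)] at hN
    linarith
  obtain ⟨ph, hphd, hphr⟩ : ∃ ph : ℂ → ℂ, (∀ U : ℂ, -μ < U.re → DifferentiableAt ℂ ph U) ∧
      ∀ U : ℂ, R1 < U.re → ph U = psi U :=
    ⟨psiN d psi N, fun U hU => (hA N).1 U hU (by linarith), (hA N).2⟩
  -- step 3
  have hCp : ∀ U : ℂ, -μ < U.re → R1 < U.im → ph U = psi U := by
    have key : EqOn ph psi ({U : ℂ | -μ < U.re} ∩ {U : ℂ | R1 < U.im}) := by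
      refine eqOn_convex (U0 := ⟨R1 + 1, R1 + 1⟩) ?_ ?_ ?_ ?_ ?_ ?_
      · exact (isOpen_lt continuous_const Complex.continuous_re).inter
          (isOpen_lt continuous_const Complex.continuous_im)
      · exact (convex_halfSpace_re_gt _).inter (convex_halfSpace_im_gt _)
      · intro U hU
        exact hphd U hU.1
      · intro U hU
        refine hdiff U (lt_of_le_of_lt hRR1 (lt_of_lt_of_le hU.2 ?_))
        exact (le_abs_self _).trans (Complex.abs_im_le_norm U)
      · simp only [mem_inter_iff, mem_ofPred_eq]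
        constructor <;> linarith
      · have ho : IsOpen {U : ℂ | R1 < U.re} := isOpen_lt continuous_const Complex.continuous_re
        filter_upwards [ho.mem_nhds (show (⟨R1 + 1, R1 + 1⟩ : ℂ) ∈ {U : ℂ | R1 < U.re} by
          simp only [mem_ofPred_eq]; linarith)] with U hU
        exact hphr U hU
    exact fun U h1 h2 => key ⟨h1, h2⟩
  have hCm : ∀ U : ℂ, -μ < U.re → U.im < -R1 → ph U = psi U := by
    have key : EqOn ph psi ({U : ℂ | -μ < U.re} ∩ {U : ℂ | U.im < -R1}) := by
      refine eqOn_convex (U0 := ⟨R1 + 1, -R1 - 1⟩) ?_ ?_ ?_ ?_ ?_ ?_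
      · exact (isOpen_lt continuous_const Complex.continuous_re).inter
          (isOpen_lt Complex.continuous_im continuous_const)
      · exact (convex_halfSpace_re_gt _).inter (convex_halfSpace_im_lt _)
      · intro U hU
        exact hphd U hU.1
      · intro U hU
        have h2 : U.im < -R1 := hU.2
        refine hdiff U (lt_of_le_of_lt hRR1 (lt_of_lt_of_le (by linarith : R1 < -U.im) ?_))
        exact (neg_le_abs _).trans (Complex.abs_im_le_norm U)
      · simp only [mem_inter_iff, mem_ofPred_eq]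
        constructor <;> linarith
      · have ho : IsOpen {U : ℂ | R1 < U.re} := isOpen_lt continuous_const Complex.continuous_re
        filter_upwards [ho.mem_nhds (show (⟨R1 + 1, -R1 - 1⟩ : ℂ) ∈ {U : ℂ | R1 < U.re} by
          simp only [mem_ofPred_eq]; linarith)] with U hU
        exact hphr U hU
    exact fun U h1 h2 => key ⟨h1, h2⟩
  -- step 4
  have hS : ∀ U : ℂ, -μ < U.re → U.re < μ → ph (-U) = -ph U := by
    have key : EqOn (fun U => ph (-U)) (fun U => -ph U)
        ({U : ℂ | -μ < U.re} ∩ {U : ℂ | U.re < μ}) := by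
      refine eqOn_convex (U0 := ⟨0, R1 + 1⟩) ?_ ?_ ?_ ?_ ?_ ?_
      · exact (isOpen_lt continuous_const Complex.continuous_re).inter
          (isOpen_lt Complex.continuous_re continuous_const)
      · exact (convex_halfSpace_re_gt _).inter (convex_halfSpace_re_lt _)
      · intro U hU
        have h1 : U.re < μ := hU.2
        have h3 : -μ < (-U).re := by simp only [Complex.neg_re]; linarith
        exact (hphd _ h3).comp U differentiableAt_id.neg
      · intro U hU
        exact (hphd U hU.1).neg
      · simp only [mem_inter_iff, mem_ofPred_eq]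
        exact ⟨by linarith, by linarith⟩
      · have ho : IsOpen (({U : ℂ | -μ < U.re} ∩ {U : ℂ | U.re < μ}) ∩ {U : ℂ | R1 < U.im}) :=
          ((isOpen_lt continuous_const Complex.continuous_re).inter
          (isOpen_lt Complex.continuous_re continuous_const)).inter
          (isOpen_lt continuous_const Complex.continuous_im)
        filter_upwards [ho.mem_nhds (show (⟨0, R1 + 1⟩ : ℂ) ∈ _ by
          simp only [mem_inter_iff, mem_ofPred_eq]
          exact ⟨⟨by linarith, by linarith⟩, by linarith⟩)] with U hU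
        have h1 : -μ < U.re := hU.1.1
        have h1' : U.re < μ := hU.1.2
        have h2 : R1 < U.im := hU.2
        have h3 : ph U = psi U := hCp U h1 h2
        have h4 : ph (-U) = psi (-U) := hCm (-U) (by simp only [Complex.neg_re]; linarith)
          (by simp only [Complex.neg_im]; linarith)
        rw [h3, h4]
        refine hodd U (lt_of_le_of_lt hRR1 (lt_of_lt_of_le h2 ?_))
        exact (le_abs_self _).trans (Complex.abs_im_le_norm U)
    exact fun U h1 h2 => key ⟨h1, h2⟩
  -- step 5
  classical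
  obtain ⟨P, hP⟩ : ∃ P : ℂ → ℂ, P = fun U => if -μ < U.re then ph U else -ph (-U) := ⟨_, rfl⟩
  have hP1 : ∀ U : ℂ, -μ < U.re → P U = ph U := by
    intro U hU
    rw [hP]
    simp only
    rw [if_pos hU]
  have hP2 : ∀ U : ℂ, U.re < μ → P U = -ph (-U) := by
    intro U hU
    by_cases h1 : -μ < U.re
    · rw [hP1 U h1, hS U h1 hU, neg_neg]
    · rw [hP]
      simp only
      rw [if_neg h1]
  have ho : IsOpen {U : ℂ | -μ < U.re} := isOpen_lt continuous_const Complex.continuous_re
  have hon : IsOpen {U : ℂ | U.re < μ} := isOpen_lt Complex.continuous_re continuous_const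
  have hor : ∀ U : ℂ, -μ < U.re ∨ U.re < μ := by
    intro U
    by_cases h1 : -μ < U.re
    · exact Or.inl h1
    · right
      linarith
  have hPd : Differentiable ℂ P := by
    intro U
    rcases hor U with h1 | h1
    · refine (hphd U h1).congr_of_eventuallyEq ?_
      filter_upwards [ho.mem_nhds h1] with V hV
      exact hP1 V hV
    · have h3 : -μ < (-U).re := by simp only [Complex.neg_re]; linarith
      have h2 : DifferentiableAt ℂ (fun V => -ph (-V)) U :=
        ((hphd _ h3).comp U differentiableAt_id.neg).neg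
      refine h2.congr_of_eventuallyEq ?_
      filter_upwards [hon.mem_nhds h1] with V hV
      exact hP2 V hV
  -- the limit at infinity
  have hbig : ∀ U : ℂ, -μ < U.re → 2 * R1 < ‖U‖ → ph U = psi U := by
    intro U hU hn
    by_cases h1 : R1 < U.re
    · exact hphr U h1
    by_cases h2 : R1 < U.im
    · exact hCp U hU h2
    by_cases h3 : U.im < -R1
    · exact hCm U hU h3
    exfalso
    have h5 : |U.re| ≤ R1 := by rw [abs_le]; constructor <;> linarith
    have h6 : |U.im| ≤ R1 := by rw [abs_le]; constructor <;> linarith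
    have h7 := Complex.norm_le_abs_re_add_abs_im U
    linarith
  have hPbig : ∀ U : ℂ, 2 * R1 < ‖U‖ → P U = psi U := by
    intro U hn
    rcases hor U with h1 | h1
    · rw [hP1 U h1, hbig U h1 hn]
    · have h3 : -μ < (-U).re := by simp only [Complex.neg_re]; linarith
      rw [hP2 U h1, hbig (-U) h3 (by rwa [norm_neg]), hodd U (by linarith), neg_neg]
  obtain ⟨g, hg⟩ : ∃ g : ℂ → ℂ, g = fun U => U * P U := ⟨_, rfl⟩
  have hgd : Differentiable ℂ g := by
    rw [hg]
    exact differentiable_id.mul hPd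
  have hginf : Tendsto g (cocompact ℂ) (𝓝 (-1)) := by
    rw [← Metric.cobounded_eq_cocompact]
    refine hinf.congr' ?_
    have : ∀ᶠ U : ℂ in Bornology.cobounded ℂ, 2 * R1 < ‖U‖ :=
      tendsto_norm_cobounded_atTop.eventually_gt_atTop (2 * R1)
    filter_upwards [this] with U hU
    rw [hg]
    simp only
    rw [hPbig U hU]
  have hfin := hgd.apply_eq_of_tendsto_cocompact 0 hginf
  rw [hg] at hfin
  simp only [zero_mul] at hfin
  norm_num at hfin

end Pool.Agent.MP_ae5b4e_an_GEN
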