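import Pool.Agent.Lib.MP_ae5b4e_an_GEN.Defs
import Pool.Agent.Lib.MP_ae5b4e_an_FLEX.Ks
import Pool.Agent.Lib.MP_ae5b4e_an_FLEX.GeoK
import Pool.Agent.Lib.MP_ae5b4e_an_FLEX.GeoCusp
import Pool.Agent.Lib.MP_ae5b4e_an_LAT.NDPropag

set_option autoImplicit false

/-!
# MP_ae5b4e_an, project GEN, module K3: the kick at a pole of order `l + 1 ≥ 2`
-/

noncomputable section

namespace Pool.Agent.MP_ae5b4e_an_GEN

open Filter Topology Set Metric
open scoped Polynomial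
open Polynomial (evalEval)
open Pool.Agent.MP_ae5b4e_an_ND (cc cf co Dx Dy Filt Reg rts)
open Pool.Agent.MP_ae5b4e_an_FLEX
open Pool.Agent.MP_ae5b4e_an_ALG (Dh)

/-- the kick at a place where the field has a pole of order at least two -/
theorem place_pole {a b l : ℕ} (hl : 0 < l) {X Y K k : ℂ → ℂ} {m : ℂ × ℂ → ℂ}
    (hm : Kern a b X Y m) (hk : AnalyticAt ℂ k 0)
    (hK : ∀ᶠ w in 𝓝[≠] (0:ℂ), K w = k w / w ^ (l + 1))
    (hg : ∀ᶠ s in 𝓝[≠] (0:ℂ), GoodG X Y K s) :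
    ∃ Yf A δ, PlaceK l Yf A δ ∧ ∀ᶠ η in 𝓝 (0:ℂ), A (0, η) = η / (1 - k 0 / 2 * η) := by
  obtain ⟨n, hn, hmn, hn0⟩ := MP_ae5b4e_an_ND.exists_div_y hm.ana hm.zero
  have hn00 : n (0, 0) = 1 / 2 := by
    rw [hn0.self_of_nhds, hm.der]
  set mh : ℂ × ℂ → ℂ := fun p => p.2 * n (p.1, p.1 ^ l * p.2) with hmh
  have hmha : AnalyticAt ℂ mh (0, 0) := by
    refine analyticAt_snd.mul ?_
    have h1 : AnalyticAt ℂ (fun p : ℂ × ℂ => ((p.1, p.1 ^ l * p.2) : ℂ × ℂ)) (0, 0) :=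
      analyticAt_fst.prod ((analyticAt_fst.pow l).mul analyticAt_snd)
    exact hn.comp_of_eq h1 (by simp)
  have hmh0 : ∀ t, mh (t, 0) = 0 := fun t => by simp [hmh]
  have hmhz : ∀ e, mh (0, e) = e / 2 := by
    intro e
    simp only [hmh]
    rw [zero_pow hl.ne', zero_mul, hn00]
    ring
  have hmh1 : deriv (fun y => mh (0, y)) 0 ≠ 0 := by
    have h1 : (fun y => mh (0, y)) = fun y => y / 2 := funext hmhz
    rw [h1, deriv_div_const, deriv_id'']
    norm_num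
  obtain ⟨A, hA, hAeq, ρ, hρ, huniq⟩ := exists_kick (k := k) hmha
    (Eventually.of_forall hmh0) hmh1 hk
  obtain ⟨δ1, hδ1, h1⟩ := Metric.eventually_nhds_iff_ball.1 hA.ana.eventually_analyticAt
  obtain ⟨δ2, hδ2, h2⟩ := Metric.eventually_nhds_iff_ball.1 hA.zero
  obtain ⟨δ3, hδ3, h3⟩ := Metric.eventually_nhds_iff_ball.1 hA.der
  obtain ⟨δ4, hδ4, h4⟩ := Metric.eventually_nhds_iff_ball.1 (hm.eq.and hmn)
  rw [eventually_nhdsWithin_iff] at hg hK
  obtain ⟨δ5, hδ5, h5⟩ := Metric.eventually_nhds_iff_ball.1 (hg.and hK)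
  set δ := min (min (min δ1 δ2) (min δ3 δ4)) (min (min δ5 1) ρ) with hδ
  have hδ0 : 0 < δ := by positivity
  have e1 : δ ≤ δ1 := ((min_le_left _ _).trans (min_le_left _ _)).trans (min_le_left _ _)
  have e2 : δ ≤ δ2 := ((min_le_left _ _).trans (min_le_left _ _)).trans (min_le_right _ _)
  have e3 : δ ≤ δ3 := ((min_le_left _ _).trans (min_le_right _ _)).trans (min_le_left _ _)
  have e4 : δ ≤ δ4 := ((min_le_left _ _).trans (min_le_right _ _)).trans (min_le_right _ _)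
  have e5 : δ ≤ δ5 := ((min_le_right _ _).trans (min_le_left _ _)).trans (min_le_left _ _)
  have e6 : δ ≤ ρ := (min_le_right _ _).trans (min_le_right _ _)
  have e7 : δ ≤ 1 := ((min_le_right _ _).trans (min_le_left _ _)).trans (min_le_right _ _)
  have hball : ∀ {r : ℝ} {x η : ℂ}, ‖x‖ < r → ‖η‖ < r → (x, η) ∈ ball ((0, 0) : ℂ × ℂ) r := by
    intro r x η hx hη
    rw [mem_ball_iff_norm]
    simpa [Prod.norm_def] using ⟨hx, hη⟩
  have hgood : ∀ x : ℂ, x ≠ 0 → ‖x‖ < δ → GoodG X Y K x ∧ K x = k x / x ^ (l + 1) := by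
    intro x hx hxδ
    have h := h5 x (by rw [mem_ball_zero_iff]; exact hxδ.trans_le e5)
    exact ⟨h.1 hx, h.2 hx⟩
  set O : Set ℂ := ball 0 δ \ {0} with hO
  have hOo : IsOpen O := isOpen_ball.sdiff isClosed_singleton
  obtain ⟨Yf, hYf⟩ := isKick_global (X := X) (Y := Y) (K := K) hOo (by
    rintro t ⟨ht, ht0⟩
    exact (hgood t ht0 (mem_ball_zero_iff.1 ht)).1.1)
  refine ⟨Yf, A, δ, ⟨hδ0, ?_, ?_, ?_, ?_, ?_⟩, ?_⟩
  · intro x η hx hη
    exact h1 _ (hball (hx.trans_le e1) (hη.trans_le e1))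
  · intro x hx
    exact h2 x (mem_ball_zero_iff.2 (hx.trans_le e2))
  · intro x hx
    exact h3 x (mem_ball_zero_iff.2 (hx.trans_le e3))
  · intro x hx0 hx
    exact goodG_of_isKick (hgood x hx0 hx).1 (hYf x ⟨mem_ball_zero_iff.2 hx, hx0⟩)
  · intro x hx0 hx
    obtain ⟨hkk, hrel⟩ := hYf x ⟨mem_ball_zero_iff.2 hx, hx0⟩
    obtain ⟨G, hG, hYG, hG1⟩ := MP_ae5b4e_an_ND.exists_div_y hkk.ana hkk.zero
    have hG2 : G (x, 0) ≠ 0 := by
      have h6 := hG1.self_of_nhds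
      rw [hkk.der.self_of_nhds] at h6
      rw [h6]
      exact one_ne_zero
    have hxp : x ^ (l + 1) ≠ 0 := pow_ne_zero _ hx0
    have hc1 : ContinuousAt (fun p : ℂ × ℂ => p.1) (x, 0) := continuousAt_fst
    have hc1' : ContinuousAt (fun p : ℂ × ℂ => p.1 ^ (l + 1)) (x, 0) := hc1.pow _
    have hc2 : ContinuousAt (fun p : ℂ × ℂ => p.2 / p.1 ^ (l + 1)) (x, 0) :=
      continuousAt_snd.div hc1' hxp
    have hc3 : ContinuousAt (fun p : ℂ × ℂ => Yf p / p.1 ^ (l + 1)) (x, 0) :=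
      hkk.ana.continuousAt.div hc1' hxp
    have hY0 : Yf (x, 0) = 0 := hkk.zero.self_of_nhds
    have v1 : ∀ᶠ p in 𝓝 ((x, 0) : ℂ × ℂ), ‖p.1‖ < δ := by
      refine hc1.norm.eventually_lt_const ?_
      exact hx
    have v2 : ∀ᶠ p in 𝓝 ((x, 0) : ℂ × ℂ), ‖p.2 / p.1 ^ (l + 1)‖ < δ := by
      refine hc2.norm.eventually_lt_const ?_
      simpa using hδ0
    have v3 : ∀ᶠ p in 𝓝 ((x, 0) : ℂ × ℂ), ‖Yf p / p.1 ^ (l + 1)‖ < δ := by
      refine hc3.norm.eventually_lt_const ?_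
      simpa [hY0] using hδ0
    have v4 : ∀ᶠ p in 𝓝 ((x, 0) : ℂ × ℂ), p.1 ≠ 0 := hc1.eventually_ne hx0
    have v5 : ∀ᶠ p in 𝓝 ((x, 0) : ℂ × ℂ), G p ≠ 0 := hG.continuousAt.eventually_ne hG2
    have v6 : ∀ᶠ p in 𝓝 ((x, 0) : ℂ × ℂ), Yf (p.1, 0) = 0 := hc1.eventually hkk.zero
    filter_upwards [v1, v2, v3, v4, v5, v6, hYG, hrel] with p w1 w2 w3 w4 w5 w6 w7 w8
    obtain ⟨t, y⟩ := p
    simp only at w1 w2 w3 w4 w5 w6 w7 w8 ⊢
    have htp : t ^ (l + 1) ≠ 0 := pow_ne_zero _ w4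
    have htl : t ^ l ≠ 0 := pow_ne_zero _ w4
    have hpl : ‖t ^ l‖ ≤ 1 := by
      rw [norm_pow]
      exact pow_le_one₀ (norm_nonneg _) (w1.le.trans e7)
    have hsm : ∀ e : ℂ, ‖e‖ < δ → ‖t ^ l * e‖ < δ := by
      intro e he
      rw [norm_mul]
      calc ‖t ^ l‖ * ‖e‖ ≤ 1 * ‖e‖ := by gcongr
        _ < δ := by rw [one_mul]; exact he
    by_cases hy : y = 0
    · subst hy
      rw [w6, zero_div, h2 t (mem_ball_zero_iff.2 (w1.trans_le e2)), mul_zero]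
    · have hY1 : Yf (t, y) ≠ 0 := by
        rw [w7]
        exact mul_ne_zero hy w5
      set η := y / t ^ (l + 1) with hη
      set η' := Yf (t, y) / t ^ (l + 1) with hη'
      have hη0 : η ≠ 0 := div_ne_zero hy htp
      have hη'0 : η' ≠ 0 := div_ne_zero hY1 htp
      have q1 : t + y = t + t * (t ^ l * η) := by rw [hη]; field_simp; ring
      have q2 : t - Yf (t, y) = t + t * (t ^ l * (-η')) := by rw [hη']; field_simp; ring
      have b1 := hsm η w2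
      have b2 := hsm (-η') (by rw [norm_neg]; exact w3)
      have f1 := h4 (t, t ^ l * η) (hball (w1.trans_le e4) (b1.trans_le e4))
      have f2 := h4 (t, t ^ l * (-η')) (hball (w1.trans_le e4) (b2.trans_le e4))
      simp only at f1 f2
      obtain ⟨⟨f11, f12⟩, f13⟩ := f1
      obtain ⟨⟨f21, f22⟩, f23⟩ := f2
      have g1 := f12 w4 (mul_ne_zero htl hη0)
      have g2 := f22 w4 (mul_ne_zero htl (neg_ne_zero.2 hη'0))
      rw [q1, q2, f11, f21, f13, f23, (hgood t w4 w1).2] at w8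
      set D := brD X Y t (t + t * (t ^ l * η)) with hD
      set D' := brD X Y t (t + t * (t ^ l * -η')) with hD'
      have key : mh (t, -η') * (k t * mh (t, η) - 1) = mh (t, η) := by
        simp only [hmh]
        set n1 := n (t, t ^ l * η)
        set n2 := n (t, t ^ l * -η')
        have hx2 : k t / t ^ (l + 1) * (t * (t ^ l * η * n1) * D) = k t * (η * n1) * D := by
          field_simp
          ring
        have h6 : (D * D' * t * t ^ l) * (-η' * n2 * (k t * (η * n1) - 1)) =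
            (D * D' * t * t ^ l) * (η * n1) := by
          rw [hx2] at w8
          linear_combination (-1 : ℂ) * w8
        exact mul_left_cancel₀ (mul_ne_zero (mul_ne_zero (mul_ne_zero g1 g2) w4) htl) h6
      have h7 := huniq t η η' (by rw [sub_zero]; exact w1.trans_le e6) (w2.trans_le e6)
        (w3.trans_le e6) key
      rw [← h7, hη']
      field_simp
  · have hsl : Tendsto (fun η : ℂ => ((0:ℂ), η)) (𝓝 0) (𝓝 (0, 0)) :=
      (Continuous.prodMk_right (0:ℂ)).tendsto 0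
    have hne : ∀ᶠ η in 𝓝 (0:ℂ), 1 - k 0 / 2 * η ≠ 0 := by
      have hc : ContinuousAt (fun η : ℂ => 1 - k 0 / 2 * η) 0 := by fun_prop
      refine hc.eventually_ne ?_
      simp
    filter_upwards [hsl.eventually hAeq, hne] with η h1 h2
    rw [hmhz, hmhz] at h1
    rw [eq_div_iff h2]
    linear_combination 2 * h1

end Pool.Agent.MP_ae5b4e_an_GEN
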