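import Pool.Agent.Lib.MP_ae5b4e_an_GEN.Defs
import Pool.Agent.Lib.MP_ae5b4e_an_FLEX.WtY
import Pool.Agent.Lib.MP_ae5b4e_an_FLEX.BdY
import Pool.Agent.Lib.MP_ae5b4e_an_FLEX.SlopeY
import Pool.Agent.Lib.MP_ae5b4e_an_FLEX.BridgeY

/-!
# MP_ae5b4e_an, project GEN: weights and bounds at a pole of the field of involutions
-/

noncomputable section

namespace Pool.Agent.MP_ae5b4e_an_GEN

open Filter Topology Set Metric
open scoped Polynomial
open Polynomial (evalEval)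
open Pool.Agent.MP_ae5b4e_an_ND (cc cf co Dx Dy Filt Reg rts)
open Pool.Agent.MP_ae5b4e_an_FLEX
open Pool.Agent.MP_ae5b4e_an_ALG (Dh)

namespace SeriesK

/-- the weight classes at a pole -/
def W (l : ℕ) (δ : ℝ) (n : ℕ) (f : ℂ → ℂ) : Prop :=
  ∃ φ : ℂ → ℂ, DifferentiableOn ℂ φ (ball 0 δ) ∧
    ∀ w, w ≠ 0 → ‖w‖ < δ → f w = φ w / w ^ ((l + 1) * n)

theorem filt (l : ℕ) (δ : ℝ) : Filt (fun _ => 1) (W l δ) where
  zero n := ⟨fun _ => 0, differentiableOn_const 0, fun w _ _ => by simp⟩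
  one := ⟨fun _ => 1, differentiableOn_const 1, fun w _ _ => by simp⟩
  add n f g hf hg := by
    obtain ⟨φ, a1, a2⟩ := hf
    obtain ⟨ψ, b1, b2⟩ := hg
    refine ⟨fun w => φ w + ψ w, a1.add b1, fun w w0 w1 => ?_⟩
    show f w + g w = (φ w + ψ w) / w ^ ((l + 1) * n)
    rw [a2 w w0 w1, b2 w w0 w1, add_div]
  smul n c f hf := by
    obtain ⟨φ, a1, a2⟩ := hf
    refine ⟨fun w => c * φ w, a1.const_mul c, fun w w0 w1 => ?_⟩
    show c * f w = c * φ w / w ^ ((l + 1) * n)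
    rw [a2 w w0 w1, mul_div_assoc]
  mul m n f g hf hg := by
    obtain ⟨φ, a1, a2⟩ := hf
    obtain ⟨ψ, b1, b2⟩ := hg
    refine ⟨fun w => φ w * ψ w, a1.mul b1, fun w w0 w1 => ?_⟩
    show f w * g w = φ w * ψ w / w ^ ((l + 1) * (m + n))
    rw [a2 w w0 w1, b2 w w0 w1, mul_add, pow_add, div_mul_div_comm]
  der n f hf := by
    obtain ⟨φ, a1, a2⟩ := hf
    refine ⟨fun w => w ^ l * (w * deriv φ w - (((l + 1) * n : ℕ) : ℂ) * φ w),
      (differentiableOn_pow l).mul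
        ((differentiableOn_id.mul (a1.deriv isOpen_ball)).sub (a1.const_mul _)),
      fun w w0 w1 => ?_⟩
    set N : ℕ := (l + 1) * n with hN
    have hm : ball (0 : ℂ) δ ∈ 𝓝 w := isOpen_ball.mem_nhds (WtY.mem_ball w1)
    have e1 : deriv f w = deriv (fun u => φ u / u ^ N) w := by
      apply Filter.EventuallyEq.deriv_eq
      have hm' : {u : ℂ | u ≠ 0} ∈ 𝓝 w := isOpen_ne.mem_nhds w0
      filter_upwards [hm, hm'] with u hu hu'
      exact a2 u hu' (by rwa [Metric.mem_ball, dist_zero_right] at hu)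
    have d1 : HasDerivAt (fun u => φ u / u ^ N)
        ((deriv φ w * w ^ N - φ w * ((N : ℂ) * w ^ (N - 1))) / (w ^ N) ^ 2) w :=
      (a1.differentiableAt hm).hasDerivAt.div (hasDerivAt_pow _ w) (pow_ne_zero _ w0)
    have hN1 : (l + 1) * (n + 1) = N + (l + 1) := by rw [hN, mul_add, mul_one]
    show 1 * deriv f w = w ^ l * (w * deriv φ w - (N : ℂ) * φ w) / w ^ ((l + 1) * (n + 1))
    rw [e1, d1.deriv, one_mul, hN1, pow_add w N (l + 1), pow_succ w l]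
    have e2 : w * ((N : ℂ) * w ^ (N - 1)) = (N : ℂ) * w ^ N := by
      rcases Nat.eq_zero_or_pos N with h0 | h0
      · rw [h0]; simp
      · obtain ⟨k, hk⟩ : ∃ k, N = k + 1 := ⟨N - 1, by omega⟩
        rw [hk, Nat.add_sub_cancel]; ring
    have hp1 : w ^ N ≠ 0 := pow_ne_zero _ w0
    have hp2 : w ^ l ≠ 0 := pow_ne_zero _ w0
    rw [div_eq_div_iff (pow_ne_zero _ hp1) (mul_ne_zero hp1 (mul_ne_zero hp2 w0))]
    linear_combination (-φ w * w ^ N * w ^ l) * e2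

theorem pc_eq {l : ℕ} {Yf A : ℂ × ℂ → ℂ} {δ : ℝ} (hp : PlaceK l Yf A δ) (m j : ℕ) {w : ℂ}
    (w0 : w ≠ 0) (w1 : ‖w‖ < δ) :
    Pc Yf m j w = cf (fun η => A (w, η) ^ m) (m + j) / w ^ ((l + 1) * j) := by
  unfold Pc
  have hc : Tendsto (fun y : ℂ => ((w, y) : ℂ × ℂ)) (𝓝 0) (𝓝 (w, 0)) := by
    have : Continuous (fun y : ℂ => ((w, y) : ℂ × ℂ)) := by fun_prop
    exact this.tendsto 0
  set v : ℂ := w ^ (l + 1) with hv
  have hv0 : v ≠ 0 := pow_ne_zero _ w0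
  have e1 : (fun y => Yf (w, y) ^ m) =ᶠ[𝓝 0] fun y => v ^ m * A (w, v⁻¹ * y) ^ m := by
    filter_upwards [hc.eventually (hp.eq w w0 w1)] with y hy
    rw [hy, mul_pow, div_eq_inv_mul]
  have e2 : cf (fun y => A (w, v⁻¹ * y) ^ m) (m + j) =
      v⁻¹ ^ (m + j) * cf (fun η => A (w, η) ^ m) (m + j) :=
    WtY.cf_scale v⁻¹ (fun η => A (w, η) ^ m) (m + j)
  rw [Pool.Agent.MP_ae5b4e_an_ND.cf_congr e1, Pool.Agent.MP_ae5b4e_an_ND.cf_const_mul, e2,
    pow_add, inv_pow, inv_pow, pow_mul, ← hv]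
  have h1 : v ^ m ≠ 0 := pow_ne_zero _ hv0
  have h2 : v ^ j ≠ 0 := pow_ne_zero _ hv0
  field_simp

theorem mem_pc {l : ℕ} {Yf A : ℂ × ℂ → ℂ} {δ : ℝ} (hp : PlaceK l Yf A δ) (m j : ℕ) :
    W l δ j (Pc Yf m j) :=
  ⟨fun w => cf (fun η => A (w, η) ^ m) (m + j),
    WtY.diff_cf (A := fun p => A p ^ m) hp.δ_pos
      (fun x η hx hη => (hp.A_ana x η hx hη).pow m) (m + j),
    fun _ w0 w1 => pc_eq hp m j w0 w1⟩

/-- a place restricts to a smaller disc -/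
theorem mono {l : ℕ} {Yf A : ℂ × ℂ → ℂ} {δ δ' : ℝ} (hp : PlaceK l Yf A δ) (h0 : 0 < δ')
    (h : δ' ≤ δ) : PlaceK l Yf A δ' where
  δ_pos := h0
  A_ana x η hx hη := hp.A_ana x η (hx.trans_le h) (hη.trans_le h)
  A_zero x hx := hp.A_zero x (hx.trans_le h)
  A_der x hx := hp.A_der x (hx.trans_le h)
  good x hx hx' := hp.good x hx (hx'.trans_le h)
  eq x hx hx' := hp.eq x hx (hx'.trans_le h)

end SeriesK

/-- weights at a place with a pole of order `l + 1` of the field of involutions -/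
theorem slopeK_place {l : ℕ} {Yf A : ℂ × ℂ → ℂ} {δ : ℝ} (hp : PlaceK l Yf A δ) :
    ∃ b : ℕ → ℂ → ℂ, (∀ n, DifferentiableOn ℂ (b n) (ball 0 δ)) ∧ (∀ w, b 0 w = 0) ∧
      (∀ w, ‖w‖ < δ → b 1 w = -cf (fun η => A (w, η)) 2) ∧
      (∀ n w, w ≠ 0 → ‖w‖ < δ → slopeY (Pc Yf) n w = b n w / w ^ ((l + 1) * n)) := by
  have hW : ∀ n, ∃ φ : ℂ → ℂ, ((n = 0 → φ = fun _ => 0) ∧
      (n = 1 → φ = fun w => -cf (fun η => A (w, η)) 2)) ∧
      DifferentiableOn ℂ φ (ball 0 δ) ∧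
      (∀ w, w ≠ 0 → ‖w‖ < δ → slopeY (Pc Yf) n w = φ w / w ^ ((l + 1) * n)) := by
    intro n
    rcases Nat.eq_zero_or_pos n with rfl | hn
    · exact ⟨fun _ => 0, ⟨fun _ => rfl, fun h => by omega⟩, differentiableOn_const 0,
        fun w _ _ => by rw [slopeY_zero]; simp⟩
    · rcases Nat.eq_or_lt_of_le (Nat.succ_le_of_lt hn) with h1 | h1
      · have hn1 : n = 1 := by omega
        subst hn1
        refine ⟨fun w => -cf (fun η => A (w, η)) 2, ⟨fun h => by omega, fun _ => rfl⟩,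
          (WtY.diff_cf hp.δ_pos hp.A_ana 2).neg, fun w w0 w1 => ?_⟩
        rw [slopeY_one]
        show -Pc Yf 1 1 w = _
        rw [SeriesK.pc_eq hp 1 1 w0 w1]
        simp only [pow_one, neg_div]
      · obtain ⟨φ, a1, a2⟩ := slopeY_mem (SeriesK.filt l δ) (fun m j _ => SeriesK.mem_pc hp m j) n
        exact ⟨φ, ⟨fun h => by omega, fun h => by omega⟩, a1, a2⟩
  choose b hb using hW
  refine ⟨b, fun n => (hb n).2.1, fun w => ?_, fun w _ => ?_, fun n => (hb n).2.2⟩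
  · rw [(hb 0).1.1 rfl]
  · rw [(hb 1).1.2 rfl]

/-- local bounds and the maximum principle -/
theorem placeK_series {l : ℕ} {Yf A : ℂ × ℂ → ℂ} {δ : ℝ} (hp : PlaceK l Yf A δ) :
    ∃ δ' > 0, δ' ≤ δ ∧ ∃ C b, SerK l Yf A δ' C b := by
  have hδ := hp.δ_pos
  obtain ⟨b, hbd, hb0, hb1, hbe⟩ := slopeK_place hp
  set δ' : ℝ := δ / 2 with hδ'
  have hδ'pos : 0 < δ' := by positivity
  have hδ'lt : δ' < δ := by rw [hδ']; linarith
  -- a uniform bound on the circle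
  have hcpt : IsCompact (Metric.sphere (0 : ℂ) δ') := isCompact_sphere _ _
  have hunif : ∃ C : ℝ, 0 < C ∧ ∀ w ∈ Metric.sphere (0 : ℂ) δ', ∀ n,
      ‖slopeY (Pc Yf) n w‖ ≤ C ^ n := by
    refine hcpt.induction_on (p := fun s => ∃ C : ℝ, 0 < C ∧ ∀ w ∈ s, ∀ n,
      ‖slopeY (Pc Yf) n w‖ ≤ C ^ n) ?_ ?_ ?_ ?_
    · exact ⟨1, one_pos, fun w hw => absurd hw (Set.notMem_empty w)⟩
    · rintro s t hst ⟨C, hC, h⟩
      exact ⟨C, hC, fun w hw => h w (hst hw)⟩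
    · rintro s t ⟨C, hC, h⟩ ⟨D, hD, h'⟩
      refine ⟨max C D, lt_max_of_lt_left hC, ?_⟩
      rintro w (hw | hw) n
      · exact (h w hw n).trans (pow_le_pow_left₀ hC.le (le_max_left _ _) n)
      · exact (h' w hw n).trans (pow_le_pow_left₀ hD.le (le_max_right _ _) n)
    · intro w₁ hw₁
      have h1 : ‖w₁‖ = δ' := by simpa using hw₁
      have h2 : w₁ ≠ 0 := by
        intro h0
        rw [h0, norm_zero] at h1
        linarith
      obtain ⟨ρ, hρ, C, hC0, -, -, hC, -⟩ := goodY_slope (hp.good w₁ h2 (h1 ▸ hδ'lt))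
      refine ⟨Metric.ball w₁ ρ, mem_nhdsWithin_of_mem_nhds (Metric.ball_mem_nhds w₁ hρ),
        C, hC0, ?_⟩
      intro w hw n
      have hw' : ‖w - w₁‖ < ρ := by
        rw [← dist_eq_norm]; exact hw
      exact hC n w hw'
  obtain ⟨C, hC, hCb⟩ := hunif
  refine ⟨δ', hδ'pos, hδ'lt.le, C * δ' ^ (l + 1), b, ?_⟩
  refine ⟨SeriesK.mono hp hδ'pos hδ'lt.le, by positivity, ?_, hb0, ?_, ?_, ?_⟩
  · intro n
    exact (hbd n).mono (Metric.ball_subset_ball hδ'lt.le)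
  · intro w hwn
    exact hb1 w (hwn.trans hδ'lt)
  · intro n w hw hwn
    exact hbe n w hw (hwn.trans hδ'lt)
  · intro n w hwn
    have hcl : closure (Metric.ball (0 : ℂ) δ') ⊆ Metric.ball 0 δ := by
      refine Metric.closure_ball_subset_closedBall.trans ?_
      exact Metric.closedBall_subset_ball hδ'lt
    have hdc : DiffContOnCl ℂ (b n) (Metric.ball 0 δ') :=
      DifferentiableOn.diffContOnCl ((hbd n).mono hcl)
    refine Complex.norm_le_of_forall_mem_frontier_norm_le Metric.isBounded_ball hdc ?_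
      (subset_closure (by simpa using hwn))
    intro z hz
    have hz' : z ∈ Metric.sphere (0 : ℂ) δ' := Metric.frontier_ball_subset_sphere hz
    have h1 : ‖z‖ = δ' := by simpa using hz'
    have h2 : z ≠ 0 := by
      intro h0
      rw [h0, norm_zero] at h1
      linarith
    have h3 := hbe n z h2 (h1 ▸ hδ'lt)
    have h4 := hCb z hz' n
    have hzp : z ^ ((l + 1) * n) ≠ 0 := pow_ne_zero _ h2
    have h5 : b n z = slopeY (Pc Yf) n z * z ^ ((l + 1) * n) := by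
      rw [h3]; field_simp
    rw [h5, norm_mul, norm_pow, h1, mul_pow, ← pow_mul]
    exact mul_le_mul_of_nonneg_right h4 (by positivity)

end Pool.Agent.MP_ae5b4e_an_GEN
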