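import Pool.Agent.Lib.MP_ae5b4e_an_GEN.Defs
import Pool.Agent.Lib.MP_ae5b4e_an_GEN.SeriesK
import Pool.Agent.Lib.MP_ae5b4e_an_GEN.FipK
import Pool.Agent.Lib.MP_ae5b4e_an_FLEX.Zero
import Pool.Agent.Lib.MP_ae5b4e_an_LAT.NDShift

/-!
# MP_ae5b4e_an, GEN module K6 (helper47): the functional equation and its contradiction

`placeK_zero`: the functional equation of the slope at a place where the field of involutions has a
pole of order `l + 1 ≥ 2`; `no_irr`: this equation has no solution.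
-/

set_option autoImplicit false

noncomputable section

namespace Pool.Agent.MP_ae5b4e_an_GEN

open Filter Topology Set Metric
open scoped Polynomial
open Polynomial (evalEval)
open Pool.Agent.MP_ae5b4e_an_ND (cc cf co Dx Dy Filt Reg rts)
open Pool.Agent.MP_ae5b4e_an_FLEX
open Pool.Agent.MP_ae5b4e_an_ALG (Dh)

theorem placeK_zero {l : ℕ} (hl : 0 < l) {Yf A : ℂ × ℂ → ℂ} {δ : ℝ} (hp : PlaceK l Yf A δ) :
    ∃ Q : ℂ → ℂ, AnalyticAt ℂ Q 0 ∧ Q 0 = 0 ∧
      deriv Q 0 = -deriv (deriv (fun η => A (0, η))) 0 / 2 ∧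
      ∀ᶠ η in 𝓝 (0:ℂ), Q (A (0, η)) * (1 - Q η * deriv (fun η => A (0, η)) η) =
        Q η * deriv (fun η => A (0, η)) η := by
  obtain ⟨δ', hδ', hle, C, b, hs⟩ := placeK_series hp
  obtain ⟨ρ, hρ, hFI⟩ := serK_FI hs
  have h00 : ‖(0 : ℂ)‖ < δ' := by simpa using hδ'
  obtain ⟨D, hD, hbD⟩ : ∃ D : ℝ, 0 < D ∧ ∀ n, ‖b n 0‖ ≤ D * D ^ n := by
    refine ⟨max C 1, lt_max_of_lt_right one_pos, fun n => ?_⟩
    have h1 : (1 : ℝ) ≤ max C 1 := le_max_right _ _
    calc ‖b n 0‖ ≤ C ^ n := hs.b_bound n 0 h00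
      _ ≤ (max C 1) ^ n := pow_le_pow_left₀ hs.C_pos.le (le_max_left _ _) n
      _ ≤ max C 1 * (max C 1) ^ n := le_mul_of_one_le_left (by positivity) h1
  have hbD' : ∀ n, ‖b (n + 1) 0‖ ≤ (D * (1 + D)) * (D * (1 + D)) ^ n := by
    intro n
    have h1 : D ≤ D * (1 + D) := le_mul_of_one_le_right hD.le (by linarith)
    have h2 : D ^ n ≤ (D * (1 + D)) ^ n := pow_le_pow_left₀ hD.le h1 n
    calc ‖b (n + 1) 0‖ ≤ D * D ^ (n + 1) := hbD (n + 1)
      _ = (D * D) * D ^ n := by ring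
      _ ≤ (D * (1 + D)) * (D * (1 + D)) ^ n :=
        mul_le_mul (by nlinarith) h2 (by positivity) (by positivity)
  have hD' : 0 < D * (1 + D) := by positivity
  have hQd := Zero.ser_diff (c := fun n => b n 0) hD hbD
  have hQd' := Zero.ser_diff (c := fun n => b (n + 1) 0) hD' hbD'
  have hb0 : b 0 0 = 0 := hs.b_zero 0
  have hr : 0 < 1 / (2 * D) := by positivity
  have hr' : 0 < 1 / (2 * (D * (1 + D))) := by positivity
  refine ⟨fun η => bs b 0 η, ?_, ?_, ?_, ?_⟩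
  · exact (hQd.analyticAt (ball_mem_nhds _ hr))
  · show bs b 0 0 = 0
    rw [bs, Zero.ser_zero (fun n => b n 0), hb0]
  · have he : (fun η => bs b 0 η) =ᶠ[𝓝 0] fun η => η * ∑' n, b (n + 1) 0 * η ^ n := by
      filter_upwards [ball_mem_nhds (0 : ℂ) hr] with η hη
      have hη' : ‖η‖ < 1 / (2 * D) := by simpa using hη
      show ∑' n, b n 0 * η ^ n = _
      rw [(Zero.ser_summable (c := fun n => b n 0) hD hbD hη').tsum_eq_zero_add, hb0, zero_mul,
        zero_add, ← tsum_mul_left]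
      refine tsum_congr fun n => ?_
      ring
    rw [he.deriv_eq]
    have h1 : DifferentiableAt ℂ (fun η : ℂ => ∑' n, b (n + 1) 0 * η ^ n) 0 :=
      hQd'.differentiableAt (ball_mem_nhds _ hr')
    have h2 := (hasDerivAt_id (0 : ℂ)).mul h1.hasDerivAt
    have h3 : deriv (fun η : ℂ => η * ∑' n, b (n + 1) 0 * η ^ n) 0 =
        ∑' n, b (n + 1) 0 * (0 : ℂ) ^ n := by
      have h4 : HasDerivAt (fun η : ℂ => η * ∑' n, b (n + 1) 0 * η ^ n) _ 0 := h2
      have h5 := h4.deriv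
      rw [h5]
      simp
    rw [h3, Zero.ser_zero (fun n => b (n + 1) 0)]
    show b 1 0 = _
    rw [hs.b_one 0 h00]
    simp only [cf, iteratedDeriv_succ, iteratedDeriv_zero]
    norm_num [Nat.factorial]
    ring
  · filter_upwards [ball_mem_nhds (0 : ℂ) hρ, ball_mem_nhds (0 : ℂ) hδ'] with η hη hη'
    have hη1 : ‖η‖ < ρ := by simpa using hη
    have hη2 : ‖η‖ < δ := lt_of_lt_of_le (by simpa using hη') hle
    have h := hFI 0 η (by simpa using hρ) hη1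
    have hA : AnalyticAt ℂ A (0, η) := hp.A_ana 0 η (by simpa using hp.δ_pos) hη2
    have hDy : Dy A (0, η) = deriv (fun η => A (0, η)) η := by
      have h1 : HasFDerivAt A (fderiv ℂ A (0, η)) (0, η) := hA.differentiableAt.hasFDerivAt
      have h2 : HasDerivAt (fun η : ℂ => ((0 : ℂ), η)) ((0 : ℂ), (1 : ℂ)) η :=
        (hasDerivAt_const η (0 : ℂ)).prodMk (hasDerivAt_id η)
      exact (h1.comp_hasDerivAt η h2).deriv.symm
    have hl0 : (0 : ℂ) ^ l = 0 := zero_pow hl.ne'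
    unfold FIK VK at h
    rw [hDy, hl0] at h
    simpa using h

namespace ZeroK

/-- the data of the equation on a ball -/
theorem data {A0 Q : ℂ → ℂ} {c : ℂ} (hc : c ≠ 0)
    (hA : ∀ᶠ η in 𝓝 (0:ℂ), A0 η = η / (1 - c * η))
    (hQ : AnalyticAt ℂ Q 0) (hQ0 : Q 0 = 0) (hQ1 : deriv Q 0 = -c)
    (hFI : ∀ᶠ η in 𝓝 (0:ℂ), Q (A0 η) * (1 - Q η * deriv A0 η) = Q η * deriv A0 η) :
    ∃ r : ℝ, 0 < r ∧ ∀ η : ℂ, ‖η‖ < r → DifferentiableAt ℂ Q η ∧ (η ≠ 0 → Q η ≠ 0) ∧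
      Q (η / (1 - c * η)) * (1 - Q η * (1 / (1 - c * η) ^ 2)) = Q η * (1 / (1 - c * η) ^ 2) := by
  have hne : ∀ᶠ η in 𝓝 (0:ℂ), 1 - c * η ≠ 0 := by
    have h1 : ContinuousAt (fun η : ℂ => 1 - c * η) 0 := by fun_prop
    refine h1.eventually_ne ?_
    simp
  have hder : ∀ᶠ η in 𝓝 (0:ℂ), deriv A0 η = 1 / (1 - c * η) ^ 2 := by
    filter_upwards [hA.eventually_nhds, hne] with η h1 h2
    have h3 : A0 =ᶠ[𝓝 η] fun η => η / (1 - c * η) := h1
    rw [h3.deriv_eq]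
    have h4 : HasDerivAt (fun η : ℂ => 1 - c * η) (-c) η := by
      have := ((hasDerivAt_id η).const_mul c).const_sub 1
      simpa using this
    have h5 := (hasDerivAt_id η).fun_div h4 h2
    have h6 := h5.deriv
    simp only [id] at h6
    rw [h6]
    congr 1
    ring
  have hdiff : ∀ᶠ η in 𝓝 (0:ℂ), DifferentiableAt ℂ Q η :=
    hQ.eventually_analyticAt.mono (fun η h => h.differentiableAt)
  have hQne : ∀ᶠ η in 𝓝 (0:ℂ), η ≠ 0 → Q η ≠ 0 := by
    have h1 : HasDerivAt Q (-c) 0 := by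
      rw [← hQ1]
      exact hQ.differentiableAt.hasDerivAt
    have h2 := h1.eventually_ne (c := Q 0) (neg_ne_zero.mpr hc)
    rw [hQ0] at h2
    rw [eventually_nhdsWithin_iff] at h2
    filter_upwards [h2] with η h3 h4
    exact h3 h4
  have hall := hdiff.and (hQne.and (hFI.and (hA.and hder)))
  obtain ⟨r, hr, hball⟩ := Metric.eventually_nhds_iff_ball.mp hall
  refine ⟨r, hr, fun η hη => ?_⟩
  obtain ⟨h1, h2, h3, h4, h5⟩ := hball η (by simpa using hη)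
  refine ⟨h1, h2, ?_⟩
  rw [h4, h5] at h3
  exact h3

end ZeroK

/-- there is no pole of order at least two: one variable -/
theorem no_irr {A0 Q : ℂ → ℂ} {c : ℂ} (hc : c ≠ 0) (hA : ∀ᶠ η in 𝓝 (0:ℂ), A0 η = η / (1 - c * η))
    (hQ : AnalyticAt ℂ Q 0) (hQ0 : Q 0 = 0) (hQ1 : deriv Q 0 = -c)
    (hFI : ∀ᶠ η in 𝓝 (0:ℂ), Q (A0 η) * (1 - Q η * deriv A0 η) = Q η * deriv A0 η) : False := by
  obtain ⟨r, hr, hd⟩ := ZeroK.data hc hA hQ hQ0 hQ1 hFI
  have hcn : 0 < ‖c‖ := norm_pos_iff.mpr hc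
  -- radius
  set R : ℝ := max 1 (1 / (‖c‖ * r)) with hR
  have hR1 : 1 ≤ R := le_max_left _ _
  have hR2 : 1 / (‖c‖ * r) ≤ R := le_max_right _ _
  have hsmall : ∀ Y : ℂ, R < ‖Y‖ → ‖1 / (c * Y)‖ < r := by
    intro Y hY
    have hYn : 0 < ‖Y‖ := by linarith
    rw [norm_div, norm_mul, norm_one, div_lt_iff₀ (by positivity)]
    have h1 : 1 / (‖c‖ * r) < ‖Y‖ := lt_of_le_of_lt hR2 hY
    rw [div_lt_iff₀ (by positivity)] at h1
    linarith [h1]
  refine Pool.Agent.MP_ae5b4e_an_ND.Shift.nd_shift_irr (R := R)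
    (H := fun Y => -1 / (Y ^ 2 * Q (1 / (c * Y)))) ?_ ?_
  · intro Y hY
    have hY' : R < ‖Y‖ := hY
    have hY0 : Y ≠ 0 := by
      intro h
      rw [h, norm_zero] at hY'
      linarith
    obtain ⟨h1, h2, -⟩ := hd (1 / (c * Y)) (hsmall Y hY')
    have hη : 1 / (c * Y) ≠ 0 := one_div_ne_zero (mul_ne_zero hc hY0)
    have h3 : DifferentiableAt ℂ (fun Y : ℂ => 1 / (c * Y)) Y := by
      have h4 : c * Y ≠ 0 := mul_ne_zero hc hY0
      fun_prop (disch := assumption)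
    have h5 : DifferentiableAt ℂ (fun Y : ℂ => Q (1 / (c * Y))) Y :=
      DifferentiableAt.comp Y h1 h3
    have h6 : DifferentiableAt ℂ (fun Y : ℂ => Y ^ 2 * Q (1 / (c * Y))) Y :=
      (by fun_prop : DifferentiableAt ℂ (fun Y : ℂ => Y ^ 2) Y).mul h5
    exact ((differentiableAt_const (-1 : ℂ)).div h6
      (mul_ne_zero (pow_ne_zero 2 hY0) (h2 hη))).differentiableWithinAt
  · intro Y hY
    have hYR : R < ‖Y‖ := by linarith
    have hY1R : R < ‖Y - 1‖ := by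
      have h1 := norm_sub_norm_le Y 1
      rw [norm_one] at h1
      linarith
    have hY0 : Y ≠ 0 := by
      intro h
      rw [h, norm_zero] at hYR
      linarith
    have hY10 : Y - 1 ≠ 0 := by
      intro h
      rw [h, norm_zero] at hY1R
      linarith
    obtain ⟨-, h2, h3⟩ := hd (1 / (c * Y)) (hsmall Y hYR)
    obtain ⟨-, h4, -⟩ := hd (1 / (c * (Y - 1))) (hsmall (Y - 1) hY1R)
    have hq := h2 (one_div_ne_zero (mul_ne_zero hc hY0))
    have hq1 := h4 (one_div_ne_zero (mul_ne_zero hc hY10))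
    have e1 : 1 / (c * Y) / (1 - c * (1 / (c * Y))) = 1 / (c * (Y - 1)) := by
      have h5 : 1 - c * (1 / (c * Y)) = (Y - 1) / Y := by
        field_simp
      rw [h5]
      field_simp
    have e2 : 1 / (1 - c * (1 / (c * Y))) ^ 2 = Y ^ 2 / (Y - 1) ^ 2 := by
      have h5 : 1 - c * (1 / (c * Y)) = (Y - 1) / Y := by
        field_simp
      rw [h5]
      field_simp
    rw [e1, e2] at h3
    show -1 / ((Y - 1) ^ 2 * Q (1 / (c * (Y - 1)))) - -1 / (Y ^ 2 * Q (1 / (c * Y)))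
      = 1 / (Y - 1) ^ 2
    generalize Q (1 / (c * (Y - 1))) = q1 at h3 hq1 ⊢
    generalize Q (1 / (c * Y)) = q at h3 hq ⊢
    generalize Y - 1 = Z at h3 hY10 ⊢
    have h6 : q1 * (Z ^ 2 - q * Y ^ 2) = q * Y ^ 2 := by
      have h7 : q1 * (1 - q * (Y ^ 2 / Z ^ 2)) * Z ^ 2 = q * (Y ^ 2 / Z ^ 2) * Z ^ 2 := by
        rw [h3]
      have h8 : Z ^ 2 ≠ 0 := pow_ne_zero 2 hY10
      field_simp at h7
      linear_combination h7
    field_simp
    linear_combination h6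

end Pool.Agent.MP_ae5b4e_an_GEN
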