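import Mathlib
import Pool.Agent.Lib.MP_ae5b4e_an_GEN.Defs
import Pool.Agent.Lib.MP_ae5b4e_an_GEN.Kernel
import Pool.Agent.Lib.MP_ae5b4e_an_GEN.Pole
import Pool.Agent.Lib.MP_ae5b4e_an_GEN.ZeroK

/-! # MP_ae5b4e_an, project GEN, module K7: at most a simple pole -/

set_option autoImplicit false

noncomputable section

namespace Pool.Agent.MP_ae5b4e_an_GEN

open Filter Topology Set Metric
open scoped Polynomial
open Polynomial (evalEval)
open Pool.Agent.MP_ae5b4e_an_ND (cc cf co Dx Dy Filt Reg rts)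
open Pool.Agent.MP_ae5b4e_an_FLEX
open Pool.Agent.MP_ae5b4e_an_ALG (Dh)

namespace PoleOrder

theorem second_deriv {A0 : ℂ → ℂ} {c : ℂ} (hA : ∀ᶠ η in 𝓝 (0:ℂ), A0 η = η / (1 - c * η)) :
    deriv (deriv A0) 0 = 2 * c := by
  have hne : ∀ᶠ η in 𝓝 (0:ℂ), 1 - c * η ≠ 0 := by
    have hcont : ContinuousAt (fun η : ℂ => 1 - c * η) 0 := by fun_prop
    apply hcont.eventually_ne
    simp
  have h1 : deriv A0 =ᶠ[𝓝 0] fun η => ((1 - c * η) ^ 2)⁻¹ := by
    have h2 : A0 =ᶠ[𝓝 0] fun η => η / (1 - c * η) := hA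
    refine h2.deriv.trans ?_
    filter_upwards [hne] with η hη
    have hd : HasDerivAt (fun η : ℂ => 1 - c * η) (-c) η := by
      simpa using ((hasDerivAt_id η).const_mul c).const_sub 1
    have := (hasDerivAt_id η).div hd hη
    have h3 : deriv (fun η : ℂ => η / (1 - c * η)) η
        = (1 * (1 - c * η) - η * (-c)) / (1 - c * η) ^ 2 := this.deriv
    rw [h3, ← one_div]
    congr 1
    ring
  rw [h1.deriv_eq]
  have hd : HasDerivAt (fun η : ℂ => (1 - c * η) ^ 2) (2 * (1 - c * 0) ^ 1 * (-c)) 0 := by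
    have hd1 : HasDerivAt (fun η : ℂ => 1 - c * η) (-c) 0 := by
      simpa using ((hasDerivAt_id (0:ℂ)).const_mul c).const_sub 1
    simpa using hd1.fun_pow 2
  have hd2 := hd.inv (by simp)
  have := hd2.deriv
  have e : deriv (fun η : ℂ => ((1 - c * η) ^ 2)⁻¹) 0
      = -(2 * (1 - c * 0) ^ 1 * (-c)) / ((1 - c * 0) ^ 2) ^ 2 := this
  rw [e]
  simp

end PoleOrder

/-- the field of involutions has at most a simple pole -/
theorem simple_pole {a b : ℕ} (ha : 0 < a) (hab : a < b) {X Y K x1 y1 : ℂ → ℂ}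
    (hx : AnalyticAt ℂ x1 0) (hx0 : x1 0 ≠ 0) (hX : ∀ᶠ w in 𝓝 (0:ℂ), X w = w ^ a * x1 w)
    (hy : AnalyticAt ℂ y1 0) (hy0 : y1 0 ≠ 0) (hY : ∀ᶠ w in 𝓝 (0:ℂ), Y w = w ^ b * y1 w)
    (hK : MeromorphicAt K 0) (hg : ∀ᶠ s in 𝓝[≠] (0:ℂ), GoodG X Y K s) :
    ∃ k, AnalyticAt ℂ k 0 ∧ ∀ᶠ w in 𝓝[≠] (0:ℂ), K w = k w / w := by
  by_cases htop : meromorphicOrderAt K 0 = ⊤
  · refine ⟨fun _ => 0, analyticAt_const, ?_⟩
    have := meromorphicOrderAt_eq_top_iff.mp htop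
    filter_upwards [this] with w hw
    simp [hw]
  obtain ⟨n, hn⟩ := WithTop.ne_top_iff_exists.mp htop
  obtain ⟨g, hgan, hg0, hKg⟩ := (meromorphicOrderAt_eq_int_iff hK).mp hn.symm
  have hw0 : ∀ᶠ w in 𝓝[≠] (0:ℂ), w ≠ 0 := self_mem_nhdsWithin
  rcases le_or_gt (-1) n with h1 | h1
  · -- at most a simple pole
    obtain ⟨j, hj⟩ := Int.eq_ofNat_of_zero_le (by omega : 0 ≤ n + 1)
    refine ⟨fun w => w ^ j * g w, (analyticAt_id.pow j).mul hgan, ?_⟩
    filter_upwards [hKg, hw0] with w hw hwne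
    rw [hw]
    have e : (w - 0) ^ n = w ^ j / w := by
      have : n = (j : ℤ) - 1 := by omega
      rw [sub_zero, this, zpow_sub₀ hwne, zpow_natCast, zpow_one]
    rw [e, smul_eq_mul]
    ring
  · exfalso
    obtain ⟨l, hl⟩ := Int.eq_ofNat_of_zero_le (by omega : 0 ≤ -n - 1)
    have hlpos : 0 < l := by omega
    have hK' : ∀ᶠ w in 𝓝[≠] (0:ℂ), K w = g w / w ^ (l + 1) := by
      filter_upwards [hKg, hw0] with w hw hwne
      rw [hw]
      have : n = -((l + 1 : ℕ) : ℤ) := by push_cast; omega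
      rw [sub_zero, this, zpow_neg, zpow_natCast, smul_eq_mul]
      field_simp
    obtain ⟨m, hm⟩ := exists_kern ha hab hx hx0 hX hy hy0 hY
    obtain ⟨Yf, A, δ, hp, hA⟩ := place_pole hlpos hm hgan hK' hg
    obtain ⟨Q, hQ, hQ0, hQ1, hFI⟩ := placeK_zero hlpos hp
    have hc : g 0 / 2 ≠ 0 := div_ne_zero hg0 two_ne_zero
    have hsd := PoleOrder.second_deriv (A0 := fun η => A (0, η)) hA
    refine no_irr (A0 := fun η => A (0, η)) hc hA hQ hQ0 ?_ hFI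
    rw [hQ1, hsd]
    ring

end Pool.Agent.MP_ae5b4e_an_GEN
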