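import Pool.Agent.Lib.MP_ae5b4e_an_GEN.Defs
import Pool.Agent.Lib.MP_ae5b4e_an_FLEX.Ks
import Pool.Agent.Lib.MP_ae5b4e_an_FLEX.GeoK
import Pool.Agent.Lib.MP_ae5b4e_an_FLEX.GeoCusp
import Pool.Agent.Lib.MP_ae5b4e_an_FLEX.Zero

set_option autoImplicit false

/-!
# MP_ae5b4e_an, project GEN, module K2 (helper10): the kick at a simple pole
-/

noncomputable section

namespace Pool.Agent.MP_ae5b4e_an_GEN

open Filter Topology Set Metric
open scoped Polynomial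
open Polynomial (evalEval)
open Pool.Agent.MP_ae5b4e_an_ND (cc cf co Dx Dy Filt Reg rts)
open Pool.Agent.MP_ae5b4e_an_FLEX
open Pool.Agent.MP_ae5b4e_an_ALG (Dh)

/-- the kick at a place where the field has at most a simple pole -/
theorem place_simple {a b : ℕ} {X Y K k : ℂ → ℂ} {m : ℂ × ℂ → ℂ} (hm : Kern a b X Y m)
    (hk : AnalyticAt ℂ k 0) (hK : ∀ᶠ w in 𝓝[≠] (0:ℂ), K w = k w / w)
    (hg : ∀ᶠ s in 𝓝[≠] (0:ℂ), GoodG X Y K s) :
    ∃ Yf A δ, PlaceY Yf A δ ∧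
      ∀ᶠ p in 𝓝 ((0, 0) : ℂ × ℂ), m (p.1, -A p) * (k p.1 * m p - 1) = m p := by
  have hm1 : deriv (fun y => m ((0:ℂ), y)) 0 ≠ 0 := by
    rw [hm.der]
    norm_num
  obtain ⟨A, hA, hAeq, ρ, hρ, huniq⟩ := exists_kick (k := k) hm.ana hm.zero hm1 hk
  obtain ⟨δ1, hδ1, h1⟩ := Metric.eventually_nhds_iff_ball.1 hA.ana.eventually_analyticAt
  obtain ⟨δ2, hδ2, h2⟩ := Metric.eventually_nhds_iff_ball.1 hA.zero
  obtain ⟨δ3, hδ3, h3⟩ := Metric.eventually_nhds_iff_ball.1 hA.der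
  obtain ⟨δ4, hδ4, h4⟩ := Metric.eventually_nhds_iff_ball.1 hm.eq
  have hgK := hg.and hK
  rw [eventually_nhdsWithin_iff] at hgK
  obtain ⟨δ5, hδ5, h5⟩ := Metric.eventually_nhds_iff_ball.1 hgK
  set δ := min (min (min δ1 δ2) (min δ3 δ4)) (min δ5 ρ) with hδ
  have hδ0 : 0 < δ := by positivity
  have e1 : δ ≤ δ1 := ((min_le_left _ _).trans (min_le_left _ _)).trans (min_le_left _ _)
  have e2 : δ ≤ δ2 := ((min_le_left _ _).trans (min_le_left _ _)).trans (min_le_right _ _)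
  have e3 : δ ≤ δ3 := ((min_le_left _ _).trans (min_le_right _ _)).trans (min_le_left _ _)
  have e4 : δ ≤ δ4 := ((min_le_left _ _).trans (min_le_right _ _)).trans (min_le_right _ _)
  have e5 : δ ≤ δ5 := (min_le_right _ _).trans (min_le_left _ _)
  have e6 : δ ≤ ρ := (min_le_right _ _).trans (min_le_right _ _)
  have hball : ∀ {r : ℝ} {x η : ℂ}, ‖x‖ < r → ‖η‖ < r → (x, η) ∈ ball ((0, 0) : ℂ × ℂ) r := by
    intro r x η hx hη
    rw [mem_ball_iff_norm]
    simpa [Prod.norm_def] using ⟨hx, hη⟩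
  have hgood : ∀ x : ℂ, x ≠ 0 → ‖x‖ < δ → GoodG X Y K x := by
    intro x hx hxδ
    exact (h5 x (by rw [mem_ball_zero_iff]; exact hxδ.trans_le e5) hx).1
  have hKk : ∀ x : ℂ, x ≠ 0 → ‖x‖ < δ → K x = k x / x := by
    intro x hx hxδ
    exact (h5 x (by rw [mem_ball_zero_iff]; exact hxδ.trans_le e5) hx).2
  set O : Set ℂ := ball 0 δ \ {0} with hO
  have hOo : IsOpen O := isOpen_ball.sdiff isClosed_singleton
  obtain ⟨Yf, hYf⟩ := isKick_global (X := X) (Y := Y) (K := K) hOo (by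
    rintro t ⟨ht, ht0⟩
    exact (hgood t ht0 (mem_ball_zero_iff.1 ht)).1)
  refine ⟨Yf, A, δ, ⟨hδ0, ?_, ?_, ?_, ?_, ?_⟩, hAeq⟩
  · intro x η hx hη
    exact h1 _ (hball (hx.trans_le e1) (hη.trans_le e1))
  · intro x hx
    exact h2 x (mem_ball_zero_iff.2 (hx.trans_le e2))
  · intro x hx
    exact h3 x (mem_ball_zero_iff.2 (hx.trans_le e3))
  · intro x hx0 hx
    exact goodG_of_isKick (hgood x hx0 hx) (hYf x ⟨mem_ball_zero_iff.2 hx, hx0⟩)
  · intro x hx0 hx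
    obtain ⟨hkk, hrel⟩ := hYf x ⟨mem_ball_zero_iff.2 hx, hx0⟩
    obtain ⟨G, hG, hYG, hG1⟩ := MP_ae5b4e_an_ND.exists_div_y hkk.ana hkk.zero
    have hG2 : G (x, 0) ≠ 0 := by
      have h6 := hG1.self_of_nhds
      rw [hkk.der.self_of_nhds] at h6
      rw [h6]
      exact one_ne_zero
    have hc1 : ContinuousAt (fun p : ℂ × ℂ => p.1) (x, 0) := continuousAt_fst
    have hc2 : ContinuousAt (fun p : ℂ × ℂ => p.2 / p.1) (x, 0) :=
      continuousAt_snd.div continuousAt_fst hx0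
    have hc3 : ContinuousAt (fun p : ℂ × ℂ => Yf p / p.1) (x, 0) :=
      hkk.ana.continuousAt.div continuousAt_fst hx0
    have hY0 : Yf (x, 0) = 0 := hkk.zero.self_of_nhds
    have v1 : ∀ᶠ p in 𝓝 ((x, 0) : ℂ × ℂ), ‖p.1‖ < δ := by
      refine hc1.norm.eventually_lt_const ?_
      exact hx
    have v2 : ∀ᶠ p in 𝓝 ((x, 0) : ℂ × ℂ), ‖p.2 / p.1‖ < δ := by
      refine hc2.norm.eventually_lt_const ?_
      simpa using hδ0
    have v3 : ∀ᶠ p in 𝓝 ((x, 0) : ℂ × ℂ), ‖Yf p / p.1‖ < δ := by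
      refine hc3.norm.eventually_lt_const ?_
      simpa [hY0] using hδ0
    have v4 : ∀ᶠ p in 𝓝 ((x, 0) : ℂ × ℂ), p.1 ≠ 0 := hc1.eventually_ne hx0
    have v5 : ∀ᶠ p in 𝓝 ((x, 0) : ℂ × ℂ), G p ≠ 0 := hG.continuousAt.eventually_ne hG2
    have v6 : ∀ᶠ p in 𝓝 ((x, 0) : ℂ × ℂ), Yf (p.1, 0) = 0 := hc1.eventually hkk.zero
    filter_upwards [v1, v2, v3, v4, v5, v6, hYG, hrel] with p w1 w2 w3 w4 w5 w6 w7 w8
    obtain ⟨t, y⟩ := p
    simp only at w1 w2 w3 w4 w5 w6 w7 w8 ⊢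
    by_cases hy : y = 0
    · subst hy
      rw [w6, zero_div, h2 t (mem_ball_zero_iff.2 (w1.trans_le e2)), mul_zero]
    · have hY1 : Yf (t, y) ≠ 0 := by
        rw [w7]
        exact mul_ne_zero hy w5
      set η := y / t with hη
      set η' := Yf (t, y) / t with hη'
      have hη0 : η ≠ 0 := div_ne_zero hy w4
      have hη'0 : η' ≠ 0 := div_ne_zero hY1 w4
      have q1 : t + y = t + t * η := by rw [hη]; field_simp
      have q2 : t - Yf (t, y) = t + t * (-η') := by rw [hη']; field_simp; ring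
      have f1 := h4 (t, η) (hball (w1.trans_le e4) (w2.trans_le e4))
      have f2 := h4 (t, -η') (hball (w1.trans_le e4) (by rw [norm_neg]; exact w3.trans_le e4))
      simp only at f1 f2
      rw [q1, q2, f1.1, f2.1, hKk t w4 w1] at w8
      have g1 := f1.2 w4 hη0
      have g2 := f2.2 w4 (neg_ne_zero.2 hη'0)
      set D := brD X Y t (t + t * η) with hD
      set D' := brD X Y t (t + t * -η') with hD'
      have key : m (t, -η') * (k t * m (t, η) - 1) = m (t, η) := by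
        have h7 : k t / t * (t * m (t, η) * D) * (t * m (t, -η') * D') =
            t * k t * m (t, η) * D * m (t, -η') * D' := by
          field_simp
        rw [h7] at w8
        have h6 : (D * D' * t) * (m (t, -η') * (k t * m (t, η) - 1)) =
            (D * D' * t) * m (t, η) := by
          linear_combination (-1 : ℂ) * w8
        exact mul_left_cancel₀ (mul_ne_zero (mul_ne_zero g1 g2) w4) h6
      have h7 := huniq t η η' (by rw [sub_zero]; exact w1.trans_le e6) (w2.trans_le e6)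
        (w3.trans_le e6) key
      rw [← h7, hη']
      field_simp

/-- the data at the special point -/
theorem exists_germ {a b : ℕ} {X Y K k : ℂ → ℂ} {m : ℂ × ℂ → ℂ} (hm : Kern a b X Y m)
    (hk : AnalyticAt ℂ k 0) (hK : ∀ᶠ w in 𝓝[≠] (0:ℂ), K w = k w / w)
    (hg : ∀ᶠ s in 𝓝[≠] (0:ℂ), GoodG X Y K s) :
    ∃ m0 A0 Q, Germ a b (k 0) m0 A0 Q := by
  obtain ⟨Yf, A, δ, hp, hrel⟩ := place_simple hm hk hK hg
  obtain ⟨Q, hQ, hQ0, hQ1, hFI⟩ := placeY_zero hp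
  have hsl : Tendsto (fun η : ℂ => ((0:ℂ), η)) (𝓝 0) (𝓝 (0, 0)) :=
    (Continuous.prodMk_right (0:ℂ)).tendsto 0
  have hin : AnalyticAt ℂ (fun η : ℂ => ((0:ℂ), η)) 0 := analyticAt_const.prod analyticAt_id
  have h0 : ‖(0:ℂ)‖ < δ := by simpa using hp.δ_pos
  refine ⟨fun η => m (0, η), fun η => A (0, η), Q, ?_⟩
  exact
    { m_ana := hm.ana.comp_of_eq hin rfl
      m_zero := hm.zero.self_of_nhds
      m_der := hm.der
      m_hom := hm.hom
      A_ana := (hp.A_ana 0 0 h0 h0).comp_of_eq hin rfl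
      A_zero := hp.A_zero 0 h0
      A_der := hp.A_der 0 h0
      kick := hsl.eventually hrel
      Q_ana := hQ
      Q_zero := hQ0
      Q_der := hQ1
      fi := hFI }

end Pool.Agent.MP_ae5b4e_an_GEN
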