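import Mathlib
import Pool.Agent.Lib.MP_ae5b4e_an_GEN.Defs
import Pool.Agent.Lib.MP_ae5b4e_an_GEN.Kernel
import Pool.Agent.Lib.MP_ae5b4e_an_GEN.Simple
import Pool.Agent.Lib.MP_ae5b4e_an_GEN.PoleOrder
import Pool.Agent.Lib.MP_ae5b4e_an_GEN.HomReg
import Pool.Agent.Lib.MP_ae5b4e_an_GEN.NoReg
import Pool.Agent.Lib.MP_ae5b4e_an_GEN.HomFlex
import Pool.Agent.Lib.MP_ae5b4e_an_GEN.HomCusp
import Pool.Agent.Lib.MP_ae5b4e_an_GENL.Flex
import Pool.Agent.Lib.MP_ae5b4e_an_GENL.Cusp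

/-!
# MP_ae5b4e_an, project GEN, module L1: the local bounds
-/

set_option autoImplicit false

noncomputable section

namespace Pool.Agent.MP_ae5b4e_an_GEN

open Filter Topology Set Metric
open scoped Polynomial
open Polynomial (evalEval)
open Pool.Agent.MP_ae5b4e_an_ND (cc cf co Dx Dy Filt Reg rts)
open Pool.Agent.MP_ae5b4e_an_FLEX
open Pool.Agent.MP_ae5b4e_an_ALG (Dh)

section L1

theorem lb_reg : LBd 1 2 1 := by
  intro m hm c m0 A0 Q h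
  rw [one_mul] at h
  by_contra hlt
  push Not at hlt
  have hd : ((((1 : ℕ) : ℂ) + ((2 : ℕ) : ℂ)) / 3 + c / (2 * m)) = 1 + c / (2 * m) := by
    push_cast
    norm_num
  rw [hd] at hlt
  have hd0 : (1 + c / (2 * m) : ℂ) ≠ 0 := by
    intro h0
    rw [h0, Complex.zero_re] at hlt
    linarith
  obtain ⟨R, psi, hR, hdiff, hodd, hE, hinf⟩ := hom_reg hm h rfl hd0
  exact no_reg hlt hR hdiff hodd hE hinf

theorem lb_flex : LBd 1 3 (1 / 2) := by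
  intro m hm c m0 A0 Q h
  rw [one_mul] at h
  have hd : ((((1 : ℕ) : ℂ) + ((3 : ℕ) : ℂ)) / 3 + c / (2 * m)) = 4 / 3 + c / (2 * m) := by
    push_cast
    norm_num
  rw [hd]
  by_cases hd0 : (4 / 3 + c / (2 * m) : ℂ) = 0
  · rw [hd0, Complex.zero_re]
    norm_num
  · obtain ⟨Lam, R, hs⟩ := hom_flex hm h rfl hd0
    exact Pool.Agent.MP_ae5b4e_an_GENL.flex_bound hs

theorem lb_cusp : LBd 2 3 (1 / 2) := by
  intro m hm c m0 A0 Q h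
  have hd : ((((2 : ℕ) : ℂ) + ((3 : ℕ) : ℂ)) / 3 + c / (2 * m)) = 5 / 3 + c / (2 * m) := by
    push_cast
    norm_num
  rw [hd]
  by_cases hd0 : (5 / 3 + c / (2 * m) : ℂ) = 0
  · rw [hd0, Complex.zero_re]
    norm_num
  · obtain ⟨Lam, R, hs⟩ := hom_cusp hm h rfl hd0
    exact Pool.Agent.MP_ae5b4e_an_GENL.cusp_bound hs

/-- The bound at a place of type `(a m, b m)`. -/
theorem place_bound {a b : ℕ} (ha : 0 < a) (hab : a < b) {β : ℝ} (hLB : LBd a b β) {m : ℕ}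
    (hm : 0 < m) {X Y K x1 y1 : ℂ → ℂ} (hx : AnalyticAt ℂ x1 0) (hx0 : x1 0 ≠ 0)
    (hX : ∀ᶠ w in 𝓝 (0:ℂ), X w = w ^ (a * m) * x1 w) (hy : AnalyticAt ℂ y1 0) (hy0 : y1 0 ≠ 0)
    (hY : ∀ᶠ w in 𝓝 (0:ℂ), Y w = w ^ (b * m) * y1 w) (hK : MeromorphicAt K 0)
    (hg : ∀ᶠ s in 𝓝[≠] (0:ℂ), GoodG X Y K s) :
    ∃ c : ℂ, Tendsto (fun w => w * K w) (𝓝[≠] 0) (𝓝 c) ∧
      (((a:ℂ) + b) / 3 + c / (2 * m)).re ≤ β := by
  have ham : 0 < a * m := Nat.mul_pos ha hm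
  have habm : a * m < b * m := Nat.mul_lt_mul_of_pos_right hab hm
  obtain ⟨k, hk, hKk⟩ := simple_pole ham habm hx hx0 hX hy hy0 hY hK hg
  obtain ⟨M, hM⟩ := exists_kern ham habm hx hx0 hX hy hy0 hY
  obtain ⟨m0, A0, Q, hG⟩ := exists_germ hM hk hKk hg
  refine ⟨k 0, ?_, hLB m hm (k 0) m0 A0 Q hG⟩
  have h1 : Tendsto k (𝓝[≠] 0) (𝓝 (k 0)) := hk.continuousAt.tendsto.mono_left nhdsWithin_le_nhds
  refine h1.congr' ?_
  filter_upwards [hKk, self_mem_nhdsWithin] with w hw hw0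
  have hw0' : w ≠ 0 := hw0
  rw [hw]
  field_simp

end L1

end Pool.Agent.MP_ae5b4e_an_GEN
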