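import Mathlib

/-!
# MP_ae5b4e_an, project GEN, module G4: the lift of a meromorphic curve
-/

set_option autoImplicit false

noncomputable section

namespace Pool.Agent.MP_ae5b4e_an_GEN

open Filter Topology Set Metric

namespace Lift

/-- `w ^ L X`, `w ^ L Y` extend analytically to `0` -/
def Ext (X Y : ℂ → ℂ) (L : ℕ) : Prop :=
  ∃ g h : ℂ → ℂ, AnalyticAt ℂ g 0 ∧ AnalyticAt ℂ h 0 ∧
    (∀ᶠ w in 𝓝[≠] (0:ℂ), g w = w ^ L * X w) ∧ (∀ᶠ w in 𝓝[≠] (0:ℂ), h w = w ^ L * Y w)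

theorem exists_one {X : ℂ → ℂ} (hX : MeromorphicAt X 0) :
    ∃ n : ℕ, AnalyticAt ℂ (fun w => w ^ n * X w) 0 := by
  obtain ⟨n, hn⟩ := hX
  refine ⟨n, ?_⟩
  simpa using hn

theorem exists_ext {X Y : ℂ → ℂ} (hX : MeromorphicAt X 0) (hY : MeromorphicAt Y 0) :
    ∃ L, Ext X Y L := by
  obtain ⟨n, hn⟩ := exists_one hX
  obtain ⟨m, hm⟩ := exists_one hY
  refine ⟨n + m, fun w => w ^ m * (w ^ n * X w), fun w => w ^ n * (w ^ m * Y w), ?_, ?_, ?_, ?_⟩
  · exact (analyticAt_id.pow m).mul hn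
  · exact (analyticAt_id.pow n).mul hm
  · exact Eventually.of_forall fun w => by ring
  · exact Eventually.of_forall fun w => by ring

theorem factor {g : ℂ → ℂ} (hg : AnalyticAt ℂ g 0) (h0 : g 0 = 0) :
    ∃ g1 : ℂ → ℂ, AnalyticAt ℂ g1 0 ∧ ∀ w, g w = w * g1 w := by
  obtain ⟨p, hp⟩ := hg
  refine ⟨dslope g 0, ⟨_, hp.has_fpower_series_dslope_fslope⟩, fun w => ?_⟩
  have := sub_smul_dslope g 0 w
  rw [sub_zero, smul_eq_mul, h0, sub_zero] at this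
  exact this.symm

theorem step {X : ℂ → ℂ} {g g1 : ℂ → ℂ} {L : ℕ} (h : ∀ᶠ w in 𝓝[≠] (0:ℂ), g w = w ^ (L + 1) * X w)
    (h1 : ∀ w, g w = w * g1 w) : ∀ᶠ w in 𝓝[≠] (0:ℂ), g1 w = w ^ L * X w := by
  filter_upwards [h, self_mem_nhdsWithin] with w hw hw0
  have hw0 : w ≠ 0 := hw0
  rw [h1 w] at hw
  refine mul_left_cancel₀ hw0 ?_
  rw [hw]
  ring

end Lift

open Lift

/-- the lift of a meromorphic curve -/
theorem exists_lift {X Y : ℂ → ℂ} (hX : MeromorphicAt X 0) (hY : MeromorphicAt Y 0) :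
    ∃ (L : ℕ) (φ : ℂ → Fin 3 → ℂ), (∀ i, AnalyticAt ℂ (fun w => φ w i) 0) ∧ φ 0 ≠ 0 ∧
      (∀ᶠ w in 𝓝[≠] (0:ℂ), φ w = w ^ L • ![X w, Y w, 1]) ∧
      ((Tendsto X (𝓝[≠] 0) (Bornology.cobounded ℂ)) → 0 < L) := by
  classical
  have hex := exists_ext hX hY
  obtain ⟨g, h, hg, hh, hgX, hhY⟩ := Nat.find_spec hex
  have hmin := fun k (hk : k < Nat.find hex) => Nat.find_min hex hk
  generalize Nat.find hex = L at hgX hhY hmin
  refine ⟨L, fun w => ![g w, h w, w ^ L], ?_, ?_, ?_, ?_⟩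
  · intro i
    fin_cases i
    · exact hg
    · exact hh
    · exact analyticAt_id.pow L
  · intro h0
    have e0 : g 0 = 0 := congrFun h0 0
    have e1 : h 0 = 0 := congrFun h0 1
    have e2 : (0:ℂ) ^ L = 0 := congrFun h0 2
    rcases Nat.eq_zero_or_pos L with hL | hL
    · rw [hL, pow_zero] at e2
      exact one_ne_zero e2
    · obtain ⟨k, rfl⟩ : ∃ k, L = k + 1 := ⟨L - 1, by omega⟩
      obtain ⟨g1, hg1, hg1'⟩ := factor hg e0
      obtain ⟨h1, hh1, hh1'⟩ := factor hh e1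
      exact hmin k (Nat.lt_succ_self k) ⟨g1, h1, hg1, hh1, step hgX hg1', step hhY hh1'⟩
  · filter_upwards [hgX, hhY] with w h1 h2
    ext i
    fin_cases i
    · simp [h1]
    · simp [h2]
    · simp
  · intro hinf
    by_contra hL
    have hL0 : L = 0 := by omega
    subst hL0
    have h1 : Tendsto X (𝓝[≠] 0) (𝓝 (g 0)) := by
      refine (hg.continuousAt.tendsto.mono_left nhdsWithin_le_nhds).congr' ?_
      filter_upwards [hgX] with w hw
      rw [hw, pow_zero, one_mul]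
    exact h1.not_tendsto (disjoint_nhds_cobounded _) hinf

end Pool.Agent.MP_ae5b4e_an_GEN
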