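import Mathlib
import Pool.Agent.Lib.MP_ae5b4e_an_GEN.Defs
import Pool.Agent.Lib.MP_ae5b4e_an_ALG.Trans

/-!
# MP_ae5b4e_an, project GEN: projective transformations
-/

set_option autoImplicit false

noncomputable section

namespace Pool.Agent.MP_ae5b4e_an_GEN

open Filter Topology Set Metric
open scoped Polynomial
open Polynomial (evalEval)
open Pool.Agent.MP_ae5b4e_an_ND (cc cf co Dx Dy Filt Reg rts)
open Pool.Agent.MP_ae5b4e_an_FLEX
open Pool.Agent.MP_ae5b4e_an_ALG (Dh)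

namespace Proj

theorem aux {X Y K : ℂ → ℂ} {t : ℂ} (h : GoodG X Y K t) {A : Matrix (Fin 3) (Fin 3) ℂ}
    (hA : A.det ≠ 0) (h0 : A 0 0 * X t + A 0 1 * Y t + A 0 2 ≠ 0) (p' q' : ℂ)
    (he : A 0 0 * q' - A 0 1 * p' ≠ 0) :
    GoodG (fun s => (A 1 0 * X s + A 1 1 * Y s + A 1 2) / (A 0 0 * X s + A 0 1 * Y s + A 0 2))
      (fun s => (A 2 0 * X s + A 2 1 * Y s + A 2 2) / (A 0 0 * X s + A 0 1 * Y s + A 0 2))
      (fun s => K s + 2 * (deriv (fun s => A 0 0 * X s + A 0 1 * Y s + A 0 2) s /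
        (A 0 0 * X s + A 0 1 * Y s + A 0 2))) t := by
  have hXa : AnalyticAt ℂ X t := h.1.1
  have hYa : AnalyticAt ℂ Y t := h.1.2.1
  set e : ℂ := A 0 0 * q' - A 0 1 * p' with hedef
  have h1 := Pool.Agent.MP_ae5b4e_an_ALG.goodG_affine h (α := A 0 0) (β := A 0 1) (γ := A 0 2)
    (α' := p') (β' := q') (γ' := 0) he
  have h2 := Pool.Agent.MP_ae5b4e_an_ALG.goodG_proj h1 h0
  set a : ℂ := (A 1 0 * q' - A 1 1 * p') / e with ha
  set b : ℂ := (A 0 0 * A 1 1 - A 0 1 * A 1 0) / e with hb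
  set c : ℂ := A 1 2 - a * A 0 2 with hc
  set a' : ℂ := (A 2 0 * q' - A 2 1 * p') / e with ha'
  set b' : ℂ := (A 0 0 * A 2 1 - A 0 1 * A 2 0) / e with hb'
  set c' : ℂ := A 2 2 - a' * A 0 2 with hc'
  have hd : c * b' - b * c' ≠ 0 := by
    have h3 : (c * b' - b * c') * e = -A.det := by
      rw [Matrix.det_fin_three, hc, hc', ha, ha', hb, hb']
      field_simp
      rw [hedef]
      ring
    intro h4
    rw [h4, zero_mul] at h3
    exact hA (neg_eq_zero.1 h3.symm)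
  have h3 := Pool.Agent.MP_ae5b4e_an_ALG.goodG_affine h2 (α := c) (β := b) (γ := a)
    (α' := c') (β' := b') (γ' := a') hd
  have hcont : ContinuousAt (fun s => A 0 0 * X s + A 0 1 * Y s + A 0 2) t :=
    ((continuousAt_const.mul hXa.continuousAt).add
      (continuousAt_const.mul hYa.continuousAt)).add continuousAt_const
  have hne : ∀ᶠ s in 𝓝 t, A 0 0 * X s + A 0 1 * Y s + A 0 2 ≠ 0 := hcont.eventually_ne h0
  refine Pool.Agent.MP_ae5b4e_an_ALG.goodG_congr h3 ?_ ?_ ?_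
  · filter_upwards [hne] with s hs
    rw [eq_div_iff hs]
    have h4 : (c * (A 0 0 * X s + A 0 1 * Y s + A 0 2)⁻¹ +
        b * ((p' * X s + q' * Y s + 0) / (A 0 0 * X s + A 0 1 * Y s + A 0 2)) + a) *
        (A 0 0 * X s + A 0 1 * Y s + A 0 2) =
        c + b * (p' * X s + q' * Y s) + a * (A 0 0 * X s + A 0 1 * Y s + A 0 2) := by
      field_simp
      ring
    rw [h4, hc, ha, hb]
    field_simp
    rw [hedef]
    ring
  · filter_upwards [hne] with s hs
    rw [eq_div_iff hs]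
    have h4 : (c' * (A 0 0 * X s + A 0 1 * Y s + A 0 2)⁻¹ +
        b' * ((p' * X s + q' * Y s + 0) / (A 0 0 * X s + A 0 1 * Y s + A 0 2)) + a') *
        (A 0 0 * X s + A 0 1 * Y s + A 0 2) =
        c' + b' * (p' * X s + q' * Y s) + a' * (A 0 0 * X s + A 0 1 * Y s + A 0 2) := by
      field_simp
      ring
    rw [h4, hc', ha', hb']
    field_simp
    rw [hedef]
    ring
  · filter_upwards with s
    rw [mul_div_assoc]

end Proj

/-- projective transformations -/
theorem goodG_pgl {X Y K : ℂ → ℂ} {t : ℂ} (h : GoodG X Y K t) {A : Matrix (Fin 3) (Fin 3) ℂ}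
    (hA : A.det ≠ 0) (h0 : A 0 0 * X t + A 0 1 * Y t + A 0 2 ≠ 0) :
    GoodG (fun s => (A 1 0 * X s + A 1 1 * Y s + A 1 2) / (A 0 0 * X s + A 0 1 * Y s + A 0 2))
      (fun s => (A 2 0 * X s + A 2 1 * Y s + A 2 2) / (A 0 0 * X s + A 0 1 * Y s + A 0 2))
      (fun s => K s + 2 * (deriv (fun s => A 0 0 * X s + A 0 1 * Y s + A 0 2) s /
        (A 0 0 * X s + A 0 1 * Y s + A 0 2))) t := by
  by_cases hp : A 0 0 = 0
  · by_cases hq : A 0 1 = 0
    · rw [hp, hq, zero_mul, zero_mul, zero_add, zero_add] at h0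
      have hdet : A.det = A 0 2 * (A 1 0 * A 2 1 - A 1 1 * A 2 0) := by
        rw [Matrix.det_fin_three, hp, hq]
        ring
      rw [hdet] at hA
      have hd0 : A 1 0 * A 2 1 - A 1 1 * A 2 0 ≠ 0 := right_ne_zero_of_mul hA
      have hd : A 1 0 / A 0 2 * (A 2 1 / A 0 2) - A 1 1 / A 0 2 * (A 2 0 / A 0 2) ≠ 0 := by
        have h1 : A 1 0 / A 0 2 * (A 2 1 / A 0 2) - A 1 1 / A 0 2 * (A 2 0 / A 0 2) =
            (A 1 0 * A 2 1 - A 1 1 * A 2 0) / (A 0 2 * A 0 2) := by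
          field_simp
        rw [h1]
        exact div_ne_zero hd0 (mul_ne_zero h0 h0)
      have h1 := Pool.Agent.MP_ae5b4e_an_ALG.goodG_affine h (γ := A 1 2 / A 0 2)
        (γ' := A 2 2 / A 0 2) hd
      refine Pool.Agent.MP_ae5b4e_an_ALG.goodG_congr h1 ?_ ?_ ?_
      · filter_upwards with s
        rw [hp, hq]
        ring
      · filter_upwards with s
        rw [hp, hq]
        ring
      · filter_upwards with s
        have h2 : deriv (fun s => A 0 0 * X s + A 0 1 * Y s + A 0 2) s = 0 := by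
          have h3 : (fun s => A 0 0 * X s + A 0 1 * Y s + A 0 2) = fun _ => A 0 2 := by
            funext s
            rw [hp, hq]
            ring
          rw [h3, deriv_const]
        rw [h2]
        simp
    · refine Proj.aux h hA h0 1 0 ?_
      rw [mul_zero, zero_sub, mul_one]
      exact neg_ne_zero.2 hq
  · refine Proj.aux h hA h0 0 1 ?_
    rw [mul_zero, sub_zero, mul_one]
    exact hp

end Pool.Agent.MP_ae5b4e_an_GEN
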