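import Mathlib
import Pool.Agent.Lib.MP_ae5b4e_an_GEN.Defs
import Pool.Agent.Lib.MP_ae5b4e_an_GEN.Proj
import Pool.Agent.Lib.MP_ae5b4e_an_GEN.Poly3
import Pool.Agent.Lib.MP_ae5b4e_an_GEN.Point
import Pool.Agent.Lib.MP_ae5b4e_an_GEN.Lift
import Pool.Agent.Lib.MP_ae5b4e_an_ALG.Normal
import Pool.Agent.Lib.MP_ae5b4e_an_ALG.Trans

/-!
# MP_ae5b4e_an, project GEN: the normal form of a place (module G5)
-/

set_option autoImplicit false

noncomputable section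

namespace Pool.Agent.MP_ae5b4e_an_GEN

open Filter Topology Set Metric
open scoped Polynomial
open Polynomial (evalEval)
open Pool.Agent.MP_ae5b4e_an_ND (cc cf co Dx Dy Filt Reg rts)
open Pool.Agent.MP_ae5b4e_an_FLEX
open Pool.Agent.MP_ae5b4e_an_ALG (Dh)

namespace Normal

theorem ev_nhds {p : ℂ → Prop} (h : ∀ᶠ w in 𝓝[≠] (0:ℂ), p w) :
    ∀ᶠ w in 𝓝[≠] (0:ℂ), ∀ᶠ x in 𝓝 w, p x := by
  have h0 : ∀ᶠ w in 𝓝[≠] (0:ℂ), w ≠ 0 := self_mem_nhdsWithin
  filter_upwards [eventually_eventually_nhdsWithin.2 h, h0] with w hw hw0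
  have h1 : (𝓝[≠] (0:ℂ)) = 𝓝[{0}ᶜ] (0:ℂ) := rfl
  rwa [isOpen_compl_singleton.nhdsWithin_eq (show w ∈ ({0}ᶜ : Set ℂ) from hw0)] at hw

/-- the logarithmic derivative of `w ^ a / w ^ b * H w` -/
theorem logder {F H : ℂ → ℂ} {a b : ℕ} (hH : AnalyticAt ℂ H 0) (hH0 : H 0 ≠ 0)
    (hF : ∀ᶠ w in 𝓝[≠] (0:ℂ), F w = w ^ a / w ^ b * H w) :
    (∀ᶠ w in 𝓝[≠] (0:ℂ), F w ≠ 0) ∧
      Tendsto (fun w => w * (deriv F w / F w)) (𝓝[≠] 0) (𝓝 ((a : ℂ) - b)) := by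
  have h0 : ∀ᶠ w in 𝓝[≠] (0:ℂ), w ≠ 0 := self_mem_nhdsWithin
  have h1 : ∀ᶠ w in 𝓝[≠] (0:ℂ), H w ≠ 0 :=
    (hH.continuousAt.eventually_ne hH0).filter_mono nhdsWithin_le_nhds
  have h2 : ∀ᶠ w in 𝓝[≠] (0:ℂ), AnalyticAt ℂ H w :=
    hH.eventually_analyticAt.filter_mono nhdsWithin_le_nhds
  have h3 : ∀ᶠ w in 𝓝[≠] (0:ℂ), F =ᶠ[𝓝 w] fun w => w ^ a / w ^ b * H w := ev_nhds hF
  refine ⟨?_, ?_⟩
  · filter_upwards [hF, h0, h1] with w hw hw0 hHw
    rw [hw]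
    exact mul_ne_zero (div_ne_zero (pow_ne_zero _ hw0) (pow_ne_zero _ hw0)) hHw
  · have h4 : Tendsto (fun w : ℂ => ((a : ℂ) - b) + w * (deriv H w / H w)) (𝓝[≠] 0)
        (𝓝 ((a : ℂ) - b)) := by
      have h5 : Tendsto (fun w : ℂ => ((a : ℂ) - b) + w * (deriv H w / H w)) (𝓝 0)
          (𝓝 (((a : ℂ) - b) + 0 * (deriv H 0 / H 0))) := by
        refine tendsto_const_nhds.add (tendsto_id.mul ?_)
        exact hH.deriv.continuousAt.tendsto.div hH.continuousAt.tendsto hH0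
      rw [zero_mul, add_zero] at h5
      exact h5.mono_left nhdsWithin_le_nhds
    refine h4.congr' ?_
    filter_upwards [hF, h0, h1, h2, h3] with w hw hw0 hHw hHa hFe
    have hd : HasDerivAt (fun w : ℂ => w ^ a / w ^ b * H w)
        (((a * w ^ (a - 1)) * w ^ b - w ^ a * (b * w ^ (b - 1))) / (w ^ b) ^ 2 * H w +
          w ^ a / w ^ b * deriv H w) w :=
      ((hasDerivAt_pow a w).div (hasDerivAt_pow b w) (pow_ne_zero _ hw0)).mul
        hHa.differentiableAt.hasDerivAt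
    rw [hFe.deriv_eq, hd.deriv, hw]
    have ha : w * ((a : ℂ) * w ^ (a - 1)) = a * w ^ a := by
      rcases Nat.eq_zero_or_pos a with rfl | ha
      · simp
      · obtain ⟨c, rfl⟩ : ∃ c, a = c + 1 := ⟨a - 1, by omega⟩
        rw [Nat.add_sub_cancel, pow_succ]
        ring
    have hb : w * ((b : ℂ) * w ^ (b - 1)) = b * w ^ b := by
      rcases Nat.eq_zero_or_pos b with rfl | hb
      · simp
      · obtain ⟨c, rfl⟩ : ∃ c, b = c + 1 := ⟨b - 1, by omega⟩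
        rw [Nat.add_sub_cancel, pow_succ]
        ring
    have hwa : w ^ a ≠ 0 := pow_ne_zero _ hw0
    have hwb : w ^ b ≠ 0 := pow_ne_zero _ hw0
    have h5 : w * (((a * w ^ (a - 1)) * w ^ b - w ^ a * (b * w ^ (b - 1))) / (w ^ b) ^ 2 * H w +
          w ^ a / w ^ b * deriv H w) =
        w ^ a / w ^ b * (((a : ℂ) - b) * H w + w * deriv H w) := by
      have h6 : w * (((a * w ^ (a - 1)) * w ^ b - w ^ a * (b * w ^ (b - 1))) / (w ^ b) ^ 2 * H w +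
          w ^ a / w ^ b * deriv H w) =
          ((w * ((a : ℂ) * w ^ (a - 1))) * w ^ b - w ^ a * (w * ((b : ℂ) * w ^ (b - 1)))) /
            (w ^ b) ^ 2 * H w + w ^ a / w ^ b * (w * deriv H w) := by
        ring
      rw [h6, ha, hb]
      field_simp
    have h7 : ∀ D : ℂ, w * (D / (w ^ a / w ^ b * H w)) = (w * D) / (w ^ a / w ^ b * H w) :=
      fun D => by ring
    rw [h7, h5]
    field_simp

theorem deriv_pow_mul {F G : ℂ → ℂ} {j : ℕ} (hG : AnalyticAt ℂ G 0)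
    (hF : ∀ᶠ x in 𝓝 (0:ℂ), F x = x ^ (j + 1) * G x) :
    ∀ᶠ x in 𝓝 (0:ℂ), deriv F x = x ^ j * ((j + 1) * G x + x * deriv G x) := by
  filter_upwards [eventually_eventually_nhds.2 hF, hG.eventually_analyticAt] with x hx hGx
  have h1 : F =ᶠ[𝓝 x] fun x => x ^ (j + 1) * G x := hx
  have h2 : HasDerivAt (fun x : ℂ => x ^ (j + 1) * G x)
      (((j + 1 : ℕ) : ℂ) * x ^ (j + 1 - 1) * G x + x ^ (j + 1) * deriv G x) x :=
    (hasDerivAt_pow (j + 1) x).mul hGx.differentiableAt.hasDerivAt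
  rw [h1.deriv_eq, h2.deriv, Nat.add_sub_cancel]
  push_cast
  ring

theorem second {g g1 : ℂ → ℂ} {f : ℕ} (hg1 : AnalyticAt ℂ g1 0) (hg10 : g1 0 ≠ 0)
    (hg : ∀ᶠ x in 𝓝 (0:ℂ), g x = x ^ (f + 2) * g1 x) :
    ∃ g2 : ℂ → ℂ, AnalyticAt ℂ g2 0 ∧ g2 0 ≠ 0 ∧
      ∀ᶠ x in 𝓝 (0:ℂ), deriv (deriv g) x = x ^ f * g2 x := by
  have h1 := deriv_pow_mul (j := f + 1) hg1 hg
  have hG1 : AnalyticAt ℂ (fun x => (((f + 1 : ℕ) : ℂ) + 1) * g1 x + x * deriv g1 x) 0 :=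
    (analyticAt_const.mul hg1).add (analyticAt_id.mul hg1.deriv)
  have h2 := deriv_pow_mul (j := f) hG1 h1
  refine ⟨fun x => ((f : ℂ) + 1) * ((((f + 1 : ℕ) : ℂ) + 1) * g1 x + x * deriv g1 x) +
    x * deriv (fun x => (((f + 1 : ℕ) : ℂ) + 1) * g1 x + x * deriv g1 x) x, ?_, ?_, h2⟩
  · exact (analyticAt_const.mul hG1).add (analyticAt_id.mul hG1.deriv)
  · simp only [zero_mul, add_zero]
    refine mul_ne_zero ?_ (mul_ne_zero ?_ hg10)
    · exact_mod_cast Nat.succ_ne_zero f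
    · exact_mod_cast Nat.succ_ne_zero (f + 1)

/-- limits along a local coordinate -/
theorem tendsto_coord {ψ : ℂ → ℂ} (hψ : AnalyticAt ℂ ψ 0) (hψ0 : ψ 0 = 0) (hψ1 : deriv ψ 0 ≠ 0)
    {F : ℂ → ℂ} {l : Filter ℂ} (h : Tendsto (fun z => F (ψ z)) (𝓝[≠] 0) l) :
    Tendsto F (𝓝[≠] 0) l := by
  obtain ⟨χ, hχ, hr, hl⟩ : ∃ χ : ℂ → ℂ, AnalyticAt ℂ χ (ψ 0) ∧ (∀ᶠ y in 𝓝 (ψ 0), ψ (χ y) = y) ∧
      ∀ᶠ y in 𝓝 (0:ℂ), χ (ψ y) = y :=
    ⟨hψ.hasStrictDerivAt.localInverse _ _ _ hψ1, hψ.analyticAt_localInverse hψ1,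
      hψ.hasStrictDerivAt.eventually_right_inverse hψ1,
      hψ.hasStrictDerivAt.eventually_left_inverse hψ1⟩
  rw [hψ0] at hχ hr
  have hχ0 : χ 0 = 0 := by
    have h1 := hl.self_of_nhds
    rwa [hψ0] at h1
  have ht : Tendsto χ (𝓝[≠] 0) (𝓝[≠] 0) := by
    rw [tendsto_nhdsWithin_iff]
    constructor
    · have h1 := hχ.continuousAt.tendsto
      rw [hχ0] at h1
      exact h1.mono_left nhdsWithin_le_nhds
    · have h0 : ∀ᶠ w in 𝓝[≠] (0:ℂ), w ≠ 0 := self_mem_nhdsWithin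
      filter_upwards [hr.filter_mono nhdsWithin_le_nhds, h0] with w hw hw0 hc
      apply hw0
      have hc' : χ w = 0 := hc
      rw [← hw, hc', hψ0]
  refine (h.comp ht).congr' ?_
  filter_upwards [hr.filter_mono nhdsWithin_le_nhds] with w hw
  show F (ψ (χ w)) = F w
  rw [hw]

theorem mulVec_basis (v0 b1 b2 c : Fin 3 → ℂ) :
    (Matrix.of ![v0, b1, b2]).transpose.mulVec c = c 0 • v0 + c 1 • b1 + c 2 • b2 := by
  ext j
  simp [Matrix.mulVec, dotProduct, Fin.sum_univ_three]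
  ring

end Normal

open Pool.Agent.MP_ae5b4e_an_GEN.Normal in
/-- The normal form of a place of a nonsingular curve. -/
theorem place_normal {P : MvPolynomial (Fin 3) ℂ} {n : ℕ} (hP : SmoothCurve P n) (hn : 2 ≤ n)
    {X Y K : ℂ → ℂ} (hX : MeromorphicAt X 0) (hY : MeromorphicAt Y 0) (hK : MeromorphicAt K 0)
    (hP0 : ∀ᶠ w in 𝓝[≠] (0:ℂ), MvPolynomial.eval ![X w, Y w, 1] P = 0)
    (hg : ∀ᶠ w in 𝓝[≠] (0:ℂ), GoodG X Y K w) :
    ∃ (L m f : ℕ) (g g1 K' : ℂ → ℂ), 0 < m ∧ AnalyticAt ℂ g1 0 ∧ g1 0 ≠ 0 ∧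
      (∀ᶠ x in 𝓝 (0:ℂ), g x = x ^ (f + 2) * g1 x) ∧ f + 2 ≤ n ∧ (OrdFlex P → f ≤ 1) ∧
      MeromorphicAt K' 0 ∧
      (∀ᶠ z in 𝓝[≠] (0:ℂ), GoodG (fun z => z ^ m) (fun z => g (z ^ m)) K' z) ∧
      (∀ c : ℂ, Tendsto (fun z => z * K' z) (𝓝[≠] 0) (𝓝 c) →
        Tendsto (fun w => w * K w) (𝓝[≠] 0) (𝓝 (c + 2 * L))) ∧
      (∀ᶠ w in 𝓝[≠] (0:ℂ), MvPolynomial.eval ![X w, Y w, 1] (hess P) ≠ 0) ∧
      Tendsto (fun w => w * (deriv (fun w => MvPolynomial.eval ![X w, Y w, 1] (hess P)) w /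
        MvPolynomial.eval ![X w, Y w, 1] (hess P))) (𝓝[≠] 0)
        (𝓝 ((m:ℂ) * f - 3 * ((n:ℂ) - 2) * L)) ∧
      ((Tendsto X (𝓝[≠] 0) (Bornology.cobounded ℂ)) → 0 < L) := by
  have h0 : ∀ᶠ w in 𝓝[≠] (0:ℂ), w ≠ 0 := self_mem_nhdsWithin
  obtain ⟨L, φ, hφa, hφ0, hφ, hφX⟩ := exists_lift hX hY
  -- the lifted curve lies on the cone
  have hPφ : AnalyticAt ℂ (fun w => MvPolynomial.eval (φ w) P) 0 := analyticAt_eval3 hφa P
  have hPφ0 : ∀ᶠ w in 𝓝 (0:ℂ), MvPolynomial.eval (φ w) P = 0 := by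
    have h1 : ∀ᶠ w in 𝓝[≠] (0:ℂ), MvPolynomial.eval (φ w) P = 0 := by
      filter_upwards [hφ, hP0] with w hw hw0
      rw [hw, eval_smul3 hP.hom, hw0, mul_zero]
    exact (hPφ.eventually_eq_zero_or_eventually_ne_zero).resolve_right
      (fun h => by
        obtain ⟨w, hw1, hw2⟩ := (h1.and h).exists
        exact hw2 hw1)
  set v0 := φ 0 with hv0
  obtain ⟨b1, b2, g, g1, u, f, hdet, hg1, hg10, hgeq, hfn, hfo, hiff, hu, hu0, hhess⟩ :=
    smooth_point hP hn hφ0 hPφ0.self_of_nhds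
  -- the coordinates with respect to the basis
  set B : Matrix (Fin 3) (Fin 3) ℂ := Matrix.of ![v0, b1, b2] with hB
  have hBu : IsUnit B.transpose.det := by
    rw [Matrix.det_transpose]
    exact isUnit_iff_ne_zero.2 hdet
  set A : Matrix (Fin 3) (Fin 3) ℂ := (B.transpose)⁻¹ with hA
  have hAB : A * B.transpose = 1 := Matrix.nonsing_inv_mul _ hBu
  have hBA : B.transpose * A = 1 := Matrix.mul_nonsing_inv _ hBu
  have hAdet : A.det ≠ 0 := by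
    intro h
    have h1 := congrArg Matrix.det hAB
    rw [Matrix.det_mul, h, zero_mul, Matrix.det_one] at h1
    exact zero_ne_one h1
  let La : Fin 3 → ℂ → ℂ := fun i w => A i 0 * φ w 0 + A i 1 * φ w 1 + A i 2 * φ w 2
  have hLa : ∀ i, AnalyticAt ℂ (La i) 0 := fun i =>
    ((analyticAt_const.mul (hφa 0)).add (analyticAt_const.mul (hφa 1))).add
      (analyticAt_const.mul (hφa 2))
  have hLaA : ∀ i w, La i w = (A.mulVec (φ w)) i := by
    intro i w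
    rw [Matrix.mulVec, dotProduct, Fin.sum_univ_three]
  have hdec : ∀ w, φ w = La 0 w • v0 + La 1 w • b1 + La 2 w • b2 := by
    intro w
    have h1 : B.transpose.mulVec (A.mulVec (φ w)) = φ w := by
      rw [Matrix.mulVec_mulVec, hBA, Matrix.one_mulVec]
    rw [hB, mulVec_basis] at h1
    rw [hLaA, hLaA, hLaA]
    exact h1.symm
  -- the values at `0`
  have hLa0 : La 0 0 = 1 ∧ La 1 0 = 0 ∧ La 2 0 = 0 := by
    have h1 : (fun i => La i 0) = ![1, 0, 0] := by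
      have h2 : B.transpose.mulVec ![1, 0, 0] = φ 0 := by
        rw [hB, mulVec_basis]
        simp [hv0]
      have h3 : (fun i => La i 0) = A.mulVec (φ 0) := funext fun i => hLaA i 0
      rw [h3, ← h2, Matrix.mulVec_mulVec, hAB, Matrix.one_mulVec]
    exact ⟨congrFun h1 0, congrFun h1 1, congrFun h1 2⟩
  obtain ⟨hL00, hL10, hL20⟩ := hLa0
  have hL0 : La 0 0 ≠ 0 := by rw [hL00]; exact one_ne_zero
  set ξ : ℂ → ℂ := fun w => La 1 w / La 0 w with hξ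
  set ζ : ℂ → ℂ := fun w => La 2 w / La 0 w with hζ
  have hξa : AnalyticAt ℂ ξ 0 := (hLa 1).div (hLa 0) hL0
  have hζa : AnalyticAt ℂ ζ 0 := (hLa 2).div (hLa 0) hL0
  have hξ0 : ξ 0 = 0 := by
    simp only [hξ]
    rw [hL10, zero_div]
  have hζ0 : ζ 0 = 0 := by
    simp only [hζ]
    rw [hL20, zero_div]
  have hL0n : ∀ᶠ w in 𝓝 (0:ℂ), La 0 w ≠ 0 := (hLa 0).continuousAt.eventually_ne hL0
  have hdec' : ∀ᶠ w in 𝓝 (0:ℂ), φ w = La 0 w • (v0 + ξ w • b1 + ζ w • b2) := by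
    filter_upwards [hL0n] with w hw
    rw [smul_add, smul_add, smul_smul, smul_smul]
    simp only [hξ, hζ]
    rw [mul_div_cancel₀ _ hw, mul_div_cancel₀ _ hw]
    exact hdec w
  have hξt : Tendsto ξ (𝓝 0) (𝓝 0) := by
    have := hξa.continuousAt.tendsto
    rwa [hξ0] at this
  have hζt : Tendsto ζ (𝓝 0) (𝓝 0) := by
    have := hζa.continuousAt.tendsto
    rwa [hζ0] at this
  have hζg : ∀ᶠ w in 𝓝 (0:ℂ), ζ w = g (ξ w) := by
    have ht : Tendsto (fun w => (ξ w, ζ w)) (𝓝 0) (𝓝 ((0, 0) : ℂ × ℂ)) :=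
      hξt.prodMk_nhds hζt
    filter_upwards [ht.eventually hiff, hdec', hL0n, hPφ0] with w h1 h2 h3 h4
    rw [h2, eval_smul3 hP.hom] at h4
    exact h1.1 ((mul_eq_zero.1 h4).resolve_left (pow_ne_zero _ h3))
  -- `ξ` is not constant
  have hg0 : g 0 = 0 := by
    have := hgeq.self_of_nhds
    rwa [zero_pow (by omega), zero_mul] at this
  have hξn : ¬ ∀ᶠ w in 𝓝 (0:ℂ), ξ w = 0 := by
    intro hc
    have h1 : ∀ᶠ w in 𝓝[≠] (0:ℂ), φ w = La 0 w • v0 := by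
      filter_upwards [hc.filter_mono nhdsWithin_le_nhds, hζg.filter_mono nhdsWithin_le_nhds,
        hdec'.filter_mono nhdsWithin_le_nhds] with w h1 h2 h3
      rw [h1, hg0] at h2
      rw [h3, h1, h2]
      simp
    -- the curve is constant
    have h2 : ∀ᶠ w in 𝓝[≠] (0:ℂ), X w = v0 0 / v0 2 := by
      filter_upwards [h1, hφ, h0] with w h1 h2 h3
      rw [h2] at h1
      have e0 := congrFun h1 0
      have e2 := congrFun h1 2
      simp at e0 e2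
      have hwL : w ^ L ≠ 0 := pow_ne_zero _ h3
      have hv2 : v0 2 ≠ 0 := by
        intro h
        rw [h, mul_zero] at e2
        exact hwL e2
      rw [eq_div_iff hv2]
      have hLw : La 0 w ≠ 0 := by
        intro h
        rw [h, zero_mul] at e2
        exact hwL e2
      apply mul_left_cancel₀ hLw
      rw [← e0]
      rw [e2]
      ring
    have h3 : ∀ᶠ w in 𝓝[≠] (0:ℂ), Y w = v0 1 / v0 2 := by
      filter_upwards [h1, hφ, h0] with w h1 h2 h3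
      rw [h2] at h1
      have e0 := congrFun h1 1
      have e2 := congrFun h1 2
      simp at e0 e2
      have hwL : w ^ L ≠ 0 := pow_ne_zero _ h3
      have hv2 : v0 2 ≠ 0 := by
        intro h
        rw [h, mul_zero] at e2
        exact hwL e2
      rw [eq_div_iff hv2]
      have hLw : La 0 w ≠ 0 := by
        intro h
        rw [h, zero_mul] at e2
        exact hwL e2
      apply mul_left_cancel₀ hLw
      rw [← e0]
      rw [e2]
      ring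
    obtain ⟨w, hw1, hw2, hw3⟩ := ((ev_nhds h2).and ((ev_nhds h3).and hg)).exists
    have hX1 : X =ᶠ[𝓝 w] fun _ => v0 0 / v0 2 := hw1
    have hY1 : Y =ᶠ[𝓝 w] fun _ => v0 1 / v0 2 := hw2
    have hW := hw3.1.2.2.2
    apply hW
    unfold Wr
    rw [hX1.deriv_eq, hY1.deriv_eq, deriv_const, deriv_const]
    ring
  obtain ⟨m, ξ1, hξ1a, hξ10, hξe⟩ := hξa.exists_eventuallyEq_pow_smul_nonzero_iff.mpr hξn
  have hm : 0 < m := by
    rcases Nat.eq_zero_or_pos m with hm | hm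
    · exfalso
      have h1 := hξe.self_of_nhds
      rw [hξ0, hm, pow_zero, one_smul] at h1
      exact hξ10 h1.symm
    · exact hm
  have hξe' : ∀ᶠ w in 𝓝 (0:ℂ), ξ w = w ^ m * ξ1 w := by
    filter_upwards [hξe] with w hw
    rw [hw, sub_zero, smul_eq_mul]
  obtain ⟨ψ, hψ, hψ0, hψ1, hψe⟩ :=
    Pool.Agent.MP_ae5b4e_an_ALG.exists_root_coord hm hξ1a hξ10
  have hψt : Tendsto ψ (𝓝 0) (𝓝 0) := by
    have := hψ.continuousAt.tendsto
    rwa [hψ0] at this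
  have hξψ : ∀ᶠ z in 𝓝 (0:ℂ), ξ (ψ z) = z ^ m := by
    filter_upwards [hψt.eventually hξe', hψe] with z h1 h2
    rw [h1, h2]
  have hζψ : ∀ᶠ z in 𝓝 (0:ℂ), ζ (ψ z) = g (z ^ m) := by
    filter_upwards [hψt.eventually hζg, hξψ] with z h1 h2
    rw [h1, h2]
  have hψn : ∀ᶠ z in 𝓝[≠] (0:ℂ), ψ z ≠ 0 := by
    filter_upwards [hξψ.filter_mono nhdsWithin_le_nhds, h0] with z h1 h2 h3
    rw [h3, hξ0] at h1
    exact pow_ne_zero _ h2 h1.symm
  have hψt' : Tendsto ψ (𝓝[≠] 0) (𝓝[≠] 0) := by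
    rw [tendsto_nhdsWithin_iff]
    exact ⟨hψt.mono_left nhdsWithin_le_nhds, hψn⟩
  -- the field in the new coordinates
  set h : ℂ → ℂ := fun s => A 0 0 * X s + A 0 1 * Y s + A 0 2 with hh
  have hhe : ∀ᶠ w in 𝓝[≠] (0:ℂ), h w = w ^ 0 / w ^ L * La 0 w := by
    filter_upwards [hφ, h0] with w h1 h2
    have hwL : w ^ L ≠ 0 := pow_ne_zero _ h2
    simp only [La, h1, hh]
    simp
    field_simp
  have hXY : ∀ i : Fin 3, ∀ᶠ w in 𝓝[≠] (0:ℂ),
      A i 0 * X w + A i 1 * Y w + A i 2 = 1 / w ^ L * La i w := by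
    intro i
    filter_upwards [hφ, h0] with w h1 h2
    have hwL : w ^ L ≠ 0 := pow_ne_zero _ h2
    simp only [La, h1]
    simp
    field_simp
  obtain ⟨hhn, hhl⟩ := logder (hLa 0) hL0 hhe
  set K1 : ℂ → ℂ := fun s => K s + 2 * (deriv h s / h s) with hK1
  have hgood1 : ∀ᶠ w in 𝓝[≠] (0:ℂ), GoodG ξ ζ K1 w := by
    filter_upwards [hg, hhn, ev_nhds (hXY 0), ev_nhds (hXY 1), ev_nhds (hXY 2), h0,
      ev_nhds (hL0n.filter_mono nhdsWithin_le_nhds), ev_nhds h0] with w h1 h2 h3 h4 h5 h6 h7 h8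
    refine Pool.Agent.MP_ae5b4e_an_ALG.goodG_congr (goodG_pgl h1 hAdet h2) ?_ ?_
      Filter.EventuallyEq.rfl
    · filter_upwards [h3, h4, h7, h8] with s h3 h4 h7 h8
      have hsL : s ^ L ≠ 0 := pow_ne_zero _ h8
      rw [h3, h4]
      simp only [hξ]
      field_simp
    · filter_upwards [h3, h5, h7, h8] with s h3 h5 h7 h8
      have hsL : s ^ L ≠ 0 := pow_ne_zero _ h8
      rw [h3, h5]
      simp only [hζ]
      field_simp
  set K' : ℂ → ℂ := fun z => deriv ψ z * K1 (ψ z) with hK'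
  have hψ'n : ∀ᶠ z in 𝓝 (0:ℂ), deriv ψ z ≠ 0 := hψ.deriv.continuousAt.eventually_ne hψ1
  have hgood2 : ∀ᶠ z in 𝓝[≠] (0:ℂ), GoodG (fun z => z ^ m) (fun z => g (z ^ m)) K' z := by
    filter_upwards [hψt'.eventually hgood1, hψ'n.filter_mono nhdsWithin_le_nhds,
      hψ.eventually_analyticAt.filter_mono nhdsWithin_le_nhds,
      ev_nhds (hξψ.filter_mono nhdsWithin_le_nhds),
      ev_nhds (hζψ.filter_mono nhdsWithin_le_nhds)] with z h1 h2 h3 h4 h5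
    exact Pool.Agent.MP_ae5b4e_an_ALG.goodG_congr
      (Pool.Agent.MP_ae5b4e_an_ALG.goodG_comp h3 h2 h1) h4 h5 Filter.EventuallyEq.rfl
  have hK1m : MeromorphicAt K1 0 := by
    have hhm : MeromorphicAt h 0 :=
      (((MeromorphicAt.const _ _).mul hX).add ((MeromorphicAt.const _ _).mul hY)).add
        (MeromorphicAt.const _ _)
    exact hK.add ((MeromorphicAt.const _ _).mul (hhm.deriv.div hhm))
  have hK'm : MeromorphicAt K' 0 := by
    refine hψ.deriv.meromorphicAt.mul ?_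
    have h1 : MeromorphicAt K1 (ψ 0) := by rwa [hψ0]
    exact h1.comp_analyticAt hψ
  -- the residues
  have hres : ∀ c : ℂ, Tendsto (fun z => z * K' z) (𝓝[≠] 0) (𝓝 c) →
      Tendsto (fun w => w * K w) (𝓝[≠] 0) (𝓝 (c + 2 * L)) := by
    intro c hc
    have h1 : Tendsto (fun z => ψ z / (z * deriv ψ z)) (𝓝[≠] 0) (𝓝 1) := by
      have h2 : Tendsto (fun z => ψ z / z) (𝓝[≠] 0) (𝓝 (deriv ψ 0)) := by
        have h3 := hψ.differentiableAt.hasDerivAt.tendsto_slope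
        refine h3.congr' ?_
        filter_upwards with z
        rw [slope_def_field, hψ0, sub_zero, sub_zero]
      have h4 : Tendsto (fun z => deriv ψ z) (𝓝[≠] 0) (𝓝 (deriv ψ 0)) :=
        hψ.deriv.continuousAt.tendsto.mono_left nhdsWithin_le_nhds
      have h5 := h2.div h4 hψ1
      rw [div_self hψ1] at h5
      refine h5.congr' ?_
      filter_upwards with z
      rw [Pi.div_apply, div_div]
    have h2 : Tendsto (fun z => ψ z * K1 (ψ z)) (𝓝[≠] 0) (𝓝 c) := by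
      have h3 := h1.mul hc
      rw [one_mul] at h3
      refine h3.congr' ?_
      filter_upwards [h0, hψ'n.filter_mono nhdsWithin_le_nhds] with z h4 h5
      simp only [hK']
      field_simp
    have h3 : Tendsto (fun w => w * K1 w) (𝓝[≠] 0) (𝓝 c) :=
      tendsto_coord hψ hψ0 hψ1 h2
    have h4 := h3.sub (hhl.const_mul 2)
    have h5 : c - 2 * (((0 : ℕ) : ℂ) - L) = c + 2 * L := by push_cast; ring
    rw [h5] at h4
    refine h4.congr' ?_
    filter_upwards with w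
    simp only [hK1]
    ring
  -- the Hessian
  obtain ⟨g2, hg2, hg20, hg2e⟩ := second hg1 hg10 hgeq
  set H : ℂ → ℂ := fun w => La 0 w ^ (3 * (n - 2)) * (u (ξ w) * (ξ1 w ^ f * g2 (ξ w))) with hH
  have hua : AnalyticAt ℂ (fun w => u (ξ w)) 0 := by
    have h1 : AnalyticAt ℂ u (ξ 0) := by rwa [hξ0]
    exact h1.comp hξa
  have hg2a : AnalyticAt ℂ (fun w => g2 (ξ w)) 0 := by
    have h1 : AnalyticAt ℂ g2 (ξ 0) := by rwa [hξ0]
    exact h1.comp hξa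
  have hHa : AnalyticAt ℂ H 0 :=
    ((hLa 0).pow _).mul (hua.mul ((hξ1a.pow _).mul hg2a))
  have hH0 : H 0 ≠ 0 := by
    simp only [hH, hξ0]
    exact mul_ne_zero (pow_ne_zero _ hL0) (mul_ne_zero hu0 (mul_ne_zero (pow_ne_zero _ hξ10) hg20))
  have hhe2 : ∀ᶠ w in 𝓝[≠] (0:ℂ), MvPolynomial.eval ![X w, Y w, 1] (hess P) =
      w ^ (m * f) / w ^ (L * (3 * (n - 2))) * H w := by
    filter_upwards [hφ, h0, hdec'.filter_mono nhdsWithin_le_nhds,
      hζg.filter_mono nhdsWithin_le_nhds,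
      (hξt.eventually hhess).filter_mono nhdsWithin_le_nhds,
      (hξt.eventually hg2e).filter_mono nhdsWithin_le_nhds,
      hξe'.filter_mono nhdsWithin_le_nhds] with w h1 h2 h3 h4 h5 h6 h7
    have hh := hess_hom hP.hom
    have e1 := eval_smul3 hh (w ^ L) ![X w, Y w, 1]
    rw [← h1, h3, eval_smul3 hh, h4, h5, h6] at e1
    have hwL : w ^ (L * (3 * (n - 2))) ≠ 0 := pow_ne_zero _ h2
    rw [← pow_mul] at e1
    rw [div_mul_eq_mul_div, eq_div_iff hwL, mul_comm, ← e1]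
    simp only [hH]
    rw [pow_mul, h7]
    ring
  obtain ⟨hHn, hHl⟩ := logder hHa hH0 hhe2
  refine ⟨L, m, f, g, g1, K', hm, hg1, hg10, hgeq, hfn, hfo, hK'm, hgood2, hres, hHn, ?_, hφX⟩
  have hcast : ((m * f : ℕ) : ℂ) - ((L * (3 * (n - 2)) : ℕ) : ℂ) =
      (m:ℂ) * f - 3 * ((n:ℂ) - 2) * L := by
    push_cast [Nat.cast_sub hn]
    ring
  rw [← hcast]
  exact hHl

end Pool.Agent.MP_ae5b4e_an_GEN
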