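import Mathlib
import Pool.Agent.Lib.MP_ae5b4e_an_GEN.Defs
import Pool.Agent.Lib.MP_ae5b4e_an_GEN.Poly3
import Pool.Agent.Lib.MP_ae5b4e_an_GEN.Local
import Pool.Agent.Lib.MP_ae5b4e_an_GEN.Normal

/-!
# MP_ae5b4e_an, project GEN: the residues at a place of a nonsingular curve
-/

set_option autoImplicit false

noncomputable section

namespace Pool.Agent.MP_ae5b4e_an_GEN

open Filter Topology Set Metric
open scoped Polynomial
open Polynomial (evalEval)
open Pool.Agent.MP_ae5b4e_an_ND (cc cf co Dx Dy Filt Reg rts)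
open Pool.Agent.MP_ae5b4e_an_FLEX
open Pool.Agent.MP_ae5b4e_an_ALG (Dh)

namespace Resid

/-- derivative of a polynomial along `(X, Y, 1)` -/
theorem hasDerivAt_xy {X Y : ℂ → ℂ} {w : ℂ} (hX : AnalyticAt ℂ X w) (hY : AnalyticAt ℂ Y w)
    (P : MvPolynomial (Fin 3) ℂ) :
    HasDerivAt (fun w => MvPolynomial.eval ![X w, Y w, 1] P)
      (deriv X w * MvPolynomial.eval ![X w, Y w, 1] (MvPolynomial.pderiv 0 P) +
        deriv Y w * MvPolynomial.eval ![X w, Y w, 1] (MvPolynomial.pderiv 1 P)) w := by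
  have h := hasDerivAt_eval3 (v := fun w => ![X w, Y w, 1]) (v' := ![deriv X w, deriv Y w, 0])
    (w := w) (fun i => by
      fin_cases i
      · exact hX.differentiableAt.hasDerivAt
      · exact hY.differentiableAt.hasDerivAt
      · exact hasDerivAt_const w (1:ℂ)) P
  rw [Fin.sum_univ_three] at h
  simpa using h

/-- the logarithmic derivative of the Hessian along the curve -/
theorem dlh_eq {P : MvPolynomial (Fin 3) ℂ} {X Y : ℂ → ℂ} (hX : MeromorphicAt X 0)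
    (hY : MeromorphicAt Y 0)
    (hP0 : ∀ᶠ w in 𝓝[≠] (0:ℂ), MvPolynomial.eval ![X w, Y w, 1] P = 0)
    (hPy : ∀ᶠ w in 𝓝[≠] (0:ℂ),
      MvPolynomial.eval ![X w, Y w, 1] (MvPolynomial.pderiv 1 P) ≠ 0)
    (hH : ∀ᶠ w in 𝓝[≠] (0:ℂ), MvPolynomial.eval ![X w, Y w, 1] (hess P) ≠ 0) :
    ∀ᶠ w in 𝓝[≠] (0:ℂ), deriv (fun w => MvPolynomial.eval ![X w, Y w, 1] (hess P)) w /
        MvPolynomial.eval ![X w, Y w, 1] (hess P) = deriv X w * dlh P (X w) (Y w) := by
  have hP0' : ∀ᶠ w in 𝓝[≠] (0:ℂ), ∀ᶠ s in 𝓝 w, MvPolynomial.eval ![X s, Y s, 1] P = 0 := by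
    rw [eventually_nhdsWithin_iff] at hP0
    rw [eventually_nhdsWithin_iff]
    filter_upwards [hP0.eventually_nhds] with w hw hw0
    filter_upwards [hw, isOpen_ne.mem_nhds hw0] with s hs hs0
    exact hs hs0
  filter_upwards [hX.eventually_analyticAt, hY.eventually_analyticAt, hP0', hPy, hH] with
    w h1 h2 h3 h4 h5
  have hd := hasDerivAt_xy h1 h2 P
  have hz : deriv X w * MvPolynomial.eval ![X w, Y w, 1] (MvPolynomial.pderiv 0 P) +
        deriv Y w * MvPolynomial.eval ![X w, Y w, 1] (MvPolynomial.pderiv 1 P) = 0 := by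
    have h0 : HasDerivAt (fun w => MvPolynomial.eval ![X w, Y w, 1] P) 0 w := by
      refine (hasDerivAt_const w (0:ℂ)).congr_of_eventuallyEq ?_
      filter_upwards [h3] with s hs
      exact hs
    exact hd.unique h0
  rw [(hasDerivAt_xy h1 h2 (hess P)).deriv]
  unfold dlh
  have hY' : deriv Y w = -(deriv X w *
      MvPolynomial.eval ![X w, Y w, 1] (MvPolynomial.pderiv 0 P)) /
      MvPolynomial.eval ![X w, Y w, 1] (MvPolynomial.pderiv 1 P) := by
    rw [eq_div_iff h4]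
    linear_combination hz
  rw [hY']
  field_simp
  ring

end Resid

open Resid in
/-- The residues at a place. -/
theorem place_res {P : MvPolynomial (Fin 3) ℂ} {n : ℕ} (hP : SmoothCurve P n) (hn : 3 ≤ n)
    (hLB : ∀ f : ℕ, 1 ≤ f → f + 2 ≤ n → (OrdFlex P → f ≤ 1) →
      ∃ β : ℝ, β < ((f:ℝ) + 2) / 3 ∧ LBd 1 (f + 2) β)
    {X Y K : ℂ → ℂ} (hX : MeromorphicAt X 0) (hY : MeromorphicAt Y 0) (hK : MeromorphicAt K 0)
    (hP0 : ∀ᶠ w in 𝓝[≠] (0:ℂ), MvPolynomial.eval ![X w, Y w, 1] P = 0)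
    (hPy : ∀ᶠ w in 𝓝[≠] (0:ℂ),
      MvPolynomial.eval ![X w, Y w, 1] (MvPolynomial.pderiv 1 P) ≠ 0)
    (hg : ∀ᶠ w in 𝓝[≠] (0:ℂ), GoodG X Y K w) :
    ∃ τ₁ τ₂ : ℂ,
      Tendsto (fun w => w * (K w / 2 + (1 / (3 * ((n:ℂ) - 2))) * (deriv X w * dlh P (X w) (Y w))))
        (𝓝[≠] 0) (𝓝 τ₁) ∧ τ₁.re ≤ 0 ∧
      Tendsto (fun w => w * (deriv X w * dlh P (X w) (Y w))) (𝓝[≠] 0) (𝓝 τ₂) ∧
      (τ₁.re = 0 → τ₂.re ≤ 0 ∧ ((Tendsto X (𝓝[≠] 0) (Bornology.cobounded ℂ)) → τ₂.re < 0)) := by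
  obtain ⟨L, m, f, g, g1, K', hm, hg1, hg10, hgx, hfn, hord, hK', hG, hlim, hHne, hHlim, hLpos⟩ :=
    place_normal hP (by omega) hX hY hK hP0 hg
  -- the residue of `K'`
  have key : ∃ c : ℂ, Tendsto (fun z => z * K' z) (𝓝[≠] 0) (𝓝 c) ∧
      (f = 0 → c.re ≤ 0) ∧ (1 ≤ f → c.re / 2 < -(m:ℝ) / 3) := by
    obtain ⟨β, hLBβ, hβ⟩ : ∃ β : ℝ, LBd 1 (f + 2) β ∧
        ((f = 0 → β = 1) ∧ (1 ≤ f → β < ((f:ℝ) + 2) / 3)) := by
      rcases Nat.eq_zero_or_pos f with h0 | h0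
      · refine ⟨1, ?_, fun _ => rfl, fun h => by omega⟩
        rw [h0]
        exact lb_reg
      · obtain ⟨β, h1, h2⟩ := hLB f h0 hfn hord
        exact ⟨β, h2, fun h => by omega, fun _ => h1⟩
    have hXz : ∀ᶠ w in 𝓝 (0:ℂ), (fun z : ℂ => z ^ m) w = w ^ (1 * m) * (fun _ : ℂ => (1:ℂ)) w :=
      Eventually.of_forall fun w => by simp
    have hpow : Tendsto (fun z : ℂ => z ^ m) (𝓝 0) (𝓝 0) := by
      have := (continuous_pow m).tendsto (0:ℂ)
      simpa [zero_pow hm.ne'] using this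
    have hYz : ∀ᶠ w in 𝓝 (0:ℂ), (fun z : ℂ => g (z ^ m)) w =
        w ^ ((f + 2) * m) * (fun z : ℂ => g1 (z ^ m)) w := by
      filter_upwards [hpow.eventually hgx] with w hw
      rw [hw, ← pow_mul, mul_comm m]
    have hg1' : AnalyticAt ℂ (fun z : ℂ => g1 (z ^ m)) 0 := by
      have h : AnalyticAt ℂ (fun z : ℂ => z ^ m) 0 := analyticAt_id.pow m
      have h2 : AnalyticAt ℂ g1 ((fun z : ℂ => z ^ m) 0) := by
        simpa [zero_pow hm.ne'] using hg1
      exact AnalyticAt.fun_comp (g := g1) (f := fun z : ℂ => z ^ m) h2 h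
    obtain ⟨c, hc1, hc2⟩ := place_bound (a := 1) (b := f + 2) one_pos (by omega) hLBβ hm
      (X := fun z => z ^ m) (Y := fun z => g (z ^ m)) (K := K') (x1 := fun _ => 1)
      (y1 := fun z => g1 (z ^ m)) analyticAt_const one_ne_zero hXz hg1'
      (by simpa [zero_pow hm.ne'] using hg10) hYz hK' hG
    refine ⟨c, hc1, ?_, ?_⟩
    · intro h0
      rw [hβ.1 h0, h0] at hc2
      have hmr : (0:ℝ) < m := by exact_mod_cast hm
      have e : ((((1:ℕ):ℂ) + ((0 + 2 : ℕ) : ℂ)) / 3 + c / (2 * m)).re = 1 + c.re / (2 * m) := by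
        have e1 : c / (2 * (m:ℂ)) = (((2 * m : ℝ)⁻¹ : ℝ) : ℂ) * c := by
          push_cast
          field_simp
        rw [e1, Complex.add_re, Complex.re_ofReal_mul]
        have e2 : (((1:ℕ):ℂ) + ((0 + 2 : ℕ) : ℂ)) / 3 = ((1:ℝ) : ℂ) := by
          push_cast
          norm_num
        rw [e2, Complex.ofReal_re]
        field_simp
      rw [e] at hc2
      have h3 : c.re / (2 * m) ≤ 0 := by linarith
      rw [div_le_iff₀ (by positivity)] at h3
      linarith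
    · intro h0
      have hb := hβ.2 h0
      have hmr : (0:ℝ) < m := by exact_mod_cast hm
      have e : ((((1:ℕ):ℂ) + ((f + 2 : ℕ) : ℂ)) / 3 + c / (2 * m)).re =
          ((f:ℝ) + 3) / 3 + c.re / (2 * m) := by
        have e1 : c / (2 * (m:ℂ)) = (((2 * m : ℝ)⁻¹ : ℝ) : ℂ) * c := by
          push_cast
          field_simp
        rw [e1, Complex.add_re, Complex.re_ofReal_mul]
        have e2 : (((1:ℕ):ℂ) + ((f + 2 : ℕ) : ℂ)) / 3 = ((((f:ℝ) + 3) / 3 : ℝ) : ℂ) := by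
          push_cast
          ring
        rw [e2, Complex.ofReal_re]
        field_simp
      rw [e] at hc2
      have h3 : c.re / (2 * m) < -1 / 3 := by linarith
      rw [div_lt_iff₀ (by positivity)] at h3
      linarith
  obtain ⟨c, hc, hc0, hc1⟩ := key
  have hKl := hlim c hc
  have hnr : (3:ℝ) ≤ n := by exact_mod_cast hn
  have hmr : (0:ℝ) < m := by exact_mod_cast hm
  have hn2 : ((n:ℂ) - 2) ≠ 0 := by
    have h : ((n:ℂ) - 2) = (((n:ℝ) - 2 : ℝ) : ℂ) := by push_cast; ring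
    rw [h, Complex.ofReal_ne_zero]
    linarith
  -- the residue of the logarithmic derivative of the Hessian
  have hτ2 : Tendsto (fun w => w * (deriv X w * dlh P (X w) (Y w))) (𝓝[≠] 0)
      (𝓝 ((m:ℂ) * f - 3 * ((n:ℂ) - 2) * L)) := by
    refine hHlim.congr' ?_
    filter_upwards [dlh_eq hX hY hP0 hPy hHne] with w hw
    rw [hw]
  have hτ1 : Tendsto (fun w => w * (K w / 2 + (1 / (3 * ((n:ℂ) - 2))) *
      (deriv X w * dlh P (X w) (Y w)))) (𝓝[≠] 0)
      (𝓝 ((c + 2 * L) / 2 + (1 / (3 * ((n:ℂ) - 2))) * ((m:ℂ) * f - 3 * ((n:ℂ) - 2) * L))) := by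
    refine ((hKl.div_const 2).add (hτ2.const_mul (1 / (3 * ((n:ℂ) - 2))))).congr fun w => ?_
    ring
  have e1 : (c + 2 * L) / 2 + (1 / (3 * ((n:ℂ) - 2))) * ((m:ℂ) * f - 3 * ((n:ℂ) - 2) * L) =
      c / 2 + ((((m:ℝ) * f / (3 * ((n:ℝ) - 2)) : ℝ)) : ℂ) := by
    push_cast
    field_simp
    ring
  rw [e1] at hτ1
  have e2 : (m:ℂ) * f - 3 * ((n:ℂ) - 2) * L = (((m:ℝ) * f - 3 * ((n:ℝ) - 2) * L : ℝ) : ℂ) := by
    push_cast
    ring
  rw [e2] at hτ2
  have hre1 : (c / 2 + ((((m:ℝ) * f / (3 * ((n:ℝ) - 2)) : ℝ)) : ℂ)).re =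
      c.re / 2 + (m:ℝ) * f / (3 * ((n:ℝ) - 2)) := by
    rw [Complex.add_re, Complex.ofReal_re]
    congr 1
    have : c / 2 = ((1 / 2 : ℝ) : ℂ) * c := by push_cast; ring
    rw [this, Complex.re_ofReal_mul]
    ring
  refine ⟨_, _, hτ1, ?_, hτ2, ?_⟩
  · rw [hre1]
    rcases Nat.eq_zero_or_pos f with h0 | h0
    · have := hc0 h0
      rw [h0]
      simp only [Nat.cast_zero, mul_zero, zero_div, add_zero]
      linarith
    · have h1 := hc1 h0
      have h2 : (m:ℝ) * f / (3 * ((n:ℝ) - 2)) ≤ m / 3 := by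
        rw [div_le_iff₀ (by linarith)]
        have hf : (f:ℝ) ≤ n - 2 := by
          have : ((f + 2 : ℕ) : ℝ) ≤ n := by exact_mod_cast hfn
          push_cast at this
          linarith
        nlinarith
      linarith
  · intro hz
    rw [hre1] at hz
    rw [Complex.ofReal_re]
    have h0 : f = 0 := by
      by_contra hne
      have h0 : 1 ≤ f := Nat.one_le_iff_ne_zero.2 hne
      have h1 := hc1 h0
      have h2 : (m:ℝ) * f / (3 * ((n:ℝ) - 2)) ≤ m / 3 := by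
        rw [div_le_iff₀ (by linarith)]
        have hf : (f:ℝ) ≤ n - 2 := by
          have : ((f + 2 : ℕ) : ℝ) ≤ n := by exact_mod_cast hfn
          push_cast at this
          linarith
        nlinarith
      linarith
    rw [h0]
    have hL0 : (0:ℝ) ≤ L := Nat.cast_nonneg _
    constructor
    · have : 0 ≤ ((n:ℝ) - 2) * L := mul_nonneg (by linarith) hL0
      simp only [Nat.cast_zero, mul_zero, zero_sub]
      linarith
    · intro hXinf
      have hL : (0:ℝ) < L := by exact_mod_cast hLpos hXinf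
      have : 0 < ((n:ℝ) - 2) * L := mul_pos (by linarith) hL
      simp only [Nat.cast_zero, mul_zero, zero_sub]
      linarith

end Pool.Agent.MP_ae5b4e_an_GEN
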