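import Pool.Agent.Lib.MP_ae5b4e_an_GEN.Defs

/-!
# MP_ae5b4e_an, project GEN, module T5: the number of good pairs
-/

set_option autoImplicit false

noncomputable section

namespace Pool.Agent.MP_ae5b4e_an_GEN

open Filter Topology Set Metric
open scoped Polynomial
open Polynomial (evalEval)
open Pool.Agent.MP_ae5b4e_an_ND (cc cf co Dx Dy Filt Reg rts)
open Pool.Agent.MP_ae5b4e_an_FLEX
open Pool.Agent.MP_ae5b4e_an_ALG (Dh)

variable {m₁ m₂ : ℂ[X][X]} {G : ℂ → ℂ → ℂ → Prop} {S : Set ℂ}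

namespace CountT5

open Classical in
/-- The pairs in `G` over the point `z`. -/
def pr (m₁ m₂ : ℂ[X][X]) (G : ℂ → ℂ → ℂ → Prop) (z : ℂ) : Finset (ℂ × ℂ) :=
  (rts m₁ z ×ˢ rts m₂ z).filter fun p => G z p.1 p.2

theorem mem_pr {z : ℂ} {p : ℂ × ℂ} (h1 : Reg m₁ z) (h2 : Reg m₂ z) :
    p ∈ pr m₁ m₂ G z ↔ evalEval z p.1 m₁ = 0 ∧ evalEval z p.2 m₂ = 0 ∧ G z p.1 p.2 := by
  classical
  rw [pr, Finset.mem_filter, Finset.mem_product, Pool.Agent.MP_ae5b4e_an_ND.mem_rts h1.1,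
    Pool.Agent.MP_ae5b4e_an_ND.mem_rts h2.1, and_assoc]

/-- The number of pairs is locally constant. -/
theorem card_loc (hG : LocG m₁ m₂ S G) {z₀ : ℂ} (hz₀ : z₀ ∉ S) :
    ∀ᶠ z in 𝓝 z₀, (pr m₁ m₂ G z).card = (pr m₁ m₂ G z₀).card := by
  classical
  obtain ⟨hr1, hr2, hloc⟩ := hG z₀ hz₀
  obtain ⟨B₁, hB₁, he₁⟩ := Pool.Agent.MP_ae5b4e_an_ND.local_rts hr1
  obtain ⟨B₂, hB₂, he₂⟩ := Pool.Agent.MP_ae5b4e_an_ND.local_rts hr2
  have h1 : ∀ᶠ z in 𝓝 z₀, ∀ p ∈ rts m₁ z₀ ×ˢ rts m₂ z₀,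
      (G z (B₁ p.1 z) (B₂ p.2 z) ↔ G z₀ p.1 p.2) := by
    rw [Filter.eventually_all_finset]
    intro p hp
    rw [Finset.mem_product] at hp
    have h2 := hloc (B₁ p.1) (B₂ p.2) (hB₁ _ hp.1).1 (hB₂ _ hp.2).1 (hB₁ _ hp.1).2.2
      (hB₂ _ hp.2).2.2
    rw [(hB₁ _ hp.1).2.1, (hB₂ _ hp.2).2.1] at h2
    exact h2
  filter_upwards [h1, he₁, he₂] with z hz hz1 hz2
  have himg : pr m₁ m₂ G z = (pr m₁ m₂ G z₀).image (fun p => (B₁ p.1 z, B₂ p.2 z)) := by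
    ext ⟨a, b⟩
    rw [pr, pr, Finset.mem_filter, Finset.mem_product, Finset.mem_image, hz1.2, hz2.2,
      Finset.mem_image, Finset.mem_image]
    constructor
    · rintro ⟨⟨⟨s, hs, hsa⟩, ⟨t, ht, htb⟩⟩, hg⟩
      simp only at hsa htb hg
      have hm : (s, t) ∈ rts m₁ z₀ ×ˢ rts m₂ z₀ := Finset.mem_product.mpr ⟨hs, ht⟩
      refine ⟨(s, t), Finset.mem_filter.mpr ⟨hm, ?_⟩, ?_⟩
      · rw [← hsa, ← htb] at hg
        exact (hz (s, t) hm).mp hg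
      · simp only [hsa, htb]
    · rintro ⟨⟨s, t⟩, hst, heq⟩
      rw [Finset.mem_filter] at hst
      have hm := Finset.mem_product.mp hst.1
      simp only [Prod.mk.injEq] at heq
      refine ⟨⟨⟨s, hm.1, heq.1⟩, ⟨t, hm.2, heq.2⟩⟩, ?_⟩
      simp only
      rw [← heq.1, ← heq.2]
      exact (hz (s, t) hst.1).mpr hst.2
  rw [himg, Finset.card_image_of_injOn]
  rintro ⟨s, t⟩ hst ⟨s', t'⟩ hst' heq
  rw [Finset.mem_coe, pr, Finset.mem_filter, Finset.mem_product] at hst hst'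
  simp only [Prod.mk.injEq] at heq
  rw [Prod.mk.injEq]
  exact ⟨hz1.1 hst.1.1 hst'.1.1 heq.1, hz2.1 hst.1.2 hst'.1.2 heq.2⟩

/-- The number of pairs is constant outside of `S`. -/
theorem card_const (hS : S.Finite) (hG : LocG m₁ m₂ S G) {z z' : ℂ} (hz : z ∉ S) (hz' : z' ∉ S) :
    (pr m₁ m₂ G z).card = (pr m₁ m₂ G z').card := by
  have hconn : IsPreconnected Sᶜ :=
    (hS.countable.isPathConnected_compl_of_one_lt_rank (by
      rw [Complex.rank_real_complex]; norm_num)).isConnected.isPreconnected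
  have hcont : ContinuousOn (fun z => (pr m₁ m₂ G z).card) Sᶜ := by
    intro x hx
    apply ContinuousAt.continuousWithinAt
    have h1 : (fun z => (pr m₁ m₂ G z).card) =ᶠ[𝓝 x] fun _ => (pr m₁ m₂ G x).card :=
      card_loc hG hx
    exact (continuousAt_const (y := (pr m₁ m₂ G x).card)).congr h1.symm
  exact hconn.constant hcont hz hz'

end CountT5

open CountT5

/-- the number of the pairs in `G` is constant -/
theorem cov_card (hS : S.Finite) (hG : LocG m₁ m₂ S G) {z₁ η₁ κ₁ : ℂ} (hz₁ : z₁ ∉ S)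
    (h1 : evalEval z₁ η₁ m₁ = 0) (h2 : evalEval z₁ κ₁ m₂ = 0) (hG₁ : G z₁ η₁ κ₁) :
    ∃ M > 0, ∀ (X : ℂ → ℂ) (Y : Fin m₁.natDegree → ℂ → ℂ) (k : Fin m₂.natDegree → ℂ → ℂ)
      (Gs : Finset (Fin m₁.natDegree × Fin m₂.natDegree)),
      (∀ᶠ w in 𝓝[≠] (0:ℂ), X w ∉ S) → Cov m₁ m₂ G X Y k Gs → Gs.card = M := by
  classical
  obtain ⟨hr1, hr2, _⟩ := hG z₁ hz₁
  refine ⟨(pr m₁ m₂ G z₁).card, Finset.card_pos.mpr ⟨(η₁, κ₁), (mem_pr hr1 hr2).mpr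
    ⟨h1, h2, hG₁⟩⟩, ?_⟩
  intro X Y k Gs hX hc
  obtain ⟨w, hw, hw1, hw2, hw3⟩ :=
    (hX.and (hc.root₁.and (hc.root₂.and hc.mem))).exists
  rw [card_const hS hG hz₁ hw]
  obtain ⟨hs1, hs2, _⟩ := hG (X w) hw
  have himg : pr m₁ m₂ G (X w) = Gs.image (fun p => (Y p.1 w, k p.2 w)) := by
    ext ⟨a, b⟩
    rw [mem_pr hs1 hs2, Finset.mem_image]
    simp only
    constructor
    · rintro ⟨ha, hb, hg⟩
      obtain ⟨i, hi⟩ := (hw1.2 a).mp ha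
      obtain ⟨j, hj⟩ := (hw2.2 b).mp hb
      rw [hi, hj] at hg
      exact ⟨(i, j), (hw3 i j).mp hg, by simp only [hi, hj]⟩
    · rintro ⟨⟨i, j⟩, hij, heq⟩
      simp only [Prod.mk.injEq] at heq
      refine ⟨(hw1.2 a).mpr ⟨i, heq.1.symm⟩, (hw2.2 b).mpr ⟨j, heq.2.symm⟩, ?_⟩
      rw [← heq.1, ← heq.2]
      exact (hw3 i j).mpr hij
  rw [himg, Finset.card_image_of_injOn]
  rintro ⟨i, j⟩ _ ⟨i', j'⟩ _ heq
  simp only [Prod.mk.injEq] at heq ⊢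
  exact ⟨hw1.1 heq.1, hw2.1 heq.2⟩

end Pool.Agent.MP_ae5b4e_an_GEN
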