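import Mathlib
import Pool.Agent.Lib.MP_ae5b4e_an_GEN.Defs
import Pool.Agent.Lib.MP_ae5b4e_an_ALG.Cover
import Pool.Agent.Lib.MP_ae5b4e_an_FLEX.GeoProp

/-! Project GEN (MP_ae5b4e_an), module T2: coverings of pairs of branches. -/

set_option autoImplicit false

noncomputable section

namespace Pool.Agent.MP_ae5b4e_an_GEN

open Filter Topology Set Metric
open scoped Polynomial
open Polynomial (evalEval)
open Pool.Agent.MP_ae5b4e_an_ND (cc cf co Dx Dy Filt Reg rts)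
open Pool.Agent.MP_ae5b4e_an_FLEX
open Pool.Agent.MP_ae5b4e_an_ALG (Dh)

namespace Cover2

variable {m₁ m₂ : ℂ[X][X]} {G : ℂ → ℂ → ℂ → Prop} {S : Set ℂ}

/-- an exhaustive family of roots at a regular point is injective -/
lemma inj_of_roots {m : ℂ[X][X]} {x : ℂ} (hreg : Reg m x) {f : Fin m.natDegree → ℂ}
    (h1 : ∀ i, evalEval x (f i) m = 0) (h2 : ∀ t, evalEval x t m = 0 → ∃ i, t = f i) :
    Function.Injective f := by
  classical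
  have himg : (Finset.univ.image f) = rts m x := by
    ext t
    rw [Pool.Agent.MP_ae5b4e_an_ND.mem_rts hreg.1, Finset.mem_image]
    constructor
    · rintro ⟨i, -, rfl⟩
      exact h1 i
    · intro ht
      obtain ⟨i, hi⟩ := h2 t ht
      exact ⟨i, Finset.mem_univ _, hi.symm⟩
  have hcard : (Finset.univ.image f).card = (Finset.univ : Finset (Fin m.natDegree)).card := by
    rw [himg, Pool.Agent.MP_ae5b4e_an_ND.card_rts hreg, Finset.card_univ, Fintype.card_fin]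
  have h3 := Finset.injOn_of_card_image_eq hcard
  intro i j hij
  exact h3 (by simp) (by simp) hij

/-- a continuous root is the analytic branch composed with `X` -/
lemma branch_comp {m : ℂ[X][X]} {X Y : ℂ → ℂ} {w : ℂ} (hreg : Reg m (X w))
    (hX : ContinuousAt X w) (hY : ContinuousAt Y w)
    (hr : ∀ᶠ z in 𝓝 w, evalEval (X z) (Y z) m = 0) :
    ∃ b : ℂ → ℂ, AnalyticAt ℂ b (X w) ∧ (∀ᶠ x in 𝓝 (X w), evalEval x (b x) m = 0) ∧
      ∀ᶠ z in 𝓝 w, b (X z) = Y z := by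
  have h0 := hr.self_of_nhds
  obtain ⟨b, hb1, hb2, hb3⟩ := Pool.Agent.MP_ae5b4e_an_ND.branch h0 (hreg.2 _ h0)
  refine ⟨b, hb1, Pool.Agent.MP_ae5b4e_an_ND.branch_eq hb1.continuousAt hb2 hb3, ?_⟩
  have hpair : Tendsto (fun z => (X z, Y z)) (𝓝 w) (𝓝 (X w, Y w)) := by
    rw [nhds_prod_eq]
    exact hX.tendsto.prodMk hY.tendsto
  filter_upwards [hpair.eventually hb3, hr] with z hz1 hz2
  exact hz1.1 hz2

/-- The covering from the data on a punctured neighbourhood. -/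
lemma build (hG : LocG m₁ m₂ S G) {X : ℂ → ℂ} {Y : Fin m₁.natDegree → ℂ → ℂ}
    {k : Fin m₂.natDegree → ℂ → ℂ} (hmY : ∀ i, MeromorphicAt (Y i) 0)
    (hmk : ∀ j, MeromorphicAt (k j) 0)
    (h : ∀ᶠ w in 𝓝[≠] (0:ℂ), X w ∉ S ∧ ContinuousAt X w ∧ (∀ i, ContinuousAt (Y i) w) ∧
      (∀ j, ContinuousAt (k j) w) ∧
      ((∀ i, evalEval (X w) (Y i w) m₁ = 0) ∧ ∀ t, evalEval (X w) t m₁ = 0 → ∃ i, t = Y i w) ∧
      ((∀ j, evalEval (X w) (k j w) m₂ = 0) ∧ ∀ t, evalEval (X w) t m₂ = 0 → ∃ j, t = k j w)) :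
    ∃ Gs, Cov m₁ m₂ G X Y k Gs := by
  classical
  rw [eventually_nhdsWithin_iff] at h
  obtain ⟨r, hr, hball⟩ := Metric.eventually_nhds_iff_ball.1 h
  have hO : IsOpen (ball (0:ℂ) r \ {0}) := isOpen_ball.sdiff isClosed_singleton
  have hOm : ∀ᶠ w in 𝓝[≠] (0:ℂ), w ∈ ball (0:ℂ) r \ {0} := by
    filter_upwards [nhdsWithin_le_nhds (ball_mem_nhds (0:ℂ) hr), self_mem_nhdsWithin] with w h1 h2
    exact ⟨h1, h2⟩
  have hpc : IsPreconnected (ball (0:ℂ) r \ {0}) := GeoProp.punct_preconn 0 hr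
  -- local constancy
  have hloc : ∀ i j, ∀ w ∈ ball (0:ℂ) r \ {0}, ∀ᶠ z in 𝓝 w,
      (G (X z) (Y i z) (k j z) ↔ G (X w) (Y i w) (k j w)) := by
    intro i j w hw
    have hn : ∀ᶠ z in 𝓝 w, z ∈ ball (0:ℂ) r \ {0} := hO.mem_nhds hw
    obtain ⟨hS, hXc, hYc, hkc, ⟨hY1, hY2⟩, ⟨hk1, hk2⟩⟩ := hball w hw.1 hw.2
    obtain ⟨hreg1, hreg2, hg⟩ := hG (X w) hS
    obtain ⟨b, hb1, hb2, hb3⟩ := branch_comp hreg1 hXc (hYc i)
      (hn.mono fun z hz => (hball z hz.1 hz.2).2.2.2.2.1.1 i)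
    obtain ⟨c, hc1, hc2, hc3⟩ := branch_comp hreg2 hXc (hkc j)
      (hn.mono fun z hz => (hball z hz.1 hz.2).2.2.2.2.2.1 j)
    have h1 := hXc.tendsto.eventually (hg b c hb1 hc1 hb2 hc2)
    filter_upwards [h1, hb3, hc3] with z hz1 hz2 hz3
    rw [hz2, hz3, hb3.self_of_nhds, hc3.self_of_nhds] at hz1
    exact hz1
  -- constancy
  have hdich : ∀ i j, (∀ w ∈ ball (0:ℂ) r \ {0}, G (X w) (Y i w) (k j w)) ∨
      ∀ w ∈ ball (0:ℂ) r \ {0}, ¬ G (X w) (Y i w) (k j w) := by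
    intro i j
    set u : Set ℂ := {w | w ∈ ball (0:ℂ) r \ {0} ∧ G (X w) (Y i w) (k j w)} with hu
    set v : Set ℂ := {w | w ∈ ball (0:ℂ) r \ {0} ∧ ¬ G (X w) (Y i w) (k j w)} with hv
    have hu1 : IsOpen u := by
      rw [isOpen_iff_mem_nhds]
      rintro w ⟨hw1, hw2⟩
      filter_upwards [hO.mem_nhds hw1, hloc i j w hw1] with z hz1 hz2
      exact ⟨hz1, hz2.2 hw2⟩
    have hv1 : IsOpen v := by
      rw [isOpen_iff_mem_nhds]
      rintro w ⟨hw1, hw2⟩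
      filter_upwards [hO.mem_nhds hw1, hloc i j w hw1] with z hz1 hz2
      exact ⟨hz1, fun h => hw2 (hz2.1 h)⟩
    have huv : Disjoint u v := by
      rw [Set.disjoint_left]
      rintro w ⟨_, h1⟩ ⟨_, h2⟩
      exact h2 h1
    have hsub : ball (0:ℂ) r \ {0} ⊆ u ∪ v := by
      intro w hw
      by_cases h : G (X w) (Y i w) (k j w)
      · exact Or.inl ⟨hw, h⟩
      · exact Or.inr ⟨hw, h⟩
    rcases hpc.subset_or_subset hu1 hv1 huv hsub with h1 | h1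
    · exact Or.inl fun w hw => (h1 hw).2
    · exact Or.inr fun w hw => (h1 hw).2
  refine ⟨Finset.univ.filter (fun p => ∀ w ∈ ball (0:ℂ) r \ {0}, G (X w) (Y p.1 w) (k p.2 w)),
    hmY, hmk, ?_, ?_, ?_⟩
  · filter_upwards [hOm] with w hw
    obtain ⟨hS, -, -, -, ⟨hY1, hY2⟩, -⟩ := hball w hw.1 hw.2
    refine ⟨inj_of_roots (hG (X w) hS).1 hY1 hY2, fun t => ⟨hY2 t, ?_⟩⟩
    rintro ⟨i, rfl⟩
    exact hY1 i
  · filter_upwards [hOm] with w hw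
    obtain ⟨hS, -, -, -, -, ⟨hk1, hk2⟩⟩ := hball w hw.1 hw.2
    refine ⟨inj_of_roots (hG (X w) hS).2.1 hk1 hk2, fun t => ⟨hk2 t, ?_⟩⟩
    rintro ⟨j, rfl⟩
    exact hk1 j
  · filter_upwards [hOm] with w hw i j
    rw [Finset.mem_filter]
    constructor
    · intro h1
      refine ⟨Finset.mem_univ _, ?_⟩
      rcases hdich i j with h2 | h2
      · exact h2
      · exact absurd h1 (h2 w hw)
    · intro h1
      exact h1.2 w hw

lemma tendsto_pow_punct {N : ℕ} (hN : 0 < N) :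
    Tendsto (fun w : ℂ => w ^ N) (𝓝[≠] 0) (𝓝[≠] 0) := by
  rw [tendsto_nhdsWithin_iff]
  constructor
  · have h : Tendsto (fun w : ℂ => w ^ N) (𝓝 0) (𝓝 (0 ^ N)) := (continuous_pow N).tendsto 0
    rw [zero_pow hN.ne'] at h
    exact h.mono_left nhdsWithin_le_nhds
  · filter_upwards [self_mem_nhdsWithin] with w hw
    exact pow_ne_zero _ hw

lemma punct_of_ball {p : ℂ → Prop} {δ : ℝ} (hδ : 0 < δ) (h : ∀ w : ℂ, w ≠ 0 → ‖w‖ < δ → p w) :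
    ∀ᶠ w in 𝓝[≠] (0:ℂ), p w := by
  filter_upwards [nhdsWithin_le_nhds (ball_mem_nhds (0:ℂ) hδ), self_mem_nhdsWithin] with w h1 h2
  exact h w h2 (by simpa using h1)

/-- the family of the roots in the coordinate `w ^ M` -/
lemma mero_comp {δ : ℝ} (hδ : 0 < δ) {h : ℂ → ℂ} (hd : DifferentiableOn ℂ h (ball 0 δ)) (K M : ℕ)
    (hM : 0 < M) : MeromorphicAt (fun w => h (w ^ M) / (w ^ M) ^ K) 0 := by
  have h1 : AnalyticAt ℂ h ((0:ℂ) ^ M) := by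
    rw [zero_pow hM.ne']
    exact hd.analyticAt (ball_mem_nhds 0 hδ)
  have h2 : AnalyticAt ℂ (fun w => h (w ^ M)) 0 :=
    AnalyticAt.comp' (f := fun w : ℂ => w ^ M) h1 (analyticAt_id.pow M)
  have h3 : AnalyticAt ℂ (fun w : ℂ => (w ^ M) ^ K) 0 := (analyticAt_id.pow M).pow K
  exact h2.meromorphicAt.div h3.meromorphicAt

lemma cont_comp {δ : ℝ} {h : ℂ → ℂ} (hd : DifferentiableOn ℂ h (ball 0 δ)) (K M : ℕ) {w : ℂ}
    (hw : w ≠ 0) (hwδ : w ^ M ∈ ball (0:ℂ) δ) :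
    ContinuousAt (fun w => h (w ^ M) / (w ^ M) ^ K) w := by
  have h1 : ContinuousAt h (w ^ M) :=
    ((hd _ hwδ).differentiableAt (isOpen_ball.mem_nhds hwδ)).continuousAt
  have h2 : ContinuousAt (fun w : ℂ => w ^ M) w := (continuous_pow M).continuousAt
  have h3 : ContinuousAt (fun w => h (w ^ M)) w := ContinuousAt.comp' (f := fun w : ℂ => w ^ M) h1 h2
  exact h3.div (h2.pow K) (pow_ne_zero _ (pow_ne_zero _ hw))

end Cover2

open Cover2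

variable {m₁ m₂ : ℂ[X][X]} {G : ℂ → ℂ → ℂ → Prop} {S : Set ℂ}

theorem cov_fin (hirr₁ : Irreducible (m₁.map (algebraMap ℂ[X] (RatFunc ℂ))))
    (hirr₂ : Irreducible (m₂.map (algebraMap ℂ[X] (RatFunc ℂ)))) (hS : S.Finite)
    (hG : LocG m₁ m₂ S G) (e : ℂ) :
    ∃ N > 0, ∃ Y k Gs, Cov m₁ m₂ G (fun w => e + w ^ N) Y k Gs := by
  obtain ⟨N₁, δ₁, K₁, h₁, hN₁, hδ₁, hd₁, hw₁⟩ := Pool.Agent.MP_ae5b4e_an_ALG.cover_fin hirr₁ e
  obtain ⟨N₂, δ₂, K₂, h₂, hN₂, hδ₂, hd₂, hw₂⟩ := Pool.Agent.MP_ae5b4e_an_ALG.cover_fin hirr₂ e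
  refine ⟨N₁ * N₂, Nat.mul_pos hN₁ hN₂, fun i w => h₁ i (w ^ N₂) / (w ^ N₂) ^ K₁,
    fun j w => h₂ j (w ^ N₁) / (w ^ N₁) ^ K₂, ?_⟩
  have hp1 := (tendsto_pow_punct hN₂).eventually (punct_of_ball hδ₁ hw₁)
  have hp2 := (tendsto_pow_punct hN₁).eventually (punct_of_ball hδ₂ hw₂)
  have hb1 := ((tendsto_pow_punct hN₂).mono_right nhdsWithin_le_nhds).eventually
    (ball_mem_nhds (0:ℂ) hδ₁)
  have hb2 := ((tendsto_pow_punct hN₁).mono_right nhdsWithin_le_nhds).eventually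
    (ball_mem_nhds (0:ℂ) hδ₂)
  have hSe : ∀ᶠ w in 𝓝[≠] (0:ℂ), ∀ s ∈ S, e + w ^ (N₁ * N₂) ≠ s := by
    refine (Filter.eventually_all_finite hS).2 fun s _ => ?_
    have ht := tendsto_pow_punct (Nat.mul_pos hN₁ hN₂)
    by_cases hs : s = e
    · filter_upwards [ht.eventually self_mem_nhdsWithin] with w hw h0
      rw [hs, add_eq_left] at h0
      exact hw h0
    · have h1 : Tendsto (fun w : ℂ => e + w ^ (N₁ * N₂)) (𝓝[≠] 0) (𝓝 (e + 0)) :=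
        tendsto_const_nhds.add (ht.mono_right nhdsWithin_le_nhds)
      rw [add_zero] at h1
      exact h1.eventually_ne (Ne.symm hs)
  refine build hG (fun i => mero_comp hδ₁ (hd₁ i) K₁ N₂ hN₂)
    (fun j => mero_comp hδ₂ (hd₂ j) K₂ N₁ hN₁) ?_
  filter_upwards [hp1, hp2, hb1, hb2, hSe, self_mem_nhdsWithin] with w h1 h2 h3 h4 h5 h6
  obtain ⟨-, a2, a3⟩ := h1
  obtain ⟨-, b2, b3⟩ := h2
  rw [← pow_mul, mul_comm N₂ N₁] at a3
  rw [← pow_mul] at b3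
  refine ⟨fun h => h5 _ h rfl, by fun_prop, fun i => cont_comp (hd₁ i) K₁ N₂ h6 h3,
    fun j => cont_comp (hd₂ j) K₂ N₁ h6 h4, ⟨fun i => ?_, fun t ht => ?_⟩,
    ⟨fun j => ?_, fun t ht => ?_⟩⟩
  · have := a2 i
    rwa [← pow_mul w N₂ N₁, mul_comm N₂ N₁] at this
  · exact a3 t ht
  · have := b2 j
    rwa [← pow_mul w N₁ N₂] at this
  · exact b3 t ht

theorem cov_inf (hirr₁ : Irreducible (m₁.map (algebraMap ℂ[X] (RatFunc ℂ))))
    (hirr₂ : Irreducible (m₂.map (algebraMap ℂ[X] (RatFunc ℂ)))) (hS : S.Finite)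
    (hG : LocG m₁ m₂ S G) :
    ∃ N > 0, ∃ Y k Gs, Cov m₁ m₂ G (fun w => (w ^ N)⁻¹) Y k Gs := by
  obtain ⟨N₁, δ₁, K₁, h₁, hN₁, hδ₁, hd₁, hw₁⟩ := Pool.Agent.MP_ae5b4e_an_ALG.cover_inf hirr₁
  obtain ⟨N₂, δ₂, K₂, h₂, hN₂, hδ₂, hd₂, hw₂⟩ := Pool.Agent.MP_ae5b4e_an_ALG.cover_inf hirr₂
  refine ⟨N₁ * N₂, Nat.mul_pos hN₁ hN₂, fun i w => h₁ i (w ^ N₂) / (w ^ N₂) ^ K₁,
    fun j w => h₂ j (w ^ N₁) / (w ^ N₁) ^ K₂, ?_⟩
  have hp1 := (tendsto_pow_punct hN₂).eventually (punct_of_ball hδ₁ hw₁)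
  have hp2 := (tendsto_pow_punct hN₁).eventually (punct_of_ball hδ₂ hw₂)
  have hb1 := ((tendsto_pow_punct hN₂).mono_right nhdsWithin_le_nhds).eventually
    (ball_mem_nhds (0:ℂ) hδ₁)
  have hb2 := ((tendsto_pow_punct hN₁).mono_right nhdsWithin_le_nhds).eventually
    (ball_mem_nhds (0:ℂ) hδ₂)
  have hSe : ∀ᶠ w in 𝓝[≠] (0:ℂ), ∀ s ∈ S, (w ^ (N₁ * N₂))⁻¹ ≠ s := by
    refine (Filter.eventually_all_finite hS).2 fun s _ => ?_
    have ht := tendsto_pow_punct (Nat.mul_pos hN₁ hN₂)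
    by_cases hs : s = 0
    · filter_upwards [ht.eventually self_mem_nhdsWithin] with w hw h0
      rw [hs, inv_eq_zero] at h0
      exact hw h0
    · have h1 := (ht.mono_right nhdsWithin_le_nhds).eventually_ne (Ne.symm (inv_ne_zero hs))
      filter_upwards [h1] with w hw h0
      exact hw (by rw [← h0, inv_inv])
  refine build hG (fun i => mero_comp hδ₁ (hd₁ i) K₁ N₂ hN₂)
    (fun j => mero_comp hδ₂ (hd₂ j) K₂ N₁ hN₁) ?_
  filter_upwards [hp1, hp2, hb1, hb2, hSe, self_mem_nhdsWithin] with w h1 h2 h3 h4 h5 h6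
  obtain ⟨-, a2, a3⟩ := h1
  obtain ⟨-, b2, b3⟩ := h2
  rw [← pow_mul, mul_comm N₂ N₁] at a3
  rw [← pow_mul] at b3
  have hc : ContinuousAt (fun w : ℂ => (w ^ (N₁ * N₂))⁻¹) w :=
    (continuous_pow _).continuousAt.inv₀ (pow_ne_zero _ h6)
  refine ⟨fun h => h5 _ h rfl, hc, fun i => cont_comp (hd₁ i) K₁ N₂ h6 h3,
    fun j => cont_comp (hd₂ j) K₂ N₁ h6 h4, ⟨fun i => ?_, fun t ht => ?_⟩,
    ⟨fun j => ?_, fun t ht => ?_⟩⟩
  · have := a2 i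
    rwa [← pow_mul w N₂ N₁, mul_comm N₂ N₁] at this
  · exact a3 t ht
  · have := b2 j
    rwa [← pow_mul w N₁ N₂] at this
  · exact b3 t ht

end Pool.Agent.MP_ae5b4e_an_GEN
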