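import Mathlib

open Filter Topology Set Metric

namespace Pool.Agent.MP_ae5b4e_an_GEN

namespace LiouvAux

/-- Liouville for functions tending to zero at infinity -/
theorem entire_zero {f : ℂ → ℂ} (hf : Differentiable ℂ f)
    (h : Tendsto f (Bornology.cobounded ℂ) (𝓝 0)) : ∀ z, f z = 0 := by
  have h' : Tendsto f (cocompact ℂ) (𝓝 0) := by rwa [← Metric.cobounded_eq_cocompact]
  exact fun z => hf.apply_eq_of_tendsto_cocompact z h'

/-- remove one singularity -/
theorem exists_ext {T : ℂ → ℂ} {S : Finset ℂ} {e : ℂ} (he : e ∈ S)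
    (hT : ∀ z ∉ S, DifferentiableAt ℂ T z)
    (hR : Tendsto (fun z => (z - e) * T z) (𝓝[≠] e) (𝓝 0)) :
    ∃ T' : ℂ → ℂ, (∀ z, z ≠ e → T' z = T z) ∧ ∀ z ∉ S.erase e, DifferentiableAt ℂ T' z := by
  classical
  -- a neighbourhood of e without other points of S
  have hfin : ((S.erase e : Finset ℂ) : Set ℂ).Finite := Finset.finite_toSet _
  have hopen : IsOpen (((S.erase e : Finset ℂ) : Set ℂ)ᶜ) := hfin.isClosed.isOpen_compl
  have hmem : e ∈ (((S.erase e : Finset ℂ) : Set ℂ)ᶜ) := by simp
  have hnhds : (((S.erase e : Finset ℂ) : Set ℂ)ᶜ) ∈ 𝓝 e := hopen.mem_nhds hmem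
  have hd : DifferentiableOn ℂ T ((((S.erase e : Finset ℂ) : Set ℂ)ᶜ) \ {e}) := by
    intro z hz
    apply DifferentiableAt.differentiableWithinAt
    apply hT
    intro hzS
    apply hz.1
    simp only [Finset.coe_erase, Set.mem_sdiff, Finset.mem_coe, mem_singleton_iff]
    exact ⟨hzS, hz.2⟩
  have ho : (fun z => T z - T e) =o[𝓝[≠] e] fun z => (z - e)⁻¹ := by
    have h1 : (fun z => T z) =o[𝓝[≠] e] fun z => (z - e)⁻¹ := by
      rw [Asymptotics.isLittleO_iff_tendsto']
      · refine hR.congr' ?_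
        filter_upwards with z
        rw [div_inv_eq_mul, mul_comm]
      · filter_upwards [self_mem_nhdsWithin] with z hz h0
        exfalso
        have : z - e ≠ 0 := sub_ne_zero.mpr hz
        exact inv_ne_zero this h0
    have h2 : (fun _ : ℂ => T e) =o[𝓝[≠] e] fun z => (z - e)⁻¹ := by
      rw [Asymptotics.isLittleO_iff_tendsto']
      · have h3 : Tendsto (fun z : ℂ => T e * (z - e)) (𝓝[≠] e) (𝓝 (T e * (e - e))) := by
          apply Tendsto.mono_left _ nhdsWithin_le_nhds
          exact (continuous_const.mul (continuous_id.sub continuous_const)).tendsto e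
        rw [sub_self, mul_zero] at h3
        refine h3.congr' ?_
        filter_upwards with z
        rw [div_inv_eq_mul]
      · filter_upwards [self_mem_nhdsWithin] with z hz h0
        exfalso
        have : z - e ≠ 0 := sub_ne_zero.mpr hz
        exact inv_ne_zero this h0
    exact h1.sub h2
  have hext := Complex.differentiableOn_update_limUnder_of_isLittleO hnhds hd ho
  refine ⟨Function.update T e (limUnder (𝓝[≠] e) T), ?_, ?_⟩
  · intro z hz
    simp [Function.update_of_ne hz]
  · intro z hz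
    apply (hext z _).differentiableAt
    · apply hopen.mem_nhds
      intro h; exact hz (Finset.mem_coe.mp h)
    · intro h; exact hz (Finset.mem_coe.mp h)

theorem zero_case : ∀ (n : ℕ) (S : Finset ℂ), S.card = n → ∀ T : ℂ → ℂ,
    (∀ z ∉ S, DifferentiableAt ℂ T z) →
    (∀ e ∈ S, Tendsto (fun z => (z - e) * T z) (𝓝[≠] e) (𝓝 0)) →
    Tendsto T (Bornology.cobounded ℂ) (𝓝 0) → ∀ᶠ z in Bornology.cobounded ℂ, T z = 0 := by
  classical
  intro n
  induction n with
  | zero =>
    intro S hS T hT _ h0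
    have hS' : S = ∅ := Finset.card_eq_zero.mp hS
    subst hS'
    have hd : Differentiable ℂ T := fun z => hT z (by simp)
    filter_upwards with z
    exact entire_zero hd h0 z
  | succ n ih =>
    intro S hS T hT hR h0
    obtain ⟨e, he⟩ : S.Nonempty := by
      rw [← Finset.card_pos]; omega
    obtain ⟨T', h1, h2⟩ := exists_ext he hT (hR e he)
    have hne : ∀ᶠ z in Bornology.cobounded ℂ, z ≠ e := by
      have : ({e} : Set ℂ)ᶜ ∈ Bornology.cobounded ℂ := Bornology.IsBounded.compl Bornology.isBounded_singleton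
      filter_upwards [this] with z hz using hz
    have h3 := ih (S.erase e) (by rw [Finset.card_erase_of_mem he]; omega) T' h2 ?_ ?_
    · filter_upwards [h3, hne] with z hz hz'
      rw [← h1 z hz']; exact hz
    · intro e' he'
      have hee : e' ≠ e := Finset.ne_of_mem_erase he'
      refine (hR e' (Finset.mem_of_mem_erase he')).congr' ?_
      have : ∀ᶠ z in 𝓝[≠] e', z ≠ e := by
        apply Filter.Eventually.filter_mono nhdsWithin_le_nhds
        exact isOpen_ne.mem_nhds hee
      filter_upwards [this] with z hz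
      rw [h1 z hz]
    · refine h0.congr' ?_
      filter_upwards [hne] with z hz
      rw [h1 z hz]

end LiouvAux

open LiouvAux

/-- the residue theorem for functions with simple poles on the plane -/
theorem sum_res_eq {T : ℂ → ℂ} {S : Finset ℂ} (hT : ∀ z ∉ S, DifferentiableAt ℂ T z)
    {R : ℂ → ℂ} (hR : ∀ e ∈ S, Tendsto (fun z => (z - e) * T z) (𝓝[≠] e) (𝓝 (R e))) {l : ℂ}
    (hl : Tendsto (fun z => z * T z) (Bornology.cobounded ℂ) (𝓝 l)) : l = ∑ e ∈ S, R e := by
  classical
  have hinv : Tendsto (fun z : ℂ => z⁻¹) (Bornology.cobounded ℂ) (𝓝 0) :=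
    tendsto_inv₀_cobounded
  have hne : ∀ c : ℂ, ∀ᶠ z in Bornology.cobounded ℂ, z ≠ c := by
    intro c
    have : ({c} : Set ℂ)ᶜ ∈ Bornology.cobounded ℂ := Bornology.IsBounded.compl Bornology.isBounded_singleton
    filter_upwards [this] with z hz using hz
  -- z / (z - e) tends to 1
  have hquot : ∀ e : ℂ, Tendsto (fun z : ℂ => z * (z - e)⁻¹) (Bornology.cobounded ℂ) (𝓝 1) := by
    intro e
    have h1 : Tendsto (fun z : ℂ => (1 - e * z⁻¹)⁻¹) (Bornology.cobounded ℂ) (𝓝 (1 - e * 0)⁻¹) := by
      apply Tendsto.inv₀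
      · exact tendsto_const_nhds.sub (tendsto_const_nhds.mul hinv)
      · simp
    simp only [mul_zero, sub_zero, inv_one] at h1
    refine h1.congr' ?_
    filter_upwards [hne 0, hne e] with z hz hze
    have hze' : z - e ≠ 0 := sub_ne_zero.mpr hze
    field_simp
  have hsum : Tendsto (fun z : ℂ => ∑ e ∈ S, R e * (z * (z - e)⁻¹)) (Bornology.cobounded ℂ)
      (𝓝 (∑ e ∈ S, R e * 1)) := by
    apply tendsto_finsetSum
    intro e _
    exact tendsto_const_nhds.mul (hquot e)
  simp only [mul_one] at hsum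
  set g : ℂ → ℂ := fun z => T z - ∑ e ∈ S, R e * (z - e)⁻¹ with hg
  have hgd : ∀ z ∉ S, DifferentiableAt ℂ g z := by
    intro z hz
    apply (hT z hz).sub
    apply DifferentiableAt.fun_sum
    intro e he
    apply DifferentiableAt.const_mul
    apply DifferentiableAt.inv
    · exact differentiableAt_id.sub_const e
    · exact sub_ne_zero.mpr (fun h => hz (h ▸ he))
  have hgR : ∀ e ∈ S, Tendsto (fun z => (z - e) * g z) (𝓝[≠] e) (𝓝 0) := by
    intro e he
    have h1 : ∀ᶠ z in 𝓝[≠] e, (z - e) * g z =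
        ((z - e) * T z - R e) - (z - e) * ∑ e' ∈ S.erase e, R e' * (z - e')⁻¹ := by
      filter_upwards [self_mem_nhdsWithin] with z hz
      have hz' : z - e ≠ 0 := sub_ne_zero.mpr hz
      rw [hg]
      simp only
      rw [← Finset.add_sum_erase S _ he]
      field_simp
      ring
    have h2 : Tendsto (fun z => (z - e) * ∑ e' ∈ S.erase e, R e' * (z - e')⁻¹) (𝓝[≠] e)
        (𝓝 0) := by
      have h3 : ContinuousAt (fun z : ℂ => (z - e) * ∑ e' ∈ S.erase e, R e' * (z - e')⁻¹) e := by
        apply ContinuousAt.mul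
        · exact continuousAt_id.sub continuousAt_const
        · apply tendsto_finsetSum
          intro e' he'
          apply Tendsto.const_mul
          apply ContinuousAt.inv₀
          · exact continuousAt_id.sub continuousAt_const
          · exact sub_ne_zero.mpr (Finset.ne_of_mem_erase he').symm
      have h4 := h3.tendsto
      simp only [sub_self, zero_mul] at h4
      exact h4.mono_left nhdsWithin_le_nhds
    have h5 : Tendsto (fun z => ((z - e) * T z - R e)) (𝓝[≠] e) (𝓝 (R e - R e)) :=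
      (hR e he).sub tendsto_const_nhds
    rw [sub_self] at h5
    have h6 := h5.sub h2
    rw [sub_zero] at h6
    exact h6.congr' (h1.mono fun z hz => hz.symm)
  have hzg : Tendsto (fun z => z * g z) (Bornology.cobounded ℂ) (𝓝 (l - ∑ e ∈ S, R e)) := by
    refine (hl.sub hsum).congr' ?_
    filter_upwards with z
    rw [hg]
    simp only
    rw [mul_sub, Finset.mul_sum]
    congr 1
    apply Finset.sum_congr rfl
    intro e _
    ring
  have hg0 : Tendsto g (Bornology.cobounded ℂ) (𝓝 0) := by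
    have h1 := hzg.mul hinv
    rw [mul_zero] at h1
    refine h1.congr' ?_
    filter_upwards [hne 0] with z hz
    field_simp
  have hz := zero_case S.card S rfl g hgd hgR hg0
  have h7 : Tendsto (fun z => z * g z) (Bornology.cobounded ℂ) (𝓝 0) := by
    refine tendsto_const_nhds.congr' ?_
    filter_upwards [hz] with z hz
    rw [hz, mul_zero]
  have h8 := tendsto_nhds_unique hzg h7
  exact sub_eq_zero.mp h8

/-- limits along `e + w ^ N` and `1 / w ^ N` -/
theorem tendsto_of_pow {F : ℂ → ℂ} {N : ℕ} (hN : 0 < N) {e l : ℂ}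
    (h : Tendsto (fun w => F (e + w ^ N)) (𝓝[≠] 0) (𝓝 l)) : Tendsto F (𝓝[≠] e) (𝓝 l) := by
  rw [Metric.tendsto_nhdsWithin_nhds] at h ⊢
  intro ε hε
  obtain ⟨δ, hδ, hd⟩ := h ε hε
  refine ⟨δ ^ N, pow_pos hδ N, ?_⟩
  intro z hz hz2
  obtain ⟨w, hw⟩ := IsAlgClosed.exists_pow_nat_eq (z - e) hN
  have hw0 : w ≠ 0 := by
    rintro rfl
    rw [zero_pow hN.ne'] at hw
    exact hz (by simpa [sub_eq_zero] using hw.symm)
  have hwn : dist w 0 < δ := by
    rw [dist_zero_right]
    have h1 : ‖w‖ ^ N < δ ^ N := by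
      rw [← norm_pow, hw, ← dist_eq_norm]
      exact hz2
    exact lt_of_pow_lt_pow_left₀ N hδ.le h1
  have := hd (x := w) hw0 hwn
  rw [hw] at this
  simpa using this

theorem tendsto_of_inv_pow {F : ℂ → ℂ} {N : ℕ} (hN : 0 < N) {l : ℂ}
    (h : Tendsto (fun w => F ((w ^ N)⁻¹)) (𝓝[≠] 0) (𝓝 l)) :
    Tendsto F (Bornology.cobounded ℂ) (𝓝 l) := by
  have h1 : Tendsto (fun z => F z⁻¹) (𝓝[≠] 0) (𝓝 l) := by
    apply tendsto_of_pow (F := fun z => F z⁻¹) hN (e := 0)
    simpa using h
  have h2 : Tendsto (fun z : ℂ => z⁻¹) (Bornology.cobounded ℂ) (𝓝[≠] 0) :=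
    tendsto_inv₀_cobounded'
  have h3 := h1.comp h2
  refine h3.congr ?_
  intro z
  simp

end Pool.Agent.MP_ae5b4e_an_GEN
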