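import Mathlib
import Pool.Agent.Lib.MP_ae5b4e_an_GEN.Defs
import Pool.Agent.Lib.MP_ae5b4e_an_GEN.Liouv
import Pool.Agent.Lib.MP_ae5b4e_an_LAT.NDGood

/-! # MP_ae5b4e_an, project GEN, module T4: the residue theorem for the trace -/

set_option autoImplicit false

noncomputable section

namespace Pool.Agent.MP_ae5b4e_an_GEN

open Filter Topology Set Metric
open scoped Polynomial
open Polynomial (evalEval)
open Pool.Agent.MP_ae5b4e_an_ND (cc cf co Dx Dy Filt Reg rts)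
open Pool.Agent.MP_ae5b4e_an_FLEX
open Pool.Agent.MP_ae5b4e_an_ALG (Dh)

namespace Trace

variable {m₁ m₂ : ℂ[X][X]} {G : ℂ → ℂ → ℂ → Prop}

open Classical in
/-- the trace of `Φ` over the good pairs -/
def T (m₁ m₂ : ℂ[X][X]) (G : ℂ → ℂ → ℂ → Prop) (Φ : ℂ → ℂ → ℂ → ℂ) (z : ℂ) : ℂ :=
  ∑ p ∈ (rts m₁ z ×ˢ rts m₂ z).filter (fun p => G z p.1 p.2), Φ z p.1 p.2

/-- a sum over the good pairs, when the roots are the images of injective families -/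
theorem sum_pairs {ι κ : Type*} [DecidableEq ι] [DecidableEq κ] {s : Finset ι} {t : Finset κ}
    {a : ι → ℂ} {b : κ → ℂ} (ha : Set.InjOn a s) (hb : Set.InjOn b t) {z : ℂ}
    (h1 : rts m₁ z = s.image a) (h2 : rts m₂ z = t.image b) {g : Finset (ι × κ)}
    (hg : ∀ p ∈ s ×ˢ t, G z (a p.1) (b p.2) ↔ p ∈ g) (hgs : g ⊆ s ×ˢ t)
    (Φ : ℂ → ℂ → ℂ → ℂ) :
    T m₁ m₂ G Φ z = ∑ p ∈ g, Φ z (a p.1) (b p.2) := by
  classical
  rw [T]
  have hinj : Set.InjOn (fun p : ι × κ => (a p.1, b p.2)) (g : Set (ι × κ)) := by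
    intro p hp q hq hpq
    have hp' := Finset.mem_product.1 (hgs hp)
    have hq' := Finset.mem_product.1 (hgs hq)
    simp only [Prod.mk.injEq] at hpq
    exact Prod.ext (ha hp'.1 hq'.1 hpq.1) (hb hp'.2 hq'.2 hpq.2)
  have himg : (rts m₁ z ×ˢ rts m₂ z).filter (fun p => G z p.1 p.2) =
      g.image (fun p : ι × κ => (a p.1, b p.2)) := by
    ext q
    rw [Finset.mem_filter, Finset.mem_product, h1, h2, Finset.mem_image, Finset.mem_image,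
      Finset.mem_image]
    constructor
    · rintro ⟨⟨⟨i, hi, hi'⟩, ⟨j, hj, hj'⟩⟩, hq⟩
      have hij : (i, j) ∈ s ×ˢ t := Finset.mem_product.2 ⟨hi, hj⟩
      refine ⟨(i, j), (hg (i, j) hij).1 ?_, Prod.ext hi' hj'⟩
      simpa only [hi', hj'] using hq
    · rintro ⟨p, hp, hpq⟩
      have hp' := hgs hp
      have hp2 := Finset.mem_product.1 hp'
      have hq := (hg p hp').2 hp
      subst hpq
      exact ⟨⟨⟨p.1, hp2.1, rfl⟩, ⟨p.2, hp2.2, rfl⟩⟩, hq⟩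
  rw [himg, Finset.sum_image hinj]

/-- the trace is differentiable outside of `S` -/
theorem T_diff {S : Set ℂ} (hG : LocG m₁ m₂ S G) {Φ : ℂ → ℂ → ℂ → ℂ}
    (hΦ : ∀ z ∉ S, ∀ y k : ℂ → ℂ, AnalyticAt ℂ y z → AnalyticAt ℂ k z →
      (∀ᶠ x in 𝓝 z, evalEval x (y x) m₁ = 0) → (∀ᶠ x in 𝓝 z, evalEval x (k x) m₂ = 0) →
      G z (y z) (k z) → AnalyticAt ℂ (fun x => Φ x (y x) (k x)) z) {z : ℂ} (hz : z ∉ S) :
    DifferentiableAt ℂ (T m₁ m₂ G Φ) z := by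
  classical
  obtain ⟨hr1, hr2, hloc⟩ := hG z hz
  obtain ⟨B1, hB1, hB1'⟩ := Pool.Agent.MP_ae5b4e_an_ND.local_rts hr1
  obtain ⟨B2, hB2, hB2'⟩ := Pool.Agent.MP_ae5b4e_an_ND.local_rts hr2
  set g : Finset (ℂ × ℂ) := (rts m₁ z ×ˢ rts m₂ z).filter (fun p => G z p.1 p.2) with hgdef
  have hgs : g ⊆ rts m₁ z ×ˢ rts m₂ z := Finset.filter_subset _ _
  have hev : ∀ᶠ x in 𝓝 z, ∀ p ∈ rts m₁ z ×ˢ rts m₂ z,
      (G x (B1 p.1 x) (B2 p.2 x) ↔ p ∈ g) := by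
    rw [Filter.eventually_all_finset]
    intro p hp
    have hp' := Finset.mem_product.1 hp
    obtain ⟨ha1, hb1, hc1⟩ := hB1 p.1 hp'.1
    obtain ⟨ha2, hb2, hc2⟩ := hB2 p.2 hp'.2
    filter_upwards [hloc (B1 p.1) (B2 p.2) ha1 ha2 hc1 hc2] with x hx
    rw [hx, hb1, hb2, hgdef, Finset.mem_filter]
    exact ⟨fun h => ⟨hp, h⟩, fun h => h.2⟩
  have heq : T m₁ m₂ G Φ =ᶠ[𝓝 z] fun x => ∑ p ∈ g, Φ x (B1 p.1 x) (B2 p.2 x) := by
    filter_upwards [hB1', hB2', hev] with x h1 h2 h3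
    exact sum_pairs h1.1 h2.1 h1.2 h2.2 h3 hgs Φ
  refine DifferentiableAt.congr_of_eventuallyEq ?_ heq
  refine DifferentiableAt.fun_sum fun p hp => ?_
  have hp' := Finset.mem_product.1 (hgs hp)
  obtain ⟨ha1, hb1, hc1⟩ := hB1 p.1 hp'.1
  obtain ⟨ha2, hb2, hc2⟩ := hB2 p.2 hp'.2
  refine (hΦ z hz _ _ ha1 ha2 hc1 hc2 ?_).differentiableAt
  rw [hb1, hb2]
  exact (Finset.mem_filter.1 hp).2

/-- the trace along a covering -/
theorem T_cov {S : Set ℂ} (hG : LocG m₁ m₂ S G) (Φ : ℂ → ℂ → ℂ → ℂ) {X : ℂ → ℂ}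
    (hX : ∀ᶠ w in 𝓝[≠] (0:ℂ), X w ∉ S) {Y : Fin m₁.natDegree → ℂ → ℂ}
    {k : Fin m₂.natDegree → ℂ → ℂ} {Gs : Finset (Fin m₁.natDegree × Fin m₂.natDegree)}
    (hc : Cov m₁ m₂ G X Y k Gs) :
    ∀ᶠ w in 𝓝[≠] (0:ℂ), T m₁ m₂ G Φ (X w) = ∑ p ∈ Gs, Φ (X w) (Y p.1 w) (k p.2 w) := by
  classical
  filter_upwards [hX, hc.root₁, hc.root₂, hc.mem] with w h0 h1 h2 h3
  obtain ⟨hr1, hr2, -⟩ := hG _ h0
  refine sum_pairs (s := Finset.univ) (t := Finset.univ) (a := fun i => Y i w)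
    (b := fun j => k j w) h1.1.injOn h2.1.injOn ?_ ?_ ?_ ?_ Φ
  · ext t
    rw [Pool.Agent.MP_ae5b4e_an_ND.mem_rts hr1.1, h1.2, Finset.mem_image]
    constructor
    · rintro ⟨i, hi⟩
      exact ⟨i, Finset.mem_univ _, hi.symm⟩
    · rintro ⟨i, -, hi⟩
      exact ⟨i, hi.symm⟩
  · ext t
    rw [Pool.Agent.MP_ae5b4e_an_ND.mem_rts hr2.1, h2.2, Finset.mem_image]
    constructor
    · rintro ⟨i, hi⟩
      exact ⟨i, Finset.mem_univ _, hi.symm⟩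
    · rintro ⟨i, -, hi⟩
      exact ⟨i, hi.symm⟩
  · rintro ⟨i, j⟩ -
    exact h3 i j
  · intro p _
    exact Finset.mem_product.2 ⟨Finset.mem_univ _, Finset.mem_univ _⟩

/-- `e + w ^ N` avoids a finite set -/
theorem pow_avoid (S : Finset ℂ) (e : ℂ) {N : ℕ} (hN : 0 < N) :
    ∀ᶠ w in 𝓝[≠] (0:ℂ), e + w ^ N ∉ (S : Set ℂ) := by
  have h1 : Tendsto (fun w : ℂ => e + w ^ N) (𝓝[≠] 0) (𝓝[≠] e) := by
    rw [tendsto_nhdsWithin_iff]
    constructor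
    · have h2 : ContinuousAt (fun w : ℂ => e + w ^ N) 0 := by fun_prop
      have h3 := h2.tendsto
      simp only [zero_pow hN.ne', add_zero] at h3
      exact h3.mono_left nhdsWithin_le_nhds
    · filter_upwards [self_mem_nhdsWithin] with w hw
      have hw' : w ^ N ≠ 0 := pow_ne_zero _ hw
      simpa only [mem_compl_iff, mem_singleton_iff, add_eq_left] using hw'
  have h2 : ∀ᶠ z in 𝓝[≠] e, z ∉ (S : Set ℂ) := by
    have h3 : ((S : Set ℂ) \ {e})ᶜ ∈ 𝓝 e :=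
      ((S.finite_toSet.subset Set.sdiff_subset).isClosed.isOpen_compl).mem_nhds (by simp)
    filter_upwards [nhdsWithin_le_nhds h3, self_mem_nhdsWithin] with z hz hz' hcon
    exact hz ⟨hcon, hz'⟩
  exact h1.eventually h2

/-- `1 / w ^ N` avoids a finite set -/
theorem inv_pow_avoid (S : Finset ℂ) {N : ℕ} (hN : 0 < N) :
    ∀ᶠ w in 𝓝[≠] (0:ℂ), (w ^ N)⁻¹ ∉ (S : Set ℂ) := by
  have h1 : Tendsto (fun w : ℂ => w ^ N) (𝓝[≠] 0) (𝓝[≠] 0) := by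
    rw [tendsto_nhdsWithin_iff]
    constructor
    · have h2 : ContinuousAt (fun w : ℂ => w ^ N) 0 := by fun_prop
      have h3 := h2.tendsto
      simp only [zero_pow hN.ne'] at h3
      exact h3.mono_left nhdsWithin_le_nhds
    · filter_upwards [self_mem_nhdsWithin] with w hw
      exact pow_ne_zero _ hw
  have h2 : Tendsto (fun w : ℂ => (w ^ N)⁻¹) (𝓝[≠] 0) (Bornology.cobounded ℂ) :=
    Filter.tendsto_inv₀_nhdsNE_zero.comp h1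
  exact h2.eventually (Bornology.isBounded_def.1 S.finite_toSet.isBounded)

end Trace

section T4
variable {m₁ m₂ : ℂ[X][X]} {G : ℂ → ℂ → ℂ → Prop}

open Trace in
/-- the residue theorem for the trace -/
theorem trace_sum {S : Finset ℂ} (hG : LocG m₁ m₂ S G) {Φ : ℂ → ℂ → ℂ → ℂ}
    (hΦ : ∀ z ∉ S, ∀ y k : ℂ → ℂ, AnalyticAt ℂ y z → AnalyticAt ℂ k z →
      (∀ᶠ x in 𝓝 z, evalEval x (y x) m₁ = 0) → (∀ᶠ x in 𝓝 z, evalEval x (k x) m₂ = 0) →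
      G z (y z) (k z) → AnalyticAt ℂ (fun x => Φ x (y x) (k x)) z)
    {N : ℂ → ℕ} (hN : ∀ e ∈ S, 0 < N e) {Y : ℂ → Fin m₁.natDegree → ℂ → ℂ}
    {k : ℂ → Fin m₂.natDegree → ℂ → ℂ} {Gs : ℂ → Finset (Fin m₁.natDegree × Fin m₂.natDegree)}
    (hc : ∀ e ∈ S, Cov m₁ m₂ G (fun w => e + w ^ N e) (Y e) (k e) (Gs e))
    {τ : ℂ → Fin m₁.natDegree × Fin m₂.natDegree → ℂ}
    (hτ : ∀ e ∈ S, ∀ p ∈ Gs e,
      Tendsto (fun w => w ^ N e * Φ (e + w ^ N e) (Y e p.1 w) (k e p.2 w)) (𝓝[≠] 0) (𝓝 (τ e p)))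
    {N' : ℕ} (hN' : 0 < N') {Y' : Fin m₁.natDegree → ℂ → ℂ} {k' : Fin m₂.natDegree → ℂ → ℂ}
    {Gs' : Finset (Fin m₁.natDegree × Fin m₂.natDegree)}
    (hc' : Cov m₁ m₂ G (fun w => (w ^ N')⁻¹) Y' k' Gs')
    {τ' : Fin m₁.natDegree × Fin m₂.natDegree → ℂ}
    (hτ' : ∀ p ∈ Gs',
      Tendsto (fun w => (w ^ N')⁻¹ * Φ ((w ^ N')⁻¹) (Y' p.1 w) (k' p.2 w)) (𝓝[≠] 0) (𝓝 (τ' p))) :
    ∑ p ∈ Gs', τ' p = ∑ e ∈ S, ∑ p ∈ Gs e, τ e p := by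
  refine sum_res_eq (T := T m₁ m₂ G Φ) (S := S) ?_ ?_ ?_
  · intro z hz
    exact T_diff hG (fun z hz => hΦ z (by simpa using hz)) (by simpa using hz)
  · intro e he
    refine tendsto_of_pow (hN e he) ?_
    refine (tendsto_finsetSum (Gs e) fun p hp => hτ e he p hp).congr' ?_
    filter_upwards [T_cov hG Φ (pow_avoid S e (hN e he)) (hc e he)] with w hw
    rw [hw, add_sub_cancel_left, Finset.mul_sum]
  · refine tendsto_of_inv_pow hN' ?_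
    refine (tendsto_finsetSum Gs' fun p hp => hτ' p hp).congr' ?_
    filter_upwards [T_cov hG Φ (inv_pow_avoid S hN') hc'] with w hw
    rw [hw, Finset.mul_sum]
end T4

end Pool.Agent.MP_ae5b4e_an_GEN
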