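import Mathlib
import Pool.Agent.Lib.MP_ae5b4e_an_GEN.Defs
import Pool.Agent.Lib.MP_ae5b4e_an_GEN.Cover2
import Pool.Agent.Lib.MP_ae5b4e_an_GEN.Count
import Pool.Agent.Lib.MP_ae5b4e_an_GEN.Trace

/-!
# MP_ae5b4e_an, project GEN, module T6: the trace theorem

The residues of `Φ dz` over all places of the algebraic pair: those over the finite points have
nonpositive real parts, those over infinity nonnegative ones, and the sums agree; hence all vanish.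
-/

set_option autoImplicit false

noncomputable section

namespace Pool.Agent.MP_ae5b4e_an_GEN

open Filter Topology Set Metric
open scoped Polynomial
open Polynomial (evalEval)
open Pool.Agent.MP_ae5b4e_an_ND (cc cf co Dx Dy Filt Reg rts)
open Pool.Agent.MP_ae5b4e_an_FLEX
open Pool.Agent.MP_ae5b4e_an_ALG (Dh)

variable {m₁ m₂ : ℂ[X][X]} {G : ℂ → ℂ → ℂ → Prop}

namespace TraceThm

theorem tendsto_pow_punct {q : ℕ} (hq : 0 < q) :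
    Tendsto (fun w : ℂ => w ^ q) (𝓝[≠] 0) (𝓝[≠] 0) := by
  refine tendsto_nhdsWithin_iff.mpr ⟨?_, ?_⟩
  · have h : Tendsto (fun w : ℂ => w ^ q) (𝓝 0) (𝓝 ((0:ℂ) ^ q)) :=
      (continuous_pow q).tendsto 0
    rw [zero_pow hq.ne'] at h
    exact h.mono_left nhdsWithin_le_nhds
  · filter_upwards [self_mem_nhdsWithin] with w hw
    exact pow_ne_zero q hw

theorem mero_pow {f : ℂ → ℂ} (hf : MeromorphicAt f 0) {q : ℕ} (hq : 0 < q) :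
    MeromorphicAt (fun w => f (w ^ q)) 0 := by
  have h1 : AnalyticAt ℂ (fun w : ℂ => w ^ q) 0 := analyticAt_id.pow q
  have h2 : MeromorphicAt f ((fun w : ℂ => w ^ q) 0) := by
    simp only [zero_pow hq.ne']
    exact hf
  exact MeromorphicAt.comp_analyticAt (g := fun w : ℂ => w ^ q) h2 h1

theorem tendsto_inv_pow {N : ℕ} (hN : 0 < N) :
    Tendsto (fun w : ℂ => (w ^ N)⁻¹) (𝓝[≠] 0) (Bornology.cobounded ℂ) :=
  tendsto_inv₀_nhdsNE_zero.comp (tendsto_pow_punct hN)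

end TraceThm

open TraceThm

/-- a place of a pair is contained in the covering -/
theorem pair_in_cov {X : ℂ → ℂ} {Y : Fin m₁.natDegree → ℂ → ℂ} {k : Fin m₂.natDegree → ℂ → ℂ}
    {Gs : Finset (Fin m₁.natDegree × Fin m₂.natDegree)} (hc : Cov m₁ m₂ G X Y k Gs) {q : ℕ}
    (hq : 0 < q) {X₁ Y₁ k₁ : ℂ → ℂ} (hp : PairPlace m₁ m₂ G X₁ Y₁ k₁) {q₁ : ℕ} (hq₁ : 0 < q₁)
    (hX : ∀ᶠ w in 𝓝[≠] (0:ℂ), X (w ^ q) = X₁ (w ^ q₁)) :
    ∃ p ∈ Gs, (∀ᶠ w in 𝓝[≠] (0:ℂ), Y p.1 (w ^ q) = Y₁ (w ^ q₁)) ∧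
      ∀ᶠ w in 𝓝[≠] (0:ℂ), k p.2 (w ^ q) = k₁ (w ^ q₁) := by
  have hr1 := (tendsto_pow_punct hq).eventually hc.root₁
  have hr2 := (tendsto_pow_punct hq).eventually hc.root₂
  have hm := (tendsto_pow_punct hq).eventually hc.mem
  have hp1 := (tendsto_pow_punct hq₁).eventually hp.root₁
  have hp2 := (tendsto_pow_punct hq₁).eventually hp.root₂
  have hpm := (tendsto_pow_punct hq₁).eventually hp.mem
  have hex : ∀ᶠ w in 𝓝[≠] (0:ℂ), ∃ p : Fin m₁.natDegree × Fin m₂.natDegree,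
      Y p.1 (w ^ q) = Y₁ (w ^ q₁) ∧ k p.2 (w ^ q) = k₁ (w ^ q₁) := by
    filter_upwards [hr1, hr2, hp1, hp2, hX] with w h1 h2 h3 h4 h5
    rw [← h5] at h3 h4
    obtain ⟨i, hi⟩ := (h1.2 _).mp h3
    obtain ⟨j, hj⟩ := (h2.2 _).mp h4
    exact ⟨(i, j), hi.symm, hj.symm⟩
  have hfr : ∃ p : Fin m₁.natDegree × Fin m₂.natDegree, ∃ᶠ w in 𝓝[≠] (0:ℂ),
      Y p.1 (w ^ q) = Y₁ (w ^ q₁) ∧ k p.2 (w ^ q) = k₁ (w ^ q₁) := by
    by_contra hcon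
    push Not at hcon
    have h1 : ∀ᶠ w in 𝓝[≠] (0:ℂ), ∀ p : Fin m₁.natDegree × Fin m₂.natDegree,
        ¬ (Y p.1 (w ^ q) = Y₁ (w ^ q₁) ∧ k p.2 (w ^ q) = k₁ (w ^ q₁)) := by
      rw [eventually_all]
      intro p
      exact not_frequently.mp (by
        intro h
        have := hcon p
        exact (h.and_eventually this).exists.elim (fun w hw => hw.2 hw.1.1 hw.1.2))
    obtain ⟨w, hw1, hw2⟩ := (hex.and h1).exists
    obtain ⟨p, hp⟩ := hw1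
    exact hw2 p hp
  obtain ⟨p, hp'⟩ := hfr
  have e1 : ∀ᶠ w in 𝓝[≠] (0:ℂ), Y p.1 (w ^ q) = Y₁ (w ^ q₁) :=
    (MeromorphicAt.frequently_eq_iff_eventuallyEq (mero_pow (hc.merY p.1) hq)
      (mero_pow hp.merY hq₁)).mp (hp'.mono fun w hw => hw.1)
  have e2 : ∀ᶠ w in 𝓝[≠] (0:ℂ), k p.2 (w ^ q) = k₁ (w ^ q₁) :=
    (MeromorphicAt.frequently_eq_iff_eventuallyEq (mero_pow (hc.merk p.2) hq)
      (mero_pow hp.merk hq₁)).mp (hp'.mono fun w hw => hw.2)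
  refine ⟨p, ?_, e1, e2⟩
  obtain ⟨w, h1, h2, h3, h4, h5⟩ := (e1.and (e2.and (hX.and (hm.and hpm)))).exists
  have h6 := (h4 p.1 p.2).mp
  rw [h1, h2, h3] at h6
  exact h6 h5

/-- **The trace theorem.** -/
theorem trace_thm (hirr₁ : Irreducible (m₁.map (algebraMap ℂ[X] (RatFunc ℂ))))
    (hirr₂ : Irreducible (m₂.map (algebraMap ℂ[X] (RatFunc ℂ)))) {S : Set ℂ} (hS : S.Finite)
    (hG : LocG m₁ m₂ S G) {Φ : ℂ → ℂ → ℂ → ℂ}
    (hΦ : ∀ z ∉ S, ∀ y k : ℂ → ℂ, AnalyticAt ℂ y z → AnalyticAt ℂ k z →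
      (∀ᶠ x in 𝓝 z, evalEval x (y x) m₁ = 0) → (∀ᶠ x in 𝓝 z, evalEval x (k x) m₂ = 0) →
      G z (y z) (k z) → AnalyticAt ℂ (fun x => Φ x (y x) (k x)) z)
    (hfin : ∀ (e : ℂ) (N : ℕ) (Y k : ℂ → ℂ), 0 < N →
      PairPlace m₁ m₂ G (fun w => e + w ^ N) Y k →
      ∃ τ : ℂ, Tendsto (fun w => w ^ N * Φ (e + w ^ N) (Y w) (k w)) (𝓝[≠] 0) (𝓝 τ) ∧ τ.re ≤ 0)
    (hinf : ∀ (N : ℕ) (Y k : ℂ → ℂ), 0 < N →
      PairPlace m₁ m₂ G (fun w => (w ^ N)⁻¹) Y k →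
      ∃ τ : ℂ, Tendsto (fun w => (w ^ N)⁻¹ * Φ ((w ^ N)⁻¹) (Y w) (k w)) (𝓝[≠] 0) (𝓝 τ) ∧
        0 ≤ τ.re)
    {z₁ η₁ κ₁ : ℂ} (hz₁ : z₁ ∉ S) (h1 : evalEval z₁ η₁ m₁ = 0) (h2 : evalEval z₁ κ₁ m₂ = 0)
    (hG₁ : G z₁ η₁ κ₁) :
    (∀ (e : ℂ) (N : ℕ) (Y k : ℂ → ℂ), 0 < N → PairPlace m₁ m₂ G (fun w => e + w ^ N) Y k →
      ∀ τ : ℂ, Tendsto (fun w => w ^ N * Φ (e + w ^ N) (Y w) (k w)) (𝓝[≠] 0) (𝓝 τ) →
        τ.re = 0) ∧
    (∀ (N : ℕ) (Y k : ℂ → ℂ), 0 < N → PairPlace m₁ m₂ G (fun w => (w ^ N)⁻¹) Y k →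
      ∀ τ : ℂ, Tendsto (fun w => (w ^ N)⁻¹ * Φ ((w ^ N)⁻¹) (Y w) (k w)) (𝓝[≠] 0) (𝓝 τ) →
        τ.re = 0) ∧
    ∃ (N : ℕ) (Y k : ℂ → ℂ), 0 < N ∧ PairPlace m₁ m₂ G (fun w => (w ^ N)⁻¹) Y k := by
  classical
  -- the coverings
  choose N hN Y k Gs hc using fun e => cov_fin hirr₁ hirr₂ hS hG e
  obtain ⟨N', hN', Y', k', Gs', hc'⟩ := cov_inf hirr₁ hirr₂ hS hG
  -- the members of the coverings are places
  have hpp : ∀ e, ∀ p ∈ Gs e, PairPlace m₁ m₂ G (fun w => e + w ^ N e) (Y e p.1) (k e p.2) := by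
    intro e p hp
    refine ⟨(hc e).merY p.1, (hc e).merk p.2, ?_, ?_, ?_⟩
    · filter_upwards [(hc e).root₁] with w hw
      exact (hw.2 _).mpr ⟨p.1, rfl⟩
    · filter_upwards [(hc e).root₂] with w hw
      exact (hw.2 _).mpr ⟨p.2, rfl⟩
    · filter_upwards [(hc e).mem] with w hw
      exact (hw p.1 p.2).mpr hp
  have hpp' : ∀ p ∈ Gs', PairPlace m₁ m₂ G (fun w => (w ^ N')⁻¹) (Y' p.1) (k' p.2) := by
    intro p hp
    refine ⟨hc'.merY p.1, hc'.merk p.2, ?_, ?_, ?_⟩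
    · filter_upwards [hc'.root₁] with w hw
      exact (hw.2 _).mpr ⟨p.1, rfl⟩
    · filter_upwards [hc'.root₂] with w hw
      exact (hw.2 _).mpr ⟨p.2, rfl⟩
    · filter_upwards [hc'.mem] with w hw
      exact (hw p.1 p.2).mpr hp
  have hex : ∀ e (p : Fin m₁.natDegree × Fin m₂.natDegree), ∃ τ : ℂ, p ∈ Gs e →
      Tendsto (fun w => w ^ N e * Φ (e + w ^ N e) (Y e p.1 w) (k e p.2 w)) (𝓝[≠] 0) (𝓝 τ) ∧
        τ.re ≤ 0 := by
    intro e p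
    by_cases hp : p ∈ Gs e
    · obtain ⟨τ, hτ⟩ := hfin e (N e) _ _ (hN e) (hpp e p hp)
      exact ⟨τ, fun _ => hτ⟩
    · exact ⟨0, fun h => absurd h hp⟩
  choose τ hτ using hex
  have hex' : ∀ p : Fin m₁.natDegree × Fin m₂.natDegree, ∃ τ : ℂ, p ∈ Gs' →
      Tendsto (fun w => (w ^ N')⁻¹ * Φ ((w ^ N')⁻¹) (Y' p.1 w) (k' p.2 w)) (𝓝[≠] 0) (𝓝 τ) ∧
        0 ≤ τ.re := by
    intro p
    by_cases hp : p ∈ Gs'
    · obtain ⟨τ, hτ⟩ := hinf N' _ _ hN' (hpp' p hp)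
      exact ⟨τ, fun _ => hτ⟩
    · exact ⟨0, fun h => absurd h hp⟩
  choose τ' hτ' using hex'
  -- all residues vanish
  have hzero : ∀ e₀ : ℂ, (∀ p ∈ Gs e₀, (τ e₀ p).re = 0) ∧ ∀ p ∈ Gs', (τ' p).re = 0 := by
    intro e₀
    set S' : Finset ℂ := insert e₀ hS.toFinset with hS'
    have hsub : ∀ z, z ∉ (S' : Set ℂ) → z ∉ S := by
      intro z hz hzS
      exact hz (Finset.mem_coe.mpr (Finset.mem_insert_of_mem (hS.mem_toFinset.mpr hzS)))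
    have hG' : LocG m₁ m₂ (S' : Set ℂ) G := fun z hz => hG z (hsub z hz)
    have hsum := trace_sum (m₁ := m₁) (m₂ := m₂) (G := G) (S := S') hG' (Φ := Φ)
      (fun z hz => hΦ z (hsub z (by simpa using hz))) (N := N) (fun e _ => hN e) (Y := Y) (k := k)
      (Gs := Gs) (fun e _ => hc e) (τ := τ) (fun e _ p hp => (hτ e p hp).1) hN' hc'
      (τ' := τ') (fun p hp => (hτ' p hp).1)
    have hre := congrArg Complex.re hsum
    simp only [Complex.re_sum] at hre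
    have hle : ∀ e ∈ S', ∑ p ∈ Gs e, (τ e p).re ≤ 0 :=
      fun e _ => Finset.sum_nonpos (fun p hp => (hτ e p hp).2)
    have h0 : ∑ e ∈ S', ∑ p ∈ Gs e, (τ e p).re ≤ 0 := Finset.sum_nonpos hle
    have h0' : 0 ≤ ∑ p ∈ Gs', (τ' p).re := Finset.sum_nonneg (fun p hp => (hτ' p hp).2)
    have h3 : ∑ e ∈ S', ∑ p ∈ Gs e, (τ e p).re = 0 := le_antisymm h0 (hre ▸ h0')
    have h4 : ∑ p ∈ Gs', (τ' p).re = 0 := hre.trans h3
    constructor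
    · have h5 := (Finset.sum_eq_zero_iff_of_nonpos hle).mp h3 e₀
        (Finset.mem_insert_self _ _)
      exact (Finset.sum_eq_zero_iff_of_nonpos (fun p hp => (hτ e₀ p hp).2)).mp h5
    · exact (Finset.sum_eq_zero_iff_of_nonneg (fun p hp => (hτ' p hp).2)).mp h4
  refine ⟨?_, ?_, ?_⟩
  · intro e n Y₁ k₁ hn hp t ht
    obtain ⟨p, hpG, hY, hk⟩ := pair_in_cov (hc e) hn hp (hN e)
      (Eventually.of_forall fun w => by
        rw [← pow_mul, ← pow_mul, mul_comm])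
    have h5 := (hτ e p hpG).1.comp (tendsto_pow_punct hn)
    have h6 := ht.comp (tendsto_pow_punct (hN e))
    have h7 : (fun w => w ^ N e * Φ (e + w ^ N e) (Y e p.1 w) (k e p.2 w)) ∘
        (fun w => w ^ n) =ᶠ[𝓝[≠] 0]
        (fun w => w ^ n * Φ (e + w ^ n) (Y₁ w) (k₁ w)) ∘ (fun w => w ^ N e) := by
      filter_upwards [hY, hk] with w hw1 hw2
      simp only [Function.comp]
      have hww : (w ^ n) ^ N e = (w ^ N e) ^ n := by rw [← pow_mul, ← pow_mul, mul_comm]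
      rw [hw1, hw2, hww]
    have h8 := tendsto_nhds_unique (h5.congr' h7) h6
    rw [← h8]
    exact (hzero e).1 p hpG
  · intro n Y₁ k₁ hn hp t ht
    obtain ⟨p, hpG, hY, hk⟩ := pair_in_cov hc' hn hp hN'
      (Eventually.of_forall fun w => by
        rw [← pow_mul, ← pow_mul, mul_comm])
    have h5 := (hτ' p hpG).1.comp (tendsto_pow_punct hn)
    have h6 := ht.comp (tendsto_pow_punct hN')
    have h7 : (fun w => (w ^ N')⁻¹ * Φ ((w ^ N')⁻¹) (Y' p.1 w) (k' p.2 w)) ∘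
        (fun w => w ^ n) =ᶠ[𝓝[≠] 0]
        (fun w => (w ^ n)⁻¹ * Φ ((w ^ n)⁻¹) (Y₁ w) (k₁ w)) ∘ (fun w => w ^ N') := by
      filter_upwards [hY, hk] with w hw1 hw2
      simp only [Function.comp]
      have hww : (w ^ n) ^ N' = (w ^ N') ^ n := by rw [← pow_mul, ← pow_mul, mul_comm]
      rw [hw1, hw2, hww]
    have h8 := tendsto_nhds_unique (h5.congr' h7) h6
    rw [← h8]
    exact (hzero 0).2 p hpG
  · obtain ⟨M, hM, hcard⟩ := cov_card hS hG hz₁ h1 h2 hG₁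
    have hev : ∀ᶠ w in 𝓝[≠] (0:ℂ), (w ^ N')⁻¹ ∉ S := by
      have h9 : Sᶜ ∈ Bornology.cobounded ℂ := by
        exact Bornology.isBounded_def.mp hS.isBounded
      exact (tendsto_inv_pow hN').eventually h9
    have h10 : Gs'.card = M := hcard _ _ _ _ hev hc'
    have h11 : Gs'.Nonempty := Finset.card_pos.mp (by omega)
    obtain ⟨p, hp⟩ := h11
    exact ⟨N', Y' p.1, k' p.2, hN', hpp' p hp⟩

end Pool.Agent.MP_ae5b4e_an_GEN
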