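import Mathlib
import Pool.Agent.Lib.MP_ae5b4e_an_GEN.Defs
import Pool.Agent.Lib.MP_ae5b4e_an_LAT.NDGlue
import Pool.Agent.Lib.MP_ae5b4e_an_FLEX.GeoProp
import Pool.Agent.Lib.MP_ae5b4e_an_GEN.Poly3
import Pool.Agent.Lib.MP_ae5b4e_an_GEN.Resid
import Pool.Agent.Lib.MP_ae5b4e_an_GEN.Pairs
import Pool.Agent.Lib.MP_ae5b4e_an_GEN.TraceThm
import Pool.Agent.Lib.MP_ae5b4e_an_GEN.Except

/-!
# MP_ae5b4e_an, project GEN: the complex theorem

There is no algebraic field of projective involutions near a nonsingular curve of degree `n ≥ 3`,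
if the local bounds hold.
-/

noncomputable section

namespace Pool.Agent.MP_ae5b4e_an_GEN

open Filter Topology Set Metric
open scoped Polynomial
open Polynomial (evalEval)
open Pool.Agent.MP_ae5b4e_an_ND (cc cf co Dx Dy Filt Reg rts)
open Pool.Agent.MP_ae5b4e_an_FLEX
open Pool.Agent.MP_ae5b4e_an_ALG (Dh)

/-! ### the complex theorem -/

namespace Core

/-- the polynomial of the affine curve -/
def P1 (P : MvPolynomial (Fin 3) ℂ) : ℂ[X][X] :=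
  MvPolynomial.aeval ![Polynomial.C Polynomial.X, Polynomial.X, 1] P

theorem evalEval_P1 (P : MvPolynomial (Fin 3) ℂ) (z η : ℂ) :
    evalEval z η (P1 P) = MvPolynomial.eval ![z, η, 1] P := by
  have h : ((Polynomial.evalEvalRingHom z η).comp
      ((MvPolynomial.aeval ![Polynomial.C Polynomial.X, Polynomial.X, 1] :
        MvPolynomial (Fin 3) ℂ →ₐ[ℂ] ℂ[X][X]) : MvPolynomial (Fin 3) ℂ →+* ℂ[X][X])) =
      (MvPolynomial.eval ![z, η, 1] : MvPolynomial (Fin 3) ℂ →+* ℂ) := by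
    apply MvPolynomial.ringHom_ext
    · intro a
      simp [Polynomial.algebraMap_apply]
    · intro i
      fin_cases i <;> simp
  have := congrArg (fun f : MvPolynomial (Fin 3) ℂ →+* ℂ => f P) h
  simpa [P1] using this

/-- the affine equation is not zero -/
theorem P1_ne_zero {P : MvPolynomial (Fin 3) ℂ} {n : ℕ} (hP : SmoothCurve P n) : P1 P ≠ 0 := by
  intro h
  have h0 : ∀ z η : ℂ, MvPolynomial.eval ![z, η, 1] P = 0 := by
    intro z η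
    rw [← evalEval_P1, h]
    simp
  have hv : (![0, 0, 1] : Fin 3 → ℂ) ≠ 0 := by
    intro h1
    have := congrFun h1 2
    simp at this
  -- the first two partial derivatives
  have hx : MvPolynomial.eval ![0, 0, 1] (MvPolynomial.pderiv 0 P) = 0 := by
    have h1 := hasDerivAt_eval3 (v := fun w : ℂ => ![w, 0, 1]) (v' := ![1, 0, 0]) (w := 0) (by
      intro i
      fin_cases i
      · exact hasDerivAt_id (0:ℂ)
      · exact hasDerivAt_const (0:ℂ) (0:ℂ)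
      · exact hasDerivAt_const (0:ℂ) (1:ℂ)) P
    have h2 : HasDerivAt (fun w : ℂ => MvPolynomial.eval ![w, 0, 1] P) 0 0 := by
      simp only [h0]
      exact hasDerivAt_const _ _
    have h3 := h1.unique h2
    simpa [Fin.sum_univ_three] using h3
  have hy : MvPolynomial.eval ![0, 0, 1] (MvPolynomial.pderiv 1 P) = 0 := by
    have h1 := hasDerivAt_eval3 (v := fun w : ℂ => ![0, w, 1]) (v' := ![0, 1, 0]) (w := 0) (by
      intro i
      fin_cases i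
      · exact hasDerivAt_const (0:ℂ) (0:ℂ)
      · exact hasDerivAt_id (0:ℂ)
      · exact hasDerivAt_const (0:ℂ) (1:ℂ)) P
    have h2 : HasDerivAt (fun w : ℂ => MvPolynomial.eval ![0, w, 1] P) 0 0 := by
      simp only [h0]
      exact hasDerivAt_const _ _
    have h3 := h1.unique h2
    simpa [Fin.sum_univ_three] using h3
  obtain ⟨i, hi⟩ := hP.ns _ hv (h0 0 0)
  have he := euler3 hP.hom ![0, 0, 1]
  rw [h0 0 0] at he
  simp [Fin.sum_univ_three] at he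
  fin_cases i
  · exact hi hx
  · exact hi hy
  · exact hi he

variable {P : MvPolynomial (Fin 3) ℂ} {n : ℕ} {m₁ m₂ : ℂ[X][X]} {S₁ : Set ℂ}

/-- the exceptional set -/
def Exc (m₂ : ℂ[X][X]) (S₁ : Set ℂ) : Set ℂ := S₁ ∪ {x | ¬ Reg m₂ x}

theorem exc_fin (hirr₂ : Irreducible (m₂.map (algebraMap ℂ[X] (RatFunc ℂ)))) (hS₁ : S₁.Finite) :
    (Exc m₂ S₁).Finite := hS₁.union (Pool.Agent.MP_ae5b4e_an_ND.reg_finite hirr₂)

theorem locG (hirr₁ : Irreducible (m₁.map (algebraMap ℂ[X] (RatFunc ℂ))))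
    (hirr₂ : Irreducible (m₂.map (algebraMap ℂ[X] (RatFunc ℂ)))) (h1 : ∀ z ∉ S₁, Reg m₁ z) :
    LocG m₁ m₂ (Exc m₂ S₁) (GP m₁ m₂) := by
  intro z hz
  have hz1 : z ∉ S₁ := fun h => hz (Or.inl h)
  have hz2 : Reg m₂ z := by
    by_contra h
    exact hz (Or.inr h)
  exact ⟨h1 z hz1, hz2, fun y k hy hk hy' hk' => gp_loc hirr₁ hirr₂ (h1 z hz1) hz2 hy hk hy' hk'⟩

/-- a non-constant function avoids a finite set near a point -/
theorem avoid_fin {S : Set ℂ} (hS : S.Finite) {e : ℂ} {N : ℕ} (hN : 0 < N) :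
    ∀ᶠ w in 𝓝[≠] (0:ℂ), e + w ^ N ∉ S := by
  have h1 : Tendsto (fun w : ℂ => e + w ^ N) (𝓝[≠] 0) (𝓝[≠] e) := by
    apply tendsto_nhdsWithin_iff.2
    constructor
    · have h2 : Continuous (fun w : ℂ => e + w ^ N) := by fun_prop
      have h3 := h2.tendsto 0
      rw [zero_pow hN.ne', add_zero] at h3
      exact h3.mono_left nhdsWithin_le_nhds
    · filter_upwards [self_mem_nhdsWithin] with w hw
      intro h
      have h4 : e + w ^ N = e := h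
      have h5 : w ^ N = 0 := by linear_combination h4
      exact hw (pow_eq_zero_iff hN.ne' |>.1 h5)
  have h6 : ∀ᶠ z in 𝓝[≠] e, z ∉ S := by
    have h7 : (S \ {e}).Finite := hS.subset sdiff_subset
    have h8 : ∀ᶠ z in 𝓝 e, z ∉ S \ {e} := h7.isClosed.isOpen_compl.mem_nhds (by simp)
    filter_upwards [h8.filter_mono nhdsWithin_le_nhds, self_mem_nhdsWithin] with z hz hz2 hz3
    exact hz ⟨hz3, hz2⟩
  exact h1.eventually h6

theorem avoid_inf {S : Set ℂ} (hS : S.Finite) {N : ℕ} (hN : 0 < N) :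
    ∀ᶠ w in 𝓝[≠] (0:ℂ), (w ^ N)⁻¹ ∉ S := by
  have h1 : (Inv.inv '' S).Finite := hS.image _
  have h2 := avoid_fin h1 (e := 0) hN
  filter_upwards [h2] with w hw
  intro h
  apply hw
  refine ⟨(w ^ N)⁻¹, h, ?_⟩
  rw [inv_inv, zero_add]

/-- the limits at a place -/
theorem place_lim (hP : SmoothCurve P n) (hn : 3 ≤ n)
    (hLB : ∀ f : ℕ, 1 ≤ f → f + 2 ≤ n → (OrdFlex P → f ≤ 1) →
      ∃ β : ℝ, β < ((f:ℝ) + 2) / 3 ∧ LBd 1 (f + 2) β)
    (hirr₁ : Irreducible (m₁.map (algebraMap ℂ[X] (RatFunc ℂ))))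
    (hirr₂ : Irreducible (m₂.map (algebraMap ℂ[X] (RatFunc ℂ))))
    (hexc : ∀ z ∉ S₁, Reg m₁ z ∧ ∀ η, evalEval z η m₁ = 0 →
      MvPolynomial.eval ![z, η, 1] P = 0 ∧
      MvPolynomial.eval ![z, η, 1] (MvPolynomial.pderiv 1 P) ≠ 0 ∧
      MvPolynomial.eval ![z, η, 1] (hess P) ≠ 0)
    {X Y k : ℂ → ℂ} (hX : MeromorphicAt X 0)
    (hX' : ∀ᶠ w in 𝓝[≠] (0:ℂ), deriv X w ≠ 0) (hXS : ∀ᶠ w in 𝓝[≠] (0:ℂ), X w ∉ Exc m₂ S₁)
    (h : PairPlace m₁ m₂ (GP m₁ m₂) X Y k) :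
    ∃ τ₁ τ₂ : ℂ,
      Tendsto (fun w => w * deriv X w *
        (k w / 2 + (1 / (3 * ((n:ℂ) - 2))) * dlh P (X w) (Y w))) (𝓝[≠] 0) (𝓝 τ₁) ∧ τ₁.re ≤ 0 ∧
      Tendsto (fun w => w * deriv X w * dlh P (X w) (Y w)) (𝓝[≠] 0) (𝓝 τ₂) ∧
      (τ₁.re = 0 → τ₂.re ≤ 0 ∧ ((Tendsto X (𝓝[≠] 0) (Bornology.cobounded ℂ)) → τ₂.re < 0)) := by
  have hK : MeromorphicAt (fun w => deriv X w * k w) 0 := hX.deriv.mul h.merk
  have hz1 : ∀ᶠ w in 𝓝[≠] (0:ℂ), X w ∉ S₁ := hXS.mono fun w hw h' => hw (Or.inl h')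
  have hz2 : ∀ᶠ w in 𝓝[≠] (0:ℂ), Reg m₂ (X w) := by
    filter_upwards [hXS] with w hw
    by_contra h'
    exact hw (Or.inr h')
  have hgood := gp_place hirr₁ hirr₂ hX (by
    filter_upwards [hX', hz1, hz2] with w h1 h2 h3
    exact ⟨h1, (hexc _ h2).1, h3⟩) h
  obtain ⟨τ₁, τ₂, h1, h2, h3, h4⟩ := place_res hP hn hLB hX h.merY hK
    (by filter_upwards [hz1, h.root₁] with w h1 h2 using ((hexc _ h1).2 _ h2).1)
    (by filter_upwards [hz1, h.root₁] with w h1 h2 using ((hexc _ h1).2 _ h2).2.1) hgood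
  refine ⟨τ₁, τ₂, h1.congr fun w => ?_, h2, h3.congr fun w => ?_, h4⟩
  · ring
  · ring

end Core

open Pool.Agent.MP_ae5b4e_an_GEN.Core in
/-- The complex theorem. -/
theorem core {P : MvPolynomial (Fin 3) ℂ} {n : ℕ} (hP : SmoothCurve P n) (hn : 3 ≤ n)
    (hLB : ∀ f : ℕ, 1 ≤ f → f + 2 ≤ n → (OrdFlex P → f ≤ 1) →
      ∃ β : ℝ, β < ((f:ℝ) + 2) / 3 ∧ LBd 1 (f + 2) β)
    {Q : ℂ[X][X]} (hQ : Q ≠ 0) {y k : ℂ → ℂ} {e : ℂ} (hg : GoodG (fun x => x) y k e)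
    (hPy : ∀ᶠ z in 𝓝 e, MvPolynomial.eval ![z, y z, 1] P = 0)
    (hQk : ∀ᶠ z in 𝓝 e, evalEval z (k z) Q = 0) : False := by
  obtain ⟨-, hya, hka, -⟩ := hg.1
  obtain ⟨m₁, hirr₁, hm₁⟩ := Pool.Agent.MP_ae5b4e_an_ND.exists_factor hya (P1_ne_zero hP)
    (by filter_upwards [hPy] with z hz; rw [evalEval_P1, hz])
  obtain ⟨m₂, hirr₂, hm₂⟩ := Pool.Agent.MP_ae5b4e_an_ND.exists_factor hka hQ hQk
  obtain ⟨S₁, hS₁, hexc⟩ := exc_finite hP (by omega) hirr₁ hya hm₁ hPy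
  set S := Exc m₂ S₁ with hSdef
  have hS : S.Finite := exc_fin hirr₂ hS₁
  have hLoc : LocG m₁ m₂ S (GP m₁ m₂) := locG hirr₁ hirr₂ fun z hz => (hexc z hz).1
  -- the good points near `e`
  have hgev : ∀ᶠ z in 𝓝 e, GoodG (fun x => x) y k z := by
    have h1 : ∀ᶠ z in 𝓝 e, RegG (fun x => x) y k z := by
      have h2 : ∀ᶠ z in 𝓝 e, Wr (fun x => x) y z ≠ 0 :=
        (GeoProp.wr_analytic hg.1.1 hya).continuousAt.eventually_ne hg.1.2.2.2
      filter_upwards [hya.eventually_analyticAt, hka.eventually_analyticAt, h2] with z h3 h4 h5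
      exact ⟨analyticAt_id, h3, h4, h5⟩
    obtain ⟨r, hr, h6⟩ := Metric.eventually_nhds_iff_ball.1 h1
    filter_upwards [ball_mem_nhds e hr] with z hz
    exact goodG_conn isOpen_ball (convex_ball e r).isPreconnected h6 (mem_ball_self hr) hg z hz
  obtain ⟨z₁, hz₁S, hroot1, hroot2, hGz⟩ : ∃ z₁, z₁ ∉ S ∧ evalEval z₁ (y z₁) m₁ = 0 ∧
      evalEval z₁ (k z₁) m₂ = 0 ∧ GP m₁ m₂ z₁ (y z₁) (k z₁) := by
    have h1 : ∀ᶠ z in 𝓝[≠] e, z ∉ S := by
      have h7 : (S \ {e}).Finite := hS.subset sdiff_subset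
      have h8 : ∀ᶠ z in 𝓝 e, z ∉ S \ {e} := h7.isClosed.isOpen_compl.mem_nhds (by simp)
      filter_upwards [h8.filter_mono nhdsWithin_le_nhds, self_mem_nhdsWithin] with z hz hz2 hz3
      exact hz ⟨hz3, hz2⟩
    have h2 : ∀ᶠ z in 𝓝 e, AnalyticAt ℂ y z ∧ AnalyticAt ℂ k z ∧
        (∀ᶠ x in 𝓝 z, evalEval x (y x) m₁ = 0) ∧ (∀ᶠ x in 𝓝 z, evalEval x (k x) m₂ = 0) ∧
        ∀ᶠ x in 𝓝 z, GoodG (fun x => x) y k x := by
      filter_upwards [hya.eventually_analyticAt, hka.eventually_analyticAt,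
        eventually_eventually_nhds.2 hm₁, eventually_eventually_nhds.2 hm₂,
        eventually_eventually_nhds.2 hgev] with z a b c d f using ⟨a, b, c, d, f⟩
    obtain ⟨z₁, h3, h4⟩ := (h1.and (h2.filter_mono nhdsWithin_le_nhds)).exists
    exact ⟨z₁, h3, h4.2.2.1.self_of_nhds, h4.2.2.2.1.self_of_nhds, y, k, h4.1, h4.2.1, rfl, rfl,
      h4.2.2.1, h4.2.2.2.1, h4.2.2.2.2.filter_mono nhdsWithin_le_nhds⟩
  have hn2 : (3 * ((n:ℂ) - 2)) ≠ 0 := by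
    have : ((n:ℂ) - 2) ≠ 0 := by
      intro h0
      have h1 : (n:ℂ) = 2 := by linear_combination h0
      have h2 : n = 2 := by exact_mod_cast h1
      omega
    exact mul_ne_zero (by norm_num) this
  -- the functions
  have hdlh : ∀ z ∉ S, ∀ y k : ℂ → ℂ, AnalyticAt ℂ y z → AnalyticAt ℂ k z →
      (∀ᶠ x in 𝓝 z, evalEval x (y x) m₁ = 0) → (∀ᶠ x in 𝓝 z, evalEval x (k x) m₂ = 0) →
      GP m₁ m₂ z (y z) (k z) → AnalyticAt ℂ (fun x => dlh P x (y x)) z := by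
    intro z hz y k hy hk hy' _ _
    have hv : ∀ i, AnalyticAt ℂ (fun w => (![w, y w, 1] : Fin 3 → ℂ) i) z := by
      intro i
      fin_cases i
      · exact analyticAt_id
      · exact hy
      · exact analyticAt_const
    obtain ⟨-, h2⟩ := hexc z fun h => hz (Or.inl h)
    obtain ⟨-, h3, h4⟩ := h2 _ hy'.self_of_nhds
    unfold dlh
    refine (((analyticAt_eval3 hv _).mul (analyticAt_eval3 hv _)).sub
      ((analyticAt_eval3 hv _).mul (analyticAt_eval3 hv _))).div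
      ((analyticAt_eval3 hv _).mul (analyticAt_eval3 hv _)) (mul_ne_zero h3 h4)
  set Φ₁ : ℂ → ℂ → ℂ → ℂ := fun z η κ => κ / 2 + (1 / (3 * ((n:ℂ) - 2))) * dlh P z η with hΦ₁
  set Φ₂ : ℂ → ℂ → ℂ → ℂ := fun z η _ => dlh P z η with hΦ₂
  -- finite places
  have hfin : ∀ (e : ℂ) (N : ℕ) (Y k : ℂ → ℂ), 0 < N →
      PairPlace m₁ m₂ (GP m₁ m₂) (fun w => e + w ^ N) Y k →
      ∃ τ₁ τ₂ : ℂ, Tendsto (fun w => w ^ N * Φ₁ (e + w ^ N) (Y w) (k w)) (𝓝[≠] 0) (𝓝 τ₁) ∧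
        τ₁.re ≤ 0 ∧ Tendsto (fun w => w ^ N * Φ₂ (e + w ^ N) (Y w) (k w)) (𝓝[≠] 0) (𝓝 τ₂) ∧
        (τ₁.re = 0 → τ₂.re ≤ 0) := by
    intro e N Y k hN h
    have hd : ∀ w : ℂ, deriv (fun w => e + w ^ N) w = N * w ^ (N - 1) := by
      intro w
      simp
    have hwd : ∀ w : ℂ, w * deriv (fun w => e + w ^ N) w = N * w ^ N := by
      intro w
      rw [hd]
      obtain ⟨j, rfl⟩ : ∃ j, N = j + 1 := ⟨N - 1, by omega⟩
      simp only [add_tsub_cancel_right]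
      ring
    have hNC : (N:ℂ) ≠ 0 := Nat.cast_ne_zero.2 hN.ne'
    obtain ⟨τ₁, τ₂, h1, h2, h3, h4⟩ := place_lim hP hn hLB hirr₁ hirr₂ hexc
      (X := fun w => e + w ^ N) (by fun_prop) (by
        filter_upwards [self_mem_nhdsWithin] with w hw
        rw [hd]
        exact mul_ne_zero hNC (pow_ne_zero _ hw)) (avoid_fin hS hN) h
    refine ⟨τ₁ / N, τ₂ / N, ?_, ?_, ?_, ?_⟩
    · refine (h1.div_const (N:ℂ)).congr fun w => ?_
      rw [hwd, mul_assoc, mul_div_cancel_left₀ _ hNC]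
    · rw [Complex.div_natCast_re]
      exact div_nonpos_of_nonpos_of_nonneg h2 (Nat.cast_nonneg N)
    · refine (h3.div_const (N:ℂ)).congr fun w => ?_
      rw [hwd, mul_assoc, mul_div_cancel_left₀ _ hNC]
    · intro h5
      rw [Complex.div_natCast_re] at h5 ⊢
      have h6 : τ₁.re = 0 := by
        have hN0 : (N:ℝ) ≠ 0 := Nat.cast_ne_zero.2 hN.ne'
        exact (div_eq_zero_iff.1 h5).resolve_right hN0
      exact div_nonpos_of_nonpos_of_nonneg (h4 h6).1 (Nat.cast_nonneg N)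
  -- infinite places
  have hinf : ∀ (N : ℕ) (Y k : ℂ → ℂ), 0 < N →
      PairPlace m₁ m₂ (GP m₁ m₂) (fun w => (w ^ N)⁻¹) Y k →
      ∃ τ₁ τ₂ : ℂ, Tendsto (fun w => (w ^ N)⁻¹ * Φ₁ ((w ^ N)⁻¹) (Y w) (k w)) (𝓝[≠] 0) (𝓝 τ₁) ∧
        0 ≤ τ₁.re ∧ Tendsto (fun w => (w ^ N)⁻¹ * Φ₂ ((w ^ N)⁻¹) (Y w) (k w)) (𝓝[≠] 0) (𝓝 τ₂) ∧
        (τ₁.re = 0 → 0 < τ₂.re) := by
    intro N Y k hN h
    have hNC : (N:ℂ) ≠ 0 := Nat.cast_ne_zero.2 hN.ne'
    have hd : ∀ w : ℂ, w ≠ 0 → deriv (fun w => (w ^ N)⁻¹) w = -(N * w ^ (N - 1)) / (w ^ N) ^ 2 := by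
      intro w hw
      have h1 := ((hasDerivAt_pow N w).inv (pow_ne_zero N hw)).deriv
      exact h1
    have hwd : ∀ w : ℂ, w ≠ 0 → w * deriv (fun w => (w ^ N)⁻¹) w = -(N * (w ^ N)⁻¹) := by
      intro w hw
      rw [hd w hw]
      obtain ⟨j, rfl⟩ : ∃ j, N = j + 1 := ⟨N - 1, by omega⟩
      simp only [add_tsub_cancel_right]
      field_simp
      ring
    have hXinf : Tendsto (fun w : ℂ => (w ^ N)⁻¹) (𝓝[≠] 0) (Bornology.cobounded ℂ) := by
      have h5 : Tendsto (fun w : ℂ => w ^ N) (𝓝[≠] 0) (𝓝[≠] 0) := by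
        apply tendsto_nhdsWithin_iff.2
        constructor
        · have h2 : Continuous (fun w : ℂ => w ^ N) := by fun_prop
          have h3 := h2.tendsto 0
          rw [zero_pow hN.ne'] at h3
          exact h3.mono_left nhdsWithin_le_nhds
        · filter_upwards [self_mem_nhdsWithin] with w hw
          exact pow_ne_zero _ hw
      exact tendsto_inv₀_nhdsNE_zero.comp h5
    obtain ⟨τ₁, τ₂, h1, h2, h3, h4⟩ := place_lim hP hn hLB hirr₁ hirr₂ hexc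
      (X := fun w => (w ^ N)⁻¹) (by fun_prop) (by
        filter_upwards [self_mem_nhdsWithin] with w hw
        have hw' : w ≠ 0 := hw
        rw [hd w hw']
        refine div_ne_zero (neg_ne_zero.2 (mul_ne_zero hNC (pow_ne_zero _ hw')))
          (pow_ne_zero _ (pow_ne_zero _ hw'))) (avoid_inf hS hN) h
    refine ⟨-τ₁ / N, -τ₂ / N, ?_, ?_, ?_, ?_⟩
    · refine ((h1.neg).div_const (N:ℂ)).congr' ?_
      filter_upwards [self_mem_nhdsWithin] with w hw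
      rw [hwd w hw, neg_mul, neg_neg, mul_assoc, mul_div_cancel_left₀ _ hNC]
    · rw [Complex.div_natCast_re, Complex.neg_re]
      exact div_nonneg (by linarith) (Nat.cast_nonneg N)
    · refine ((h3.neg).div_const (N:ℂ)).congr' ?_
      filter_upwards [self_mem_nhdsWithin] with w hw
      rw [hwd w hw, neg_mul, neg_neg, mul_assoc, mul_div_cancel_left₀ _ hNC]
    · intro h5
      have hN0 : (0:ℝ) < N := Nat.cast_pos.2 hN
      rw [Complex.div_natCast_re, Complex.neg_re] at h5 ⊢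
      have h6 : τ₁.re = 0 := by
        have := (div_eq_zero_iff.1 h5).resolve_right hN0.ne'
        linarith
      exact div_pos (by linarith [(h4 h6).2 hXinf]) hN0
  -- the first application of the trace theorem
  obtain ⟨ha, hb, N, Y, k', hN, hpl⟩ := trace_thm hirr₁ hirr₂ hS hLoc (Φ := Φ₁) (by
      intro z hz y k hy hk hy' hk' hG
      exact (hk.div_const).add (analyticAt_const.mul (hdlh z hz y k hy hk hy' hk' hG)))
    (fun e N Y k hN h => by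
      obtain ⟨τ₁, τ₂, h1, h2, -, -⟩ := hfin e N Y k hN h
      exact ⟨τ₁, h1, h2⟩)
    (fun N Y k hN h => by
      obtain ⟨τ₁, τ₂, h1, h2, -, -⟩ := hinf N Y k hN h
      exact ⟨τ₁, h1, h2⟩) hz₁S hroot1 hroot2 hGz
  -- the second application
  obtain ⟨-, hd, -⟩ := trace_thm hirr₁ hirr₂ hS hLoc (Φ := Φ₂) hdlh
    (fun e N Y k hN h => by
      obtain ⟨τ₁, τ₂, h1, h2, h3, h4⟩ := hfin e N Y k hN h
      exact ⟨τ₂, h3, h4 (ha e N Y k hN h τ₁ h1)⟩)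
    (fun N Y k hN h => by
      obtain ⟨τ₁, τ₂, h1, h2, h3, h4⟩ := hinf N Y k hN h
      exact ⟨τ₂, h3, (h4 (hb N Y k hN h τ₁ h1)).le⟩) hz₁S hroot1 hroot2 hGz
  obtain ⟨τ₁, τ₂, h1, h2, h3, h4⟩ := hinf N Y k' hN hpl
  have h5 := h4 (hb N Y k' hN hpl τ₁ h1)
  have h6 := hd N Y k' hN hpl τ₂ h3
  linarith


end Pool.Agent.MP_ae5b4e_an_GEN
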