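import Mathlib

/-!
# An algebraic relation in the half angle

If `G(x, k/(x')) = 0` along the circle-like curve `x = x₀ + p cos φ + q sin φ` (with
`x' = -p sin φ + q cos φ`), then `k` satisfies an algebraic relation over the field of
rational functions of `T = tan (φ/2)`.
-/

namespace Pool.Agent.MP_ae5b4e_an_GEN

open Filter Topology Set
open scoped Polynomial ContDiff
open Polynomial (evalEval)

namespace AlgAngle

open Polynomial

/-- the homogenisation of a polynomial, evaluated at two polynomials -/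
noncomputable def hom (M : ℕ) (c A B : ℝ[X]) : ℝ[X] :=
  ∑ i ∈ Finset.range (M + 1), C (c.coeff i) * A ^ i * B ^ (M - i)

lemma eval_hom {M : ℕ} {c A B : ℝ[X]} (hM : c.natDegree ≤ M) {T : ℝ} (hB : B.eval T ≠ 0) :
    (hom M c A B).eval T = (B.eval T) ^ M * c.eval (A.eval T / B.eval T) := by
  rw [hom, eval_finsetSum, Polynomial.eval_eq_sum_range' (Nat.lt_succ_of_le hM),
    Finset.mul_sum]
  refine Finset.sum_congr rfl fun i hi => ?_
  have hi' : i ≤ M := Nat.lt_succ_iff.mp (Finset.mem_range.mp hi)
  simp only [eval_mul, eval_C, eval_pow]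
  rw [div_pow]
  have h1 : (B.eval T) ^ M = (B.eval T) ^ (M - i) * (B.eval T) ^ i := by
    rw [← pow_add, Nat.sub_add_cancel hi']
  rw [h1]
  field_simp

/-- the numerator of `x` -/
noncomputable def numA (x₀ p q : ℝ) : ℝ[X] :=
  C x₀ * (1 + X ^ 2) + C p * (1 - X ^ 2) + C (2 * q) * X

/-- the denominator -/
noncomputable def denB : ℝ[X] := 1 + X ^ 2

/-- the numerator of `x'` -/
noncomputable def numD (p q : ℝ) : ℝ[X] := C q * (1 - X ^ 2) - C (2 * p) * X

lemma eval_numA (x₀ p q T : ℝ) :
    (numA x₀ p q).eval T = x₀ * (1 + T ^ 2) + p * (1 - T ^ 2) + 2 * q * T := by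
  simp [numA]

lemma eval_denB (T : ℝ) : denB.eval T = 1 + T ^ 2 := by simp [denB]

lemma eval_numD (p q T : ℝ) :
    (numD p q).eval T = q * (1 - T ^ 2) - 2 * p * T := by
  simp [numD]

lemma denB_pos (T : ℝ) : 0 < denB.eval T := by
  rw [eval_denB]; positivity

lemma denB_ne_zero : denB ≠ 0 := by
  intro h
  have := denB_pos 0
  rw [h] at this
  simp at this

lemma numD_ne_zero {p q : ℝ} (hp : p ≠ 0) : numD p q ≠ 0 := by
  intro h
  have h1 := eval_numD p q 1
  rw [h] at h1
  simp at h1
  exact hp h1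

/-- the rational parametrisation of the circle by the tangent of the half angle -/
lemma half_angle {φ : ℝ} (hc : Real.cos (φ / 2) ≠ 0) :
    Real.cos φ = (1 - Real.tan (φ / 2) ^ 2) / (1 + Real.tan (φ / 2) ^ 2) ∧
    Real.sin φ = 2 * Real.tan (φ / 2) / (1 + Real.tan (φ / 2) ^ 2) := by
  have h1 : Real.cos φ = 2 * Real.cos (φ / 2) ^ 2 - 1 := by
    rw [← Real.cos_two_mul]; ring_nf
  have h2 : Real.sin φ = 2 * Real.sin (φ / 2) * Real.cos (φ / 2) := by
    rw [← Real.sin_two_mul]; ring_nf
  have h3 : Real.sin (φ / 2) ^ 2 + Real.cos (φ / 2) ^ 2 = 1 := Real.sin_sq_add_cos_sq _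
  have h4 : 1 + Real.tan (φ / 2) ^ 2 = 1 / Real.cos (φ / 2) ^ 2 := by
    rw [Real.tan_eq_sin_div_cos]
    field_simp
    linarith
  rw [h4, h1, h2, Real.tan_eq_sin_div_cos]
  constructor
  · field_simp
    nlinarith [h3]
  · field_simp

lemma infinite_values {x₀ p q : ℝ} (hp : p ≠ 0) :
    (Set.range fun T : ℝ => (numA x₀ p q).eval T / denB.eval T).Infinite := by
  have hcont : Continuous fun T : ℝ => (numA x₀ p q).eval T / denB.eval T :=
    (numA x₀ p q).continuous.div denB.continuous fun T => (denB_pos T).ne'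
  have hpre : IsPreconnected (Set.range fun T : ℝ => (numA x₀ p q).eval T / denB.eval T) :=
    isPreconnected_range hcont
  refine hpre.infinite_of_nontrivial ?_
  by_contra hnt
  rw [Set.not_nontrivial_iff] at hnt
  have e0 := hnt (Set.mem_range_self (0 : ℝ)) (Set.mem_range_self (1 : ℝ))
  have e1 := hnt (Set.mem_range_self (0 : ℝ)) (Set.mem_range_self (-1 : ℝ))
  simp only [eval_numA, eval_denB] at e0 e1
  norm_num at e0 e1
  apply hp
  linarith

end AlgAngle

open AlgAngle in
/-- an algebraic relation in the half angle -/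
theorem alg_angle {x₀ p q : ℝ} (hp : p ≠ 0) {G : ℝ[X][X]} (hG : G ≠ 0) :
    ∃ G' : ℝ[X][X], G' ≠ 0 ∧ ∀ φ k : ℝ, Real.cos (φ / 2) ≠ 0 →
      (-p * Real.sin φ + q * Real.cos φ ≠ 0 →
        evalEval (x₀ + p * Real.cos φ + q * Real.sin φ)
          (k / (-p * Real.sin φ + q * Real.cos φ)) G = 0) →
      evalEval (Real.tan (φ / 2)) k G' = 0 := by
  classical
  set N := G.natDegree with hN
  obtain ⟨M, hM⟩ : ∃ M : ℕ, ∀ j ∈ Finset.range (N + 1), (G.coeff j).natDegree ≤ M :=
    ⟨(Finset.range (N + 1)).sup fun j => (G.coeff j).natDegree,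
      fun j hj => Finset.le_sup (f := fun j => (G.coeff j).natDegree) hj⟩
  set A := numA x₀ p q with hA
  set B := denB with hB
  set D := numD p q with hD
  have hD0 : D ≠ 0 := numD_ne_zero hp
  have hB0 : B ≠ 0 := denB_ne_zero
  set S : ℝ[X][X] := ∑ j ∈ Finset.range (N + 1),
    Polynomial.C (hom M (G.coeff j) A B * B ^ j * D ^ (N - j)) * Polynomial.X ^ j with hS
  refine ⟨Polynomial.C D * S, ?_, ?_⟩
  · intro h0
    have hS0 : S = 0 := by
      rcases mul_eq_zero.mp h0 with h | h
      · exact absurd (Polynomial.C_eq_zero.mp h) hD0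
      · exact h
    have hco : S.coeff N = hom M (G.coeff N) A B * B ^ N := by
      rw [hS, Polynomial.finsetSum_coeff, Finset.sum_eq_single N]
      · rw [Polynomial.coeff_C_mul, Polynomial.coeff_X_pow, if_pos rfl, Nat.sub_self, pow_zero,
          mul_one, mul_one]
      · intro j _ hj
        rw [Polynomial.coeff_C_mul, Polynomial.coeff_X_pow, if_neg (fun h => hj h.symm), mul_zero]
      · intro h
        exact absurd (Finset.mem_range.mpr (Nat.lt_succ_self N)) h
    rw [hS0, Polynomial.coeff_zero] at hco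
    have hh : hom M (G.coeff N) A B = 0 := by
      rcases mul_eq_zero.mp hco.symm with h | h
      · exact h
      · exact absurd h (pow_ne_zero _ hB0)
    have hlead : G.coeff N ≠ 0 := by
      rw [hN]
      exact Polynomial.leadingCoeff_ne_zero.mpr hG
    apply hlead
    refine Polynomial.eq_zero_of_infinite_isRoot _ ?_
    refine (infinite_values (x₀ := x₀) (q := q) hp).mono ?_
    rintro _ ⟨T, rfl⟩
    have h1 := eval_hom (c := G.coeff N) (A := A) (hM N (Finset.mem_range.mpr (Nat.lt_succ_self N)))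
      (denB_pos T).ne'
    rw [← hB, hh, Polynomial.eval_zero] at h1
    have h2 := (mul_eq_zero.mp h1.symm).resolve_left (pow_ne_zero _ (denB_pos T).ne')
    exact h2
  · intro φ k hc hyp
    set T := Real.tan (φ / 2) with hT
    obtain ⟨hcos, hsin⟩ := half_angle hc
    have hBT : B.eval T = 1 + T ^ 2 := eval_denB T
    have hBpos : 0 < B.eval T := denB_pos T
    have hx : x₀ + p * Real.cos φ + q * Real.sin φ = A.eval T / B.eval T := by
      rw [hcos, hsin, ← hT, hBT, hA, eval_numA]
      have : (1 + T ^ 2) ≠ 0 := by positivity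
      field_simp
    have hx' : -p * Real.sin φ + q * Real.cos φ = D.eval T / B.eval T := by
      rw [hcos, hsin, ← hT, hBT, hD, eval_numD]
      have : (1 + T ^ 2) ≠ 0 := by positivity
      field_simp
      ring
    rw [Polynomial.evalEval_mul, Polynomial.evalEval_C]
    by_cases hDT : D.eval T = 0
    · rw [hDT, zero_mul]
    · have h1 := hyp (by rw [hx']; exact div_ne_zero hDT hBpos.ne')
      rw [hx, hx'] at h1
      have h2 : evalEval (A.eval T / B.eval T) (k / (D.eval T / B.eval T)) G =
          ∑ j ∈ Finset.range (N + 1), (G.coeff j).eval (A.eval T / B.eval T) *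
            (k / (D.eval T / B.eval T)) ^ j := by
        rw [Polynomial.evalEval,
          Polynomial.eval_eq_sum_range (p := G), Polynomial.eval_finsetSum]
        simp [hN]
      have h3 : evalEval T k S = (B.eval T) ^ M * (D.eval T) ^ N *
          evalEval (A.eval T / B.eval T) (k / (D.eval T / B.eval T)) G := by
        rw [h2, hS, Polynomial.evalEval_finsetSum, Finset.mul_sum]
        refine Finset.sum_congr rfl fun j hj => ?_
        have hj' : j ≤ N := Nat.lt_succ_iff.mp (Finset.mem_range.mp hj)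
        rw [Polynomial.evalEval_mul, Polynomial.evalEval_C, Polynomial.evalEval_pow,
          Polynomial.evalEval_X, Polynomial.eval_mul, Polynomial.eval_mul, Polynomial.eval_pow,
          Polynomial.eval_pow, eval_hom (hM j hj) hBpos.ne', div_pow, div_pow]
        have h4 : (D.eval T) ^ N = (D.eval T) ^ (N - j) * (D.eval T) ^ j := by
          rw [← pow_add, Nat.sub_add_cancel hj']
        rw [h4]
        field_simp
      rw [h3, h1, mul_zero, mul_zero]

end Pool.Agent.MP_ae5b4e_an_GEN
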