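import Mathlib
import Pool.Agent.Lib.MP_ae5b4e_an_hopf.Plane

/-!
The angle on an ellipse.
-/

noncomputable section

namespace Pool.Agent.MP_ae5b4e_an_GEN

open Filter Topology Set
open scoped Polynomial ContDiff
open Polynomial (evalEval)
open Pool.Agent.MP_ae5b4e_an_hopf

namespace AngleAux

/-- a function with zero derivative is constant -/
lemma const_of_hasDerivAt_zero {F : ℝ → ℝ} (h : ∀ t, HasDerivAt F 0 t) (s t : ℝ) : F s = F t :=
  is_const_of_deriv_eq_zero (fun t => (h t).differentiableAt) (fun t => (h t).deriv) s t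

/-- The angle of a curve on the unit circle. -/
lemma lift {C S C1 S1 : ℝ → ℝ} (hC : ∀ t, HasDerivAt C (C1 t) t)
    (hS : ∀ t, HasDerivAt S (S1 t) t) (h1 : ContDiff ℝ ∞ C1) (h2 : ContDiff ℝ ∞ S1)
    (hcirc : ∀ t, C t ^ 2 + S t ^ 2 = 1) :
    ∃ θ : ℝ → ℝ, ContDiff ℝ ∞ θ ∧ (∀ t, HasDerivAt θ (C t * S1 t - S t * C1 t) t) ∧
      (∀ t, C t = Real.cos (θ t)) ∧ ∀ t, S t = Real.sin (θ t) := by
  have hCs : ContDiff ℝ ∞ C := by
    rw [contDiff_infty_iff_deriv]
    refine ⟨fun t => (hC t).differentiableAt, ?_⟩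
    rw [show deriv C = C1 from funext fun t => (hC t).deriv]
    exact h1
  have hSs : ContDiff ℝ ∞ S := by
    rw [contDiff_infty_iff_deriv]
    refine ⟨fun t => (hS t).differentiableAt, ?_⟩
    rw [show deriv S = S1 from funext fun t => (hS t).deriv]
    exact h2
  set g : ℝ → ℝ := fun t => C t * S1 t - S t * C1 t with hg
  have hgs : ContDiff ℝ ∞ g := (hCs.mul h2).sub (hSs.mul h1)
  have horth : ∀ t, C t * C1 t + S t * S1 t = 0 := by
    intro t
    have e1 : HasDerivAt (fun t => C t ^ 2 + S t ^ 2)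
        (2 * C t ^ 1 * C1 t + 2 * S t ^ 1 * S1 t) t := by
      exact (((hC t).pow 2).add ((hS t).pow 2)).congr_deriv (by norm_num)
    have e2 : HasDerivAt (fun t => C t ^ 2 + S t ^ 2) 0 t := by
      rw [show (fun t => C t ^ 2 + S t ^ 2) = fun _ => (1:ℝ) from funext hcirc]
      exact hasDerivAt_const t 1
    have := e1.unique e2
    nlinarith [this]
  obtain ⟨th0, h0c, h0s⟩ : ∃ φ : ℝ, C 0 = Real.cos φ ∧ S 0 = Real.sin φ := by
    refine ⟨Complex.arg (⟨C 0, S 0⟩ : ℂ), ?_, ?_⟩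
    · have hn : ‖(⟨C 0, S 0⟩ : ℂ)‖ = 1 := by
        have : ‖(⟨C 0, S 0⟩ : ℂ)‖ ^ 2 = 1 := by
          rw [← Complex.normSq_eq_norm_sq, Complex.normSq_mk]
          nlinarith [hcirc 0]
        nlinarith [norm_nonneg (⟨C 0, S 0⟩ : ℂ)]
      have hne : (⟨C 0, S 0⟩ : ℂ) ≠ 0 := by
        intro h
        rw [h] at hn
        simp at hn
      rw [Complex.cos_arg hne, hn]
      simp
    · have hn : ‖(⟨C 0, S 0⟩ : ℂ)‖ = 1 := by
        have : ‖(⟨C 0, S 0⟩ : ℂ)‖ ^ 2 = 1 := by
          rw [← Complex.normSq_eq_norm_sq, Complex.normSq_mk]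
          nlinarith [hcirc 0]
        nlinarith [norm_nonneg (⟨C 0, S 0⟩ : ℂ)]
      rw [Complex.sin_arg, hn]
      simp
  set θ : ℝ → ℝ := fun t => th0 + ∫ s in (0:ℝ)..t, g s with hθ
  have hθd : ∀ t, HasDerivAt θ (g t) t := by
    intro t
    have := intervalIntegral.integral_hasDerivAt_right
      (hgs.continuous.intervalIntegrable (μ := MeasureTheory.volume) 0 t)
      (hgs.continuous.stronglyMeasurableAtFilter _ _) hgs.continuous.continuousAt
    exact this.const_add th0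
  have hθs : ContDiff ℝ ∞ θ := by
    rw [contDiff_infty_iff_deriv]
    refine ⟨fun t => (hθd t).differentiableAt, ?_⟩
    rw [show deriv θ = g from funext fun t => (hθd t).deriv]
    exact hgs
  have hC1 : ∀ t, C1 t = -(g t * S t) := by
    intro t
    simp only [hg]
    linear_combination (-(C1 t)) * hcirc t + C t * horth t
  have hS1 : ∀ t, S1 t = g t * C t := by
    intro t
    simp only [hg]
    linear_combination (-(S1 t)) * hcirc t + S t * horth t
  have hθ0 : θ 0 = th0 := by simp [hθ]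
  have k1 : ∀ t, C t * Real.cos (θ t) + S t * Real.sin (θ t) = 1 := by
    intro t
    have hd : ∀ t, HasDerivAt (fun t => C t * Real.cos (θ t) + S t * Real.sin (θ t)) 0 t := by
      intro t
      have e1 := ((hC t).mul ((hθd t).cos)).add ((hS t).mul ((hθd t).sin))
      refine e1.congr_deriv ?_
      rw [hC1 t, hS1 t]
      ring
    have := const_of_hasDerivAt_zero hd t 0
    rw [this, hθ0, h0c, h0s]
    nlinarith [Real.sin_sq_add_cos_sq th0]
  have k2 : ∀ t, S t * Real.cos (θ t) - C t * Real.sin (θ t) = 0 := by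
    intro t
    have hd : ∀ t, HasDerivAt (fun t => S t * Real.cos (θ t) - C t * Real.sin (θ t)) 0 t := by
      intro t
      have e1 := ((hS t).mul ((hθd t).cos)).sub ((hC t).mul ((hθd t).sin))
      refine e1.congr_deriv ?_
      rw [hC1 t, hS1 t]
      ring
    have := const_of_hasDerivAt_zero hd t 0
    rw [this, hθ0, h0c, h0s]
    ring
  refine ⟨θ, hθs, hθd, fun t => ?_, fun t => ?_⟩
  · linear_combination (-(C t)) * Real.sin_sq_add_cos_sq (θ t) + Real.cos (θ t) * k1 t -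
      Real.sin (θ t) * k2 t
  · linear_combination (-(S t)) * Real.sin_sq_add_cos_sq (θ t) + Real.sin (θ t) * k1 t +
      Real.cos (θ t) * k2 t

/-- A periodic angle with positive derivative, simple: its increment is one full turn. -/
lemma turn {θ g : ℝ → ℝ} {T : ℝ} (hT : 0 < T) (hθd : ∀ t, HasDerivAt θ (g t) t)
    (hg : ∀ t, 0 < g t) (hgper : ∀ t, g (t + T) = g t)
    (hc : Real.cos (θ T) = Real.cos (θ 0)) (hs : Real.sin (θ T) = Real.sin (θ 0))
    (hinj : ∀ s, 0 < s → s < T → ¬ (Real.cos (θ s) = Real.cos (θ 0) ∧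
      Real.sin (θ s) = Real.sin (θ 0))) :
    ∀ t, θ (t + T) = θ t + 2 * Real.pi := by
  have hmono : StrictMono θ := strictMono_of_hasDerivAt_pos hθd hg
  have hcont : Continuous θ := continuous_iff_continuousAt.2 fun t => (hθd t).continuousAt
  have hconst : ∀ t, θ (t + T) - θ t = θ T - θ 0 := by
    intro t
    have hd : ∀ t, HasDerivAt (fun t => θ (t + T) - θ t) 0 t := by
      intro t
      have e1 := ((hθd (t + T)).comp_add_const t T).sub (hθd t)
      refine e1.congr_deriv ?_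
      rw [hgper t, sub_self]
    have := const_of_hasDerivAt_zero hd t 0
    rw [this, zero_add]
  have hK1 : Real.cos (θ T - θ 0) = 1 := by
    rw [Real.cos_sub, hc, hs]
    nlinarith [Real.sin_sq_add_cos_sq (θ 0)]
  obtain ⟨n, hn⟩ := (Real.cos_eq_one_iff _).1 hK1
  have hKpos : 0 < θ T - θ 0 := sub_pos.2 (hmono hT)
  have hpi := Real.pi_pos
  have hn1 : (1 : ℤ) ≤ n := by
    by_contra h
    have h' : n ≤ 0 := by omega
    have : (n : ℝ) ≤ 0 := by exact_mod_cast h'
    nlinarith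
  have hn2 : n < 2 := by
    by_contra h
    have h' : (2 : ℤ) ≤ n := by omega
    have h2 : (2 : ℝ) ≤ n := by exact_mod_cast h'
    have hlt : θ 0 + 2 * Real.pi ∈ Ioo (θ 0) (θ T) := by
      constructor
      · linarith
      · nlinarith
    obtain ⟨s, hs1, hs2⟩ := intermediate_value_Ioo hT.le hcont.continuousOn hlt
    refine hinj s hs1.1 hs1.2 ⟨?_, ?_⟩
    · rw [hs2, Real.cos_add_two_pi]
    · rw [hs2, Real.sin_add_two_pi]
  have hn3 : n = 1 := by omega
  intro t
  have := hconst t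
  rw [hn3] at hn
  push_cast at hn
  linarith

/-- The inverse of the angle. -/
lemma inverse {θ g : ℝ → ℝ} {T : ℝ} (hθs : ContDiff ℝ ∞ θ)
    (hθd : ∀ t, HasDerivAt θ (g t) t)
    (hg : ∀ t, 0 < g t) (hturn : ∀ t, θ (t + T) = θ t + 2 * Real.pi) :
    ∃ τ : ℝ → ℝ, ContDiff ℝ ∞ τ ∧ (∀ t, τ (θ t) = t) ∧ (∀ φ, θ (τ φ) = φ) ∧
      ∀ φ, τ (φ + 2 * Real.pi) = τ φ + T := by
  have hmono : StrictMono θ := strictMono_of_hasDerivAt_pos hθd hg
  have hcont : Continuous θ := continuous_iff_continuousAt.2 fun t => (hθd t).continuousAt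
  have hpi := Real.pi_pos
  have hnat : ∀ n : ℕ, θ (n * T) = θ 0 + n * (2 * Real.pi) := by
    intro n
    induction n with
    | zero => simp
    | succ n ih =>
      push_cast
      rw [add_mul, one_mul, hturn, ih]
      ring
  have hneg : ∀ n : ℕ, θ (-(n * T)) = θ 0 - n * (2 * Real.pi) := by
    intro n
    induction n with
    | zero => simp
    | succ n ih =>
      have := hturn (-((n + 1 : ℕ) * T))
      rw [show -(((n + 1 : ℕ) : ℝ) * T) + T = -(n * T) by push_cast; ring, ih] at this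
      push_cast at this ⊢
      linarith
  have hsurj : Function.Surjective θ := by
    intro φ
    apply mem_range_of_exists_le_of_exists_ge hcont
    · obtain ⟨n, hn⟩ := exists_nat_ge ((θ 0 - φ) / (2 * Real.pi))
      refine ⟨-(n * T), ?_⟩
      rw [hneg]
      rw [div_le_iff₀ (by positivity)] at hn
      linarith
    · obtain ⟨n, hn⟩ := exists_nat_ge ((φ - θ 0) / (2 * Real.pi))
      refine ⟨n * T, ?_⟩
      rw [hnat]
      rw [div_le_iff₀ (by positivity)] at hn
      linarith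
  let e : ℝ ≃o ℝ := StrictMono.orderIsoOfSurjective θ hmono hsurj
  have he : ∀ t, e t = θ t := fun t => rfl
  refine ⟨e.symm, ?_, ?_, ?_, ?_⟩
  · exact Homeomorph.contDiff_symm_deriv e.toHomeomorph (f' := g) (fun t => (hg t).ne')
      (fun t => hθd t) hθs
  · intro t
    rw [← he t]
    exact e.symm_apply_apply t
  · intro φ
    rw [← he (e.symm φ)]
    exact e.apply_symm_apply φ
  · intro φ
    apply e.injective
    rw [e.apply_symm_apply, he, hturn, ← he (e.symm φ), e.apply_symm_apply]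

end AngleAux

open AngleAux

/-- the angle on an ellipse -/
theorem exists_angle (γ : ConvexCurve) {x₀ y₀ a b c : ℝ} (ha : 0 < a) (hb : b ^ 2 < a * c)
    (hγ : ∀ t, a * (γ.x t - x₀) ^ 2 + 2 * b * (γ.x t - x₀) * (γ.y t - y₀) +
      c * (γ.y t - y₀) ^ 2 = 1) :
    ∃ (α β δ : ℝ) (θ τ : ℝ → ℝ), 0 < α ∧ 0 < δ ∧
      (∀ x y : ℝ, (α * x + β * y) ^ 2 + (δ * y) ^ 2 = a * x ^ 2 + 2 * b * x * y + c * y ^ 2) ∧
      ContDiff ℝ ∞ θ ∧ ContDiff ℝ ∞ τ ∧ (∀ t, 0 < deriv θ t) ∧ (∀ t, τ (θ t) = t) ∧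
      (∀ φ, θ (τ φ) = φ) ∧ (∀ φ, τ (φ + 2 * Real.pi) = τ φ + γ.T) ∧
      (∀ t, α * (γ.x t - x₀) + β * (γ.y t - y₀) = Real.cos (θ t)) ∧
      ∀ t, δ * (γ.y t - y₀) = Real.sin (θ t) := by
  obtain ⟨α, hα⟩ : ∃ α, α = √a := ⟨_, rfl⟩
  have hα0 : 0 < α := by rw [hα]; exact Real.sqrt_pos.2 ha
  have hα2 : α ^ 2 = a := by rw [hα]; exact Real.sq_sqrt ha.le
  obtain ⟨β, hβ⟩ : ∃ β, β = b / α := ⟨_, rfl⟩
  have hαβ : α * β = b := by rw [hβ]; field_simp
  have hβ2 : β ^ 2 = b ^ 2 / a := by rw [hβ, div_pow, hα2]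
  have hpos : 0 < c - β ^ 2 := by
    rw [hβ2, sub_pos, div_lt_iff₀ ha]
    linarith
  obtain ⟨δ, hδ⟩ : ∃ δ, δ = √(c - β ^ 2) := ⟨_, rfl⟩
  have hδ0 : 0 < δ := by rw [hδ]; exact Real.sqrt_pos.2 hpos
  have hδ2 : δ ^ 2 = c - β ^ 2 := by rw [hδ]; exact Real.sq_sqrt hpos.le
  have hquad : ∀ x y : ℝ, (α * x + β * y) ^ 2 + (δ * y) ^ 2 =
      a * x ^ 2 + 2 * b * x * y + c * y ^ 2 := by
    intro x y
    linear_combination x ^ 2 * hα2 + 2 * x * y * hαβ + y ^ 2 * hδ2
  have hdx : ContDiff ℝ ∞ (deriv γ.x) := (contDiff_infty_iff_deriv.1 γ.smooth_x).2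
  have hdy : ContDiff ℝ ∞ (deriv γ.y) := (contDiff_infty_iff_deriv.1 γ.smooth_y).2
  set C : ℝ → ℝ := fun t => α * (γ.x t - x₀) + β * (γ.y t - y₀) with hC
  set S : ℝ → ℝ := fun t => δ * (γ.y t - y₀) with hS
  set C1 : ℝ → ℝ := fun t => α * deriv γ.x t + β * deriv γ.y t with hC1
  set S1 : ℝ → ℝ := fun t => δ * deriv γ.y t with hS1
  have hCd : ∀ t, HasDerivAt C (C1 t) t := fun t =>
    (((γ.hd_x t).sub_const x₀).const_mul α).add (((γ.hd_y t).sub_const y₀).const_mul β)
  have hSd : ∀ t, HasDerivAt S (S1 t) t := fun t => ((γ.hd_y t).sub_const y₀).const_mul δ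
  have hC1d : ∀ t, HasDerivAt C1 (α * deriv (deriv γ.x) t + β * deriv (deriv γ.y) t) t :=
    fun t => ((γ.hd_x' t).const_mul α).add ((γ.hd_y' t).const_mul β)
  have hS1d : ∀ t, HasDerivAt S1 (δ * deriv (deriv γ.y) t) t := fun t =>
    (γ.hd_y' t).const_mul δ
  have hC1s : ContDiff ℝ ∞ C1 := (contDiff_const.mul hdx).add (contDiff_const.mul hdy)
  have hS1s : ContDiff ℝ ∞ S1 := contDiff_const.mul hdy
  have hcirc : ∀ t, C t ^ 2 + S t ^ 2 = 1 := by
    intro t
    simp only [hC, hS]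
    rw [hquad, hγ]
  obtain ⟨θ, hθs, hθd, hθc, hθsin⟩ := lift hCd hSd hC1s hS1s hcirc
  have horth : ∀ t, C t * C1 t + S t * S1 t = 0 := by
    intro t
    have e1 : HasDerivAt (fun t => C t ^ 2 + S t ^ 2)
        (2 * C t ^ 1 * C1 t + 2 * S t ^ 1 * S1 t) t := by
      exact (((hCd t).pow 2).add ((hSd t).pow 2)).congr_deriv (by norm_num)
    have e2 : HasDerivAt (fun t => C t ^ 2 + S t ^ 2) 0 t := by
      rw [show (fun t => C t ^ 2 + S t ^ 2) = fun _ => (1:ℝ) from funext hcirc]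
      exact hasDerivAt_const t 1
    have := e1.unique e2
    nlinarith [this]
  have hgpos : ∀ t, 0 < C t * S1 t - S t * C1 t := by
    intro t
    have hd2 : C1 t ^ 2 + C t * (α * deriv (deriv γ.x) t + β * deriv (deriv γ.y) t) +
        (S1 t ^ 2 + S t * (δ * deriv (deriv γ.y) t)) = 0 := by
      have e1 : HasDerivAt (fun t => C t * C1 t + S t * S1 t)
          (C1 t * C1 t + C t * (α * deriv (deriv γ.x) t + β * deriv (deriv γ.y) t) +
            (S1 t * S1 t + S t * (δ * deriv (deriv γ.y) t))) t :=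
        ((hCd t).mul (hC1d t)).add ((hSd t).mul (hS1d t))
      have e2 : HasDerivAt (fun t => C t * C1 t + S t * S1 t) 0 t := by
        rw [show (fun t => C t * C1 t + S t * S1 t) = fun _ => (0:ℝ) from funext horth]
        exact hasDerivAt_const t 0
      have := e1.unique e2
      nlinarith [this]
    have hcurv := γ.curved t
    have h3 : C1 t * (δ * deriv (deriv γ.y) t) -
        S1 t * (α * deriv (deriv γ.x) t + β * deriv (deriv γ.y) t) =
        (C t * S1 t - S t * C1 t) ^ 3 := by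
      set C2 := α * deriv (deriv γ.x) t + β * deriv (deriv γ.y) t
      set S2 := δ * deriv (deriv γ.y) t
      set g := C t * S1 t - S t * C1 t with hg
      have i1 : C1 t = -(g * S t) := by
        rw [hg]
        linear_combination (-(C1 t)) * hcirc t + C t * horth t
      have i2 : S1 t = g * C t := by
        rw [hg]
        linear_combination (-(S1 t)) * hcirc t + S t * horth t
      have i3 : C t * C2 + S t * S2 = -g ^ 2 := by
        have : C1 t ^ 2 + S1 t ^ 2 = g ^ 2 := by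
          rw [i1, i2]
          linear_combination g ^ 2 * hcirc t
        linarith
      rw [i1, i2]
      linear_combination (-g) * i3
    have h4 : C1 t * (δ * deriv (deriv γ.y) t) -
        S1 t * (α * deriv (deriv γ.x) t + β * deriv (deriv γ.y) t) =
        α * δ * (deriv γ.x t * deriv (deriv γ.y) t - deriv γ.y t * deriv (deriv γ.x) t) := by
      simp only [hC1, hS1]
      ring
    have h5 : 0 < (C t * S1 t - S t * C1 t) ^ 3 := by
      rw [← h3, h4]
      positivity
    exact (Odd.pow_pos_iff (by decide)).1 h5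
  have hperx : ∀ t, deriv γ.x (t + γ.T) = deriv γ.x t := by
    intro t
    rw [← deriv_comp_add_const γ.x γ.T t]
    rw [show (fun x => γ.x (x + γ.T)) = γ.x from funext γ.per_x]
  have hpery : ∀ t, deriv γ.y (t + γ.T) = deriv γ.y t := by
    intro t
    rw [← deriv_comp_add_const γ.y γ.T t]
    rw [show (fun x => γ.y (x + γ.T)) = γ.y from funext γ.per_y]
  have hCper : ∀ t, C (t + γ.T) = C t := fun t => by simp only [hC, γ.per_x, γ.per_y]
  have hSper : ∀ t, S (t + γ.T) = S t := fun t => by simp only [hS, γ.per_y]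
  have hturn := turn (θ := θ) (g := fun t => C t * S1 t - S t * C1 t) γ.T_pos hθd hgpos
    (by
      intro t
      simp only [hCper, hSper, hC1, hS1, hperx, hpery])
    (by
      rw [← hθc, ← hθc]
      simpa using hCper 0)
    (by
      rw [← hθsin, ← hθsin]
      simpa using hSper 0)
    (by
      rintro s hs1 hs2 ⟨e1, e2⟩
      rw [← hθc, ← hθc] at e1
      rw [← hθsin, ← hθsin] at e2
      have hy : γ.y s = γ.y 0 := by
        have := mul_left_cancel₀ hδ0.ne' e2
        linarith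
      have hx : γ.x s = γ.x 0 := by
        simp only [hC, hy, add_left_inj] at e1
        have := mul_left_cancel₀ hα0.ne' e1
        linarith
      have := γ.convex 0 s hs1 (by linarith)
      rw [hx, hy, sub_self, sub_self, mul_zero, mul_zero, sub_self] at this
      exact lt_irrefl _ this)
  obtain ⟨τ, hτs, hτ1, hτ2, hτ3⟩ := inverse hθs hθd hgpos hturn
  refine ⟨α, β, δ, θ, τ, hα0, hδ0, hquad, hθs, hτs, fun t => ?_, hτ1, hτ2, hτ3, hθc, hθsin⟩
  rw [(hθd t).deriv]
  exact hgpos t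

end Pool.Agent.MP_ae5b4e_an_GEN
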