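import Mathlib
import Pool.Agent.Lib.MP_ae5b4e_an_hopf.Plane
import Pool.Agent.Lib.MP_ae5b4e_an.Geometry
import Pool.Agent.Lib.MP_ae5b4e_an_GEN.Angle
import Pool.Agent.Lib.MP_ae5b4e_an_GEN.AlgAngle
import Pool.Agent.Lib.MP_ae5b4e_an_GEN.Circle

/-!
The pencil theorem for ellipses: the transfer of the theorem for the circle.
-/

noncomputable section

namespace Pool.Agent.MP_ae5b4e_an_GEN

open Filter Topology Set
open scoped Polynomial ContDiff
open Polynomial (evalEval)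
open Pool.Agent.MP_ae5b4e_an_hopf

namespace EllipseTableAux

open Pool.Agent.MP_ae5b4e_an

/-- the derivatives of the normalised coordinates -/
lemma deriv_coords (γ : ConvexCurve) {x₀ y₀ α β δ : ℝ} {θ : ℝ → ℝ} (hθs : ContDiff ℝ ∞ θ)
    (hcx : ∀ t, α * (γ.x t - x₀) + β * (γ.y t - y₀) = Real.cos (θ t))
    (hsy : ∀ t, δ * (γ.y t - y₀) = Real.sin (θ t)) (t : ℝ) :
    α * deriv γ.x t + β * deriv γ.y t = -Real.sin (θ t) * deriv θ t ∧
      δ * deriv γ.y t = Real.cos (θ t) * deriv θ t := by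
  have hx : HasDerivAt γ.x (deriv γ.x t) t :=
    ((γ.smooth_x.differentiable (by simp)) t).hasDerivAt
  have hy : HasDerivAt γ.y (deriv γ.y t) t :=
    ((γ.smooth_y.differentiable (by simp)) t).hasDerivAt
  have hθ : HasDerivAt θ (deriv θ t) t := ((hθs.differentiable (by simp)) t).hasDerivAt
  constructor
  · have h1 : HasDerivAt (fun t => α * (γ.x t - x₀) + β * (γ.y t - y₀))
        (α * deriv γ.x t + β * deriv γ.y t) t :=
      ((hx.sub_const x₀).const_mul α).add ((hy.sub_const y₀).const_mul β)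
    have h2 : HasDerivAt (fun t => Real.cos (θ t)) (-Real.sin (θ t) * deriv θ t) t := hθ.cos
    rw [show (fun t => α * (γ.x t - x₀) + β * (γ.y t - y₀)) = fun t => Real.cos (θ t) from
      funext hcx] at h1
    exact h1.unique h2
  · have h1 : HasDerivAt (fun t => δ * (γ.y t - y₀)) (δ * deriv γ.y t) t :=
      (hy.sub_const y₀).const_mul δ
    have h2 : HasDerivAt (fun t => Real.sin (θ t)) (Real.cos (θ t) * deriv θ t) t := hθ.sin
    rw [show (fun t => δ * (γ.y t - y₀)) = fun t => Real.sin (θ t) from funext hsy] at h1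
    exact h1.unique h2

/-- Cauchy-Schwarz: the affine function is positive on the disc -/
lemma pos_of_disc {A B D X Y : ℝ} (hD : 0 < D) (hAB : A ^ 2 + B ^ 2 < D ^ 2)
    (h : X ^ 2 + Y ^ 2 ≤ 1) : 0 < A * X + B * Y + D := by
  have h1 : (A * X + B * Y) ^ 2 < D ^ 2 := by
    have h2 : 0 ≤ A ^ 2 + B ^ 2 := by positivity
    nlinarith [sq_nonneg (A * Y - B * X)]
  have h3 := (abs_lt_of_sq_lt_sq h1 hD.le)
  have h4 := (abs_lt.1 h3).1
  linarith

end EllipseTableAux

open EllipseTableAux Pool.Agent.MP_ae5b4e_an in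
/-- Foliations of class `C¹` near an ellipse with an algebraic field of projective involutions. -/
theorem ellipse_table (γ : ConvexCurve) {x₀ y₀ a b c : ℝ} (ha : 0 < a) (hb : b ^ 2 < a * c)
    (hγ : ∀ t, a * (γ.x t - x₀) ^ 2 + 2 * b * (γ.x t - x₀) * (γ.y t - y₀) +
      c * (γ.y t - y₀) ^ 2 = 1) (S : ℝ → ℝ → ℝ) (κ : ℝ → ℝ)
    (halg : ∃ G : ℝ[X][X], G ≠ 0 ∧
      ∀ t, deriv γ.x t ≠ 0 → evalEval (γ.x t) (κ t / deriv γ.x t) G = 0)
    (hsmooth : ContDiffOn ℝ 1 (fun q : ℝ × ℝ => S q.1 q.2) (Ioo 0 1 ×ˢ univ))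
    (hpos : ∀ r ∈ Ioo (0:ℝ) 1, ∀ t, 0 < S r t)
    (hper : ∀ r ∈ Ioo (0:ℝ) 1, ∀ t, S r (t + γ.T) = S r t)
    (hmono : ∀ r ∈ Ioo (0:ℝ) 1, ∀ t, 0 < deriv (fun s => S s t) r)
    (hlim : ∀ t, Tendsto (fun r => S r t) (𝓝[>] 0) (𝓝 0))
    (hproj : ∀ r ∈ Ioo (0:ℝ) 1, ∀ t s s' t₁ t₂, s ≠ s' →
      γ.x t + s * deriv γ.x t = γ.x t₁ + S r t₁ * deriv γ.x t₁ →
      γ.y t + s * deriv γ.y t = γ.y t₁ + S r t₁ * deriv γ.y t₁ →
      γ.x t + s' * deriv γ.x t = γ.x t₂ + S r t₂ * deriv γ.x t₂ →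
      γ.y t + s' * deriv γ.y t = γ.y t₂ + S r t₂ * deriv γ.y t₂ → s⁻¹ + s'⁻¹ = κ t) :
    ∃ a₁ b₁ d₁ a₂ b₂ d₂ : ℝ,
      (∀ x y : ℝ, a * (x - x₀) ^ 2 + 2 * b * (x - x₀) * (y - y₀) + c * (y - y₀) ^ 2 ≤ 1 →
        0 < a₁ * x + b₁ * y + d₁ ∧ 0 < a₂ * x + b₂ * y + d₂) ∧
      ∀ r ∈ Ioo (0:ℝ) 1, ∃ l : ℝ, 0 < l ∧
        (∀ x y : ℝ, (x, y) ≠ (0, 0) → (a₁ * x + b₁ * y) * (a₂ * x + b₂ * y) <
          l * (a * x ^ 2 + 2 * b * x * y + c * y ^ 2)) ∧
        ∀ x y : ℝ, ((a₁ * x + b₁ * y + d₁) * (a₂ * x + b₂ * y + d₂) =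
          l * (a * (x - x₀) ^ 2 + 2 * b * (x - x₀) * (y - y₀) + c * (y - y₀) ^ 2 - 1) ↔
          ∃ t, γ.x t + S r t * deriv γ.x t = x ∧ γ.y t + S r t * deriv γ.y t = y) := by
  obtain ⟨α, β, δ, θ, τ, hα, hδ, hQ, hθs, hτs, hθpos, hτθ, hθτ, hτper, hcx, hsy⟩ :=
    exists_angle γ ha hb hγ
  have hder := deriv_coords γ hθs hcx hsy
  -- the image of a point of a tangent line
  have himg1 : ∀ t s, α * (γ.x t + s * deriv γ.x t - x₀) + β * (γ.y t + s * deriv γ.y t - y₀) =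
      Real.cos (θ t) - (deriv θ t * s) * Real.sin (θ t) := by
    intro t s
    have h1 := (hder t).1
    have h2 := hcx t
    linear_combination s * h1 + h2
  have himg2 : ∀ t s, δ * (γ.y t + s * deriv γ.y t - y₀) =
      Real.sin (θ t) + (deriv θ t * s) * Real.cos (θ t) := by
    intro t s
    have h1 := (hder t).2
    have h2 := hsy t
    linear_combination s * h1 + h2
  have hinj : ∀ x y x' y' : ℝ, α * (x - x₀) + β * (y - y₀) = α * (x' - x₀) + β * (y' - y₀) →
      δ * (y - y₀) = δ * (y' - y₀) → x = x' ∧ y = y' := by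
    intro x y x' y' h1 h2
    have h3 : y - y₀ = y' - y₀ := mul_left_cancel₀ hδ.ne' h2
    have h4 : y = y' := by linarith
    subst h4
    have h5 : α * (x - x₀) = α * (x' - x₀) := by linarith
    have h6 : x - x₀ = x' - x₀ := mul_left_cancel₀ hα.ne' h5
    exact ⟨by linarith, rfl⟩
  -- the periodicity of the derivative of the angle
  have hθper : ∀ t, θ (t + γ.T) = θ t + 2 * Real.pi := by
    intro t
    have h1 := hτper (θ t)
    rw [hτθ] at h1
    rw [← h1, hθτ]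
  have hθ'per : ∀ t, deriv θ (t + γ.T) = deriv θ t := by
    intro t
    have h1 : deriv (fun t => θ (t + γ.T)) t = deriv θ (t + γ.T) := deriv_comp_add_const _ _ _
    rw [← h1, show (fun t => θ (t + γ.T)) = fun t => θ t + 2 * Real.pi from funext hθper,
      deriv_add_const]
  have hθ's : ContDiff ℝ ∞ (deriv θ) := (contDiff_infty_iff_deriv.1 hθs).2
  obtain ⟨G, hG, hrel⟩ := halg
  have hp : (1 / α : ℝ) ≠ 0 := one_div_ne_zero hα.ne'
  obtain ⟨G', hG', hrel'⟩ := alg_angle (x₀ := x₀) (q := -β / (α * δ)) hp hG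
  have hpt : ∀ φ, deriv θ (τ φ) ≠ 0 := fun φ => (hθpos (τ φ)).ne'
  obtain ⟨A₁, B₁, D₁, A₂, B₂, D₂, hD₁, hAB₁, hD₂, hAB₂, hleaf⟩ :=
    circle_table (fun r φ => deriv θ (τ φ) * S r (τ φ)) (fun φ => κ (τ φ) / deriv θ (τ φ))
      ⟨G', hG', by
        intro φ hφ
        refine hrel' φ _ hφ fun hne => ?_
        have h1 := hcx (τ φ)
        have h2 := hsy (τ φ)
        have h3 := (hder (τ φ)).1
        have h4 := (hder (τ φ)).2
        rw [hθτ] at h1 h2 h3 h4
        have hx : γ.x (τ φ) = x₀ + 1 / α * Real.cos φ + -β / (α * δ) * Real.sin φ := by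
          rw [← h1, ← h2]
          field_simp
          ring
        have hx' : deriv γ.x (τ φ) =
            deriv θ (τ φ) * (-(1 / α) * Real.sin φ + -β / (α * δ) * Real.cos φ) := by
          have h5 : deriv γ.y (τ φ) = Real.cos φ * deriv θ (τ φ) / δ := by
            rw [eq_div_iff hδ.ne']
            linarith
          have h6 : deriv γ.x (τ φ) = (-Real.sin φ * deriv θ (τ φ) - β * deriv γ.y (τ φ)) / α := by
            rw [eq_div_iff hα.ne']
            linarith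
          rw [h6, h5]
          field_simp
          ring
        have hne' : deriv γ.x (τ φ) ≠ 0 := by
          rw [hx']
          exact mul_ne_zero (hpt φ) hne
        have h7 := hrel (τ φ) hne'
        rw [hx', hx, ← div_div (κ (τ φ))] at h7
        exact h7⟩
      (by
        have h1 : ContDiff ℝ 1 (fun q : ℝ × ℝ => deriv θ (τ q.2)) :=
          ((hθ's.comp hτs).comp contDiff_snd).of_le (by exact_mod_cast le_top)
        have h2 : ContDiff ℝ 1 (fun q : ℝ × ℝ => (q.1, τ q.2)) :=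
          contDiff_fst.prodMk ((hτs.comp contDiff_snd).of_le (by exact_mod_cast le_top))
        have h3 : ContDiffOn ℝ 1 (fun q : ℝ × ℝ => S q.1 (τ q.2)) (Ioo 0 1 ×ˢ univ) :=
          hsmooth.comp h2.contDiffOn (fun q hq => ⟨hq.1, mem_univ _⟩)
        exact h1.contDiffOn.mul h3)
      (fun r hr φ => mul_pos (hθpos _) (hpos r hr _))
      (fun r hr φ => by
        show deriv θ (τ (φ + 2 * Real.pi)) * S r (τ (φ + 2 * Real.pi)) = _
        rw [hτper, hθ'per, hper r hr])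
      (fun r hr φ => by
        show 0 < deriv (fun t => deriv θ (τ φ) * S t (τ φ)) r
        rw [deriv_const_mul_field]
        exact mul_pos (hθpos _) (hmono r hr _))
      (fun φ => by
        have h1 := (hlim (τ φ)).const_mul (deriv θ (τ φ))
        rwa [mul_zero] at h1)
      (by
        rintro r hr φ s s' hs hs' ⟨φ₁, hφ₁⟩ ⟨φ₂, hφ₂⟩
        have key : ∀ (σ ψ : ℝ), tangentPoint ψ (deriv θ (τ ψ) * S r (τ ψ)) = tangentPoint φ σ →
            γ.x (τ φ) + σ / deriv θ (τ φ) * deriv γ.x (τ φ) =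
              γ.x (τ ψ) + S r (τ ψ) * deriv γ.x (τ ψ) ∧
            γ.y (τ φ) + σ / deriv θ (τ φ) * deriv γ.y (τ φ) =
              γ.y (τ ψ) + S r (τ ψ) * deriv γ.y (τ ψ) := by
          intro σ ψ hψ
          have e1 := congrArg Prod.fst hψ
          have e2 := congrArg Prod.snd hψ
          simp only [tangentPoint] at e1 e2
          have i1 := himg1 (τ φ) (σ / deriv θ (τ φ))
          have i2 := himg2 (τ φ) (σ / deriv θ (τ φ))
          have j1 := himg1 (τ ψ) (S r (τ ψ))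
          have j2 := himg2 (τ ψ) (S r (τ ψ))
          rw [hθτ, mul_div_cancel₀ _ (hpt φ)] at i1 i2
          rw [hθτ] at j1 j2
          refine hinj _ _ _ _ ?_ ?_
          · rw [i1, j1, e1]
          · rw [i2, j2, e2]
        obtain ⟨k1, k2⟩ := key s φ₁ hφ₁
        obtain ⟨k3, k4⟩ := key s' φ₂ hφ₂
        have hne : s / deriv θ (τ φ) ≠ s' / deriv θ (τ φ) := by
          intro h
          rw [div_left_inj' (hpt φ)] at h
          linarith
        have h1 := hproj r hr (τ φ) _ _ (τ φ₁) (τ φ₂) hne k1 k2 k3 k4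
        rw [inv_div, inv_div] at h1
        show s⁻¹ + s'⁻¹ = κ (τ φ) / deriv θ (τ φ)
        rw [← h1, add_div, div_div, div_div, mul_comm s, mul_comm s', ← div_div, ← div_div,
          div_self (hpt φ), one_div, one_div])
  refine ⟨A₁ * α, A₁ * β + B₁ * δ, D₁ - A₁ * α * x₀ - (A₁ * β + B₁ * δ) * y₀,
    A₂ * α, A₂ * β + B₂ * δ, D₂ - A₂ * α * x₀ - (A₂ * β + B₂ * δ) * y₀, ?_, ?_⟩
  · intro x y hxy
    rw [← hQ] at hxy
    have h1 := pos_of_disc hD₁ hAB₁ hxy
    have h2 := pos_of_disc hD₂ hAB₂ hxy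
    constructor
    · have e : A₁ * α * x + (A₁ * β + B₁ * δ) * y + (D₁ - A₁ * α * x₀ - (A₁ * β + B₁ * δ) * y₀) =
        A₁ * (α * (x - x₀) + β * (y - y₀)) + B₁ * (δ * (y - y₀)) + D₁ := by ring
      rw [e]
      exact h1
    · have e : A₂ * α * x + (A₂ * β + B₂ * δ) * y + (D₂ - A₂ * α * x₀ - (A₂ * β + B₂ * δ) * y₀) =
        A₂ * (α * (x - x₀) + β * (y - y₀)) + B₂ * (δ * (y - y₀)) + D₂ := by ring
      rw [e]
      exact h2
  · intro r hr
    obtain ⟨l, hl, hlt, hset⟩ := hleaf r hr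
    refine ⟨l, hl, ?_, ?_⟩
    · intro x y hxy
      rw [← hQ]
      have hne : (α * x + β * y, δ * y) ≠ ((0 : ℝ), (0 : ℝ)) := by
        intro h
        have h1 := congrArg Prod.fst h
        have h2 := congrArg Prod.snd h
        simp only at h1 h2
        have h3 : y = 0 := by
          rcases mul_eq_zero.1 h2 with h | h
          · exact absurd h hδ.ne'
          · exact h
        rw [h3, mul_zero, add_zero] at h1
        have h4 : x = 0 := by
          rcases mul_eq_zero.1 h1 with h | h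
          · exact absurd h hα.ne'
          · exact h
        exact hxy (by rw [h3, h4])
      have h1 := hlt _ _ hne
      have e1 : A₁ * α * x + (A₁ * β + B₁ * δ) * y = A₁ * (α * x + β * y) + B₁ * (δ * y) := by ring
      have e2 : A₂ * α * x + (A₂ * β + B₂ * δ) * y = A₂ * (α * x + β * y) + B₂ * (δ * y) := by ring
      rw [e1, e2]
      exact h1
    · intro x y
      have e1 : A₁ * α * x + (A₁ * β + B₁ * δ) * y + (D₁ - A₁ * α * x₀ - (A₁ * β + B₁ * δ) * y₀) =
        A₁ * (α * (x - x₀) + β * (y - y₀)) + B₁ * (δ * (y - y₀)) + D₁ := by ring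
      have e2 : A₂ * α * x + (A₂ * β + B₂ * δ) * y + (D₂ - A₂ * α * x₀ - (A₂ * β + B₂ * δ) * y₀) =
        A₂ * (α * (x - x₀) + β * (y - y₀)) + B₂ * (δ * (y - y₀)) + D₂ := by ring
      rw [e1, e2, ← hQ]
      have h1 : (α * (x - x₀) + β * (y - y₀), δ * (y - y₀)) ∈
          leaf (fun r φ => deriv θ (τ φ) * S r (τ φ)) r ↔
          (A₁ * (α * (x - x₀) + β * (y - y₀)) + B₁ * (δ * (y - y₀)) + D₁) *
            (A₂ * (α * (x - x₀) + β * (y - y₀)) + B₂ * (δ * (y - y₀)) + D₂) =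
          l * ((α * (x - x₀) + β * (y - y₀)) ^ 2 + (δ * (y - y₀)) ^ 2 - 1) := by
        rw [hset]
        rfl
      rw [← h1]
      constructor
      · rintro ⟨φ, hφ⟩
        have f1 := congrArg Prod.fst hφ
        have f2 := congrArg Prod.snd hφ
        simp only [tangentPoint] at f1 f2
        have j1 := himg1 (τ φ) (S r (τ φ))
        have j2 := himg2 (τ φ) (S r (τ φ))
        rw [hθτ] at j1 j2
        exact ⟨τ φ, hinj _ _ _ _ (by rw [j1, f1]) (by rw [j2, f2])⟩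
      · rintro ⟨t, ht1, ht2⟩
        refine ⟨θ t, ?_⟩
        have j1 := himg1 t (S r t)
        have j2 := himg2 t (S r t)
        rw [ht1, ht2] at j1
        rw [ht2] at j2
        show tangentPoint (θ t) (deriv θ (τ (θ t)) * S r (τ (θ t))) = _
        rw [hτθ, tangentPoint]
        exact Prod.ext j1.symm j2.symm

end Pool.Agent.MP_ae5b4e_an_GEN
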