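import Mathlib
import Pool.Agent.Lib.MP_ae5b4e_an_GEN.Defs
import Pool.Agent.Lib.MP_ae5b4e_an_hopf.Plane
import Pool.Agent.Lib.MP_ae5b4e_an_GEN.Poly3
import Pool.Agent.Lib.MP_ae5b4e_an_GEN.Local
import Pool.Agent.Lib.MP_ae5b4e_an_GEN.Core
import Pool.Agent.Lib.MP_ae5b4e_an_GEN.Complexify

/-!
# MP_ae5b4e_an, project GEN: tables on nonsingular curves

A table on a nonsingular algebraic curve with ordinary flexes, with an algebraic field of projective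
involutions, lies on a conic.
-/

noncomputable section

namespace Pool.Agent.MP_ae5b4e_an_GEN

open Filter Topology Set Metric
open scoped Polynomial
open Polynomial (evalEval)
open Pool.Agent.MP_ae5b4e_an_ND (cc cf co Dx Dy Filt Reg rts)
open Pool.Agent.MP_ae5b4e_an_FLEX
open Pool.Agent.MP_ae5b4e_an_ALG (Dh)

/-! ### nonsingular tables -/

open Pool.Agent.MP_ae5b4e_an_hopf

namespace Fin1

theorem coe_vec (x y : ℝ) : (fun i => ((![x, y, 1] i : ℝ) : ℂ)) = ![(x:ℂ), (y:ℂ), 1] := by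
  funext i
  fin_cases i <;> simp

theorem eval_map_real (P : MvPolynomial (Fin 3) ℝ) (x y : ℝ) :
    MvPolynomial.eval ![(x:ℂ), (y:ℂ), 1] (P.map (algebraMap ℝ ℂ)) =
      ((MvPolynomial.eval ![x, y, 1] P : ℝ) : ℂ) := by
  rw [← coe_vec, MvPolynomial.eval_map]
  have h := MvPolynomial.eval₂_comp_left (algebraMap ℝ ℂ) (RingHom.id ℝ) ![x, y, 1] P
  rw [RingHom.comp_id] at h
  exact h.symm

/-- constants -/
theorem eq_const {Q : MvPolynomial (Fin 3) ℂ} (hQ : Q.IsHomogeneous 0) (v v' : Fin 3 → ℂ) :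
    MvPolynomial.eval v Q = MvPolynomial.eval v' Q := by
  have h : Q.totalDegree = 0 := Nat.le_zero.1 hQ.totalDegree_le
  rw [MvPolynomial.totalDegree_eq_zero_iff_eq_C.1 h]
  simp

/-- the degree is at least two -/
theorem two_le (γ : ConvexCurve) {P : MvPolynomial (Fin 3) ℂ} {n : ℕ} (hP : SmoothCurve P n)
    (h : ∀ t : ℝ, MvPolynomial.eval ![(γ.x t : ℂ), (γ.y t : ℂ), 1] P = 0) : 2 ≤ n := by
  by_contra hn
  push Not at hn
  have hhom : ∀ i, (MvPolynomial.pderiv i P).IsHomogeneous 0 := by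
    intro i
    have h1 := hP.hom.pderiv (i := i)
    have h2 : n - 1 = 0 := by omega
    rwa [h2] at h1
  set a : Fin 3 → ℂ := fun i => MvPolynomial.eval 0 (MvPolynomial.pderiv i P) with ha
  have hev : ∀ v i, MvPolynomial.eval v (MvPolynomial.pderiv i P) = a i :=
    fun v i => eq_const (hhom i) v 0
  -- the derivatives
  have hv : ∀ t : ℝ, HasDerivAt (fun t : ℝ => a 0 * (γ.x t : ℂ) + a 1 * (γ.y t : ℂ))
      (a 0 * ((deriv γ.x t : ℝ) : ℂ) + a 1 * ((deriv γ.y t : ℝ) : ℂ)) t := fun t =>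
    ((γ.hd_x t).ofReal_comp.const_mul (a 0)).add ((γ.hd_y t).ofReal_comp.const_mul (a 1))
  have hv' : ∀ t : ℝ, HasDerivAt (fun t : ℝ => a 0 * ((deriv γ.x t : ℝ) : ℂ) + a 1 * ((deriv γ.y t : ℝ) : ℂ))
      (a 0 * ((deriv (deriv γ.x) t : ℝ) : ℂ) + a 1 * ((deriv (deriv γ.y) t : ℝ) : ℂ)) t := fun t =>
    ((γ.hd_x' t).ofReal_comp.const_mul (a 0)).add ((γ.hd_y' t).ofReal_comp.const_mul (a 1))
  have hlin : ∀ t : ℝ, a 0 * (γ.x t : ℂ) + a 1 * (γ.y t : ℂ) = -a 2 := by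
    intro t
    have h1 := euler3 hP.hom ![(γ.x t : ℂ), (γ.y t : ℂ), 1]
    rw [h t, mul_zero, Fin.sum_univ_three] at h1
    have e0 : (![(γ.x t : ℂ), (γ.y t : ℂ), 1] : Fin 3 → ℂ) 0 = γ.x t := rfl
    have e1 : (![(γ.x t : ℂ), (γ.y t : ℂ), 1] : Fin 3 → ℂ) 1 = γ.y t := rfl
    have e2 : (![(γ.x t : ℂ), (γ.y t : ℂ), 1] : Fin 3 → ℂ) 2 = 1 := rfl
    rw [hev, hev, hev, e0, e1, e2] at h1
    linear_combination h1
  have hd1 : ∀ t : ℝ, a 0 * ((deriv γ.x t : ℝ) : ℂ) + a 1 * ((deriv γ.y t : ℝ) : ℂ) = 0 := by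
    intro t
    have h1 : HasDerivAt (fun t : ℝ => a 0 * (γ.x t : ℂ) + a 1 * (γ.y t : ℂ)) 0 t := by
      have h2 : (fun t : ℝ => a 0 * (γ.x t : ℂ) + a 1 * (γ.y t : ℂ)) = fun _ => -a 2 := funext hlin
      rw [h2]
      exact hasDerivAt_const _ _
    exact (hv t).unique h1
  have hd2 : a 0 * ((deriv (deriv γ.x) 0 : ℝ) : ℂ) + a 1 * ((deriv (deriv γ.y) 0 : ℝ) : ℂ) = 0 := by
    have h1 : HasDerivAt (fun t : ℝ => a 0 * ((deriv γ.x t : ℝ) : ℂ) + a 1 * ((deriv γ.y t : ℝ) : ℂ)) 0 0 := by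
      have h2 : (fun t : ℝ => a 0 * ((deriv γ.x t : ℝ) : ℂ) + a 1 * ((deriv γ.y t : ℝ) : ℂ)) = fun _ => 0 :=
        funext hd1
      rw [h2]
      exact hasDerivAt_const _ _
    exact (hv' 0).unique h1
  have hW : (((deriv γ.x 0 : ℝ) : ℂ) * ((deriv (deriv γ.y) 0 : ℝ) : ℂ) -
      ((deriv γ.y 0 : ℝ) : ℂ) * ((deriv (deriv γ.x) 0 : ℝ) : ℂ)) ≠ 0 := by
    have h1 := (γ.curved 0).ne'
    exact_mod_cast h1
  have h0 : a 0 = 0 := by
    have h1 := hd1 0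
    have h2 : a 0 * (((deriv γ.x 0 : ℝ) : ℂ) * ((deriv (deriv γ.y) 0 : ℝ) : ℂ) -
      ((deriv γ.y 0 : ℝ) : ℂ) * ((deriv (deriv γ.x) 0 : ℝ) : ℂ)) = 0 := by
      linear_combination ((deriv (deriv γ.y) 0 : ℝ) : ℂ) * h1 - ((deriv γ.y 0 : ℝ) : ℂ) * hd2
    exact (mul_eq_zero.1 h2).resolve_right hW
  have h1 : a 1 = 0 := by
    have h1 := hd1 0
    have h2 : a 1 * (((deriv γ.x 0 : ℝ) : ℂ) * ((deriv (deriv γ.y) 0 : ℝ) : ℂ) -
      ((deriv γ.y 0 : ℝ) : ℂ) * ((deriv (deriv γ.x) 0 : ℝ) : ℂ)) = 0 := by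
      linear_combination -((deriv (deriv γ.x) 0 : ℝ) : ℂ) * h1 + ((deriv γ.x 0 : ℝ) : ℂ) * hd2
    exact (mul_eq_zero.1 h2).resolve_right hW
  have h2 : a 2 = 0 := by
    have := hlin 0
    rw [h0, h1] at this
    linear_combination this
  obtain ⟨i, hi⟩ := hP.ns ![(γ.x 0 : ℂ), (γ.y 0 : ℂ), 1] (by
    intro h3
    have := congrFun h3 2
    simp at this) (h 0)
  rw [hev] at hi
  fin_cases i
  · exact hi h0
  · exact hi h1
  · exact hi h2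

end Fin1

open Fin1 in
/-- **Nonsingular tables are conics.** -/
theorem nonsingular_table (γ : ConvexCurve) (hx : ∀ t, AnalyticAt ℝ γ.x t)
    (hy : ∀ t, AnalyticAt ℝ γ.y t) {P : MvPolynomial (Fin 3) ℝ} {n : ℕ}
    (hP : SmoothCurve (P.map (algebraMap ℝ ℂ)) n) (hfl : OrdFlex (P.map (algebraMap ℝ ℂ)))
    (hPγ : ∀ t, MvPolynomial.eval ![γ.x t, γ.y t, 1] P = 0)
    (U : ℝ → ℝ → ℝ) (κ : ℝ → ℝ) (t₀ : ℝ) (hκ : Continuous κ)
    (halg : ∃ G : ℝ[X][X], G ≠ 0 ∧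
      ∀ t, deriv γ.x t ≠ 0 → evalEval (γ.x t) (κ t / deriv γ.x t) G = 0)
    (hsmooth : ContDiffOn ℝ 1 (fun q : ℝ × ℝ => U q.1 q.2) (Ioo 0 1 ×ˢ univ))
    (_hper : ∀ c ∈ Ioo (0:ℝ) 1, ∀ t, U c (t + γ.T) = U c t)
    (hsimple : ∀ c ∈ Ioo (0:ℝ) 1, ∀ t t', γ.pt t (U c t) = γ.pt t' (U c t') →
      ∃ n : ℤ, t' = t + n * γ.T)
    (hmono : ∀ c ∈ Ioo (0:ℝ) 1, ∀ t, deriv (fun r => U r t) c < 0)
    (hlim : ∀ t, Tendsto (fun c => U c t) (𝓝[>] 0) atTop)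
    (hproj : ∀ c ∈ Ioo (0:ℝ) 1, ∀ t u v, u ≠ v → γ.pt t u ∈ γ.leaf U c →
      γ.pt t v ∈ γ.leaf U c → u + v = κ t)
    (hana : ∃ (F : ℝ × ℝ → ℝ) (f : ℝ → ℝ), AnalyticAt ℝ F (γ.x t₀, γ.y t₀) ∧
      fderiv ℝ F (γ.x t₀, γ.y t₀) ≠ 0 ∧ ∀ᶠ q in 𝓝 ((0, t₀) : ℝ × ℝ), 0 < q.1 →
        F (γ.x q.2 + deriv γ.x q.2 / U q.1 q.2, γ.y q.2 + deriv γ.y q.2 / U q.1 q.2) = f q.1) :
    n = 2 := by
  obtain ⟨G, hG, hrel⟩ := halg
  have hcont := hsmooth.continuousOn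
  have hmono' : ∀ c ∈ Ioo (0:ℝ) 1, ∀ c' ∈ Ioo (0:ℝ) 1, c < c' → ∀ t, U c' t < U c t := by
    intro c hc c' hc' hcc t
    have h1 : ContinuousOn (fun r => U r t) (Ioo 0 1) :=
      hcont.comp (f := fun r : ℝ => ((r, t) : ℝ × ℝ)) (by fun_prop) (fun r hr => ⟨hr, mem_univ t⟩)
    have h2 : StrictAntiOn (fun r => U r t) (Ioo 0 1) := by
      apply strictAntiOn_of_deriv_neg (convex_Ioo 0 1) h1
      intro r hr
      rw [interior_Ioo] at hr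
      exact hmono r hr t
    exact h2 hc hc' hcc
  have h2 : 2 ≤ n := two_le γ hP fun t => by rw [eval_map_real, hPγ t, Complex.ofReal_zero]
  by_contra hne
  have h3 : 3 ≤ n := by omega
  obtain ⟨e, y, k, hg, hPe, hGe⟩ := complex_point γ hx hy hPγ U κ t₀ hκ hG hrel hcont hsimple hmono'
    hlim hproj hana
  have hinj : Function.Injective (Polynomial.mapRingHom (algebraMap ℝ ℂ)) :=
    Polynomial.map_injective _ (algebraMap ℝ ℂ).injective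
  refine core hP h3 (fun f hf1 _ hf3 => ?_) (Q := G.map (Polynomial.mapRingHom (algebraMap ℝ ℂ)))
    ((Polynomial.map_ne_zero_iff hinj).2 hG) hg hPe hGe
  obtain rfl : f = 1 := le_antisymm (hf3 hfl) hf1
  exact ⟨1 / 2, by norm_num, lb_flex⟩


end Pool.Agent.MP_ae5b4e_an_GEN
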